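import Pool.Agent.P.MP_8b7eba_nt.ModTab

/-! Atkin-Lehner involutions. -/

open Complex

namespace Pool.Agent.P.MP_8b7eba_nt.Mod

open M2

/-- Atkin-Lehner matrices of determinant `e`. -/
def AL (e : ℤ) (w : M2) : Prop := w.det = e ∧ (15 : ℤ) ∣ w.c ∧ e ∣ w.a ∧ e ∣ w.d

instance (e : ℤ) (w : M2) : Decidable (AL e w) := inferInstanceAs (Decidable (_ ∧ _))

lemma AL.exists_G0 {e : ℤ} (he : e ∣ 15) (h0 : e ≠ 0) {w w' : M2} (h : AL e w) (h' : AL e w') :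
    ∃ γ, G0 γ ∧ w = γ * w' := by
  obtain ⟨k, hk⟩ := he
  obtain ⟨h1, ⟨c, hc⟩, ⟨a, ha⟩, ⟨d, hd⟩⟩ := h
  obtain ⟨h1', ⟨c', hc'⟩, ⟨a', ha'⟩, ⟨d', hd'⟩⟩ := h'
  have h2 : e * a' * d' - k * w'.b * c' = 1 := by
    apply mul_left_cancel₀ h0
    simp only [det, ha', hc', hd'] at h1'
    linear_combination h1' + w'.b * c' * hk
  have e1 : w = ⟨e * a * d' - k * w.b * c', w.b * a' - a * w'.b, 15 * (c * d' - d * c'),
      e * d * a' - k * c * w'.b⟩ * w' := by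
    ext <;> simp only [mul_a, mul_b, mul_c, mul_d, ha, hc, hd, ha', hc', hd']
    · linear_combination -e * a * h2 - (w.b * a' - a * w'.b) * c' * hk
    · linear_combination -w.b * h2
    · linear_combination -15 * c * h2
    · linear_combination -e * d * h2 - (c * d' - d * c') * w'.b * hk
  refine ⟨_, ⟨?_, dvd_mul_right _ _⟩, e1⟩
  have := congrArg det e1
  rw [det_mul, h1, h1'] at this
  exact mul_right_cancel₀ h0 (this.symm.trans (one_mul e).symm)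

lemma AL.mul_G0 {e : ℤ} (he : e ∣ 15) {w γ : M2} (h : AL e w) (hγ : G0 γ) : AL e (w * γ) :=
  ⟨by rw [det_mul, h.1, hγ.1, mul_one], dvd_add (h.2.1.mul_right _) (hγ.2.mul_left _),
    dvd_add (h.2.2.1.mul_right _) ((he.trans hγ.2).mul_left _),
    dvd_add ((he.trans h.2.1).mul_right _) (h.2.2.2.mul_right _)⟩

lemma AL.isCF {e : ℤ} (he : e ∣ 15) (h0 : 0 < e) {w : M2} (h : AL e w) : IsCF (sl ff w) := by
  have hw : 0 < w.det := h.1 ▸ h0
  refine ⟨diff_sl diff_ff hw, fun γ hγ => inv_of_sl hγ.1 fun z hz => ?_, ?_⟩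
  · obtain ⟨γ', h1, h2⟩ := (h.mul_G0 he hγ).exists_G0 he h0.ne' h
    rw [← sl_mul _ hw hγ.det_pos hz, h2, sl_mul _ h1.det_pos hw hz]
    exact sl_congr (fun z hz => (ff_inv _ h1).sl_eq h1.1 hz) hw hz
  · obtain ⟨C, hC⟩ := isCF_ff.bdd
    exact ⟨C, fun z hz => norm_sl _ hw z ▸ hC _ (im_act_pos hw hz)⟩

lemma AL.sign {e : ℤ} (he : e ∣ 15) (h0 : 0 < e) {w w' : M2} (h : AL e w) (h' : AL e w') {s : ℤ}
    (hs : nP w'.b w'.d = s + nP w'.a w'.c ∧ nM w'.b w'.d = nM w'.a w'.c) {z : ℂ} (hz : 0 < z.im) :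
    sl ff w z = s * ff z := by
  have hw : 0 < w'.det := h'.1 ▸ h0
  obtain ⟨c, hc⟩ := (h'.isCF he h0).eq_mul
  have h1 := lv_act hw hc (a := 0) (c := 1) (by simp)
  have h2 : lv 0 1 = L0 := by simp [lv, lam_zero]
  simp only [mul_zero, zero_add, mul_one, h2] at h1
  rw [lv_eq, lv_eq, hs.1, hs.2] at h1
  have h3 : (L0 : ℂ) ≠ 0 := by exact_mod_cast L0_ne
  have : c = s := by
    apply mul_right_cancel₀ h3
    push_cast at h1
    linear_combination -h1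
  obtain ⟨γ, h4, rfl⟩ := h.exists_G0 he h0.ne' h'
  rw [sl_mul _ h4.det_pos hw hz, sl_congr (fun z hz => (ff_inv _ h4).sl_eq h4.1 hz) hw hz, hc z hz,
    this]

theorem sl_AL3 {w : M2} (h : AL 3 w) {z : ℂ} (hz : 0 < z.im) : sl ff w z = 1 * ff z := by
  simpa using h.sign (w' := ⟨3, 1, 15, 6⟩) (s := 1) (by norm_num) (by norm_num) (by decide)
    (by decide +kernel) hz

theorem sl_AL5 {w : M2} (h : AL 5 w) {z : ℂ} (hz : 0 < z.im) : sl ff w z = -1 * ff z := by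
  simpa using h.sign (w' := ⟨10, 3, 15, 5⟩) (s := -1) (by norm_num) (by norm_num) (by decide)
    (by decide +kernel) hz

theorem sl_AL15 {w : M2} (h : AL 15 w) {z : ℂ} (hz : 0 < z.im) : sl ff w z = -1 * ff z := by
  simpa using h.sign (w' := ⟨0, -1, 15, 0⟩) (s := -1) (by norm_num) (by norm_num) (by decide)
    (by decide +kernel) hz

theorem lv_AL3 {w : M2} (h : AL 3 w) {a c : ℤ} (hac : a ≠ 0 ∨ c ≠ 0) :
    lv (w.a * a + w.b * c) (w.c * a + w.d * c) = lv a c + lv w.a w.c := by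
  simpa using lv_act (h.1 ▸ by norm_num) (fun z hz => sl_AL3 h hz) hac

theorem lv_AL5 {w : M2} (h : AL 5 w) {a c : ℤ} (hac : a ≠ 0 ∨ c ≠ 0) :
    lv (w.a * a + w.b * c) (w.c * a + w.d * c) = -lv a c + lv w.a w.c := by
  simpa using lv_act (h.1 ▸ by norm_num) (fun z hz => sl_AL5 h hz) hac

theorem lv_AL15 {w : M2} (h : AL 15 w) {a c : ℤ} (hac : a ≠ 0 ∨ c ≠ 0) :
    lv (w.a * a + w.b * c) (w.c * a + w.d * c) = -lv a c + lv w.a w.c := by
  simpa using lv_act (h.1 ▸ by norm_num) (fun z hz => sl_AL15 h hz) hac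

end Pool.Agent.P.MP_8b7eba_nt.Mod
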