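import Pool.Agent.P.MP_8b7eba_nt.ModL
import Pool.Agent.P.MP_8b7eba_nt.BSD15.Jac

/-! The L-function of the quadratic twists in short Weierstrass form. -/

open Complex Filter Topology Finset
open scoped Real

namespace Pool.Agent.P.MP_8b7eba_nt.Mod

lemma card_affine {p : ℕ} [Fact p.Prime] (hp : p ≠ 2) (g : ZMod p → ZMod p) :
    (Nat.card {q : ZMod p × ZMod p // q.2 ^ 2 = g q.1} : ℤ) =
      p + ∑ x, quadraticChar (ZMod p) (g x) := by
  have h2 : ringChar (ZMod p) ≠ 2 := by rwa [ZMod.ringChar_zmod_n]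
  rw [Nat.card_congr (Equiv.subtypeProdEquivSigmaSubtype fun x y : ZMod p => y ^ 2 = g x),
    Nat.card_sigma]
  push_cast
  have : ∀ x, (Nat.card {y : ZMod p // y ^ 2 = g x} : ℤ) = quadraticChar (ZMod p) (g x) + 1 := by
    intro x
    rw [← quadraticChar_card_sqrts h2, Nat.card_eq_fintype_card, Set.toFinset_card]
    rfl
  simp only [this, sum_add_distrib]
  simp [add_comm]

lemma jac_recip {D : ℤ} (h4 : D % 4 = 1) {p : ℕ} (hp : Odd p) :
    jacobiSym D p = jacobiSym p D.natAbs := by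
  rcases Int.natAbs_eq D with h | h
  · rw [h, Int.natAbs_natCast]
    exact jacobiSym.quadratic_reciprocity_one_mod_four (by omega) hp
  · have h3 : D.natAbs % 4 = 3 := by omega
    nth_rw 1 [h]
    rw [jacobiSym.neg _ hp]
    rcases Nat.odd_mod_four_iff.1 (Nat.odd_iff.1 hp) with h1 | h1
    · rw [ZMod.χ₄_nat_one_mod_four h1, one_mul]
      exact jacobiSym.quadratic_reciprocity_one_mod_four' (Nat.odd_iff.2 (by omega)) h1
    · rw [ZMod.χ₄_nat_three_mod_four h1, jacobiSym.quadratic_reciprocity_three_mod_four h3 h1]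
      ring

/-- The trace of Frobenius on the twist by `D`. -/
theorem ap_twist {D : ℤ} (h4 : D % 4 = 1) {p : ℕ} (hp : p.Prime) (h5 : 5 < p) (hD : ¬ (p : ℤ) ∣ D) :
    (p : ℤ) - (Nat.card {q : ZMod p × ZMod p // q.2 ^ 2 = q.1 ^ 3 +
      ((-12987 * D ^ 2 : ℤ) : ZMod p) * q.1 + ((-263466 * D ^ 3 : ℤ) : ZMod p)} : ℤ) =
      jacobiSym p D.natAbs * an p := by
  have := Fact.mk hp
  have hD' : (D : ZMod p) ≠ 0 := by rwa [Ne, ZMod.intCast_zmod_eq_zero_iff_dvd]
  have h36 : (36 : ZMod p) ≠ 0 := by simpa using cast_ne h5 (a := 2) (b := 2) (c := 0)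
  have h108 : (108 : ZMod p) ≠ 0 := by simpa using cast_ne h5 (a := 2) (b := 3) (c := 0)
  rw [card_affine (by omega) fun x => x ^ 3 + ((-12987 * D ^ 2 : ℤ) : ZMod p) * x +
    ((-263466 * D ^ 3 : ℤ) : ZMod p), an_eq_neg_Sp h5,
    ← jac_recip h4 (hp.odd_of_ne_two (by omega)), ← jacobiSym.legendreSym.to_jacobiSym,
    legendreSym, Sp, ← Equiv.sum_comp ((Equiv.mulLeft₀ _ (mul_ne_zero h36 hD')).trans
      (Equiv.subRight (21 * D))), mul_neg, mul_sum, sub_add_cancel_left, neg_inj]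
  refine sum_congr rfl fun t _ => ?_
  rw [← map_mul, ← one_mul (quadraticChar (ZMod p) ((D : ZMod p) * _)),
    ← quadraticChar_sq_one' (mul_ne_zero h108 hD'), ← map_mul]
  congr 1
  simp
  ring

lemma prime_dvd_disc {D : ℤ} {p : ℕ} (hp : p.Prime) :
    (p : ℤ) ∣ 2 * (4 * (-12987 * D ^ 2) ^ 3 + 27 * (-263466 * D ^ 3) ^ 2) ↔
      p = 2 ∨ p = 3 ∨ p = 5 ∨ (p : ℤ) ∣ D := by
  have hp' := Nat.prime_iff_prime_int.1 hp
  rw [show 2 * (4 * (-12987 * D ^ 2) ^ 3 + 27 * (-263466 * D ^ 3) ^ 2) =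
    -((2 : ℕ) ^ 9 * ((3 : ℕ) ^ 16 * ((5 : ℕ) ^ 4 * D ^ 6))) by ring, dvd_neg]
  simp only [hp'.dvd_mul, hp'.dvd_pow_iff_dvd (by norm_num : 9 ≠ 0),
    hp'.dvd_pow_iff_dvd (by norm_num : 16 ≠ 0), hp'.dvd_pow_iff_dvd (by norm_num : 4 ≠ 0),
    hp'.dvd_pow_iff_dvd (by norm_num : 6 ≠ 0), Int.natCast_dvd_natCast,
    Nat.prime_dvd_prime_iff_eq hp Nat.prime_two, Nat.prime_dvd_prime_iff_eq hp Nat.prime_three,
    Nat.prime_dvd_prime_iff_eq hp Nat.prime_five]

/-- The quadratic character attached to an odd number `m`. -/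
noncomputable def chi (m n : ℕ) : ℂ := jacobiSym n m

lemma norm_chi (m n : ℕ) : ‖chi m n‖ ≤ 1 := by
  rcases jacobiSym.trichotomy n m with h | h | h <;> simp [chi, h]

lemma euler_chi (m : ℕ) {s : ℂ} (hs : 3 / 2 < s.re) : (∀ p : ℕ, p.Prime → eul (chi m) p s ≠ 0) ∧
    HasProd (fun p : Nat.Primes => (eul (chi m) p s)⁻¹) (LSeries (fun n => chi m n * an n) s) :=
  euler (by simp [chi]) (fun a b _ _ => by simp [chi, jacobiSym.mul_left]) (norm_chi m) hs

theorem exists_L_chi {m : ℕ} (h : BSD15.Adm m) : ∃ τ : ℂ, τ ≠ 0 ∧ ∃ L : ℂ → ℂ, Differentiable ℂ L ∧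
    (∀ s : ℂ, 3 / 2 < s.re → L s = LSeries (fun n => chi m n * an n) s) ∧
    τ * L 1 = ∑ a ∈ range m, chi m a * lam (a / m) := by
  have hodd : Odd m := (Nat.coprime_two_right).1 (h.2.coprime_dvd_right (by norm_num))
  rcases (Nat.succ_le_of_lt hodd.pos).eq_or_lt with h1 | h1
  · subst h1
    exact ⟨1, one_ne_zero, exists_L one_ne_zero (norm_chi _) fun n => by simp [chi]⟩
  · obtain ⟨τ, hτ, hG⟩ := BSD15.exists_gauss h1 hodd h.1
    exact ⟨τ, hτ, exists_L hτ (norm_chi _) hG⟩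

/-- The Euler factors at 2, 3 and 5. -/
noncomputable def bad (m : ℕ) (s : ℂ) : ℂ := eul (chi m) 2 s * eul (chi m) 3 s * eul (chi m) 5 s

lemma diff_bad (m : ℕ) : Differentiable ℂ (bad m) := by
  have : ∀ p : ℕ, p ≠ 0 → Differentiable ℂ (eul (chi m) p) := fun p hp => by
    have hp0 : (p : ℂ) ≠ 0 := by exact_mod_cast hp
    refine ((differentiable_neg.const_cpow (.inl hp0)).const_mul _ |>.const_sub 1).add ?_
    split_ifs
    · exact differentiable_const _
    · exact (Differentiable.const_cpow (by fun_prop) (.inl hp0)).const_mul _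
  exact ((this 2 (by norm_num)).mul (this 3 (by norm_num))).mul (this 5 (by norm_num))

lemma bad_one_ne (m : ℕ) : bad m 1 ≠ 0 := by
  obtain ⟨-, -, h2, h3, -, h5⟩ := an_small
  have e : (1 - 2 * 1 : ℂ) = -1 := by ring
  refine mul_ne_zero (mul_ne_zero ?_ ?_) ?_
  · rcases jacobiSym.trichotomy (2 : ℕ) m with h | h | h <;>
      simp only [eul, chi, h, h2, e, cpow_neg_one] <;> norm_num
  · rcases jacobiSym.trichotomy (3 : ℕ) m with h | h | h <;>
      simp only [eul, chi, h, h3, e, cpow_neg_one] <;> norm_num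
  · rcases jacobiSym.trichotomy (5 : ℕ) m with h | h | h <;>
      simp only [eul, chi, h, h5, e, cpow_neg_one] <;> norm_num

theorem isL_twist {D : ℤ} (h4 : D % 4 = 1) {L : ℂ → ℂ} (hL : Differentiable ℂ L)
    (hL' : ∀ s : ℂ, 3 / 2 < s.re → L s = LSeries (fun n => chi D.natAbs n * an n) s) :
    BSD15.IsL (-12987 * D ^ 2) (-263466 * D ^ 3) fun s => L s * bad D.natAbs s := by
  refine ⟨hL.mul (diff_bad _), fun s hs => ?_⟩
  obtain ⟨h1, h2⟩ := euler_chi D.natAbs hs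
  set T : Finset Nat.Primes := {⟨2, Nat.prime_two⟩, ⟨3, Nat.prime_three⟩, ⟨5, Nat.prime_five⟩}
    with hT
  have hmem : ∀ p : Nat.Primes, p ∈ T ↔ p.1 = 2 ∨ p.1 = 3 ∨ p.1 = 5 := fun p => by
    simp only [hT, mem_insert, mem_singleton]
    exact or_congr Subtype.ext_iff (or_congr Subtype.ext_iff Subtype.ext_iff)
  have h3 : HasProd (fun p : Nat.Primes => if p ∈ T then eul (chi D.natAbs) p s else 1)
      (bad D.natAbs s) := by
    have := hasProd_prod_of_ne_finset_one (s := T) (L := .unconditional _)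
      (f := fun p : Nat.Primes => if p ∈ T then eul (chi D.natAbs) p s else 1)
      fun p hp => if_neg hp
    rwa [prod_congr rfl fun p hp => if_pos hp, hT, prod_insert (by decide), prod_pair (by decide),
      ← mul_assoc] at this
  have h5 := h2.mul h3
  rw [← hL' s hs] at h5
  have hinj : Function.Injective fun p : {p : ℕ // p.Prime ∧ ¬ ((p : ℤ) ∣
      2 * (4 * (-12987 * D ^ 2) ^ 3 + 27 * (-263466 * D ^ 3) ^ 2))} =>
      (⟨p.1, p.2.1⟩ : Nat.Primes) := fun p q h =>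
    Subtype.ext (congrArg (fun x : Nat.Primes => x.1) h)
  refine ((hinj.hasProd_iff fun p hp => ?_).2 h5).congr_fun fun p => ?_
  · have h6 := (prime_dvd_disc (D := D) p.2).1 (by_contra fun h => hp ⟨⟨p.1, p.2, h⟩, rfl⟩)
    split_ifs with h7
    · exact inv_mul_cancel₀ (h1 p p.2)
    · have h8 : (p.1 : ℤ) ∣ D := by rw [hmem] at h7; tauto
      have h9 : chi D.natAbs p = 0 := by
        rw [chi, jacobiSym.eq_zero_iff.2 ⟨by omega, ?_⟩, Int.cast_zero]
        rw [Int.gcd_natCast_natCast, Nat.gcd_eq_left (Int.natCast_dvd.1 h8)]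
        exact p.2.ne_one
      simp [eul, h9]
  · obtain ⟨p, hp, h6⟩ := p
    rw [prime_dvd_disc hp] at h6
    push Not at h6
    have h7 : 5 < p := by
      have := hp.two_le
      have : p ≠ 4 := by rintro rfl; exact absurd hp (by norm_num)
      omega
    have h15 : ¬ p ∣ 15 := fun h => by
      have := Nat.le_of_dvd (by norm_num) h
      interval_cases p <;> simp_all (config := {decide := true})
    have h8 : jacobiSym p D.natAbs ^ 2 = 1 := jacobiSym.sq_one (by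
      rw [Int.gcd_natCast_natCast]
      exact hp.coprime_iff_not_dvd.2 fun h => h6.2.2.2 (Int.natCast_dvd.2 h))
    have h9 : chi D.natAbs p ^ 2 = 1 := by rw [chi]; exact_mod_cast h8
    simp only [Function.comp]
    rw [if_neg (by rw [hmem]; simp only; omega), mul_one, ap_twist h4 hp h7 h6.2.2.2, eul,
      if_neg h15, h9, one_mul, chi]
    push_cast
    rfl

lemma isL_unique {A B : ℤ} {f g : ℂ → ℂ} (hf : BSD15.IsL A B f) (hg : BSD15.IsL A B g) : f = g := by
  refine AnalyticOnNhd.eq_of_eventuallyEq (hf.1.differentiableOn.analyticOnNhd isOpen_univ)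
    (hg.1.differentiableOn.analyticOnNhd isOpen_univ) (z₀ := 2) ?_
  filter_upwards [(isOpen_lt continuous_const continuous_re).mem_nhds
    (show (3 : ℝ) / 2 < (2 : ℂ).re by norm_num)] with s hs using (hf.2 s hs).unique (hg.2 s hs)

theorem exists_isL_twist {D : ℤ} (h : BSD15.Adm D.natAbs) (h4 : D % 4 = 1) :
    ∃ f, BSD15.IsL (-12987 * D ^ 2) (-263466 * D ^ 3) f := by
  obtain ⟨τ, -, L, h1, h2, -⟩ := exists_L_chi h
  exact ⟨_, isL_twist h4 h1 h2⟩

theorem isL_twist_ne_zero {D : ℤ} (h : BSD15.Adm D.natAbs) (h4 : D % 4 = 1)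
    (hl : ∑ a ∈ range D.natAbs, chi D.natAbs a * lam (a / D.natAbs) ≠ 0) {f : ℂ → ℂ}
    (hf : BSD15.IsL (-12987 * D ^ 2) (-263466 * D ^ 3) f) : f 1 ≠ 0 := by
  obtain ⟨τ, -, L, h1, h2, h3⟩ := exists_L_chi h
  rw [isL_unique hf (isL_twist h4 h1 h2)]
  exact mul_ne_zero (right_ne_zero_of_mul (h3 ▸ hl)) (bad_one_ne _)

end Pool.Agent.P.MP_8b7eba_nt.Mod
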