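import Mathlib

/-! Complete 2-descent on `x`-coordinates for `y^2 = x (x - a) (x - b)`. -/

set_option autoImplicit false

namespace Pool.Agent.P.MP_8b7eba_nt.Desc

open Height

theorem finite_of_descent {α : Type*} (S : Set α) (h : α → ℝ) (D : α → α) (c : ℝ)
    (hfin : ∀ B, {x | h x ≤ B}.Finite)
    (hD : ∀ s ∈ S, ∃ t ∈ S, D t = s ∧ 4 * h t - c ≤ h s) : S.Finite := by
  refine (hfin (c / 3)).subset fun s hs => ?_
  by_contra hc
  simp only [Set.mem_ofPred_eq, not_le] at hc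
  choose! g hg1 hg2 hg3 using hD
  have hT : (S ∩ {x | h x ≤ h s}).Finite := (hfin (h s)).subset Set.inter_subset_right
  have hm : Set.MapsTo g (S ∩ {x | h x ≤ h s}) (S ∩ {x | h x ≤ h s}) := fun t ht =>
    ⟨hg1 t ht.1, by
      have h1 := hg3 t ht.1
      have h2 : h t ≤ h s := ht.2
      show h (g t) ≤ h s
      linarith⟩
  have hi : Set.InjOn g (S ∩ {x | h x ≤ h s}) := fun a ha b hb e => by
    rw [← hg2 a ha.1, ← hg2 b hb.1, e]
  obtain ⟨t, ht, e⟩ := (hT.injOn_iff_bijOn_of_mapsTo hm).1 hi |>.surjOn ⟨hs, le_refl (h s)⟩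
  have h1 := hg3 t ht.1
  have h2 : h t ≤ h s := ht.2
  rw [e] at h1
  linarith

theorem height_dup (W : WeierstrassCurve ℚ) [W.IsElliptic] : ∃ c : ℝ, ∀ x : ℚ,
    4 * logHeight₁ x - c ≤ logHeight₁ ((x ^ 4 - W.b₄ * x ^ 2 - 2 * W.b₆ * x - W.b₈) /
      (4 * x ^ 3 + W.b₂ * x ^ 2 + 2 * W.b₄ * x + W.b₆)) := by
  obtain ⟨C, hC⟩ := W.abs_logHeight_addSubMap_sub_two_mul_logHeight_le
  obtain ⟨C', hC'⟩ := logHeight_sym2_ge ℚ
  refine ⟨C - 2 * C', fun x => ?_⟩
  have h1 : _ ≤ logHeight (ι := Fin 3) ![x * x, x * 1 + 1 * x, 1 * 1] :=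
    hC' (a := x) (b := 1) (c := x) (d := 1) (by simp) (by simp)
  have h2 := (abs_le.1 (hC ![x * x, x * 1 + 1 * x, 1 * 1])).1
  have e : (fun i => MvPolynomial.eval ![x * x, x * 1 + 1 * x, 1 * 1] (W.addSubMap i)) =
      ![x ^ 4 - W.b₄ * x ^ 2 - 2 * W.b₆ * x - W.b₈,
        4 * x ^ 3 + W.b₂ * x ^ 2 + 2 * W.b₄ * x + W.b₆, 0] := by
    ext i
    fin_cases i <;> simp [WeierstrassCurve.addSubMap] <;> ring
  rw [e, logHeight_cons_cons_cons_zero, ← logHeight₁_div_eq_logHeight] at h2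
  rw [← logHeight₁_eq_logHeight] at h1
  have h3 := mul_le_mul_of_nonneg_left h1 (zero_le_two (α := ℝ))
  have h4 := add_le_add h2 h3
  rw [sub_add_cancel] at h4
  linarith

/-- `x` is the abscissa of a rational point not of order dividing `2`. -/
def InS (a b x : ℚ) : Prop := ∃ y : ℚ, y ≠ 0 ∧ y ^ 2 = x * (x - a) * (x - b)

/-- `x`, `x - a`, `x - b` are non-zero squares. -/
def InT (a b x : ℚ) : Prop :=
  ∃ r s t : ℚ, r ≠ 0 ∧ s ≠ 0 ∧ t ≠ 0 ∧ x = r ^ 2 ∧ x - a = s ^ 2 ∧ x - b = t ^ 2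

variable {a b x : ℚ}

theorem InS.ne (h : InS a b x) : x ≠ 0 ∧ x - a ≠ 0 ∧ x - b ≠ 0 := by
  obtain ⟨y, hy, e⟩ := h
  have := e ▸ pow_ne_zero 2 hy
  simp only [ne_eq, mul_eq_zero, not_or] at this
  tauto

theorem InS.tau1 (ha : a ≠ 0) (hb : b ≠ 0) (h : InS a b x) : InS a b (a * b / x) := by
  obtain ⟨h1, h2, h3⟩ := h.ne
  obtain ⟨y, hy, e⟩ := h
  refine ⟨a * b * y / x ^ 2, by positivity, ?_⟩
  field_simp
  linear_combination e

theorem InS.tau2 (ha : a ≠ 0) (hab : b - a ≠ 0) (h : InS a b x) :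
    InS a b (a * (x - b) / (x - a)) := by
  obtain ⟨h1, h2, h3⟩ := h.ne
  obtain ⟨y, hy, e⟩ := h
  refine ⟨a * (b - a) * y / (x - a) ^ 2, by positivity, ?_⟩
  field_simp
  linear_combination ((b - a) ^ 2) * e

/-- The duplication map on abscissae. -/
def dup (a b x : ℚ) : ℚ := (x ^ 2 - a * b) ^ 2 / (4 * (x * (x - a) * (x - b)))

theorem dup_tau1 (ha : a ≠ 0) (hb : b ≠ 0) (h : InS a b x) : dup a b (a * b / x) = dup a b x := by
  obtain ⟨h1, h2, h3⟩ := h.ne
  obtain ⟨h4, h5, h6⟩ := (h.tau1 ha hb).ne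
  unfold dup
  rw [div_eq_div_iff (by positivity) (by positivity)]
  field_simp
  ring

theorem dup_tau2 (ha : a ≠ 0) (hab : b - a ≠ 0) (h : InS a b x) :
    dup a b (a * (x - b) / (x - a)) = dup a b x := by
  obtain ⟨h1, h2, h3⟩ := h.ne
  obtain ⟨h4, h5, h6⟩ := (h.tau2 ha hab).ne
  unfold dup
  rw [div_eq_div_iff (by positivity) (by positivity)]
  field_simp
  ring

theorem half (ha : a ≠ 0) (hb : b ≠ 0) (hab : b - a ≠ 0) (h : InT a b x) :
    ∃ x₀, InS a b x₀ ∧ dup a b x₀ = x := by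
  obtain ⟨r, s, t, -, -, -, e1, e2, e3⟩ := h
  have n1 : r + s ≠ 0 := fun h => ha (by
    have : s = -r := by linarith
    rw [this] at e2
    linarith)
  have n2 : r + t ≠ 0 := fun h => hb (by
    have : t = -r := by linarith
    rw [this] at e3
    linarith)
  have n3 : s + t ≠ 0 := fun h => hab (by
    have : t = -s := by linarith
    rw [this] at e3
    linarith)
  have a1 : x + r * s + r * t + s * t = (r + s) * (r + t) := by linear_combination e1
  have a2 : x + r * s + r * t + s * t - a = (r + s) * (s + t) := by linear_combination e2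
  have a3 : x + r * s + r * t + s * t - b = (r + t) * (s + t) := by linear_combination e3
  refine ⟨x + r * s + r * t + s * t, ⟨(r + s) * (r + t) * (s + t), by positivity, ?_⟩, ?_⟩
  · rw [a2, a3, a1]; ring
  · unfold dup
    have b1 : a = (r + s) * (r - s) := by linear_combination e1 - e2
    have b2 : b = (r + t) * (r - t) := by linear_combination e1 - e3
    have b3 : a * b = (r + s) * (r - s) * ((r + t) * (r - t)) := by rw [← b1, ← b2]
    rw [a2, a3, a1, b3, e1]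
    field_simp
    ring

theorem finite_inS (ha : a ≠ 0) (hb : b ≠ 0) (hab : b - a ≠ 0)
    (h1 : ∀ x, InS a b x → IsSquare (x - a) ∨ IsSquare (a * b / x - a))
    (h2 : ∀ x, InS a b x → IsSquare (x - a) → InT a b x ∨ InT a b (a * (x - b) / (x - a))) :
    {x : ℚ | InS a b x}.Finite := by
  let W : WeierstrassCurve ℚ := ⟨0, -(a + b), 0, a * b, 0⟩
  have : W.IsElliptic := ⟨by
    have : W.Δ = 16 * a ^ 2 * b ^ 2 * (b - a) ^ 2 := by
      simp only [W, WeierstrassCurve.Δ, WeierstrassCurve.b₂, WeierstrassCurve.b₄,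
        WeierstrassCurve.b₆, WeierstrassCurve.b₈]
      ring
    rw [this]
    exact Ne.isUnit (by positivity)⟩
  obtain ⟨c, hc⟩ := height_dup W
  have hc' : ∀ x : ℚ, 4 * logHeight₁ x - c ≤ logHeight₁ (dup a b x) := fun x => by
    convert hc x using 2
    simp only [W, dup, WeierstrassCurve.b₂, WeierstrassCurve.b₄,
        WeierstrassCurve.b₆, WeierstrassCurve.b₈]
    congr 1 <;> ring
  have hn : ∀ x, InS a b x → InT a b x ∨ InT a b (a * (x - b) / (x - a)) ∨ InT a b (a * b / x) ∨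
      InT a b (a * (a * b / x - b) / (a * b / x - a)) := fun x hx => by
    rcases h1 x hx with h | h
    · rcases h2 x hx h with h | h
      · exact .inl h
      · exact .inr (.inl h)
    · exact .inr (.inr (h2 _ (hx.tau1 ha hb) h))
  have hT : {x : ℚ | InT a b x}.Finite := by
    refine finite_of_descent _ logHeight₁ (dup a b) c
      (NumberField.finite_setOfPred_logHeight₁_le ℚ) fun s hs => ?_
    suffices ∃ t, InT a b t ∧ dup a b t = s by
      obtain ⟨t, h1, h2⟩ := this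
      exact ⟨t, h1, h2, h2 ▸ hc' t⟩
    obtain ⟨x, hx, e⟩ := half ha hb hab hs
    rcases hn x hx with h | h | h | h
    · exact ⟨_, h, e⟩
    · exact ⟨_, h, by rw [dup_tau2 ha hab hx, e]⟩
    · exact ⟨_, h, by rw [dup_tau1 ha hb hx, e]⟩
    · exact ⟨_, h, by rw [dup_tau2 ha hab (hx.tau1 ha hb), dup_tau1 ha hb hx, e]⟩
  have i1 : ∀ x : ℚ, InS a b x → a * b / (a * b / x) = x := fun x hx => by
    have := hx.ne.1
    field_simp
  have i2 : ∀ x : ℚ, InS a b x →
      a * (a * (x - b) / (x - a) - b) / (a * (x - b) / (x - a) - a) = x := fun x hx => by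
    have := hx.ne.2.1
    rw [div_eq_iff (hx.tau2 ha hab).ne.2.1]
    field_simp
    ring
  refine (((hT.union (hT.image fun x : ℚ => a * (x - b) / (x - a))).union
    (hT.image fun x : ℚ => a * b / x)).union
    (hT.image fun x : ℚ => a * b / (a * (x - b) / (x - a)))).subset fun x hx => ?_
  rcases hn x hx with h | h | h | h
  · exact .inl (.inl (.inl h))
  · exact .inl (.inl (.inr ⟨_, h, i2 x hx⟩))
  · exact .inl (.inr ⟨_, h, i1 x hx⟩)
  · exact .inr ⟨_, h, by simp only [i2 _ (InS.tau1 ha hb hx), i1 x hx]⟩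

theorem finite_points (h : {x : ℚ | InS a b x}.Finite) :
    {q : ℚ × ℚ | q.2 ^ 2 = q.1 * (q.1 - a) * (q.1 - b)}.Finite := by
  have hx : ({x : ℚ | InS a b x} ∪ {0, a, b}).Finite := h.union (Set.toFinite _)
  have hy : ∀ c : ℚ, {y : ℚ | y ^ 2 = c}.Finite := fun c => by
    by_cases hc : ∃ z : ℚ, z ^ 2 = c
    · obtain ⟨z, rfl⟩ := hc
      exact (Set.toFinite {z, -z}).subset fun y hy => by
        simpa using sq_eq_sq_iff_eq_or_eq_neg.1 hy
    · convert Set.finite_empty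
      exact Set.eq_empty_of_forall_notMem fun y hy => hc ⟨y, hy⟩
  refine (hx.biUnion fun x _ => (hy (x * (x - a) * (x - b))).image fun y => (x, y)).subset ?_
  rintro ⟨x, y⟩ hq
  simp only [Set.mem_iUnion]
  refine ⟨x, ?_, y, hq, rfl⟩
  by_cases h0 : y = 0
  · have : x * (x - a) * (x - b) = 0 := by
      have hq' : y ^ 2 = x * (x - a) * (x - b) := hq
      rw [← hq', h0]; simp
    simp only [mul_eq_zero, sub_eq_zero] at this
    right
    simp only [Set.mem_insert_iff, Set.mem_singleton_iff]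
    tauto
  · exact .inl ⟨y, h0, hq⟩

/-- Clearing denominators on a cubic with integer roots. -/
theorem exists_int {a b : ℤ} (h : InS a b x) : ∃ u t W : ℤ, IsCoprime u t ∧ t ≠ 0 ∧ W ≠ 0 ∧
    x = u / t ^ 2 ∧ u * (u - a * t ^ 2) * (u - b * t ^ 2) = W ^ 2 := by
  obtain ⟨y, hy, e⟩ := h
  have hd : (x.den : ℚ) ≠ 0 := by exact_mod_cast x.den_nz
  have hc : IsCoprime x.num (x.den : ℤ) :=
    Int.isCoprime_iff_gcd_eq_one.2 (by simpa [Int.gcd] using x.reduced)
  have e1 : (x.num : ℚ) = x * x.den := (Rat.mul_den_eq_num x).symm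
  obtain ⟨v, hv⟩ := Rat.isSquare_intCast_iff.1
    (show IsSquare ((x.num * (x.num - a * x.den) * (x.num - b * x.den) * x.den : ℤ) : ℚ) from
      ⟨y * x.den ^ 2, by push_cast; rw [e1]; linear_combination (-(x.den : ℚ) ^ 4) * e⟩)
  have hc2 : IsCoprime (x.den : ℤ) (x.num * (x.num - a * x.den) * (x.num - b * x.den)) := by
    refine (hc.symm.mul_right ?_).mul_right ?_
    · simpa [sub_eq_add_neg, mul_comm] using hc.symm.add_mul_left_right (-a)
    · simpa [sub_eq_add_neg, mul_comm] using hc.symm.add_mul_left_right (-b)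
  obtain ⟨t, ht⟩ := Int.sq_of_isCoprime hc2 (c := v) (by rw [mul_comm, hv, sq])
  have ht' : (x.den : ℤ) = t ^ 2 := by
    rcases ht with ht | ht
    · exact ht
    · have : (0 : ℤ) < x.den := by exact_mod_cast x.den_pos
      nlinarith [sq_nonneg t]
  have ht0 : t ≠ 0 := by
    rintro rfl
    exact x.den_nz (by exact_mod_cast ht')
  have htq : (x.den : ℚ) = (t : ℚ) ^ 2 := by exact_mod_cast ht'
  obtain ⟨W, hW⟩ := Rat.isSquare_intCast_iff.1
    (show IsSquare ((x.num * (x.num - a * t ^ 2) * (x.num - b * t ^ 2) : ℤ) : ℚ) from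
      ⟨y * t ^ 3, by push_cast; rw [e1, htq]; linear_combination (-(t : ℚ) ^ 6) * e⟩)
  refine ⟨x.num, t, W, ?_, ht0, ?_, ?_, by rw [hW, sq]⟩
  · rw [ht'] at hc
    exact hc.of_isCoprime_of_dvd_right (dvd_pow_self t two_ne_zero)
  · rintro rfl
    have : ((x.num * (x.num - a * t ^ 2) * (x.num - b * t ^ 2) : ℤ) : ℚ) = (y * t ^ 3) ^ 2 := by
      push_cast; rw [e1, htq]; linear_combination (-(t : ℚ) ^ 6) * e
    rw [hW] at this
    have h3 : (y * (t : ℚ) ^ 3) ^ 2 ≠ 0 := by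
      have : (t : ℚ) ≠ 0 := by exact_mod_cast ht0
      positivity
    exact h3 (by rw [← this]; simp)
  · rw [← htq]
    exact (Rat.num_div_den x).symm

end Pool.Agent.P.MP_8b7eba_nt.Desc
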