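import Pool.Agent.P.MP_8b7eba_nt.DescInt

/-! The left and the right kernel of the Redei matrix have the same size. -/

set_option autoImplicit false

namespace Pool.Agent.P.MP_8b7eba_nt.Desc

open Finset Matrix

theorem ker_swap {ι : Type*} [Fintype ι] [DecidableEq ι] (M : Matrix ι ι (ZMod 2))
    (hc : (1 : ι → ZMod 2) ᵥ* M = 0) (h : ∀ v, M *ᵥ v = 0 → v = 0 ∨ v = 1) (w : ι → ZMod 2)
    (hw : w ᵥ* M = 0) : w = 0 ∨ w = 1 := by
  rcases isEmpty_or_nonempty ι with hι | ⟨⟨q⟩⟩
  · exact .inl (Subsingleton.elim _ _)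
  have hdet : (M + single q q 1).det ≠ 0 := by
    rw [Ne, ← exists_mulVec_eq_zero_iff]
    rintro ⟨v, hv0, hv⟩
    have h1 := congrArg (fun z => (1 : ι → ZMod 2) ⬝ᵥ z) hv
    simp only [add_mulVec, dotProduct_add, dotProduct_mulVec, hc, zero_dotProduct, zero_add,
      dotProduct_zero] at h1
    have h2 : v q = 0 := by
      simpa [vecMul, dotProduct, single, ite_and] using h1
    have h3 : single q q (1 : ZMod 2) *ᵥ v = 0 := by
      ext i
      simp [mulVec, dotProduct, single, ite_and, h2]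
    rw [add_mulVec, h3, add_zero] at hv
    rcases h v hv with rfl | rfl
    · exact hv0 rfl
    · exact one_ne_zero h2
  have key : ∀ w : ι → ZMod 2, w ᵥ* M = 0 → w q = 0 → w = 0 := fun w hw hq => by
    by_contra h0
    refine hdet (exists_vecMul_eq_zero_iff.1 ⟨w, h0, ?_⟩)
    rw [vecMul_add, hw, zero_add]
    ext i
    simp [vecMul, dotProduct, single, ite_and, hq]
  by_cases hq : w q = 0
  · exact .inl (key w hw hq)
  · have h1 : ∀ a : ZMod 2, a ≠ 0 → a - 1 = 0 := by decide
    exact .inr (sub_eq_zero.1 (key (w - 1) (by rw [sub_vecMul, hw, hc, sub_zero]) (h1 _ hq)))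

theorem sum_key {α : Type*} [DecidableEq α] {P S : Finset α} (hS : S ⊆ P) (g : α → ZMod 2) {i : α}
    {D : ZMod 2} (hD : D = ∑ k ∈ P.erase i, g k) :
    ∑ j ∈ S, (if i = j then D else g j) = if i ∈ S then ∑ j ∈ P \ S, g j else ∑ j ∈ S, g j := by
  split_ifs with hi
  · rw [← add_sum_erase _ _ hi, if_pos rfl, hD, sum_congr rfl fun j hj =>
      if_neg (ne_of_mem_erase hj).symm, ← sum_sdiff (erase_subset_erase i hS)]
    have : P.erase i \ S.erase i = P \ S := by
      ext j
      by_cases h : j = i <;> simp [h, hi]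
    rw [this, add_assoc, CharTwo.add_self_eq_zero, add_zero]
  · exact sum_congr rfl fun j hj => if_neg fun h : i = j => hi (h ▸ hj)

/-- The only subsets `S` of `P` in the kernel of the matrix `g` (with the diagonal making row sums
zero) are the trivial ones. -/
def Ker {α : Type*} [DecidableEq α] (P : Finset α) (g : α → α → ZMod 2) : Prop :=
  ∀ S ⊆ P, (∀ i ∈ S, ∑ j ∈ P \ S, g i j = 0) → (∀ i ∈ P \ S, ∑ j ∈ S, g i j = 0) → S = ∅ ∨ S = P

theorem Ker.swap {α : Type*} [DecidableEq α] {P : Finset α} {g : α → α → ZMod 2}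
    (hsum : ∀ j ∈ P, ∑ k ∈ P.erase j, g j k = ∑ k ∈ P.erase j, g k j) (h : Ker P g) :
    Ker P fun i j => g j i := by
  let M : Matrix P P (ZMod 2) := fun i j => if (i : α) = j then ∑ k ∈ P.erase i, g i k else g i j
  let χ : Finset α → P → ZMod 2 := fun S i => if (i : α) ∈ S then 1 else 0
  have hχ : ∀ S ⊆ P, ∀ f : α → ZMod 2, ∑ j : P, χ S j * f j = ∑ j ∈ S, f j := fun S hS f => by
    rw [sum_coe_sort P fun j => (if j ∈ S then 1 else 0) * f j]
    simp [inter_eq_right.2 hS]
  have hR : ∀ S ⊆ P, ∀ i : P, (M *ᵥ χ S) i =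
      if (i : α) ∈ S then ∑ j ∈ P \ S, g i j else ∑ j ∈ S, g i j := fun S hS i => by
    rw [← sum_key hS (g i) rfl, ← hχ S hS]
    exact sum_congr rfl fun j _ => mul_comm _ _
  have hL : ∀ S ⊆ P, ∀ i : P, (χ S ᵥ* M) i =
      if (i : α) ∈ S then ∑ j ∈ P \ S, g j i else ∑ j ∈ S, g j i := fun S hS i => by
    rw [← sum_key hS (fun j => g j i) (hsum i i.2), ← hχ S hS]
    refine sum_congr rfl fun j _ => ?_
    by_cases hij : (i : α) = j
    · simp only [M, hij, if_true]
    · simp only [M, if_neg hij, if_neg (Ne.symm hij)]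
  have h1 : χ P = 1 := funext fun i => if_pos i.2
  have hfin : ∀ S ⊆ P, χ S = 0 ∨ χ S = 1 → S = ∅ ∨ S = P := fun S hS h => h.imp
    (fun h => eq_empty_of_forall_notMem fun i hi => by simpa [χ, hi] using congrFun h ⟨i, hS hi⟩)
    fun h => hS.antisymm fun i hi => by simpa [χ] using congrFun h ⟨i, hi⟩
  intro S hS h2 h3
  refine hfin S hS (ker_swap M ?_ (fun v hv => ?_) _ (funext fun i => ?_))
  · rw [← h1]
    ext i
    simp [hL P le_rfl]
  · have hv' : v = χ ((univ.filter fun i => v i = 1).map (Function.Embedding.subtype _)) := by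
      ext i
      have : ∀ a : ZMod 2, a = if a = 1 then 1 else 0 := by decide
      simpa [χ] using this (v i)
    generalize hT : (univ.filter fun i => v i = 1).map (Function.Embedding.subtype _) = T at hv'
    have hTP : T ⊆ P := by
      rw [← hT]
      intro i hi
      obtain ⟨j, -, rfl⟩ := mem_map.1 hi
      exact j.2
    rw [hv'] at hv ⊢
    rcases h T hTP (fun i hi => by simpa [hR T hTP, hi] using congrFun hv ⟨i, hTP hi⟩)
      (fun i hi => by
        simpa [hR T hTP, (mem_sdiff.1 hi).2] using congrFun hv ⟨i, (mem_sdiff.1 hi).1⟩) with rfl | rfl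
    · exact .inl (funext fun i => by simp [χ])
    · exact .inr h1
  · rw [hL S hS]
    split_ifs with hi
    · exact h2 i hi
    · exact h3 i (mem_sdiff.2 ⟨i.2, hi⟩)

/-- The additive Jacobi symbol. -/
def lam (a : ℤ) (p : ℕ) : ZMod 2 := if jacobiSym a p = 1 then 0 else 1

theorem lam_mul {a b : ℤ} {p : ℕ} (ha : a.gcd p = 1) (hb : b.gcd p = 1) :
    lam (a * b) p = lam a p + lam b p := by
  unfold lam
  rw [jacobiSym.mul_left]
  rcases jacobiSym.eq_one_or_neg_one ha with h | h <;>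
    rcases jacobiSym.eq_one_or_neg_one hb with h' | h' <;> rw [h, h'] <;> decide

theorem gcd_prod {S : Finset ℕ} {f : ℕ → ℤ} {p : ℕ} (h : ∀ q ∈ S, (f q).gcd p = 1) :
    (∏ q ∈ S, f q).gcd p = 1 :=
  Int.isCoprime_iff_gcd_eq_one.1 (IsCoprime.prod_left fun q hq =>
    Int.isCoprime_iff_gcd_eq_one.2 (h q hq))

theorem lam_prod {S : Finset ℕ} {f : ℕ → ℤ} {p : ℕ} (h : ∀ q ∈ S, (f q).gcd p = 1) :
    lam (∏ q ∈ S, f q) p = ∑ q ∈ S, lam (f q) p := by
  induction S using Finset.induction_on with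
  | empty => simp [lam]
  | insert q S hq ih =>
    rw [prod_insert hq, sum_insert hq, lam_mul (h q (mem_insert_self _ _))
      (gcd_prod fun r hr => h r (mem_insert_of_mem hr)), ih fun r hr => h r (mem_insert_of_mem hr)]

theorem lam_eq_zero {a : ℤ} {p : ℕ} (hp : p.Prime) (ha : a.gcd p = 1) :
    lam a p = 0 ↔ IsSquare (a : ZMod p) := by
  have := Fact.mk hp
  unfold lam
  rcases jacobiSym.eq_one_or_neg_one ha with h | h
  · simp [h, ZMod.isSquare_of_jacobiSym_eq_one h]
  · simp [h, ZMod.nonsquare_of_jacobiSym_eq_neg_one h]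

/-- The discriminant `±p` congruent to `1` modulo `4`. -/
def star (p : ℕ) : ℤ := if p % 4 = 1 then p else -p

theorem natAbs_star (p : ℕ) : (star p).natAbs = p := by
  unfold star
  split_ifs <;> simp

theorem star_mod {p : ℕ} (hp : p % 2 = 1) : star p % 4 = 1 := by
  unfold star
  split_ifs <;> omega

theorem jacobi_star {p q : ℕ} (hp : p % 2 = 1) (hq : q % 2 = 1) :
    jacobiSym (star p) q = jacobiSym q p := by
  unfold star
  split_ifs with h
  · exact jacobiSym.quadratic_reciprocity_one_mod_four h (Nat.odd_iff.2 hq)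
  · rw [jacobiSym.neg _ (Nat.odd_iff.2 hq)]
    rcases Nat.odd_mod_four_iff.1 hq with h' | h'
    · rw [ZMod.χ₄_nat_one_mod_four h', one_mul,
        jacobiSym.quadratic_reciprocity_one_mod_four' (Nat.odd_iff.2 hp) h']
    · rw [ZMod.χ₄_nat_three_mod_four h',
        jacobiSym.quadratic_reciprocity_three_mod_four (by omega) h']
      ring

theorem prod_star_mod {S : Finset ℕ} (h : ∀ p ∈ S, p % 2 = 1) : (∏ p ∈ S, star p) % 4 = 1 :=
  prod_induction _ (fun a => a % 4 = 1) (fun a b ha hb => by rw [Int.mul_emod, ha, hb]; rfl) rfl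
    fun p hp => star_mod (h p hp)

theorem natAbs_prod_star (S : Finset ℕ) : (∏ p ∈ S, star p).natAbs = ∏ p ∈ S, p := by
  rw [← Int.natAbsHom_apply, map_prod]
  exact prod_congr rfl fun p _ => natAbs_star p

theorem eq_of_natAbs {a b : ℤ} (h : a.natAbs = b.natAbs) (ha : a % 4 = 1) (hb : b % 4 = 1) :
    a = b := by omega

section
variable {n : ℕ} (hn : Squarefree n) (h4 : n % 4 = 3)

include h4 in
theorem odd_of_mem {p : ℕ} (hp : p ∈ n.primeFactors) : p % 2 = 1 := by
  by_contra h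
  have : 2 ∣ n := (show 2 ∣ p by omega).trans (Nat.dvd_of_mem_primeFactors hp)
  omega

theorem gcd_of_ne {p q : ℕ} (hp : p ∈ n.primeFactors) (hq : q ∈ n.primeFactors) (h : q ≠ p)
    {a : ℤ} (ha : a.natAbs = q) : a.gcd p = 1 := by
  rw [Int.gcd, ha, Int.natAbs_natCast]
  exact (Nat.coprime_primes (Nat.prime_of_mem_primeFactors hq)
    (Nat.prime_of_mem_primeFactors hp)).2 h

include hn h4 in
theorem prod_star : ∏ p ∈ n.primeFactors, star p = -n :=
  eq_of_natAbs (by rw [natAbs_prod_star, Nat.prod_primeFactors_of_squarefree hn]; simp)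
    (prod_star_mod fun _ => odd_of_mem h4) (by omega)

theorem ker_iff {f : ℕ → ℤ} (hf : ∀ p, (f p).natAbs = p) :
    Ker n.primeFactors (fun i j => lam (f j) i) ↔ ∀ S ⊆ n.primeFactors,
      (∀ p ∈ S, IsSquare ((∏ q ∈ n.primeFactors \ S, f q : ℤ) : ZMod p)) →
      (∀ p ∈ n.primeFactors \ S, IsSquare ((∏ q ∈ S, f q : ℤ) : ZMod p)) →
      S = ∅ ∨ S = n.primeFactors := by
  refine forall₂_congr fun S hS => imp_congr (forall₂_congr fun p hp => ?_)
    (imp_congr_left (forall₂_congr fun p hp => ?_))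
  · have : ∀ q ∈ n.primeFactors \ S, (f q).gcd p = 1 := fun q hq => gcd_of_ne (hS hp)
      (mem_sdiff.1 hq).1 (fun h => (mem_sdiff.1 hq).2 (h ▸ hp)) (hf q)
    rw [← lam_prod this, lam_eq_zero (Nat.prime_of_mem_primeFactors (hS hp)) (gcd_prod this)]
  · have : ∀ q ∈ S, (f q).gcd p = 1 := fun q hq => gcd_of_ne (mem_sdiff.1 hp).1
      (hS hq) (fun h => (mem_sdiff.1 hp).2 (h ▸ hq)) (hf q)
    rw [← lam_prod this, lam_eq_zero (Nat.prime_of_mem_primeFactors (mem_sdiff.1 hp).1)
      (gcd_prod this)]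

theorem mem_of_dvd_prod {S : Finset ℕ} (hS : S ⊆ n.primeFactors) {p : ℕ} (hp : p.Prime)
    (h : p ∣ ∏ q ∈ S, q) : p ∈ S := by
  obtain ⟨q, hq, hpq⟩ := (hp.prime.dvd_finsetProd_iff _).1 h
  rwa [(Nat.prime_dvd_prime_iff_eq hp (Nat.prime_of_mem_primeFactors (hS hq))).1 hpq]

theorem eq_empty_of_prod {S : Finset ℕ} (hS : S ⊆ n.primeFactors) (h : ∏ q ∈ S, q = 1) : S = ∅ :=
  eq_empty_of_forall_notMem fun _ hp => (Nat.prime_of_mem_primeFactors (hS hp)).not_dvd_one
    (h ▸ dvd_prod_of_mem _ hp)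

include hn in
theorem split {b c : ℕ} (h : b * c = n) : b.primeFactors ⊆ n.primeFactors ∧
    ∏ q ∈ b.primeFactors, q = b ∧ ∏ q ∈ n.primeFactors \ b.primeFactors, q = c := by
  have h1 : b.primeFactors ⊆ n.primeFactors := Nat.primeFactors_mono ⟨c, h.symm⟩ hn.ne_zero
  have h2 := Nat.prod_primeFactors_of_squarefree (hn.squarefree_of_dvd ⟨c, h.symm⟩)
  have h3 := prod_sdiff (f := fun q => q) h1
  rw [h2, Nat.prod_primeFactors_of_squarefree hn] at h3
  have hb : b ≠ 0 := fun h0 => hn.ne_zero (by rw [← h, h0, zero_mul])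
  exact ⟨h1, h2, mul_right_cancel₀ hb (by rw [h3, ← h, mul_comm])⟩

include hn in
theorem redeiL_iff : RedeiL n ↔ Ker n.primeFactors fun i j => lam j i := by
  rw [ker_iff (f := fun q => (q : ℤ)) fun _ => rfl]
  have hc : ∀ (S : Finset ℕ) (p : ℕ), ((∏ q ∈ S, (q : ℤ) : ℤ) : ZMod p) = (∏ q ∈ S, q : ℕ) :=
    fun S p => by simp
  simp only [hc]
  constructor
  · intro h S hS h1 h2
    refine (h _ _ (by rw [mul_comm, prod_sdiff hS, Nat.prod_primeFactors_of_squarefree hn])
      (fun p hp hd => h1 p (mem_of_dvd_prod hS hp hd))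
      fun p hp hd => h2 p (mem_of_dvd_prod sdiff_subset hp hd)).imp (eq_empty_of_prod hS)
      fun h => hS.antisymm (sdiff_eq_empty_iff_subset.1 (eq_empty_of_prod sdiff_subset h))
  · intro h b c hbc h1 h2
    obtain ⟨s1, s2, s3⟩ := split hn hbc
    refine (h _ s1 (fun p hp => ?_) fun p hp => ?_).imp (fun h => by rw [← s2, h, prod_empty])
      fun h => by rw [← s3, h, sdiff_self, bot_eq_empty, prod_empty]
    · rw [s3]
      exact h1 p (Nat.prime_of_mem_primeFactors hp) (Nat.dvd_of_mem_primeFactors hp)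
    · rw [s2]
      exact h2 p (Nat.prime_of_mem_primeFactors (mem_sdiff.1 hp).1) (s3 ▸ dvd_prod_of_mem _ hp)

include hn h4 in
theorem redeiR_iff : RedeiR n ↔ Ker n.primeFactors fun i j => lam (star j) i := by
  rw [ker_iff natAbs_star]
  have hd : ∀ (S : Finset ℕ) (p : ℕ), (p : ℤ) ∣ ∏ q ∈ S, star q ↔ p ∣ ∏ q ∈ S, q := fun S p => by
    rw [Int.natCast_dvd, natAbs_prod_star]
  constructor
  · intro h S hS h1 h2
    refine (h _ _ (by rw [mul_comm, prod_sdiff hS, prod_star hn h4])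
      (prod_star_mod fun p hp => odd_of_mem h4 (hS hp))
      (fun p hp hp' => h1 p (mem_of_dvd_prod hS hp ((hd _ _).1 hp')))
      fun p hp hp' => h2 p (mem_of_dvd_prod sdiff_subset hp ((hd _ _).1 hp'))).imp
      (fun h => eq_empty_of_prod hS (by rw [← natAbs_prod_star, h]; rfl))
      fun h => hS.antisymm (sdiff_eq_empty_iff_subset.1 (eq_empty_of_prod sdiff_subset
        (by rw [← natAbs_prod_star, h]; rfl)))
  · intro h d e hde hd4 h1 h2
    obtain ⟨s1, s2, s3⟩ := split hn (b := d.natAbs) (c := e.natAbs)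
      (by rw [← Int.natAbs_mul, hde]; simp)
    have he4 : e % 4 = 1 := by
      have h5 : d * e % 4 = 1 := by omega
      rw [Int.mul_emod, hd4] at h5
      omega
    have t2 : ∏ q ∈ d.natAbs.primeFactors, star q = d := eq_of_natAbs
      (by rw [natAbs_prod_star, s2]) (prod_star_mod fun p hp => odd_of_mem h4 (s1 hp)) hd4
    have t3 : ∏ q ∈ n.primeFactors \ d.natAbs.primeFactors, star q = e := eq_of_natAbs
      (by rw [natAbs_prod_star, s3]) (prod_star_mod fun p hp => odd_of_mem h4 (mem_sdiff.1 hp).1) he4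
    refine (h _ s1 (fun p hp => ?_) fun p hp => ?_).imp (fun h => by rw [← t2, h, prod_empty])
      fun h => by rw [← t3, h, sdiff_self, bot_eq_empty, prod_empty]
    · rw [t3]
      exact h1 p (Nat.prime_of_mem_primeFactors hp)
        (Int.natCast_dvd.2 (Nat.dvd_of_mem_primeFactors hp))
    · rw [t2]
      exact h2 p (Nat.prime_of_mem_primeFactors (mem_sdiff.1 hp).1)
        (Int.natCast_dvd.2 (s3 ▸ dvd_prod_of_mem _ hp))

include hn h4 in
theorem sum_lam {p : ℕ} (hp : p ∈ n.primeFactors) :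
    ∑ q ∈ n.primeFactors.erase p, lam (star q) p = ∑ q ∈ n.primeFactors.erase p, lam q p := by
  rw [← lam_prod fun q hq => gcd_of_ne hp (mem_of_mem_erase hq) (ne_of_mem_erase hq) (natAbs_star q),
    ← lam_prod (f := fun q => (q : ℤ)) fun q hq =>
      gcd_of_ne hp (mem_of_mem_erase hq) (ne_of_mem_erase hq) rfl]
  have h1 := mul_prod_erase _ star hp
  have h2 := mul_prod_erase _ (fun q : ℕ => (q : ℤ)) hp
  rw [prod_star hn h4] at h1
  rw [show ∏ q ∈ n.primeFactors, (q : ℤ) = n by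
    simpa using congrArg (Nat.cast : ℕ → ℤ) (Nat.prod_primeFactors_of_squarefree hn)] at h2
  have hp0 : (p : ℤ) ≠ 0 := by exact_mod_cast (Nat.prime_of_mem_primeFactors hp).ne_zero
  generalize ∏ q ∈ n.primeFactors.erase p, star q = A at h1
  generalize ∏ q ∈ n.primeFactors.erase p, (q : ℤ) = B at h2
  unfold star at h1
  split_ifs at h1 with h
  · rw [show A = -B from mul_left_cancel₀ hp0 (by linear_combination h1 + h2), lam,
      jacobiSym.neg _ (Nat.odd_iff.2 (odd_of_mem h4 hp)), ZMod.χ₄_nat_one_mod_four h, one_mul, lam]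
  · rw [show A = B from mul_left_cancel₀ hp0 (by linear_combination -h1 - h2)]

include hn h4 in
/-- The two forms of the Redei condition are equivalent. -/
theorem redeiL_iff_redeiR : RedeiL n ↔ RedeiR n := by
  rw [redeiL_iff hn, redeiR_iff hn h4]
  have key : ∀ i ∈ n.primeFactors, ∀ j ∈ n.primeFactors, lam (star j) i = lam i j :=
    fun i hi j hj => by rw [lam, jacobi_star (odd_of_mem h4 hj) (odd_of_mem h4 hi), lam]
  have congr : Ker n.primeFactors (fun i j => lam (star j) i) ↔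
      Ker n.primeFactors fun i j => lam i j :=
    forall₂_congr fun S hS => imp_congr
      (forall₂_congr fun i hi => by
        rw [sum_congr rfl fun j hj => key i (hS hi) j (mem_sdiff.1 hj).1])
      (imp_congr_left (forall₂_congr fun i hi => by
        rw [sum_congr rfl fun j hj => key i (mem_sdiff.1 hi).1 j (hS hj)]))
  have hs : ∀ j ∈ n.primeFactors, ∑ k ∈ n.primeFactors.erase j, lam j k =
      ∑ k ∈ n.primeFactors.erase j, lam k j := fun j hj => by
    rw [← sum_lam hn h4 hj]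
    exact sum_congr rfl fun k hk => (key j hj k (mem_of_mem_erase hk)).symm
  rw [congr]
  exact ⟨fun h => h.swap fun j hj => (hs j hj).symm, fun h => h.swap hs⟩

end

/-- The descent under a single Redei condition. -/
theorem finite_twist' {n : ℕ} (hn : Squarefree n) (h4 : n % 4 = 3) (h3 : n % 3 = 2)
    (h5 : n % 5 = 2 ∨ n % 5 = 3) (hL : RedeiL n) :
    {q : ℚ × ℚ | q.2 ^ 2 = q.1 ^ 3 + (-12987 * (n : ℚ) ^ 2) * q.1 + 263466 * (n : ℚ) ^ 3}.Finite :=
  finite_twist_short hn h4 h3 h5 hL ((redeiL_iff_redeiR hn h4).1 hL)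

end Pool.Agent.P.MP_8b7eba_nt.Desc
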