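import Pool.Agent.P.MP_8b7eba_nt.Legendre
import Pool.Agent.P.MP_8b7eba_nt.Redei

/-! No element of order four in the class group of `Q(sqrt(-n))` implies the Redei condition. -/

set_option autoImplicit false

namespace Pool.Agent.P.MP_8b7eba_nt.Desc

open NumberField Polynomial

theorem principal_of_coprime {R : Type*} [CommRing R] [IsDedekindDomain R]
    (h : ∀ c : ClassGroup R, orderOf c ≠ 4) {A : Ideal R} {β α α' W : R} (hβ : β ≠ 0) (hW : W ≠ 0)
    (hA : A * A = Ideal.span {β}) (e : α * α' = β * W ^ 2)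
    (hs : Ideal.span {α} ⊔ Ideal.span {α'} = A) : A.IsPrincipal := by
  have hA0 : A ≠ 0 := fun h0 => hβ (by
    rw [h0, mul_zero] at hA
    exact Ideal.span_singleton_eq_bot.1 hA.symm)
  obtain ⟨B, hB⟩ : A ∣ Ideal.span {α} := Ideal.dvd_iff_le.2 (hs ▸ le_sup_left)
  obtain ⟨B', hB'⟩ : A ∣ Ideal.span {α'} := Ideal.dvd_iff_le.2 (hs ▸ le_sup_right)
  have h1 : IsCoprime B B' := by
    rw [Ideal.isCoprime_iff_sup_eq]
    refine mul_left_cancel₀ hA0 ?_
    rw [Ideal.mul_sup, ← hB, ← hB', hs, Ideal.mul_top]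
  have h2 : B * B' = Ideal.span {W} ^ 2 := by
    refine mul_left_cancel₀ (mul_ne_zero hA0 hA0) ?_
    rw [mul_mul_mul_comm, ← hB, ← hB', hA, Ideal.span_singleton_pow,
      Ideal.span_singleton_mul_span_singleton, Ideal.span_singleton_mul_span_singleton, e]
  obtain ⟨C, rfl⟩ := exists_eq_pow_of_mul_eq_pow_of_coprime h1 h2
  have hα : Ideal.span {α} ≠ 0 := fun h0 => by
    rw [Ideal.span_singleton_eq_bot.1 h0, zero_mul] at e
    exact mul_ne_zero hβ (pow_ne_zero 2 hW) e.symm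
  have hC0 : C ≠ 0 := fun h0 => hα (by rw [hB, h0]; simp)
  have mA := mem_nonZeroDivisors_of_ne_zero hA0
  have mC := mem_nonZeroDivisors_of_ne_zero hC0
  have e1 : ClassGroup.mk0 ⟨A, mA⟩ * ClassGroup.mk0 ⟨A, mA⟩ = 1 := by
    rw [← map_mul]
    exact (ClassGroup.mk0_eq_one_iff (mul_mem mA mA)).2 (hA ▸ ⟨β, rfl⟩)
  have e2 : ClassGroup.mk0 ⟨A, mA⟩ * ClassGroup.mk0 ⟨C, mC⟩ ^ 2 = 1 := by
    rw [← map_pow, ← map_mul]
    exact (ClassGroup.mk0_eq_one_iff (mul_mem mA (pow_mem mC 2))).2 (hB ▸ ⟨α, rfl⟩)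
  rw [← ClassGroup.mk0_eq_one_iff mA]
  generalize ClassGroup.mk0 ⟨A, mA⟩ = a at e1 e2
  generalize ClassGroup.mk0 ⟨C, mC⟩ = c at e2
  have e3 : c ^ 2 ^ 2 = 1 := by
    rw [show c ^ 2 ^ 2 = a * a * c ^ 2 ^ 2 by rw [e1, one_mul],
      show a * a * c ^ 2 ^ 2 = a * c ^ 2 * (a * c ^ 2) by
        rw [mul_mul_mul_comm, ← pow_add]; rfl, e2, one_mul]
  by_cases e4 : c ^ 2 ^ 1 = 1
  · rwa [← pow_one 2, e4, mul_one] at e2
  · exact absurd (orderOf_eq_prime_pow e4 e3) (h c)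

theorem span_mul_self {R : Type*} [CommRing R] {b c : ℕ} (hbc : b.Coprime c) {ω : R}
    (hω : ω ^ 2 = -(b * c)) :
    Ideal.span {(b : R), ω} * Ideal.span {(b : R), ω} = Ideal.span {(b : R)} := by
  rw [Ideal.span_pair_mul_span_pair]
  apply le_antisymm
  · rw [Ideal.span_le]
    rintro x (rfl | rfl | rfl | rfl) <;> rw [SetLike.mem_coe, Ideal.mem_span_singleton]
    · exact dvd_mul_right _ _
    · exact dvd_mul_right _ _
    · exact dvd_mul_left _ _
    · exact ⟨-c, by rw [← sq, hω]; ring⟩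
  · obtain ⟨u, v, huv⟩ := Nat.isCoprime_iff_coprime.2 hbc
    have h1 : (u : R) * b + v * c = 1 := by exact_mod_cast congrArg (Int.cast : ℤ → R) huv
    have h2 : (b : R) = u * (b * b) - v * (ω * ω) := by linear_combination (-b : R) * h1 + v * hω
    rw [Ideal.span_singleton_le_iff_mem]
    exact (congrArg (· ∈ _) h2).mpr (sub_mem (Ideal.mul_mem_left _ _ (Ideal.subset_span (by simp)))
      (Ideal.mul_mem_left _ _ (Ideal.subset_span (by simp))))

theorem sup_eq_span {R : Type*} [CommRing R] {b W T S : ℤ} {ω α α' : R} (h1 : IsCoprime W T)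
    (h2 : IsCoprime S b) (hα : α ∈ Ideal.span {(b : R), ω}) (e1 : α * α' = b * W ^ 2)
    (e2 : α + α' = b * T) (e3 : α - α' = S * ω) :
    Ideal.span {α} ⊔ Ideal.span {α'} = Ideal.span {(b : R), ω} := by
  have m1 : (b : R) ∈ Ideal.span {(b : R), ω} := Ideal.subset_span (by simp)
  apply le_antisymm
  · refine sup_le ((Ideal.span_singleton_le_iff_mem _).2 hα)
      ((Ideal.span_singleton_le_iff_mem _).2 ?_)
    rw [show α' = b * T - α by rw [← e2]; ring]
    exact sub_mem (Ideal.mul_mem_right _ _ m1) hα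
  · have a1 : α ∈ Ideal.span {α} ⊔ Ideal.span {α'} :=
      Ideal.mem_sup_left (Ideal.mem_span_singleton_self α)
    have a2 : α' ∈ Ideal.span {α} ⊔ Ideal.span {α'} :=
      Ideal.mem_sup_right (Ideal.mem_span_singleton_self α')
    obtain ⟨u, v, huv⟩ := h1.pow_left (m := 2)
    obtain ⟨x, y, hxy⟩ := h2
    have h3 : (u : R) * W ^ 2 + v * T = 1 := by exact_mod_cast congrArg (Int.cast : ℤ → R) huv
    have h4 : (x : R) * S + y * b = 1 := by exact_mod_cast congrArg (Int.cast : ℤ → R) hxy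
    have a3 : (b : R) ∈ Ideal.span {α} ⊔ Ideal.span {α'} := by
      rw [show (b : R) = u * α' * α + v * (α + α') by
        linear_combination (-b : R) * h3 - u * e1 - v * e2]
      exact add_mem (Ideal.mul_mem_left _ _ a1) (Ideal.mul_mem_left _ _ (add_mem a1 a2))
    rw [Ideal.span_le]
    rintro z (rfl | rfl)
    · exact a3
    · rw [show z = x * (α - α') + y * z * b by linear_combination (-z) * h4 - x * e3]
      exact add_mem (Ideal.mul_mem_left _ _ (sub_mem a1 a2)) (Ideal.mul_mem_left _ _ a3)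

section
variable {n : ℕ} (hn : Squarefree n) {K : Type*} [Field K] [NumberField K]
  (hK : Module.finrank ℚ K = 2) {θ : K} (hθ : θ ^ 2 = -n)

include hn hθ in
theorem indep {u v : ℚ} (h : (u : K) + v * θ = 0) : u = 0 ∧ v = 0 := by
  have h1 : ((u ^ 2 + n * v ^ 2 : ℚ) : K) = 0 := by
    push_cast
    linear_combination (u - v * θ) * h + (v : K) ^ 2 * hθ
  have h2 : u ^ 2 + n * v ^ 2 = 0 := by exact_mod_cast h1
  have h3 : (0 : ℚ) < n := by exact_mod_cast Nat.pos_of_ne_zero hn.ne_zero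
  have h4 : 0 ≤ n * v ^ 2 := by positivity
  exact ⟨pow_eq_zero_iff two_ne_zero |>.1 (by linarith [sq_nonneg u]),
    pow_eq_zero_iff two_ne_zero |>.1 ((mul_eq_zero.1 (by linarith [sq_nonneg u])).resolve_left h3.ne')⟩

include hn hK hθ in
theorem exists_coord (x : K) : ∃ u v : ℚ, x = u + v * θ := by
  have hli : LinearIndependent ℚ ![(1 : K), θ] := LinearIndependent.pair_iff.2 fun u v h =>
    indep hn hθ (by simpa [Algebra.smul_def] using h)
  have hsp := hli.span_eq_top_of_card_eq_finrank (by simp [hK])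
  have hx : x ∈ Submodule.span ℚ {(1 : K), θ} := by
    rw [← Matrix.range_cons_cons_empty, hsp]
    trivial
  obtain ⟨u, v, rfl⟩ := Submodule.mem_span_pair.1 hx
  exact ⟨u, v, by simp [Algebra.smul_def]⟩

include hn hK hθ in
theorem exists_conj : ∃ σ : K →+* K, σ θ = -θ := by
  have : Algebra.IsQuadraticExtension ℚ K := ⟨hK⟩
  have hi : IsIntegral ℚ θ := Algebra.IsIntegral.isIntegral θ
  have hm : minpoly ℚ θ = X ^ 2 + C (n : ℚ) := by
    refine (Polynomial.eq_of_monic_of_dvd_of_natDegree_le (minpoly.monic hi) (by monicity!)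
      (minpoly.dvd ℚ θ (by simp [hθ])) ?_).symm
    refine le_trans (by compute_degree) ((minpoly.two_le_natDegree_iff hi).2 ?_)
    rintro ⟨u, hu⟩
    simpa using (indep hn hθ (u := u) (v := -1) (by simp [← hu])).2
  obtain ⟨σ, hσ⟩ := minpoly.exists_algEquiv_of_root' hi.isAlgebraic (x := -θ) (by simp [hm, hθ])
  exact ⟨σ, hσ⟩

theorem exists_int_of_isIntegral {u : ℚ} (h : IsIntegral ℤ (u : K)) : ∃ U : ℤ, u = U := by
  obtain ⟨U, hU⟩ := IsIntegrallyClosed.isIntegral_iff.1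
    ((isIntegral_algebraMap_iff (algebraMap ℚ K).injective).1 h)
  exact ⟨U, hU.symm⟩

include hn hK hθ in
theorem exists_norm {σ : K →+* K} (hσ : σ θ = -θ) {γ : K} (hγ : IsIntegral ℤ γ) :
    ∃ U V m : ℤ, γ * σ γ = m ∧ U ^ 2 + n * V ^ 2 = 4 * m := by
  obtain ⟨u, v, rfl⟩ := exists_coord hn hK hθ γ
  have h1 : IsIntegral ℤ (σ (u + v * θ)) := hγ.map σ.toIntAlgHom
  have h2 : σ (u + v * θ) = u - v * θ := by simp [hσ, sub_eq_add_neg]
  have h3 : ((u : K) + v * θ) * σ (u + v * θ) = ((u ^ 2 + n * v ^ 2 : ℚ) : K) := by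
    rw [h2]
    push_cast
    linear_combination -(v : K) ^ 2 * hθ
  obtain ⟨U, hU⟩ := exists_int_of_isIntegral (K := K) (u := 2 * u) (by
    rw [show ((2 * u : ℚ) : K) = u + v * θ + σ (u + v * θ) by rw [h2]; push_cast; ring]
    exact hγ.add h1)
  obtain ⟨m, hm⟩ := exists_int_of_isIntegral (K := K) (h3 ▸ hγ.mul h1)
  have h4 : (n : ℚ) * (2 * v) ^ 2 = (4 * m - U ^ 2 : ℤ) := by
    push_cast
    rw [← hU, ← hm]
    ring
  have h5 : (2 * v).den = 1 := by
    have h6 : (n : ℤ) * (2 * v).num ^ 2 = (4 * m - U ^ 2) * (2 * v).den ^ 2 := by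
      have : (n : ℚ) * ((2 * v).num : ℚ) ^ 2 = (4 * m - U ^ 2 : ℤ) * ((2 * v).den : ℚ) ^ 2 := by
        rw [← h4, ← Rat.mul_den_eq_num]
        ring
      exact_mod_cast this
    have h7 : IsCoprime (((2 * v).den : ℤ) ^ 2) ((2 * v).num ^ 2) :=
      (Int.isCoprime_iff_gcd_eq_one.2 (by simpa [Int.gcd] using (2 * v).reduced.symm)).pow
    have h8 : ((2 * v).den : ℤ) ^ 2 ∣ n := h7.dvd_of_dvd_mul_right ⟨_, by rw [h6, mul_comm]⟩
    exact Nat.isUnit_iff.1 (hn _ (by rw [← sq]; exact_mod_cast h8))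
  refine ⟨U, (2 * v).num, m, by rw [h3, hm]; simp, ?_⟩
  have h9 : ((2 * v).num : ℚ) = 2 * v := (Rat.den_eq_one_iff _).1 h5
  have : (U : ℚ) ^ 2 + n * ((2 * v).num : ℚ) ^ 2 = 4 * m := by
    rw [h9, h4]
    push_cast
    ring
  exact_mod_cast this

include hn hK hθ in
/-- If the class group has no element of order four, the Redei condition holds. -/
theorem redeiL_of_classGroup (h4 : n % 4 = 3) (h : ∀ c : ClassGroup (𝓞 K), orderOf c ≠ 4) :
    RedeiL n := by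
  intro b c hbc h1 h2
  by_contra hne
  subst hbc
  have hb0 : b ≠ 0 := left_ne_zero_of_mul hn.ne_zero
  have hc0 : c ≠ 0 := right_ne_zero_of_mul hn.ne_zero
  have hb : 1 < b := by omega
  have hc : 1 < c := by omega
  have hcop := Nat.coprime_of_squarefree_mul hn
  obtain ⟨hb2, hc2⟩ := Nat.odd_mul.1 (Nat.odd_iff.2 (by omega : b * c % 2 = 1))
  obtain ⟨T, S, W, hW, e, c1, c2⟩ : ∃ T S W : ℤ, W ≠ 0 ∧ b * T ^ 2 + c * S ^ 2 = 4 * W ^ 2 ∧
      IsCoprime W T ∧ IsCoprime S b := by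
    obtain ⟨T, S, Z, hZ, e, c1, c2⟩ := legendre hb hc hn h1 h2
    rcases Int.even_or_odd' Z with ⟨W, rfl | hW⟩
    · exact ⟨T, S, W, right_ne_zero_of_mul hZ, by linear_combination e, c1.of_mul_left_right, c2⟩
    · obtain ⟨b', hb'⟩ := hb2
      exact ⟨2 * T, 2 * S, Z, hZ, by linear_combination 4 * e,
        IsCoprime.mul_right ⟨1, -W, by rw [hW]; ring⟩ c1,
        IsCoprime.mul_left ⟨-b', 1, by rw [hb']; push_cast; ring⟩ c2⟩
  push_cast at hθ
  obtain ⟨ω, rfl⟩ : ∃ ω : 𝓞 K, (ω : K) = θ :=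
    ⟨⟨θ, X ^ 2 + C ((b * c : ℕ) : ℤ), by monicity!, by simp [hθ]⟩, rfl⟩
  have eK : (b : K) * T ^ 2 + c * S ^ 2 = 4 * W ^ 2 := by
    exact_mod_cast congrArg (Int.cast : ℤ → K) e
  obtain ⟨α, hα⟩ : ∃ α : 𝓞 K, (α : K) = (b * T + S * ω) / 2 :=
    ⟨⟨(b * T + S * ω) / 2, X ^ 2 - C (b * T) * X + C (b * W ^ 2), by monicity!, by
      simp only [eval₂_add, eval₂_sub, eval₂_mul, eval₂_X_pow, eval₂_X, eval₂_C]
      simp only [eq_intCast]
      push_cast
      linear_combination (S : K) ^ 2 / 4 * hθ - (b : K) / 4 * eK⟩, rfl⟩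
  have hω : ω ^ 2 = -(b * c) := RingOfIntegers.ext (by simpa using hθ)
  have hα' : 2 * α = b * T + S * ω := RingOfIntegers.ext (by
    simp only [map_mul, map_add, map_ofNat, map_natCast, map_intCast]
    linear_combination 2 * hα)
  have m1 : (b : 𝓞 K) ∈ Ideal.span {(b : 𝓞 K), ω} := Ideal.subset_span (by simp)
  have m2 : ω ∈ Ideal.span {(b : 𝓞 K), ω} := Ideal.subset_span (by simp)
  have e' : (b : 𝓞 K) * T ^ 2 + c * S ^ 2 = 4 * W ^ 2 := by
    exact_mod_cast congrArg (Int.cast : ℤ → 𝓞 K) e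
  have e1 : α * (b * T - α) = b * W ^ 2 := mul_left_cancel₀ (a := 4) (by norm_num) (by
    linear_combination b * e' - (S : 𝓞 K) ^ 2 * hω + (b * T - S * ω - 2 * α) * hα')
  have m3 : α ∈ Ideal.span {(b : 𝓞 K), ω} := by
    obtain ⟨b', hb'⟩ := hb2
    have hb'' : (b : 𝓞 K) = 2 * b' + 1 := by exact_mod_cast congrArg (Nat.cast : ℕ → 𝓞 K) hb'
    have : α = b * (α - b' * T) - b' * S * ω := by linear_combination -α * hb'' - b' * hα'
    exact (congrArg (· ∈ _) this).mpr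
      (sub_mem (Ideal.mul_mem_right _ _ m1) (Ideal.mul_mem_left _ _ m2))
  obtain ⟨γ, hγ⟩ := principal_of_coprime h (β := b) (W := W) (by exact_mod_cast hb0)
    (by exact_mod_cast hW) (span_mul_self hcop hω) e1 (by
      simpa using sup_eq_span (b := b) c1 c2 (α := α) (α' := b * T - α) (ω := ω) (by simpa using m3)
        (by simpa using e1) (by simp) (by linear_combination hα'))
  have hA := span_mul_self hcop hω
  rw [hγ] at m1 m2 hA
  obtain ⟨δ, hδ⟩ := Ideal.mem_span_singleton.1 m1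
  obtain ⟨ε, hε⟩ := Ideal.mem_span_singleton.1 m2
  obtain ⟨η, hη⟩ : (b : 𝓞 K) ∣ γ * γ := by
    rw [← Ideal.mem_span_singleton, ← hA]
    exact Ideal.mul_mem_mul (Ideal.mem_span_singleton_self γ) (Ideal.mem_span_singleton_self γ)
  have hθ' : (ω : K) ^ 2 = -((b * c : ℕ) : K) := by rw [hθ, Nat.cast_mul]
  obtain ⟨σ, hσ⟩ := exists_conj hn hK hθ'
  obtain ⟨U, V, m, n1, e2⟩ := exists_norm hn hK hθ' hσ γ.isIntegral_coe
  obtain ⟨-, -, m₁, n2, -⟩ := exists_norm hn hK hθ' hσ δ.isIntegral_coe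
  obtain ⟨-, -, m₂, n3, -⟩ := exists_norm hn hK hθ' hσ ε.isIntegral_coe
  obtain ⟨-, -, m₃, n4, -⟩ := exists_norm hn hK hθ' hσ η.isIntegral_coe
  have k1 : (b : K) = γ * δ := by simpa using congrArg (algebraMap (𝓞 K) K) hδ
  have k2 : (ω : K) = γ * ε := by simpa using congrArg (algebraMap (𝓞 K) K) hε
  have k3 : (γ : K) * γ = b * η := by simpa using congrArg (algebraMap (𝓞 K) K) hη
  have l1 := congrArg σ k1
  have l2 := congrArg σ k2
  have l3 := congrArg σ k3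
  simp only [map_mul, map_natCast, hσ] at l1 l2 l3
  have d1 : m ∣ b * b := ⟨m₁, Int.cast_injective (α := K) (by
    push_cast
    rw [← n1, ← n2, mul_mul_mul_comm, ← k1, ← l1])⟩
  have d2 : m ∣ b * c := ⟨m₂, Int.cast_injective (α := K) (by
    push_cast
    rw [← n1, ← n3, mul_mul_mul_comm, ← k2, ← l2]
    linear_combination hθ)⟩
  have d3 : (b : ℤ) ^ 2 ∣ m ^ 2 := ⟨m₃, Int.cast_injective (α := K) (by
    push_cast
    rw [← n1, ← n4, sq, mul_mul_mul_comm, k3, l3]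
    ring)⟩
  obtain ⟨u, v, huv⟩ := Nat.isCoprime_iff_coprime.2 hcop
  have d4 : m ∣ b := by
    rw [show (b : ℤ) = u * (b * b) + v * (b * c) by linear_combination (-b : ℤ) * huv]
    exact dvd_add (d1.mul_left u) (d2.mul_left v)
  have hm : 0 ≤ m := by
    have : 0 ≤ U ^ 2 + (b * c : ℕ) * V ^ 2 := by positivity
    omega
  obtain rfl : m = b := Int.dvd_antisymm hm (by omega) d4 ((Int.pow_dvd_pow_iff two_ne_zero).1 d3)
  push_cast at e2
  obtain ⟨U, rfl⟩ : (b : ℤ) ∣ U :=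
    ((Int.squarefree_natCast.2 hn.of_mul_left).dvd_pow_iff_dvd two_ne_zero).1
      ⟨4 - c * V ^ 2, by linear_combination e2⟩
  have e3 : b * U ^ 2 + c * V ^ 2 = 4 :=
    mul_left_cancel₀ (a := (b : ℤ)) (by omega) (by linear_combination e2)
  obtain ⟨b', rfl⟩ := hb2
  obtain ⟨c', rfl⟩ := hc2
  push_cast at e3
  have hb' : (1 : ℤ) ≤ b' := by omega
  have hc' : (1 : ℤ) ≤ c' := by omega
  have hU : U ^ 2 ≤ 1 := by nlinarith [sq_nonneg V, sq_nonneg U]
  have hV : V ^ 2 ≤ 1 := by nlinarith [sq_nonneg V, sq_nonneg U]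
  have := sq_nonneg U
  have := sq_nonneg V
  generalize U ^ 2 = A at *
  generalize V ^ 2 = B at *
  interval_cases A <;> interval_cases B <;> omega

end

/-- The descent from the class group condition. -/
theorem finite_twist_of_classGroup {n : ℕ} (hn : Squarefree n) (h4 : n % 4 = 3) (h3 : n % 3 = 2)
    (h5 : n % 5 = 2 ∨ n % 5 = 3) {K : Type*} [Field K] [NumberField K]
    (hK : Module.finrank ℚ K = 2) {θ : K} (hθ : θ ^ 2 = -n)
    (h : ∀ c : ClassGroup (𝓞 K), orderOf c ≠ 4) :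
    {q : ℚ × ℚ | q.2 ^ 2 = q.1 ^ 3 + (-12987 * (n : ℚ) ^ 2) * q.1 + 263466 * (n : ℚ) ^ 3}.Finite :=
  finite_twist' hn h4 h3 h5 (redeiL_of_classGroup hn hK hθ h4 h)

end Pool.Agent.P.MP_8b7eba_nt.Desc
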