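import Pool.Agent.P.MP_8b7eba_nt.DescGen

/-! The 2-descent for `y^2 = x (x - 9 n) (x + 16 n)` under the Redei conditions. -/

set_option autoImplicit false
set_option linter.unusedSectionVars false

namespace Pool.Agent.P.MP_8b7eba_nt.Desc

/-- No ambiguous class of norm `b` with `1 < b < n` lies in the principal genus. -/
def RedeiL (n : ℕ) : Prop :=
  ∀ b c : ℕ, b * c = n → (∀ p : ℕ, p.Prime → p ∣ b → IsSquare (c : ZMod p)) →
    (∀ p : ℕ, p.Prime → p ∣ c → IsSquare (b : ZMod p)) → b = 1 ∨ c = 1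

/-- There is no non-trivial splitting of the second kind of the discriminant `-n`. -/
def RedeiR (n : ℕ) : Prop :=
  ∀ d e : ℤ, d * e = -n → d % 4 = 1 → (∀ p : ℕ, p.Prime → (p : ℤ) ∣ d → IsSquare (e : ZMod p)) →
    (∀ p : ℕ, p.Prime → (p : ℤ) ∣ e → IsSquare (d : ZMod p)) → d = 1 ∨ e = 1

theorem isSquare_of_mul {p : ℕ} (hp : p.Prime) {d z W : ℤ} (hz : ¬(p : ℤ) ∣ z)
    (h : (p : ℤ) ∣ d * z ^ 2 - W ^ 2) : IsSquare (d : ZMod p) := by
  have := Fact.mk hp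
  rw [← ZMod.intCast_zmod_eq_zero_iff_dvd] at hz h
  push_cast at h
  refine ⟨W / z, ?_⟩
  field_simp
  linear_combination h

theorem bad_prime {l : ℕ} (hl : l.Prime) {d s Y X W m : ℤ} (hd : ¬(l : ℤ) ∣ d)
    (hm : ¬(l : ℤ) ∣ m) (hX : ¬IsSquare (X : ZMod l)) (e1 : d * s ^ 2 = Y - l * m)
    (e2 : (l : ℤ) ^ 2 * (d * Y * X) = W ^ 2) : False := by
  have hp := Nat.prime_iff_prime_int.1 hl
  obtain ⟨V, rfl⟩ : (l : ℤ) ∣ W := hp.dvd_of_dvd_pow (n := 2) ⟨l * (d * Y * X), by rw [← e2]; ring⟩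
  have e3 : d * Y * X = V ^ 2 := mul_left_cancel₀ (pow_ne_zero 2 hp.ne_zero) (by rw [e2]; ring)
  by_cases hs : (l : ℤ) ∣ s
  · obtain ⟨s, rfl⟩ := hs
    obtain ⟨V, rfl⟩ : (l : ℤ) ∣ V := hp.dvd_of_dvd_pow (n := 2)
      ⟨d * (m + d * l * s ^ 2) * X, by linear_combination -e3 - d * X * e1⟩
    have e4 : d * (m + d * l * s ^ 2) * X = l * V ^ 2 :=
      mul_left_cancel₀ hp.ne_zero (by linear_combination e3 + d * X * e1)
    rcases hp.dvd_or_dvd (show (l : ℤ) ∣ d * (m + d * l * s ^ 2) * X from ⟨_, e4⟩) with h | h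
    · rcases hp.dvd_or_dvd h with h | h
      · exact hd h
      · exact hm (by simpa using dvd_sub h (show (l : ℤ) ∣ d * l * s ^ 2 from ⟨d * s ^ 2, by ring⟩))
    · exact hX (by rw [(ZMod.intCast_zmod_eq_zero_iff_dvd _ _).2 h]; exact IsSquare.zero)
  · refine hX (isSquare_of_mul hl (z := d * s) (W := V) (fun h => (hp.dvd_or_dvd h).elim hd hs)
      ⟨-(d * m * X), by linear_combination e3 + d * X * e1⟩)

theorem exists_sqfree {B : ℤ} (hB : B ≠ 0) : ∃ d s : ℤ, Squarefree d ∧ s ≠ 0 ∧ B = d * s ^ 2 := by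
  obtain ⟨a, b, hab, ha⟩ := Nat.sq_mul_squarefree B.natAbs
  have hb : (b : ℤ) ≠ 0 := by
    rintro h
    have : b = 0 := by exact_mod_cast h
    rw [this] at hab
    exact hB (Int.natAbs_eq_zero.1 (by rw [← hab]; simp))
  have hab' : (b : ℤ) ^ 2 * a = B.natAbs := by exact_mod_cast hab
  rcases Int.natAbs_eq B with h | h
  · exact ⟨a, b, Int.squarefree_natCast.2 ha, hb, by rw [h, ← hab']; ring⟩
  · exact ⟨-a, b, by
      rw [← Int.squarefree_natAbs]; simpa using ha, hb, by rw [h, ← hab']; ring⟩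

theorem dvd_of_sqfree {d m : ℤ} (hd : Squarefree d)
    (h : ∀ p : ℕ, p.Prime → (p : ℤ) ∣ d → (p : ℤ) ∣ m) : d ∣ m := by
  rw [← Int.natAbs_dvd_natAbs]
  have hd' := Int.squarefree_natAbs.2 hd
  rw [← Nat.prod_primeFactors_of_squarefree hd']
  refine Finset.prod_primes_dvd _ (fun p hp => (Nat.prime_of_mem_primeFactors hp).prime) fun p hp => ?_
  exact Int.natCast_dvd.1 (h p (Nat.prime_of_mem_primeFactors hp)
    (Int.natCast_dvd.2 (Nat.dvd_of_mem_primeFactors hp)))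

theorem cancel_sq {d s X W : ℤ} (hs : s ≠ 0) (e : d * s ^ 2 * X = W ^ 2) :
    ∃ V, d * X = V ^ 2 := by
  obtain ⟨V, rfl⟩ : s ∣ W := (Int.pow_dvd_pow_iff two_ne_zero).1 ⟨d * X, by rw [← e]; ring⟩
  exact ⟨V, mul_left_cancel₀ (pow_ne_zero 2 hs) (by linear_combination e)⟩

theorem not_sq_dvd {d : ℤ} (hd : Squarefree d) {p : ℕ} (hp : p.Prime) {d₀ : ℤ}
    (e : d = p * d₀) : ¬(p : ℤ) ∣ d₀ := by
  rintro ⟨c, rfl⟩
  exact (Nat.prime_iff_prime_int.1 hp).not_isUnit (hd p ⟨c, by rw [e]; ring⟩)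

theorem dvd_small {p : ℕ} (hp : p.Prime) {q : ℕ} (hq : q.Prime) {k : ℕ} (h : (p : ℤ) ∣ (q : ℤ) ^ k) :
    p = q :=
  (Nat.prime_dvd_prime_iff_eq hp hq).1 (Int.natCast_dvd_natCast.1
    ((Nat.prime_iff_prime_int.1 hp).dvd_of_dvd_pow h))

section
variable {n : ℕ} (hn : Squarefree n) (h4 : n % 4 = 3) (h3 : n % 3 = 2) (h5 : n % 5 = 2 ∨ n % 5 = 3)
  {u t : ℤ} (hc : IsCoprime u t)

include hc in
theorem not_dvd_t {p : ℕ} (hp : p.Prime) (h : (p : ℤ) ∣ u) : ¬(p : ℤ) ∣ t := fun h' =>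
  (Nat.prime_iff_prime_int.1 hp).not_isUnit (hc.isUnit_of_dvd' h h')

include h4 h3 h5 in
theorem not_dvd_mul {p : ℕ} (hp : p.Prime) (hpn : (p : ℤ) ∣ n) {t : ℤ} (ht : ¬(p : ℤ) ∣ t) :
    ¬(p : ℤ) ∣ 3 * t ∧ ¬(p : ℤ) ∣ 5 * t := by
  have hp' := Nat.prime_iff_prime_int.1 hp
  have hpn' := Int.natCast_dvd_natCast.1 hpn
  refine ⟨fun h => (hp'.dvd_or_dvd h).elim (fun h => ?_) ht,
    fun h => (hp'.dvd_or_dvd h).elim (fun h => ?_) ht⟩
  · obtain rfl := dvd_small hp Nat.prime_three (k := 1) (by simpa using h)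
    omega
  · obtain rfl := dvd_small hp Nat.prime_five (k := 1) (by simpa using h)
    omega

include h4 h3 h5 hc in
theorem step1_dvd {d s V : ℤ} (hd : Squarefree d) (e1 : u - 9 * n * t ^ 2 = d * s ^ 2)
    (e2 : d * (u * (u + 16 * n * t ^ 2)) = V ^ 2) : d ∣ n := by
  refine dvd_of_sqfree hd fun l hl hld => ?_
  have hp := Nat.prime_iff_prime_int.1 hl
  obtain ⟨d₀, hd₀⟩ := hld
  have hd₁ := not_sq_dvd hd hl hd₀
  have hB : (l : ℤ) ∣ u - 9 * n * t ^ 2 := ⟨d₀ * s ^ 2, by rw [e1, hd₀]; ring⟩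
  have ht : ¬(l : ℤ) ∣ t := fun h => not_dvd_t hc hl (by
    simpa using dvd_add hB (show (l : ℤ) ∣ 9 * n * t ^ 2 from
      Dvd.dvd.mul_left (dvd_pow h two_ne_zero) _)) h
  obtain ⟨V', hV⟩ : (l : ℤ) ∣ V := hp.dvd_of_dvd_pow (n := 2) ⟨d₀ * (u * (u + 16 * n * t ^ 2)), by
    rw [← e2, hd₀]; ring⟩
  have h1 : (l : ℤ) ∣ d₀ * (u * (u + 16 * n * t ^ 2)) :=
    ⟨V' ^ 2, mul_left_cancel₀ hp.ne_zero (by rw [hd₀, hV] at e2; linear_combination e2)⟩
  by_contra hln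
  have key : ∀ q : ℕ, q.Prime → (l : ℤ) ∣ (q : ℤ) ^ 2 * n * t ^ 2 → l = q := fun q hq h =>
    (hp.dvd_or_dvd h).elim (fun h => (hp.dvd_or_dvd h).elim (dvd_small hl hq) fun h => absurd h hln)
      fun h => absurd (hp.dvd_of_dvd_pow h) ht
  have hnt : ¬(l : ℤ) ∣ n * t ^ 2 := fun h =>
    (hp.dvd_or_dvd h).elim hln fun h => ht (hp.dvd_of_dvd_pow h)
  rcases hp.dvd_or_dvd ((hp.dvd_or_dvd h1).resolve_left hd₁) with h | h
  · obtain rfl : l = 3 := key 3 Nat.prime_three (by simpa using dvd_sub h hB)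
    obtain ⟨u', rfl⟩ := h
    refine bad_prime Nat.prime_three hd₁ hnt (s := s) (Y := u') (X := 3 * u' + 16 * n * t ^ 2)
      (W := V) (fun hsq => ?_) ?_ ?_
    · rw [← ZMod.intCast_zmod_eq_zero_iff_dvd] at ht
      have hn3 : (n : ZMod 3) = 2 := by rw [← ZMod.natCast_mod, h3]; rfl
      push_cast at hsq
      rw [hn3] at hsq
      revert hsq ht
      generalize (u' : ZMod 3) = a
      generalize (t : ZMod 3) = b
      revert a b
      decide
    · rw [hd₀] at e1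
      push_cast at e1 ⊢
      linarith
    · rw [hd₀] at e2
      push_cast at e2 ⊢
      linear_combination e2
  · obtain rfl : l = 5 := key 5 Nat.prime_five (by
      rw [show ((5 : ℕ) : ℤ) ^ 2 * n * t ^ 2 = u + 16 * n * t ^ 2 - (u - 9 * n * t ^ 2) by
        push_cast; ring]
      exact dvd_sub h hB)
    obtain ⟨C', hC⟩ := h
    refine bad_prime Nat.prime_five hd₁ hnt (s := s) (Y := C') (X := u)
      (W := V) (fun hsq => ?_) ?_ ?_
    · rw [← ZMod.intCast_zmod_eq_zero_iff_dvd] at ht hB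
      have hn5 : (n : ZMod 5) = 2 ∨ (n : ZMod 5) = 3 := by
        rw [← ZMod.natCast_mod]
        rcases h5 with h | h <;> rw [h] <;> simp
      push_cast at hB
      revert hsq ht hB hn5
      generalize (u : ZMod 5) = a
      generalize (t : ZMod 5) = b
      generalize (n : ZMod 5) = c
      revert a b c
      decide
    · rw [hd₀] at e1
      push_cast at e1 hC ⊢
      linarith
    · rw [hd₀, hC] at e2
      push_cast at e2 ⊢
      linear_combination e2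

include h4 hc in
theorem step1_mod {d s V : ℤ} (hd : d % 2 = 1) (e1 : u - 9 * n * t ^ 2 = d * s ^ 2)
    (e2 : d * (u * (u + 16 * n * t ^ 2)) = V ^ 2) : d % 4 = 1 := by
  have hn4 : (n : ZMod 4) = 3 := by rw [← ZMod.natCast_mod, h4]; rfl
  have hd4 : (d : ZMod 4) = 1 → d % 4 = 1 := fun h => by
    have : ((d - 1 : ℤ) : ZMod 4) = 0 := by push_cast; rw [h, sub_self]
    rw [ZMod.intCast_zmod_eq_zero_iff_dvd] at this
    omega
  obtain ⟨d', rfl⟩ : ∃ d', d = 2 * d' + 1 := ⟨d / 2, by omega⟩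
  have odd : ∀ a m W : ℤ, (2 * d' + 1) * ((2 * a + 1) * (2 * a + 1 + 4 * m)) = W ^ 2 →
      (2 * d' + 1) % 4 = 1 := fun a m W h => hd4 (by
    have := congrArg (Int.cast : ℤ → ZMod 4) h
    push_cast at this ⊢
    revert this
    generalize (a : ZMod 4) = a
    generalize (m : ZMod 4) = m
    generalize (W : ZMod 4) = W
    generalize (d' : ZMod 4) = d'
    revert a m W d'
    decide)
  rcases Int.even_or_odd' u with ⟨a, rfl | rfl⟩
  · obtain ⟨b, rfl⟩ : ∃ b, t = 2 * b + 1 := by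
      have := not_dvd_t hc Nat.prime_two ⟨a, rfl⟩
      exact ⟨t / 2, by omega⟩
    rcases Int.even_or_odd' a with ⟨a, rfl | rfl⟩
    · refine hd4 ?_
      have := congrArg (Int.cast : ℤ → ZMod 4) e1
      push_cast at this ⊢
      rw [hn4] at this
      revert this
      generalize (a : ZMod 4) = a
      generalize (b : ZMod 4) = b
      generalize (s : ZMod 4) = s
      generalize (d' : ZMod 4) = d'
      revert a b s d'
      decide
    · obtain ⟨W, hW⟩ := cancel_sq (d := 2 * d' + 1) (s := 2) (W := V)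
        (X := (2 * a + 1) * (2 * a + 1 + 4 * (2 * n * (2 * b + 1) ^ 2))) two_ne_zero
        (by linear_combination e2)
      exact odd _ _ _ hW
  · exact odd a (4 * n * t ^ 2) V (by linear_combination e2)

include hn h4 h3 h5 hc in
theorem step1 (hR : RedeiR n) {W : ℤ} (hW : W ≠ 0)
    (e : u * (u - 9 * n * t ^ 2) * (u + 16 * n * t ^ 2) = W ^ 2) :
    ∃ s : ℤ, u - 9 * n * t ^ 2 = s ^ 2 ∨ u - 9 * n * t ^ 2 = -n * s ^ 2 := by
  have hB : u - 9 * n * t ^ 2 ≠ 0 := fun h => hW (by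
    rw [h] at e
    exact pow_eq_zero_iff two_ne_zero |>.1 (by rw [← e]; ring))
  obtain ⟨d, s, hd, hs, e1⟩ := exists_sqfree hB
  obtain ⟨V, e2⟩ := cancel_sq (d := d) (X := u * (u + 16 * n * t ^ 2)) (W := W) hs
    (by rw [← e1, ← e]; ring)
  obtain ⟨d', hd'⟩ := step1_dvd h4 h3 h5 hc hd e1 e2
  have hodd : d % 2 = 1 := by
    by_contra h
    have : (2 : ℤ) ∣ n := (show (2 : ℤ) ∣ d by omega).trans ⟨d', hd'⟩
    omega
  have hn' : Squarefree (n : ℤ) := Int.squarefree_natCast.2 hn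
  refine (hR d (-d') (by rw [hd']; ring) (step1_mod h4 hc hodd e1 e2) (fun p hp hpd => ?_)
    (fun p hp hpd => ?_)).elim (fun h => ⟨s, .inl (by rw [e1, h, one_mul])⟩)
    fun h => ⟨s, .inr (by rw [e1, hd', show d' = -1 by omega]; ring)⟩
  · have hp' := Nat.prime_iff_prime_int.1 hp
    obtain ⟨d₀, rfl⟩ := hpd
    have hd₀ := not_sq_dvd hd hp rfl
    obtain ⟨u', rfl⟩ : (p : ℤ) ∣ u := ⟨d₀ * s ^ 2 + 9 * (d₀ * d') * t ^ 2, by
      rw [hd'] at e1; linear_combination e1⟩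
    obtain ⟨n3, n5⟩ := not_dvd_mul h4 h3 h5 hp ⟨d₀ * d', by rw [hd']; ring⟩
      (not_dvd_t hc hp ⟨u', rfl⟩)
    rw [hd'] at e1 e2
    have e3 : d₀ * s ^ 2 = u' - 9 * (d₀ * d') * t ^ 2 :=
      mul_left_cancel₀ hp'.ne_zero (by linear_combination -e1)
    obtain ⟨V', e4⟩ := cancel_sq (d := p) (s := p) (W := V)
      (X := d₀ * (u' * (u' + 16 * (d₀ * d') * t ^ 2))) hp'.ne_zero (by linear_combination e2)
    obtain ⟨V', rfl⟩ : (p : ℤ) ∣ V' := hp'.dvd_of_dvd_pow (n := 2) ⟨_, e4.symm⟩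
    have h1 : (p : ℤ) ∣ d₀ * (u' * (u' + 16 * (d₀ * d') * t ^ 2)) :=
      ⟨V' ^ 2, mul_left_cancel₀ hp'.ne_zero (by linear_combination e4)⟩
    rcases hp'.dvd_or_dvd ((hp'.dvd_or_dvd h1).resolve_left hd₀) with h | h
    · refine isSquare_of_mul hp n3 (W := s) ((hp'.dvd_or_dvd (a := d₀) ?_).resolve_left hd₀)
      convert h.neg_right using 1
      linear_combination -e3
    · refine isSquare_of_mul hp n5 (W := s) ((hp'.dvd_or_dvd (a := d₀) ?_).resolve_left hd₀)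
      convert h.neg_right using 1
      linear_combination -e3
  · have hp' := Nat.prime_iff_prime_int.1 hp
    obtain ⟨c, rfl⟩ : (p : ℤ) ∣ d' := by simpa using hpd
    have hn₀ := not_sq_dvd hn' hp (d₀ := d * c) (by rw [hd']; ring)
    by_cases hu : (p : ℤ) ∣ u
    · obtain ⟨u', rfl⟩ := hu
      obtain ⟨n3, n5⟩ := not_dvd_mul h4 h3 h5 hp ⟨d * c, by rw [hd']; ring⟩
        (not_dvd_t hc hp ⟨u', rfl⟩)
      rw [hd'] at e1 e2
      obtain ⟨s', rfl⟩ : (p : ℤ) ∣ s := hp'.dvd_of_dvd_pow (n := 2) ((hp'.dvd_or_dvd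
        (show (p : ℤ) ∣ d * s ^ 2 from ⟨u' - 9 * (d * c) * t ^ 2, by linear_combination -e1⟩)).resolve_left
        fun h => hn₀ (h.mul_right c))
      have e3 : u' = 9 * (d * c) * t ^ 2 + p * d * s' ^ 2 :=
        mul_left_cancel₀ hp'.ne_zero (by linear_combination e1)
      obtain ⟨V', e4⟩ := cancel_sq (d := d) (s := p) (W := V)
        (X := u' * (u' + 16 * (d * c) * t ^ 2)) hp'.ne_zero (by linear_combination e2)
      refine isSquare_of_mul hp (z := d * c * (3 * t * (5 * t))) (W := V') (fun h => ?_)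
        ⟨-(d * (d * s' ^ 2) * (34 * (d * c) * t ^ 2 + p * d * s' ^ 2)), by
          rw [← e4, e3]; ring⟩
      exact (hp'.dvd_or_dvd h).elim hn₀ fun h => (hp'.dvd_or_dvd h).elim n3 n5
    · exact isSquare_of_mul hp hu (W := V) ⟨-(d * u * 16 * (d * c) * t ^ 2), by
        rw [← e2, hd']; ring⟩

include hn h4 h3 h5 hc in
theorem step2 (hL : RedeiL n) (ht : t ≠ 0) {s V : ℤ} (e1 : u - 9 * n * t ^ 2 = s ^ 2)
    (e2 : u * (u + 16 * n * t ^ 2) = V ^ 2) : ∃ r : ℤ, u = r ^ 2 ∨ u = n * r ^ 2 := by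
  have hn0 : (0 : ℤ) < n := by omega
  have hu : 0 < u := by
    have : 0 < 9 * n * t ^ 2 := by positivity
    nlinarith [sq_nonneg s]
  obtain ⟨b, r, hb, hr, e3⟩ := exists_sqfree hu.ne'
  have hb0 : 0 < b := by
    by_contra h
    nlinarith [sq_nonneg r]
  obtain ⟨V', e4⟩ := cancel_sq (d := b) (X := u + 16 * n * t ^ 2) (W := V) hr (by rw [← e3, e2])
  obtain ⟨c, hbc⟩ : b ∣ n := dvd_of_sqfree hb fun l hl hlb => by
    have hp := Nat.prime_iff_prime_int.1 hl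
    obtain ⟨b₀, rfl⟩ := hlb
    have hb₀ := not_sq_dvd hb hl rfl
    have hlu : (l : ℤ) ∣ u := ⟨b₀ * r ^ 2, by rw [e3]; ring⟩
    have hlt := not_dvd_t hc hl hlu
    obtain ⟨V', rfl⟩ : (l : ℤ) ∣ V' := hp.dvd_of_dvd_pow (n := 2)
      ⟨b₀ * (u + 16 * n * t ^ 2), by rw [← e4]; ring⟩
    have h1 : (l : ℤ) ∣ b₀ * (u + 16 * n * t ^ 2) :=
      ⟨V' ^ 2, mul_left_cancel₀ hp.ne_zero (by linear_combination e4)⟩
    have h2 : (l : ℤ) ∣ ((2 : ℕ) : ℤ) ^ 4 * n * t ^ 2 := by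
      simpa using dvd_sub ((hp.dvd_or_dvd h1).resolve_left hb₀) hlu
    refine (hp.dvd_or_dvd ((hp.dvd_or_dvd h2).resolve_right
      fun h => hlt (hp.dvd_of_dvd_pow h))).resolve_left fun h => ?_
    obtain rfl := dvd_small hl Nat.prime_two h
    have hn4 : (n : ZMod 4) = 3 := by rw [← ZMod.natCast_mod, h4]; rfl
    obtain ⟨t', rfl⟩ : ∃ t', t = 2 * t' + 1 := ⟨t / 2, by omega⟩
    obtain ⟨b', rfl⟩ : ∃ b', b₀ = 2 * b' + 1 := ⟨b₀ / 2, by omega⟩
    rw [e3] at e1 e4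
    rcases Int.even_or_odd' r with ⟨r', rfl | rfl⟩
    · obtain ⟨U, e5⟩ := cancel_sq (d := 2 * b' + 1) (s := 4) (W := (2 : ℕ) * V')
        (X := (2 * b' + 1) * r' ^ 2 + 2 * n * (2 * t' + 1) ^ 2) (by norm_num)
        (by push_cast at e4 ⊢; linear_combination e4)
      have := congrArg (Int.cast : ℤ → ZMod 4) e5
      push_cast at this
      rw [hn4] at this
      revert this
      generalize (b' : ZMod 4) = a
      generalize (r' : ZMod 4) = b
      generalize (t' : ZMod 4) = c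
      generalize (U : ZMod 4) = d
      revert a b c d
      decide
    · have := congrArg (Int.cast : ℤ → ZMod 4) e1
      push_cast at this
      rw [hn4] at this
      revert this
      generalize (b' : ZMod 4) = a
      generalize (r' : ZMod 4) = b
      generalize (t' : ZMod 4) = c
      generalize (s : ZMod 4) = d
      revert a b c d
      decide
  have hc0 : 0 < c := by
    by_contra h
    nlinarith
  have hn' : Squarefree (n : ℤ) := Int.squarefree_natCast.2 hn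
  lift b to ℕ using hb0.le
  lift c to ℕ using hc0.le
  refine (hL b c (by exact_mod_cast hbc.symm) (fun p hp hpb => ?_) (fun p hp hpc => ?_)).elim
    (fun h => ⟨r, .inl (by rw [e3, h]; simp)⟩) fun h => ⟨r, .inr (by rw [e3, hbc, h]; simp)⟩
  · have hpb' : (p : ℤ) ∣ b := Int.natCast_dvd_natCast.2 hpb
    obtain ⟨n3, -⟩ := not_dvd_mul h4 h3 h5 hp (hpb'.trans ⟨c, hbc⟩)
      (not_dvd_t hc hp (hpb'.trans ⟨_, e3⟩))
    obtain ⟨s', rfl⟩ : (b : ℤ) ∣ s := (hb.dvd_pow_iff_dvd two_ne_zero).1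
      ⟨r ^ 2 - 9 * c * t ^ 2, by rw [← e1, e3, hbc]; ring⟩
    have e5 : c * (3 * t) ^ 2 - r ^ 2 = b * -s' ^ 2 :=
      mul_left_cancel₀ hb0.ne' (by rw [hbc, e3] at e1; linear_combination -e1)
    simpa using isSquare_of_mul hp n3 (d := c) (W := r) (hpb'.trans ⟨_, e5⟩)
  · have hp' := Nat.prime_iff_prime_int.1 hp
    obtain ⟨c₀, rfl⟩ := hpc
    have hn₀ := not_sq_dvd hn' hp (d₀ := b * c₀) (by rw [hbc]; push_cast; ring)
    push_cast at hbc
    rw [hbc, e3] at e1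
    have hpr : ¬(p : ℤ) ∣ r := fun h => by
      obtain ⟨n3, -⟩ := not_dvd_mul h4 h3 h5 hp ⟨b * c₀, by rw [hbc]; ring⟩
        (not_dvd_t hc hp (e3 ▸ (dvd_pow h two_ne_zero).mul_left _))
      obtain ⟨r', rfl⟩ := h
      obtain ⟨s', rfl⟩ : (p : ℤ) ∣ s := hp'.dvd_of_dvd_pow (n := 2)
        ⟨b * p * r' ^ 2 - 9 * (b * c₀) * t ^ 2, by linear_combination -e1⟩
      have h1 : (p : ℤ) ∣ b * c₀ * (3 * t) ^ 2 :=
        ⟨b * r' ^ 2 - s' ^ 2, mul_left_cancel₀ hp'.ne_zero (by linear_combination -e1)⟩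
      exact (hp'.dvd_or_dvd h1).elim hn₀ fun h => n3 (hp'.dvd_of_dvd_pow h)
    simpa using isSquare_of_mul hp hpr (d := b) (W := s)
      ⟨9 * (b * c₀) * t ^ 2, by linear_combination e1⟩

end

/-- The twist of `X_0(15)` by `-n` has finitely many rational points. -/
theorem finite_twist {n : ℕ} (hn : Squarefree n) (h4 : n % 4 = 3) (h3 : n % 3 = 2)
    (h5 : n % 5 = 2 ∨ n % 5 = 3) (hL : RedeiL n) (hR : RedeiR n) :
    {q : ℚ × ℚ | q.2 ^ 2 = q.1 * (q.1 - 9 * n) * (q.1 + 16 * n)}.Finite := by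
  have hn0 : (n : ℚ) ≠ 0 := by
    have : n ≠ 0 := by omega
    exact_mod_cast this
  have ha : (9 * n : ℚ) ≠ 0 := by positivity
  have hb : (-(16 * n) : ℚ) ≠ 0 := by simpa using hn0
  have hab : (-(16 * n) : ℚ) - 9 * n ≠ 0 := fun h => hn0 (by linarith)
  have hint : ∀ x : ℚ, InS (9 * n) (-(16 * n)) x → ∃ u t W : ℤ, IsCoprime u t ∧ t ≠ 0 ∧ W ≠ 0 ∧
      x = u / t ^ 2 ∧ u * (u - 9 * n * t ^ 2) * (u + 16 * n * t ^ 2) = W ^ 2 := fun x hx => by
    obtain ⟨u, t, W, h1, h2, h3, h4, h5⟩ := exists_int (a := 9 * n) (b := -(16 * n)) (x := x)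
      (by exact_mod_cast hx)
    exact ⟨u, t, W, h1, h2, h3, h4, by linear_combination h5⟩
  simpa only [sub_neg_eq_add] using finite_points (finite_inS ha hb hab (fun x hx => by
    obtain ⟨u, t, W, hc, ht, hW, rfl, e⟩ := hint x hx
    obtain ⟨s, hs⟩ := step1 hn h4 h3 h5 hc hR hW e
    obtain ⟨n1, n2, n3⟩ := hx.ne
    have ht' : (t : ℚ) ≠ 0 := by exact_mod_cast ht
    have hu : (u : ℚ) ≠ 0 := fun h => n1 (by rw [h, zero_div])
    have e' : (u : ℚ) * (u - 9 * n * t ^ 2) * (u + 16 * n * t ^ 2) = W ^ 2 := by exact_mod_cast e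
    rcases hs with hs | hs
    · have hs' : (u : ℚ) - 9 * n * t ^ 2 = s ^ 2 := by exact_mod_cast hs
      exact .inl ⟨s / t, by field_simp; linear_combination hs'⟩
    · have hs' : (u : ℚ) - 9 * n * t ^ 2 = -n * s ^ 2 := by exact_mod_cast hs
      have hs0 : (s : ℚ) ≠ 0 := fun h => n2 (by
        rw [h] at hs'
        field_simp
        linear_combination hs')
      refine .inr ⟨3 * W / (u * s), ?_⟩
      rw [hs'] at e'
      field_simp
      linear_combination 9 * e') fun x hx hsq => by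
    obtain ⟨u, t, W, hc, ht, hW, rfl, e⟩ := hint x hx
    obtain ⟨n1, n2, n3⟩ := hx.ne
    have ht' : (t : ℚ) ≠ 0 := by exact_mod_cast ht
    have hW' : (W : ℚ) ≠ 0 := by exact_mod_cast hW
    obtain ⟨s, hs⟩ : IsSquare (u - 9 * n * t ^ 2) := by
      obtain ⟨z, hz⟩ := hsq
      refine Rat.isSquare_intCast_iff.1 ⟨z * t, ?_⟩
      push_cast
      field_simp at hz
      linear_combination hz
    have hs0 : s ≠ 0 := by
      rintro rfl
      rw [hs] at e
      exact hW (pow_eq_zero_iff two_ne_zero |>.1 (by rw [← e]; ring))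
    obtain ⟨V, hV⟩ := cancel_sq (d := 1) (X := u * (u + 16 * n * t ^ 2)) (W := W) hs0
      (by rw [← e, hs]; ring)
    obtain ⟨r, hr⟩ := step2 hn h4 h3 h5 hc hL ht (s := s) (V := V) (by rw [hs, sq])
      (by rw [← hV, one_mul])
    have hs' : (u : ℚ) - 9 * n * t ^ 2 = s * s := by exact_mod_cast hs
    have hs1 : (s : ℚ) ≠ 0 := by exact_mod_cast hs0
    have hV' : (u : ℚ) * (u + 16 * n * t ^ 2) = V ^ 2 := by exact_mod_cast (one_mul _).symm.trans hV
    have hu : (u : ℚ) ≠ 0 := fun h => n1 (by rw [h, zero_div])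
    have hV0 : (V : ℚ) ≠ 0 := fun h => n3 (by
      rw [h, zero_pow two_ne_zero, mul_eq_zero] at hV'
      field_simp
      linear_combination hV'.resolve_left hu)
    have e2 : (u : ℚ) / t ^ 2 - 9 * n = (s / t) ^ 2 := by field_simp; linear_combination hs'
    rcases hr with hr | hr
    · have hr' : (u : ℚ) = r ^ 2 := by exact_mod_cast hr
      have hr0 : (r : ℚ) ≠ 0 := fun h => hu (by rw [hr', h]; ring)
      refine .inl ⟨r / t, s / t, V / (r * t), by positivity, by positivity, by positivity,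
        by rw [hr', div_pow], e2, ?_⟩
      field_simp
      linear_combination hV' - (u + 16 * n * t ^ 2) * hr'
    · have hr' : (u : ℚ) = n * r ^ 2 := by exact_mod_cast hr
      have hr0 : (r : ℚ) ≠ 0 := fun h => hu (by rw [hr', h]; ring)
      refine .inr ⟨3 * V / (r * s), 15 * n * t / s, 5 * n * r / s, by positivity, by positivity,
        by positivity, ?_, ?_, ?_⟩ <;> rw [e2] <;> field_simp
      · linear_combination 9 * hV' - 9 * (u + 16 * n * t ^ 2) * hr'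
      · linear_combination 9 * hs'
      · linear_combination 25 * hr' - 16 * hs')

/-- The same in short Weierstrass form. -/
theorem finite_twist_short {n : ℕ} (hn : Squarefree n) (h4 : n % 4 = 3) (h3 : n % 3 = 2)
    (h5 : n % 5 = 2 ∨ n % 5 = 3) (hL : RedeiL n) (hR : RedeiR n) :
    {q : ℚ × ℚ | q.2 ^ 2 = q.1 ^ 3 + (-12987 * (n : ℚ) ^ 2) * q.1 + 263466 * (n : ℚ) ^ 3}.Finite := by
  refine ((finite_twist hn h4 h3 h5 hL hR).image
    fun q : ℚ × ℚ => (9 * q.1 + 21 * (n : ℚ), 27 * q.2)).subset ?_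
  rintro ⟨x, y⟩ h
  simp only [Set.mem_ofPred_eq] at h
  refine ⟨((x - 21 * n) / 9, y / 27), ?_, Prod.ext (by ring) (by ring)⟩
  simp only [Set.mem_ofPred_eq]
  linear_combination h / 729

end Pool.Agent.P.MP_8b7eba_nt.Desc
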