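import Mathlib

/-! The elliptic integral of `dx / y` on `y ^ 2 = 4 x ^ 3 - 7 x ^ 2 - 36 x`. -/

open Complex Filter Topology MeasureTheory Set
open scoped Real ComplexConjugate

namespace Pool.Agent.P.MP_8b7eba_nt.Mod

/-- The square root with its cut along the negative imaginary axis. -/
noncomputable def rt (x : ℂ) : ℂ := (1 + I) * (-I * x / 2) ^ (2⁻¹ : ℂ)

lemma rt_sq (x : ℂ) : rt x ^ 2 = x := by
  rw [rt, mul_pow, cpow_ofNat_inv_pow]
  linear_combination (-x - I * x / 2) * I_sq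

lemma rt_eq {x w : ℂ} (hw : w ^ 2 = x) (h : 0 < w.re + w.im ∨ w = 0) : rt x = w := by
  rcases h with h | h
  · rw [rt, show -I * x / 2 = (w * (1 - I) / 2) ^ 2 by
      linear_combination I / 2 * hw - w ^ 2 / 4 * I_sq, sq_cpow_two_inv (by simpa using h)]
    linear_combination -w / 2 * I_sq
  · simp [rt, ← hw, h]

lemma rt_pos {x : ℝ} (hx : 0 ≤ x) : rt x = √x :=
  rt_eq (by rw [← ofReal_pow, Real.sq_sqrt hx]) (by
    simpa [eq_comm (b := (0 : ℝ))] using (Real.sqrt_nonneg x).lt_or_eq)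

lemma rt_neg {x : ℝ} (hx : x ≤ 0) : rt x = I * √(-x) :=
  rt_eq (by rw [mul_pow, ← ofReal_pow, Real.sq_sqrt (by linarith), I_sq]; simp) (by
    simpa [eq_comm (b := (0 : ℝ))] using (Real.sqrt_nonneg (-x)).lt_or_eq)

lemma rt_diff {x : ℂ} (h : 0 < x.im ∨ x.re ≠ 0) : DifferentiableAt ℂ rt x := by
  refine (DifferentiableAt.cpow_const (by fun_prop) ?_).const_mul _
  simpa [mem_slitPlane_iff] using h

/-- The cubic. -/
def cub {R : Type*} [CommRing R] (x : R) : R := 4 * x ^ 3 - 7 * x ^ 2 - 36 * x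

lemma cub_eq {R : Type*} [CommRing R] (x : R) : cub x = x * (4 * x + 9) * (x - 4) := by
  rw [cub]; ring

lemma cub_ofReal (x : ℝ) : cub (x : ℂ) = (cub x : ℝ) := by simp [cub]

lemma cub_conj (x : ℂ) : cub (conj x) = conj (cub x) := by simp [cub, map_ofNat]

/-- A branch of the inverse square root of the cubic. -/
noncomputable def hh (x : ℂ) : ℂ := (rt x * rt (4 * x + 9) * rt (x - 4))⁻¹

lemma hh_sq (x : ℂ) : hh x ^ 2 = (cub x)⁻¹ := by
  simp only [hh, inv_pow, mul_pow, rt_sq, cub_eq]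

/-- The domain on which `hh` is holomorphic. -/
def Dom (x : ℂ) : Prop := 0 < x.im ∨ cub x.re ≠ 0

lemma hh_diff {x : ℂ} (h : Dom x) : DifferentiableAt ℂ hh x := by
  have h' : ∀ y : ℂ, 0 < y.im ∨ y.re ≠ 0 → rt y ≠ 0 := fun y hy h0 => by
    have := rt_sq y
    rw [h0, zero_pow two_ne_zero] at this
    simp [← this] at hy
  simp only [Dom, cub_eq, ne_eq, mul_eq_zero, not_or] at h
  have h1 : 0 < x.im ∨ x.re ≠ 0 := h.imp_right fun h => h.1.1
  have h2 : 0 < (4 * x + 9).im ∨ (4 * x + 9).re ≠ 0 := by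
    simpa using h.imp_right fun h => h.1.2
  have h3 : 0 < (x - 4).im ∨ (x - 4).re ≠ 0 := by simpa using h.imp_right fun h => h.2
  exact (((rt_diff h1).mul ((rt_diff h2).comp (f := fun x => 4 * x + 9) x (by fun_prop))).mul
    ((rt_diff h3).comp (f := fun x => x - 4) x (by fun_prop))).inv
    (mul_ne_zero (mul_ne_zero (h' _ h1) (h' _ h2)) (h' _ h3))

lemma norm_hh {x : ℂ} {t : ℝ} (ht : 0 < t) (h : t ^ 2 ≤ x.im) :
    ‖hh x‖ * t ≤ (1 + t ^ 2)⁻¹ := by
  have h0 : 0 < x.im := lt_of_lt_of_le (by positivity) h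
  have h1 : (x.im * (1 + x.im) ^ 2) ^ 2 ≤ ‖cub x‖ ^ 2 := by
    rw [cub_eq, norm_mul, norm_mul, mul_pow (‖x‖ * _), mul_pow ‖x‖]
    simp only [← Complex.normSq_eq_norm_sq, normSq_apply]
    simp only [add_re, mul_re, add_im, mul_im, sub_re, sub_im, re_ofNat, im_ofNat]
    generalize x.re = a
    generalize x.im = b at h0
    have h2 : (b * (1 + b) ^ 2) ^ 2 ≤ 16 * (b ^ 2 * (1 + b ^ 2) * (1 + b ^ 2)) := by
      have : (1 + b) ^ 2 ≤ 2 * (1 + b ^ 2) := by nlinarith [sq_nonneg (1 - b)]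
      have := pow_le_pow_left₀ (by positivity) this 2
      nlinarith [mul_le_mul_of_nonneg_left this (sq_nonneg b), sq_nonneg (b * (1 + b ^ 2))]
    have key : ∀ p q r : ℝ, 0 ≤ p → 1 ≤ q → 1 ≤ r → b ^ 2 * (1 + b ^ 2) * (1 + b ^ 2) ≤
        (p + b ^ 2) * (q + b ^ 2) * (r + b ^ 2) := fun p q r _ _ _ => by gcongr; linarith
    refine h2.trans ?_
    rcases le_total a (-9 / 8) with h | h
    · nlinarith [key ((a + 9 / 4) ^ 2) (a ^ 2) ((a - 4) ^ 2) (by positivity) (by nlinarith)
        (by nlinarith)]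
    rcases le_total a 2 with h' | h'
    · nlinarith [key (a ^ 2) ((a + 9 / 4) ^ 2) ((a - 4) ^ 2) (by positivity) (by nlinarith)
        (by nlinarith)]
    · nlinarith [key ((a - 4) ^ 2) (a ^ 2) ((a + 9 / 4) ^ 2) (by positivity) (by nlinarith)
        (by nlinarith)]
  have h2 : (t * (1 + t ^ 2)) ^ 2 ≤ ‖cub x‖ := by
    refine le_trans ?_ ((sq_le_sq₀ (by positivity) (norm_nonneg _)).1 h1)
    rw [mul_pow]
    gcongr
  rw [← le_div_iff₀ ht, ← sq_le_sq₀ (norm_nonneg _) (by positivity), ← norm_pow, hh_sq, norm_inv,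
    div_eq_mul_inv, ← mul_inv, inv_pow, mul_comm]
  exact inv_anti₀ (by positivity) h2

/-- The primitive of `hh` vanishing at infinity. -/
noncomputable def Ph (x : ℂ) : ℂ := -∫ t in Ioi (0 : ℝ), hh (x + t ^ 2 * I) * (2 * t * I)

lemma Ph_bound {x : ℂ} (hx : 0 ≤ x.im) : ∀ᵐ t : ℝ ∂volume.restrict (Ioi 0),
    ‖hh (x + t ^ 2 * I) * (2 * t * I)‖ ≤ 2 * (1 + t ^ 2)⁻¹ :=
  (ae_restrict_mem measurableSet_Ioi).mono fun t ht => by
    have := norm_hh (x := x + t ^ 2 * I) ht (by simpa [← ofReal_pow] using hx)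
    simp only [norm_mul, norm_I, norm_real, Real.norm_eq_abs, abs_of_pos (mem_Ioi.1 ht),
      Complex.norm_ofNat]
    linarith

lemma dom_add {x : ℂ} (hx : 0 ≤ x.im) {t : ℝ} (ht : t ∈ Ioi (0 : ℝ)) : Dom (x + t ^ 2 * I) :=
  .inl (by simpa [← ofReal_pow] using add_pos_of_nonneg_of_pos hx (pow_pos ht 2))

lemma Ph_meas {x : ℂ} (hx : 0 ≤ x.im) : AEStronglyMeasurable
    (fun t : ℝ => hh (x + t ^ 2 * I) * (2 * t * I)) (volume.restrict (Ioi 0)) :=
  ContinuousOn.aestronglyMeasurable (fun t ht => (((hh_diff (dom_add hx ht)).continuousAt.comp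
    (f := fun t : ℝ => x + t ^ 2 * I) (by fun_prop)).mul (by fun_prop)).continuousWithinAt)
    measurableSet_Ioi

lemma Ph_cont : ContinuousOn Ph {x | 0 ≤ x.im} :=
  (continuousOn_of_dominated (fun _ => Ph_meas) (fun _ => Ph_bound)
    (integrable_inv_one_add_sq.const_mul 2).integrableOn
    ((ae_restrict_mem measurableSet_Ioi).mono fun t ht x hx =>
      (((hh_diff (dom_add hx ht)).continuousAt.comp (f := fun x : ℂ => x + t ^ 2 * I)
        (by fun_prop)).mul continuousAt_const).continuousWithinAt)).neg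

lemma hh_tendsto : Tendsto hh (Bornology.cobounded ℂ) (𝓝 0) := by
  have h : ∀ a b : ℂ, a ≠ 0 → Tendsto (fun x => (a * x + b)⁻¹) (Bornology.cobounded ℂ) (𝓝 0) :=
    fun a b ha => tendsto_inv₀_cobounded.comp
      ((tendsto_add_const_cobounded b).comp (tendsto_mul_left_cobounded ha))
  have := ((h 1 0 one_ne_zero).mul (h 4 9 (by norm_num))).mul (h 1 (-4) one_ne_zero)
  rw [mul_zero, tendsto_zero_iff_norm_tendsto_zero] at this
  have := this.sqrt
  rw [tendsto_zero_iff_norm_tendsto_zero, ← Real.sqrt_zero]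
  refine this.congr fun x => ?_
  rw [← mul_inv, ← mul_inv, one_mul, add_zero, ← sub_eq_add_neg, ← cub_eq, ← hh_sq, norm_pow,
    Real.sqrt_sq (norm_nonneg _)]

lemma Ph_tendsto {α : Type*} {l : Filter α} [l.IsCountablyGenerated] {X : α → ℂ}
    (h0 : ∀ a, 0 ≤ (X a).im) (h : Tendsto X l (Bornology.cobounded ℂ)) :
    Tendsto (fun a => Ph (X a)) l (𝓝 0) := by
  have := tendsto_integral_filter_of_dominated_convergence (l := l) (f := fun _ => (0 : ℂ)) _
    (.of_forall fun a => Ph_meas (h0 a)) (.of_forall fun a => Ph_bound (h0 a))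
    (integrable_inv_one_add_sq.const_mul 2).integrableOn (.of_forall fun t => by
      simpa using (hh_tendsto.comp ((tendsto_add_const_cobounded (t ^ 2 * I)).comp h)).mul_const
        (2 * t * I))
  simpa [Ph] using this.neg

lemma Ph_prim {K : Set ℂ} (hK : Convex ℝ K) (ho : IsOpen K) (hd : ∀ x ∈ K, Dom x)
    (hu : ∀ x ∈ K, ∀ t : ℝ, x + t ^ 2 * I ∈ K) {x : ℂ} (hx : x ∈ K) (hx0 : 0 ≤ x.im) :
    ∃ G, HasDerivAt G (hh x) x ∧ ∀ y ∈ K, 0 ≤ y.im → Ph y = G y := by
  obtain ⟨G, hG⟩ := hK.exists_forall_hasDerivWithinAt (𝕜 := ℂ)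
    fun x hx => (hh_diff (hd x hx)).differentiableWithinAt
  have hG' : ∀ y ∈ K, HasDerivAt G (hh y) y := fun y hy => (hG y hy).hasDerivAt (ho.mem_nhds hy)
  have h1 : ∀ y ∈ K, 0 ≤ y.im →
      Tendsto (fun T : ℝ => G (y + T ^ 2 * I)) atTop (𝓝 (G y - Ph y)) := fun y hy hy0 => by
    have := (intervalIntegral_tendsto_integral_Ioi 0 ((integrable_inv_one_add_sq.const_mul
      2).integrableOn.mono' (Ph_meas hy0) (Ph_bound hy0)) tendsto_id).const_add (G y)
    rw [Ph, sub_neg_eq_add]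
    refine this.congr fun T => ?_
    have h2 : ∀ t : ℝ, HasDerivAt (fun t : ℝ => y + t ^ 2 * I) (2 * t * I) t := fun t => by
      simpa using ((((hasDerivAt_id (t : ℂ)).pow 2).mul_const I).const_add y).comp_ofReal
    rw [intervalIntegral.integral_eq_sub_of_hasDerivAt (f := fun t : ℝ => G (y + t ^ 2 * I))
      (fun t _ => (hG' _ (hu y hy t)).comp t (h2 t)) (Continuous.intervalIntegrable
        (continuous_iff_continuousAt.2 fun t => ((hh_diff (hd _ (hu y hy t))).continuousAt.comp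
          (f := fun t : ℝ => y + t ^ 2 * I) (by fun_prop)).mul (by fun_prop)) _ _)]
    simp
  refine ⟨fun y => G y - (G x - Ph x), (hG' x hx).sub_const _, fun y hy hy0 => ?_⟩
  have h2 : Tendsto (fun T : ℝ => G (y + T ^ 2 * I) - G (x + T ^ 2 * I)) atTop (𝓝 0) := by
    refine squeeze_zero_norm' ?_ (by simpa using tendsto_inv_atTop_zero.mul_const ‖y - x‖)
    filter_upwards [eventually_gt_atTop 0] with T hT
    have := (hK.inter (convex_halfSpace_im_ge (T ^ 2))).norm_image_sub_le_of_norm_hasDerivWithin_le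
      (C := T⁻¹) (fun z hz => (hG' z hz.1).hasDerivWithinAt) (fun z hz => by
        have := norm_hh hT hz.2
        rw [← one_div, le_div_iff₀ hT]
        exact this.trans (inv_le_one_of_one_le₀ (by nlinarith)))
      ⟨hu x hx T, by simpa [← ofReal_pow] using hx0⟩ ⟨hu y hy T, by simpa [← ofReal_pow] using hy0⟩
    simpa using this
  linear_combination tendsto_nhds_unique h2 ((h1 y hy hy0).sub (h1 x hx hx0))

lemma Ph_deriv {x : ℂ} (hx : 0 < x.im) : HasDerivAt Ph (hh x) x := by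
  have ho : IsOpen {x : ℂ | 0 < x.im} := isOpen_lt continuous_const continuous_im
  obtain ⟨G, h1, h2⟩ := Ph_prim (convex_halfSpace_im_gt 0) ho (fun _ h => .inl h)
    (fun x hx t => by simpa [← ofReal_pow] using add_pos_of_pos_of_nonneg hx (sq_nonneg t)) hx hx.le
  exact h1.congr_of_eventuallyEq (mem_of_superset (ho.mem_nhds hx) fun y hy => h2 y hy (le_of_lt hy))

lemma Ph_deriv_real {x : ℝ} (hx : cub x ≠ 0) :
    HasDerivAt (fun y : ℝ => (Ph y).im) (hh x).im x := by
  obtain ⟨δ, hδ, h⟩ := Metric.isOpen_iff.1 (isOpen_ne_fun (f := fun x : ℝ => cub x)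
    (by unfold cub; fun_prop) continuous_const) x hx
  obtain ⟨G, h1, h2⟩ := Ph_prim (K := re ⁻¹' Metric.ball x δ)
    ((convex_ball x δ).linear_preimage reLm) (Metric.isOpen_ball.preimage continuous_re)
    (fun _ hy => .inr (h hy)) (fun y hy t => by simpa [← ofReal_pow] using hy) (x := x)
    (by simpa using hδ) (by simp)
  exact imCLM.hasFDerivAt.comp_hasDerivAt x (h1.comp_ofReal.congr_of_eventuallyEq
    (f₁ := fun y : ℝ => Ph y) (mem_of_superset (Metric.ball_mem_nhds x hδ)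
      fun y hy => h2 y (by simpa using hy) (by simp)))

lemma im_zero_of_sq {z : ℂ} {r : ℝ} (h : z ^ 2 = r) (hr : 0 ≤ r) : z.im = 0 := by
  rw [← Real.sq_sqrt hr, ofReal_pow, sq_eq_sq_iff_eq_or_eq_neg] at h
  rcases h with h | h <;> simp [h]

/-- The imaginary part of the primitive on the real line. -/
noncomputable def VV (x : ℝ) : ℝ := (Ph x).im

lemma VV_cont : Continuous VV :=
  continuous_im.comp (Ph_cont.comp_continuous continuous_ofReal fun x => by simp)

lemma VV_top : Tendsto VV atTop (𝓝 0) := (continuous_im.tendsto' 0 0 rfl).comp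
  (Ph_tendsto (by simp) (RCLike.tendsto_ofReal_atTop_cobounded ℂ))

lemma VV_bot : Tendsto VV atBot (𝓝 0) := (continuous_im.tendsto' 0 0 rfl).comp
  (Ph_tendsto (by simp) (RCLike.tendsto_ofReal_atBot_cobounded ℂ))

lemma VV_const {a b : ℝ} (hab : a ≤ b) (h : ∀ x ∈ Ioo a b, 0 < cub x) : VV b = VV a := by
  have := intervalIntegral.integral_eq_sub_of_hasDerivAt_of_le (f' := fun _ => 0) hab
    VV_cont.continuousOn (fun x hx => by
      have := Ph_deriv_real (h x hx).ne'
      rwa [im_zero_of_sq (r := (cub x)⁻¹) (by rw [hh_sq, cub_ofReal, ofReal_inv])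
        (inv_nonneg.2 (h x hx).le)] at this) intervalIntegrable_const
  simp only [intervalIntegral.integral_zero] at this
  linarith

/-- Half of the imaginary period. -/
noncomputable def I0 : ℝ := VV 0

lemma VV_right {x : ℝ} (hx : 4 ≤ x) : VV x = 0 := by
  refine tendsto_nhds_unique (tendsto_const_nhds.congr' ?_) VV_top
  filter_upwards [eventually_ge_atTop x] with y hy
  refine (VV_const hy fun t ht => ?_).symm
  have := ht.1
  rw [cub_eq]
  exact mul_pos (mul_pos (by linarith) (by linarith)) (by linarith)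

lemma VV_mid {x : ℝ} (h1 : -9 / 4 ≤ x) (h2 : x ≤ 0) : VV x = I0 := by
  refine (VV_const h2 fun t ht => ?_).symm
  have := ht.1
  have := ht.2
  rw [cub_eq]
  exact mul_pos_of_neg_of_neg (mul_neg_of_neg_of_pos (by linarith) (by linarith)) (by linarith)

/-- The integrand of the real period of the twist by `-1`. -/
noncomputable def sq1 (x : ℝ) : ℝ := (√(4 * x ^ 3 + 7 * x ^ 2 - 36 * x))⁻¹

lemma hh_real (x : ℝ) : hh (-x : ℝ) = (rt (-x : ℝ) * rt (9 - 4 * x : ℝ) * rt (-x - 4 : ℝ))⁻¹ := by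
  rw [hh]; push_cast; ring_nf

lemma VV_neg_deriv {x : ℝ} (hx : 0 < 4 * x ^ 3 + 7 * x ^ 2 - 36 * x) :
    HasDerivAt (fun x => VV (-x)) (-(hh (-x : ℝ)).im) x := by
  have h : cub (-x) ≠ 0 := by rw [cub]; linarith
  exact ((Ph_deriv_real h).comp x (hasDerivAt_neg x)).congr_deriv (mul_neg_one _)

lemma deriv_mid {x : ℝ} (hx : x ∈ Ioo (-4 : ℝ) 0) :
    0 < sq1 x ∧ HasDerivAt (fun x => VV (-x)) (sq1 x) x := by
  obtain ⟨h1, h2⟩ := hx
  have e : 4 * x ^ 3 + 7 * x ^ 2 - 36 * x = -x * ((9 - 4 * x) * -(-x - 4)) := by ring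
  have h3 : 0 < 4 * x ^ 3 + 7 * x ^ 2 - 36 * x :=
    e ▸ mul_pos (by linarith) (mul_pos (by linarith) (by linarith))
  refine ⟨inv_pos.2 (Real.sqrt_pos.2 h3), (VV_neg_deriv h3).congr_deriv ?_⟩
  rw [hh_real, rt_pos (by linarith), rt_pos (by linarith), rt_neg (by linarith), sq1, e,
    Real.sqrt_mul (by linarith), Real.sqrt_mul (by linarith)]
  simp [mul_comm, mul_left_comm]

lemma deriv_right {x : ℝ} (hx : x ∈ Ioi (9 / 4 : ℝ)) :
    0 < sq1 x ∧ HasDerivAt (fun x => -VV (-x)) (sq1 x) x := by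
  have h1 : 9 / 4 < x := hx
  have e : 4 * x ^ 3 + 7 * x ^ 2 - 36 * x = - -x * (-(9 - 4 * x) * -(-x - 4)) := by ring
  have h3 : 0 < 4 * x ^ 3 + 7 * x ^ 2 - 36 * x :=
    e ▸ mul_pos (by linarith) (mul_pos (by linarith) (by linarith))
  refine ⟨inv_pos.2 (Real.sqrt_pos.2 h3), (VV_neg_deriv h3).neg.congr_deriv ?_⟩
  rw [hh_real, rt_neg (by linarith), rt_neg (by linarith), rt_neg (by linarith), sq1, e,
    Real.sqrt_mul (by linarith), Real.sqrt_mul (by linarith)]
  simp [mul_comm, mul_left_comm]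

theorem sq1_spec : 0 < I0 ∧ Integrable sq1 ∧ ∫ x, sq1 x = 2 * I0 := by
  have hc : Continuous fun x => VV (-x) := VV_cont.comp continuous_neg
  have h1 := intervalIntegral.integrableOn_deriv_of_nonneg (a := -4) (b := 0) hc.continuousOn
    (fun x hx => (deriv_mid hx).2) fun x hx => (deriv_mid hx).1.le
  have h1' := (intervalIntegrable_iff_integrableOn_Ioc_of_le (by norm_num)).2 h1
  have h2 := intervalIntegral.integral_eq_sub_of_hasDerivAt_of_le (by norm_num) hc.continuousOn
    (fun x hx => (deriv_mid hx).2) h1'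
  have ht := (VV_bot.comp tendsto_neg_atTop_atBot).neg
  have h3 := integrableOn_Ioi_deriv_of_nonneg (a := 9 / 4) hc.neg.continuousWithinAt
    (fun x hx => (deriv_right hx).2) (fun x hx => (deriv_right hx).1.le) ht
  have h4 := integral_Ioi_of_hasDerivAt_of_nonneg (a := 9 / 4) hc.neg.continuousWithinAt
    (fun x hx => (deriv_right hx).2) (fun x hx => (deriv_right hx).1.le) ht
  have h5 : ∀ x, x ∉ Ioc (-4 : ℝ) 0 ∪ Ioi (9 / 4) → sq1 x = 0 := fun x hx => by
    simp only [mem_union, mem_Ioc, mem_Ioi, not_or, not_and, not_le, not_lt] at hx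
    rw [sq1, Real.sqrt_eq_zero'.2, inv_zero]
    rcases le_or_gt x (-4) with h | h
    · nlinarith [mul_nonneg (show 0 ≤ -x by linarith) (show 0 ≤ 9 - 4 * x by linarith)]
    · nlinarith [mul_nonneg (hx.1 h).le (show 0 ≤ 9 - 4 * x by linarith)]
  rw [neg_neg, neg_zero, VV_right le_rfl, sub_zero] at h2
  refine ⟨(intervalIntegral.intervalIntegral_pos_of_pos_on h1' (fun x hx => (deriv_mid hx).1)
    (by norm_num)).trans_eq h2, (h1.union h3).integrable_of_forall_notMem_eq_zero h5, ?_⟩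
  rw [← setIntegral_eq_integral_of_forall_compl_eq_zero h5, setIntegral_union
    (Ioc_disjoint_Ioi (by norm_num)) measurableSet_Ioi h1 h3, h4,
    ← intervalIntegral.integral_of_le (by norm_num), h2, Pi.neg_apply,
    VV_mid (x := -(9 / 4)) (by norm_num) (by norm_num), I0]
  ring

/-- The real period of the twist by `-n`. -/
theorem real_period {n : ℝ} (hn : 0 < n) :
    Integrable (fun x : ℝ => 2 / √(4 * x ^ 3 + 7 * n * x ^ 2 - 36 * n ^ 2 * x)) ∧
      ∫ x : ℝ, 2 / √(4 * x ^ 3 + 7 * n * x ^ 2 - 36 * n ^ 2 * x) = 4 * I0 / √n := by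
  have h : ∀ x : ℝ, 2 / √(4 * x ^ 3 + 7 * n * x ^ 2 - 36 * n ^ 2 * x) =
      2 / (n * √n) * sq1 (x / n) := fun x => by
    rw [sq1, show 4 * x ^ 3 + 7 * n * x ^ 2 - 36 * n ^ 2 * x = n ^ 2 * (n * (4 * (x / n) ^ 3 +
      7 * (x / n) ^ 2 - 36 * (x / n))) by field_simp, Real.sqrt_mul (by positivity),
      Real.sqrt_mul hn.le, Real.sqrt_sq hn.le]
    ring
  simp only [h]
  refine ⟨(sq1_spec.2.1.comp_div hn.ne').const_mul _, ?_⟩
  rw [integral_const_mul, Measure.integral_comp_div, sq1_spec.2.2, abs_of_pos hn, smul_eq_mul]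
  field_simp
  ring

/-- Odd reflection from the upper half plane. -/
noncomputable def rf (f : ℂ → ℂ) (x : ℂ) : ℂ := if 0 ≤ x.im then f x else -conj (f (conj x))

lemma rf_hh_sq (x : ℂ) : rf hh x ^ 2 = (cub x)⁻¹ := by
  unfold rf
  split_ifs
  · exact hh_sq x
  · rw [neg_sq, ← map_pow, hh_sq, cub_conj]; simp

lemma rf_deriv {x : ℂ} (hx : x.im ≠ 0) : HasDerivAt (rf Ph) (rf hh x) x := by
  rcases hx.lt_or_gt with h | h
  · have := (Ph_deriv (x := conj x) (by simpa using h)).conj_conj.neg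
    rw [conj_conj] at this
    rw [rf, if_neg h.not_ge]
    refine this.congr_of_eventuallyEq (mem_of_superset
      ((isOpen_lt continuous_im continuous_const).mem_nhds h) fun y hy => if_neg (not_le.2 hy))
  · rw [rf, if_pos h.le]
    refine (Ph_deriv h).congr_of_eventuallyEq (mem_of_superset
      ((isOpen_lt continuous_const continuous_im).mem_nhds h) fun y hy => if_pos (le_of_lt hy))

lemma rf_im (f : ℂ → ℂ) (x : ℂ) : (rf f x).im = (f ⟨x.re, |x.im|⟩).im := by
  unfold rf
  split_ifs with h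
  · rw [abs_of_nonneg h]
  · rw [abs_of_neg (not_le.1 h)]
    simp only [neg_im, conj_im, neg_neg]
    rfl

lemma fold_cont : Continuous fun x : ℂ => (⟨x.re, |x.im|⟩ : ℂ) := by
  simp only [mk_eq_add_mul_I]; fun_prop

lemma rf_Ph_cont : Continuous fun x => (rf Ph x).im := by
  simp only [rf_im]
  exact continuous_im.comp (Ph_cont.comp_continuous fold_cont fun x => abs_nonneg x.im)

lemma rf_hh_cont {x : ℂ} (h : x.im = 0 → Real.sin (π / I0 * (rf Ph x).im) ≠ 0) :
    ContinuousAt (rf hh) x := by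
  rcases lt_trichotomy x.im 0 with h0 | h0 | h0
  · have : ContinuousAt (fun y => -conj (hh (conj y))) x := (continuous_conj.continuousAt.comp
      ((hh_diff (.inl (by simpa using h0))).continuousAt.comp continuous_conj.continuousAt)).neg
    exact this.congr (mem_of_superset ((isOpen_lt continuous_im continuous_const).mem_nhds h0)
      fun y hy => (if_neg (not_le.2 hy)).symm)
  · replace h := h h0
    lift x to ℝ using h0
    rw [rf, if_pos (by simp)] at h
    have h1 : cub x < 0 := by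
      by_contra! h1
      have h2 : VV x = 0 ∨ VV x = I0 := by
        by_cases h2 : 4 ≤ x
        · exact .inl (VV_right h2)
        · rw [cub_eq] at h1
          have h3 : x * (4 * x + 9) ≤ 0 := by nlinarith
          exact .inr (VV_mid (by nlinarith) (by nlinarith))
      refine h ?_
      rcases h2 with h2 | h2 <;> simp [show (Ph x).im = _ from h2, sq1_spec.1.ne']
    have h2 := (hh_diff (x := x) (.inr h1.ne)).continuousAt
    have h3 : -conj (hh (conj x)) = hh x := by
      have := im_zero_of_sq (z := I * hh x) (r := -(cub x)⁻¹) (by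
        rw [mul_pow, hh_sq, cub_ofReal, I_sq]; simp) (neg_nonneg.2 (inv_nonpos.2 h1.le))
      rw [conj_ofReal]
      exact Complex.ext (by simpa [neg_eq_self] using this) (by simp)
    have h4 : ContinuousAt (fun y => -conj (hh (conj y))) x := (continuous_conj.continuousAt.comp
      (h2.comp_of_eq continuous_conj.continuousAt (conj_ofReal x))).neg
    rw [ContinuousAt, rf, if_pos (by simp)]
    exact Tendsto.if' h2 (h3 ▸ h4)
  · exact (hh_diff (.inl h0)).continuousAt.congr (mem_of_superset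
      ((isOpen_lt continuous_const continuous_im).mem_nhds h0) fun y hy => (if_pos (le_of_lt hy)).symm)

/-- The character of the imaginary period, as a function on the curve. -/
noncomputable def TT (x y : ℂ) : ℂ := Real.cos (π / I0 * (rf Ph x).im) +
  y * rf hh x * Real.sin (π / I0 * (rf Ph x).im) * I

lemma sg_sq {x y : ℂ} (h : y ^ 2 = cub x) : (y * rf hh x) ^ 2 = cub x * (cub x)⁻¹ := by
  rw [mul_pow, rf_hh_sq, h]

lemma TT_tendsto {α : Type*} {l : Filter α} {X Y : α → ℂ} (h : ∀ᶠ a in l, Y a ^ 2 = cub (X a))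
    {v : ℝ} (hv : Tendsto (fun a => (rf Ph (X a)).im) l (𝓝 v)) (h0 : Real.sin (π / I0 * v) = 0) :
    Tendsto (fun a => TT (X a) (Y a)) l (𝓝 (Real.cos (π / I0 * v))) := by
  have h1 := hv.const_mul (π / I0)
  have h2 : Tendsto (fun a => Y a * rf hh (X a) * Real.sin (π / I0 * (rf Ph (X a)).im)) l (𝓝 0) := by
    refine squeeze_zero_norm' ?_ (by simpa [h0] using ((Real.continuous_sin.tendsto _).comp h1).norm)
    filter_upwards [h] with a ha
    have h3 : ‖Y a * rf hh (X a)‖ ≤ 1 := by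
      rw [← sq_le_one_iff₀ (norm_nonneg _), ← norm_pow, sg_sq ha, norm_mul, norm_inv]
      exact mul_inv_le_one
    rw [norm_mul, norm_real]
    exact mul_le_of_le_one_left (norm_nonneg _) h3
  simpa [TT] using ((continuous_ofReal.tendsto _).comp ((Real.continuous_cos.tendsto _).comp h1)).add
    (h2.mul_const I)

theorem path_odd {X Y F φ : ℝ → ℂ} {L : ℂ} (hF : ∀ s, 0 < s → HasDerivAt F (φ s) s)
    (hX : ∀ s, 0 < s → HasDerivAt X (Y s * φ s) s) (hY : ∀ s, 0 < s → ContinuousAt Y s)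
    (hc : ∀ s, 0 < s → Y s ^ 2 = cub (X s)) (hZ : {s | 0 < s ∧ (X s).im = 0}.Countable)
    (h1 : Tendsto X atTop (Bornology.cobounded ℂ)) (h2 : Tendsto F atTop (𝓝 0))
    (h3 : Tendsto X (𝓝[>] 0) (𝓝 0)) (h4 : Tendsto F (𝓝[>] 0) (𝓝 L)) :
    ∃ k : ℤ, Odd k ∧ L.im = k * I0 := by
  set e : ℂ → ℂ := fun w => cexp ((π / I0 * w.im : ℝ) * I) with he
  have e1 : Differentiable ℝ e := by
    refine Differentiable.cexp (Differentiable.mul_const ?_ _)
    exact ofRealCLM.differentiable.comp (imCLM.differentiable.const_mul _)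
  set D : ℝ → ℂ := fun s => TT (X s) (Y s) * e (-F s) with hD
  have hev : ∀ s : ℝ, 0 < s → ∀ᶠ t in 𝓝 s, Y t ^ 2 = cub (X t) := fun s hs =>
    (lt_mem_nhds hs).mono hc
  have c1 : ∀ s, 0 < s → ContinuousAt D s := fun s hs => by
    refine ContinuousAt.mul ?_ (e1.continuous.continuousAt.comp (hF s hs).continuousAt.neg)
    have h5 := rf_Ph_cont.continuousAt.comp (hX s hs).continuousAt
    by_cases h : Real.sin (π / I0 * (rf Ph (X s)).im) = 0
    · simpa [ContinuousAt, TT, h] using TT_tendsto (hev s hs) h5 h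
    · have h6 := (rf_hh_cont fun _ => h).comp (hX s hs).continuousAt
      have h7 := hY s hs
      unfold TT
      fun_prop
  have c2 : ∀ s, 0 < s → (X s).im ≠ 0 → HasDerivAt D 0 s := fun s hs h0 => by
    have h5 := rf_deriv h0
    have h6 : ∀ t, 0 < t → (X t).im ≠ 0 → (Y t * rf hh (X t)) ^ 2 = 1 := fun t ht h => by
      rw [sg_sq (hc t ht), mul_inv_cancel₀]
      rw [cub_eq]
      refine mul_ne_zero (mul_ne_zero ?_ ?_) ?_ <;> exact fun h' => h (by simpa using congrArg im h')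
    have h7 : ContinuousAt (rf hh) (X s) := rf_hh_cont fun h => absurd h h0
    set σ := Y s * rf hh (X s) with hσ
    have h8 : σ ^ 2 = 1 := h6 s hs h0
    have h9 := ((h5.comp s (hX s hs)).const_mul σ).sub (hF s hs)
    rw [show σ * (rf hh (X s) * (Y s * φ s)) - φ s = 0 by linear_combination φ s * h8] at h9
    refine ((e1 _).hasFDerivAt.comp_hasDerivAt s h9).congr_deriv (map_zero _)
      |>.congr_of_eventuallyEq ?_
    have h10 := (((hY s hs).mul (h7.comp (hX s hs).continuousAt)).add_const σ).eventually_ne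
      (y := 0) (fun h => by
        simp [add_self_eq_zero.1 (show σ + σ = 0 from h)] at h8)
    filter_upwards [lt_mem_nhds hs, h10,
      (continuous_im.continuousAt.comp (hX s hs).continuousAt).eventually_ne h0] with t ht h11 h12
    have h13 : Y t * rf hh (X t) = σ := sub_eq_zero.1 ((mul_eq_zero.1
      (show (_ - σ) * (Y t * rf hh (X t) + σ) = 0 by
        linear_combination h6 t ht h12 - h8)).resolve_right h11)
    simp only [hD, he, TT, h13, Function.comp, Pi.sub_apply]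
    rw [sub_eq_add_neg (σ * _), add_im, mul_add, ofReal_add, add_mul _ _ I, Complex.exp_add,
      exp_mul_I (ofReal (π / I0 * (σ * _).im)), ← ofReal_cos, ← ofReal_sin]
    rcases sq_eq_one_iff.1 h8 with h | h <;> simp [h]
  have c3 : ∀ a b, 0 < a → a ≤ b → D b = D a := fun a b ha hab => by
    have := integral_eq_of_hasDerivAt_off_countable_of_le D (fun _ => 0) hab hZ
      (fun s hs => (c1 s (ha.trans_le hs.1)).continuousWithinAt)
      (fun s hs => c2 s (ha.trans hs.1.1) fun h => hs.2 ⟨ha.trans hs.1.1, h⟩)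
      intervalIntegrable_const
    rw [intervalIntegral.integral_zero] at this
    exact sub_eq_zero.1 this.symm
  have c4 : Tendsto D atTop (𝓝 1) := by
    have h5 : Tendsto (fun s => (rf Ph (X s)).im) atTop (𝓝 0) := by
      simp only [rf_im]
      refine (continuous_im.tendsto' 0 0 rfl).comp (Ph_tendsto (fun s => abs_nonneg (X s).im) ?_)
      rw [← tendsto_norm_atTop_iff_cobounded] at h1 ⊢
      refine h1.congr fun s => ?_
      simp [Complex.norm_eq_sqrt_sq_add_sq]
    simpa [he, hD] using (TT_tendsto ((eventually_gt_atTop 0).mono hc) h5 (by simp)).mul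
      ((e1.continuous.tendsto _).comp h2.neg)
  have c5 : Tendsto D (𝓝[>] 0) (𝓝 (-1 * e (-L))) := by
    have h5 : Tendsto (fun s => (rf Ph (X s)).im) (𝓝[>] 0) (𝓝 I0) :=
      (rf_Ph_cont.tendsto' 0 I0 (by simp [rf, I0, VV])).comp h3
    have := (TT_tendsto (l := 𝓝[>] 0) (eventually_mem_nhdsWithin.mono hc) h5
      (by simp [sq1_spec.1.ne'])).mul ((e1.continuous.tendsto _).comp h4.neg)
    rwa [div_mul_cancel₀ _ sq1_spec.1.ne', Real.cos_pi, ofReal_neg, ofReal_one] at this
  have c6 : ∀ a, 0 < a → D a = 1 := fun a ha => tendsto_nhds_unique (tendsto_const_nhds.congr'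
    ((eventually_ge_atTop a).mono fun b hb => (c3 a b ha hb).symm)) c4
  have c7 := tendsto_nhds_unique (l := 𝓝[>] 0) (tendsto_const_nhds.congr'
    (eventually_mem_nhdsWithin.mono fun a ha => (c6 a ha).symm)) c5
  obtain ⟨n, hn⟩ := exp_eq_exp_iff_exists_int.1 (show e (-L) = cexp (π * I) by
    rw [exp_pi_mul_I]; linear_combination c7)
  refine ⟨-(2 * n + 1), (odd_two_mul_add_one n).neg, ?_⟩
  have h5 := congrArg im hn
  have := sq1_spec.1
  have := Real.pi_pos
  simp at h5
  push_cast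
  field_simp at h5
  linarith

end Pool.Agent.P.MP_8b7eba_nt.Mod
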