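import Pool.Agent.P.MP_8b7eba_nt.ModTab
import Pool.Agent.P.MP_8b7eba_nt.ModPer

/-! The imaginary modular symbol is an odd multiple of the elliptic integral. -/

open Complex Filter Asymptotics Topology Set
open scoped Real

namespace Pool.Agent.P.MP_8b7eba_nt.Mod

open M2

lemma xx_cusp : Tendsto (fun z => xx ((M2.mk 1 0 5 1).act z)) atI (𝓝 0) := by
  set g : M2 := ⟨1, 0, 5, 1⟩ with hg'
  have hg : g.det = 1 := by decide
  have := ((eta_mul_theta hg 3 (by norm_num)).mul
    ((eta_mul_theta hg 5 (by norm_num)).pow 5)).div ((eta_mul_theta hg 1 one_pos).mul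
      ((eta_mul_theta hg 15 (by norm_num)).pow 5))
  have h : (fun z => ‖xx (g.act z)‖ ^ 2) =Θ[atI] ex (2 * (2 / 3)) := by
    refine (EventuallyEq.trans_isTheta ?_ this).trans_eventuallyEq (.of_forall fun z => ?_)
    · filter_upwards [ev_im 0] with z hz
      have := norm_pos_iff.2 (j_ne (g := g) (by omega) hz)
      simp [xx]
      field_simp
    · simp only [ex_pow, div_eq_mul_inv, ← ex_neg, ← ex_add, hg']
      norm_num
  exact (theta_of_sq h).1.trans_tendsto (tendsto_ex (by norm_num))

lemma xx_qq : Tendsto (fun z => xx z * qq z ^ 2) atI (𝓝 1) := by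
  have h3 := rep_Mf.tendsto.comp tendsto_qq
  have h4 := rep_Nf.tendsto.comp tendsto_qq
  rw [const_MM] at h3
  rw [const_NN] at h4
  refine (by simpa using h4.div h3 (by simp) : Tendsto (Nf ∘ qq / Mf ∘ qq) atI (𝓝 1)).congr
    fun z => ?_
  have := qq_ne z
  simp only [xx_eq, Pi.div_apply, Function.comp]
  field_simp

theorem om_odd : ∃ k : ℤ, Odd k ∧ om = k * I0 := by
  set z : ℝ → ℂ := fun s => ((1 / 5 : ℚ) : ℂ) + s * I with hz
  have him : ∀ s, (z s).im = s := fun s => by simp [hz]
  have hp : ∀ s, 0 < s → 0 < (z s).im := fun s hs => (him s).symm ▸ hs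
  have hd : ∀ s, HasDerivAt z I s := fun s => by
    simpa [hz] using ((hasDerivAt_id (s : ℂ)).mul_const I).comp_ofReal
  have ht : Tendsto z atTop atI := tendsto_comap_iff.2 (tendsto_id.congr fun s => (him s).symm)
  have hy : DifferentiableOn ℂ yy UH := (diff_xx.deriv isOpen_UH).div (diff_ff.const_mul _)
    fun z hz => mul_ne_zero two_pi_I_ne (ff_ne hz)
  refine (path_odd (X := fun s => xx (z s)) (Y := fun s => yy (z s))
    (F := fun s => FI (z s)) (φ := fun s => 2 * π * I * ff (z s) * I) (L := lam (1 / 5))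
    (fun s hs => (hasDerivAt_FI (hp s hs)).comp s (hd s))
    (fun s hs => ((diff_xx.differentiableAt (UH_mem_nhds (hp s hs))).hasDerivAt.comp s
      (hd s)).congr_deriv (by
        have := ff_ne (hp s hs)
        have := two_pi_I_ne
        rw [yy]
        field_simp))
    (fun s hs => (hy.differentiableAt (UH_mem_nhds (hp s hs))).continuousAt.comp
      (hd s).continuousAt) (fun s hs => sub_eq_zero.1 (RR_zero (hp s hs))) ?_ ?_
    (tendsto_FI.comp ht) ?_ (tendsto_lam _)).imp fun k h => ⟨h.1, ?_⟩
  · have ha : AnalyticOnNhd ℝ (fun s => (xx (z s)).im) (Ioi 0) := fun s hs =>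
      (imCLM.analyticAt _).comp (((diff_xx.analyticAt (UH_mem_nhds (hp s hs))).restrictScalars
        (𝕜 := ℝ)).comp (f := z) (analyticAt_const.add ((ofRealCLM.analyticAt s).mul
          analyticAt_const)))
    refine (countable_setOfPred_isolated_right_within
      (s := {s | 0 < s ∧ (xx (z s)).im = 0})).mono fun s hs => And.intro hs ?_
    by_contra hne
    have h0 := ha.eqOn_zero_of_preconnected_of_frequently_eq_zero isPreconnected_Ioi hs.1
      (Frequently.filter_mono (f := 𝓝[{s | 0 < s ∧ (xx (z s)).im = 0} ∩ Ioi s] s)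
        (have := neBot_iff.2 hne; (eventually_mem_nhdsWithin.mono fun t ht => ht.1.2).frequently)
        (nhdsWithin_mono _ fun t ht => ne_of_gt ht.2))
    have h1 := (continuous_im.tendsto _).comp ((xx_qq.comp ht).mul_const (cexp (-(4 * π / 5 : ℝ) * I)))
    have h2 : (1 * cexp (-(4 * π / 5 : ℝ) * I)).im = 0 := by
      refine tendsto_nhds_unique h1 (tendsto_const_nhds.congr' ?_)
      filter_upwards [eventually_gt_atTop 0] with t ht
      have : qq (z t) ^ 2 * cexp (-(4 * π / 5 : ℝ) * I) = Real.exp (-4 * π * t) := by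
        rw [qq, ← Complex.exp_nat_mul, ← Complex.exp_add, ofReal_exp, hz]
        congr 1
        push_cast
        linear_combination 4 * π * t * I_sq
      simp only [Function.comp, mul_assoc, this, mul_im, ofReal_im, show (xx (z t)).im = 0 from h0 ht]
      ring
    rw [one_mul, ← ofReal_neg, exp_ofReal_mul_I_im, Real.sin_neg, neg_eq_zero] at h2
    exact (Real.sin_pos_of_pos_of_lt_pi (by positivity) (by linarith [Real.pi_pos])).ne' h2
  · have h1 := ((tendsto_qq.pow 2).div xx_qq one_ne_zero).comp ht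
    rw [zero_pow two_ne_zero, zero_div] at h1
    refine (tendsto_inv₀_nhdsNE_zero.comp (tendsto_nhdsWithin_iff.2 ⟨h1, ?_⟩)).congr fun s => ?_
    · filter_upwards [(xx_qq.comp ht).eventually_ne one_ne_zero] with s hs
      exact div_ne_zero (pow_ne_zero _ (qq_ne _)) hs
    · have := qq_ne (z s)
      simp only [Function.comp, Pi.div_apply, inv_div]
      field_simp
  · have h2 : Tendsto (fun y : ℝ => (-1 / 5 : ℂ) + (1 / 25 * y⁻¹ : ℝ) * I) (𝓝[>] 0) atI :=
      tendsto_comap_iff.2 ((tendsto_inv_nhdsGT_zero.const_mul_atTop (r := 1 / 25)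
        (by norm_num)).congr fun y => by simp)
    refine (xx_cusp.comp h2).congr' ?_
    filter_upwards [self_mem_nhdsWithin] with y hy
    have hy' : (y : ℂ) ≠ 0 := by exact_mod_cast (ne_of_gt hy)
    simp only [Function.comp, hz, act_eq, M2.j]
    congr 1
    push_cast
    rw [div_eq_iff (by ring_nf; simp [hy'])]
    field_simp
    linear_combination -25 * y * I_sq
  · have h1 := lv_of_ne 1 (c := 5) (by norm_num)
    rw [lv_eq, show nM 1 5 = 1 by decide +kernel] at h1
    simpa [← h.2] using congrArg im h1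

end Pool.Agent.P.MP_8b7eba_nt.Mod
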