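import Pool.Agent.P.MP_8b7eba_nt.DescInt

/-! Legendre's theorem for `b X^2 + c Y^2 = Z^2`. -/

set_option autoImplicit false

namespace Pool.Agent.P.MP_8b7eba_nt.Desc

open Finset

theorem exists_sq_mod {a : ℤ} (m : ℕ) : Squarefree m →
    (∀ p : ℕ, p.Prime → p ∣ m → IsSquare (a : ZMod p)) → ∃ r : ℤ, (m : ℤ) ∣ r ^ 2 - a := by
  induction m using induction_on_primes with
  | zero => exact fun h => absurd h not_squarefree_zero
  | one => exact fun _ _ => ⟨0, by simp⟩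
  | prime_mul p m hp ih =>
    intro hm h
    obtain ⟨hc, -, hm'⟩ := Nat.squarefree_mul_iff.1 hm
    obtain ⟨r₂, h2⟩ := ih hm' fun q hq hd => h q hq (hd.mul_left p)
    obtain ⟨z, hz⟩ := h p hp (dvd_mul_right p m)
    obtain ⟨r₁, rfl⟩ := ZMod.intCast_surjective z
    have h1 : (p : ℤ) ∣ r₁ ^ 2 - a := by
      rw [← ZMod.intCast_zmod_eq_zero_iff_dvd]
      push_cast
      rw [hz, sq, sub_self]
    have hc' : IsCoprime (p : ℤ) m := Nat.isCoprime_iff_coprime.2 hc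
    obtain ⟨u, v, huv⟩ := hc'
    obtain ⟨k₁, h1⟩ := h1
    obtain ⟨k₂, h2⟩ := h2
    refine ⟨r₁ * v * m + r₂ * u * p, ?_⟩
    push_cast
    refine IsCoprime.mul_dvd ⟨u, v, huv⟩
      ⟨k₁ + (r₂ - r₁) * u * (r₁ * v * m + r₂ * u * p + r₁), ?_⟩
      ⟨k₂ + (r₁ - r₂) * v * (r₁ * v * m + r₂ * u * p + r₂), ?_⟩
    · linear_combination h1 + r₁ * (r₁ * v * m + r₂ * u * p + r₁) * huv
    · linear_combination h2 + r₂ * (r₁ * v * m + r₂ * u * p + r₂) * huv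

theorem sq_lt_of_range {m : ℕ} (hm : Squarefree m) (h1 : 1 < m) {x y : ℕ}
    (hx : x ∈ range (m.sqrt + 1)) (hy : y ∈ range (m.sqrt + 1)) : ((x : ℤ) - y) ^ 2 < m := by
  have h2 : m.sqrt * m.sqrt ≤ m := Nat.sqrt_le m
  have h3 : m.sqrt * m.sqrt ≠ m := fun h => by
    have := Nat.isUnit_iff.1 (hm m.sqrt h.dvd)
    rw [this] at h
    omega
  have h4 : ((m.sqrt : ℤ)) ^ 2 < m := by
    rw [sq]
    exact_mod_cast lt_of_le_of_ne h2 h3
  rw [mem_range] at hx hy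
  exact lt_of_le_of_lt (sq_le_sq' (by omega) (by omega)) h4

theorem legendre_aux {b c : ℕ} (hb : 1 < b) (hc : 1 < c) (hn : Squarefree (b * c))
    (h1 : ∀ p : ℕ, p.Prime → p ∣ b → IsSquare (c : ZMod p))
    (h2 : ∀ p : ℕ, p.Prime → p ∣ c → IsSquare (b : ZMod p)) :
    ∃ X Y Z : ℤ, Z ≠ 0 ∧ b * X ^ 2 + c * Y ^ 2 = Z ^ 2 := by
  obtain ⟨hbc, hb', hc'⟩ := Nat.squarefree_mul_iff.1 hn
  obtain ⟨s, k₁, hs⟩ := exists_sq_mod (a := c) b hb' (by simpa using h1)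
  obtain ⟨r, k₂, hr⟩ := exists_sq_mod (a := b) c hc' (by simpa using h2)
  have : NeZero b := ⟨by omega⟩
  have : NeZero c := ⟨by omega⟩
  obtain ⟨⟨x, y, z⟩, hx, ⟨x', y', z'⟩, hx', hne, he⟩ := exists_ne_map_eq_of_card_lt_of_maps_to
    (s := range (c.sqrt + 1) ×ˢ range (b.sqrt + 1) ×ˢ range ((b * c).sqrt + 1))
    (t := (univ : Finset (ZMod c × ZMod b))) (f := fun q : ℕ × ℕ × ℕ =>
      (((r * q.1 - q.2.2 : ℤ) : ZMod c), ((s * q.2.1 - q.2.2 : ℤ) : ZMod b))) (by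
      simp only [card_univ, Fintype.card_prod, ZMod.card, card_product, card_range]
      refine lt_of_mul_self_lt_mul_self₀ (Nat.zero_le _) ?_
      have e1 := Nat.lt_succ_sqrt c
      have e2 := Nat.lt_succ_sqrt b
      have e3 := Nat.lt_succ_sqrt (b * c)
      calc c * b * (c * b) = c * (b * (b * c)) := by ring
        _ < _ := Nat.mul_lt_mul'' e1 (Nat.mul_lt_mul'' e2 e3)
        _ = _ := by simp only [Nat.succ_eq_add_one]; ring) fun _ _ => mem_univ _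
  simp only [mem_product] at hx hx'
  have b1 := sq_lt_of_range hc' hc hx.1 hx'.1
  have b2 := sq_lt_of_range hb' hb hx.2.1 hx'.2.1
  have b3 := sq_lt_of_range hn (by nlinarith) hx.2.2 hx'.2.2
  obtain ⟨l₁, d1⟩ := (ZMod.intCast_eq_intCast_iff_dvd_sub _ _ _).1 (congrArg Prod.fst he).symm
  obtain ⟨l₂, d2⟩ := (ZMod.intCast_eq_intCast_iff_dvd_sub _ _ _).1 (congrArg Prod.snd he).symm
  have hne' : ¬((x : ℤ) - x' = 0 ∧ (y : ℤ) - y' = 0 ∧ (z : ℤ) - z' = 0) := fun h =>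
    hne (by rw [show x = x' by omega, show y = y' by omega, show z = z' by omega])
  have d1' : r * ((x : ℤ) - x') - (z - z') = c * l₁ := by linear_combination d1
  have d2' : s * ((y : ℤ) - y') - (z - z') = b * l₂ := by linear_combination d2
  generalize (x : ℤ) - x' = X at *
  generalize (y : ℤ) - y' = Y at *
  generalize (z : ℤ) - z' = Z at *
  obtain ⟨k, hk⟩ : (b : ℤ) * c ∣ b * X ^ 2 + c * Y ^ 2 - Z ^ 2 :=
    IsCoprime.mul_dvd (Nat.isCoprime_iff_coprime.2 hbc)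
      ⟨X ^ 2 + l₂ * (s * Y + Z) - k₁ * Y ^ 2, by linear_combination (s * Y + Z) * d2' - Y ^ 2 * hs⟩
      ⟨Y ^ 2 + l₁ * (r * X + Z) - k₂ * X ^ 2, by linear_combination (r * X + Z) * d1' - X ^ 2 * hr⟩
  have hb0 : (0 : ℤ) < b := by omega
  have hc0 : (0 : ℤ) < c := by omega
  push_cast at b3
  have p1 := mul_lt_mul_of_pos_left b1 hb0
  have p2 := mul_lt_mul_of_pos_left b2 hc0
  have p3 : 0 ≤ b * X ^ 2 := by positivity
  have p4 : 0 ≤ c * Y ^ 2 := by positivity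
  have k0 : -1 < k := lt_of_mul_lt_mul_left (a := (b : ℤ) * c) (by linarith) (by positivity)
  have k2 : k < 2 := lt_of_mul_lt_mul_left (a := (b : ℤ) * c) (by linarith [sq_nonneg Z])
    (by positivity)
  obtain rfl | rfl : k = 0 ∨ k = 1 := by omega
  · refine ⟨X, Y, Z, fun hZ => hne' ⟨?_, ?_, hZ⟩, by linarith⟩
    · rw [hZ] at hk
      exact pow_eq_zero_iff two_ne_zero |>.1 ((mul_eq_zero.1 (by linarith)).resolve_left hb0.ne')
    · rw [hZ] at hk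
      exact pow_eq_zero_iff two_ne_zero |>.1 ((mul_eq_zero.1 (by linarith)).resolve_left hc0.ne')
  · exact ⟨X * Z + c * Y, Y * Z - b * X, Z ^ 2 + b * c, by positivity,
      by linear_combination (Z ^ 2 + b * c) * hk⟩

theorem legendre {b c : ℕ} (hb : 1 < b) (hc : 1 < c) (hn : Squarefree (b * c))
    (h1 : ∀ p : ℕ, p.Prime → p ∣ b → IsSquare (c : ZMod p))
    (h2 : ∀ p : ℕ, p.Prime → p ∣ c → IsSquare (b : ZMod p)) :
    ∃ X Y Z : ℤ, Z ≠ 0 ∧ b * X ^ 2 + c * Y ^ 2 = Z ^ 2 ∧ IsCoprime Z X ∧ IsCoprime Y b := by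
  obtain ⟨-, hb', hc'⟩ := Nat.squarefree_mul_iff.1 hn
  obtain ⟨X, Y, Z, hZ, e⟩ := legendre_aux hb hc hn h1 h2
  induction h : Z.natAbs using Nat.strong_induction_on generalizing X Y Z with
  | _ N ih =>
    by_cases hp : ∃ p : ℕ, p.Prime ∧ (p : ℤ) ∣ X ∧ (p : ℤ) ∣ Y ∧ (p : ℤ) ∣ Z
    · obtain ⟨p, hp, ⟨X, rfl⟩, ⟨Y, rfl⟩, ⟨Z, rfl⟩⟩ := hp
      have hZ' := right_ne_zero_of_mul hZ
      refine ih Z.natAbs ?_ X Y Z hZ' (mul_left_cancel₀
        (pow_ne_zero 2 (left_ne_zero_of_mul hZ)) (by linear_combination e)) rfl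
      rw [← h, Int.natAbs_mul, Int.natAbs_natCast]
      exact lt_mul_of_one_lt_left (Int.natAbs_pos.2 hZ') hp.one_lt
    have key : ∀ (p : ℕ) (m : ℕ) (W : ℤ), p.Prime → Squarefree m → (p : ℤ) ^ 2 ∣ m * W ^ 2 →
        (p : ℤ) ∣ W := fun p m W hp hm hd => by
      by_contra hW
      have hp' := Nat.prime_iff_prime_int.1 hp
      have := hp'.pow_dvd_of_dvd_mul_right 2 (fun h => hW (hp'.dvd_of_dvd_pow h)) hd
      exact hp'.not_isUnit (Int.squarefree_natCast.2 hm p (by rwa [← sq]))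
    have cop : ∀ U V : ℤ, (∀ p : ℕ, p.Prime → (p : ℤ) ∣ U → ¬(p : ℤ) ∣ V) → IsCoprime U V :=
      fun U V h => Int.isCoprime_iff_gcd_eq_one.2 (
        Nat.coprime_of_dvd fun p hp h1 h2 => h p hp (Int.natCast_dvd.2 h1) (Int.natCast_dvd.2 h2))
    refine ⟨X, Y, Z, hZ, e, cop _ _ fun p hp' h1 h2 => hp ⟨p, hp', h2, key p c Y hp' hc' ?_, h1⟩,
      cop _ _ fun p hp' h1 h2 => ?_⟩
    · rw [show c * Y ^ 2 = Z ^ 2 - b * X ^ 2 by linear_combination e]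
      exact dvd_sub (pow_dvd_pow_of_dvd h1 2) ((pow_dvd_pow_of_dvd h2 2).mul_left _)
    · have h3 : (p : ℤ) ∣ Z := (Nat.prime_iff_prime_int.1 hp').dvd_of_dvd_pow (n := 2) (e ▸
        dvd_add (h2.mul_right _) ((dvd_pow h1 two_ne_zero).mul_left _))
      refine hp ⟨p, hp', key p b X hp' hb' ?_, h1, h3⟩
      rw [show b * X ^ 2 = Z ^ 2 - c * Y ^ 2 by linear_combination e]
      exact dvd_sub (pow_dvd_pow_of_dvd h3 2) ((pow_dvd_pow_of_dvd h1 2).mul_left _)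

end Pool.Agent.P.MP_8b7eba_nt.Desc
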