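import Pool.Agent.P.MP_8b7eba_nt.ModCurve

/-! The coefficient `an p` is congruent modulo `p` to the trace of Frobenius. -/

open PowerSeries Finset

namespace Pool.Agent.P.MP_8b7eba_nt.Mod

def co (m i j : ℕ) : ℤ := 4 ^ i * 9 ^ (m - i) * m.choose i * ((-4) ^ (m - j) * m.choose j)

lemma expand_pow {R : Type*} [CommRing R] (x z : R) (m : ℕ) :
    (4 * x ^ 3 - 7 * z * x ^ 2 - 36 * z ^ 2 * x) ^ m = ∑ i ∈ range (m + 1), ∑ j ∈ range (m + 1),
      (co m i j : R) * (x ^ (m + i + j) * z ^ (m - i + (m - j))) := by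
  rw [show 4 * x ^ 3 - 7 * z * x ^ 2 - 36 * z ^ 2 * x = x * ((4 * x + 9 * z) * (x + -4 * z)) by ring,
    mul_pow, mul_pow, add_pow, add_pow, sum_mul_sum, mul_sum]
  refine sum_congr rfl fun i _ => ?_
  rw [mul_sum]
  refine sum_congr rfl fun j _ => ?_
  simp only [co, mul_pow, pow_add]
  push_cast
  ring

/-- The Hasse invariant. -/
def hasse (m : ℕ) : ℤ :=
  ∑ i ∈ range (m + 1), ∑ j ∈ range (m + 1), if i + j = m then co m i j else 0

lemma map_deriv {R : Type*} [CommRing R] (A : ℤ⟦X⟧) :
    PowerSeries.map (Int.castRingHom R) (d⁄dX ℤ A) =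
      d⁄dX R (PowerSeries.map (Int.castRingHom R) A) := by
  ext n
  simp [coeff_derivative]

lemma X_mul_deriv_X_pow {R : Type*} [CommRing R] (e : ℕ) :
    X * d⁄dX R (X ^ e) = (e : R⟦X⟧) * X ^ e := by
  rcases e with _ | e
  · simp
  · rw [derivative_pow, derivative_X]
    simp only [Nat.add_sub_cancel]
    ring

theorem an_hasse {p m : ℕ} [Fact p.Prime] (hp : p = 2 * m + 1) :
    (an p : ZMod p) = hasse m := by
  obtain ⟨x0, y0, h1, h2, h3⟩ := exists_XY
  set φ := PowerSeries.map (Int.castRingHom (ZMod p)) with hφ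
  have hX : φ X = X := map_X _
  have hx : constantCoeff (φ x0) = 1 := by
    rw [hφ, ← coeff_zero_eq_constantCoeff_apply, coeff_map, coeff_zero_eq_constantCoeff_apply, h1,
      map_one]
  have hF : constantCoeff (φ FF) = 1 := by
    rw [hφ, ← coeff_zero_eq_constantCoeff_apply, coeff_map, coeff_zero_eq_constantCoeff_apply,
      const_FF, map_one]
  have ha : (an p : ZMod p) = coeff p (X * φ FF) := by
    rw [← hX, ← map_mul, hφ, coeff_map]; rfl
  replace h2 := congrArg φ h2
  replace h3 := congrArg φ h3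
  simp only [map_mul, map_sub, map_pow, map_ofNat, hX] at h2 h3
  rw [hφ, map_deriv, ← hφ] at h2
  generalize φ x0 = x at hx h2 h3
  generalize φ y0 = y at h2 h3
  generalize φ FF = F at hF ha h2
  have hp0 : (p : (ZMod p)⟦X⟧) = 0 := by
    rw [← map_natCast (C (R := ZMod p)), ZMod.natCast_self, map_zero]
  have hy : constantCoeff y = -2 := by
    have := congrArg constantCoeff h2
    simpa [hF, hx, map_ofNat] using this
  have h20 : (-2 : ZMod p) ≠ 0 := by
    rw [neg_ne_zero]
    intro h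
    have := (ZMod.natCast_eq_zero_iff 2 p).1 h
    have := (Nat.prime_dvd_prime_iff_eq Fact.out Nat.prime_two).1 this
    omega
  obtain ⟨W, hW⟩ := (isUnit_iff_constantCoeff.2 (hy ▸ h20.isUnit)).exists_right_inv
  have hW0 : constantCoeff W ^ p * -2 = 1 := by
    have := congrArg constantCoeff hW
    rw [map_mul, hy, map_one] at this
    rw [ZMod.pow_card, mul_comm, this]
  have e : X * F = ∑ i ∈ range (m + 1), ∑ j ∈ range (m + 1), C (co m i j : ZMod p) *
      (X ^ (2 * (m - i + (m - j)) + 1) * (W ^ p * x ^ (m + i + j) *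
        (X * d⁄dX (ZMod p) x - 2 * x))) := by
    have h4 := expand_pow x (X ^ 2) m
    rw [← pow_mul, ← h3] at h4
    calc X * F = X * W ^ p * (y * F) * (y ^ 2) ^ m := by
          rw [← pow_mul]
          have : (y * W) ^ p = 1 := by rw [hW, one_pow]
          rw [mul_pow, show y ^ p = y ^ (2 * m + 1) from congrArg _ hp] at this
          linear_combination -X * F * this
      _ = _ := by
          rw [h4, h2, mul_sum]
          refine sum_congr rfl fun i _ => ?_
          rw [mul_sum]
          refine sum_congr rfl fun j _ => ?_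
          rw [map_intCast, ← pow_mul]
          ring
  rw [ha, e, hasse, map_sum]
  push_cast
  refine sum_congr rfl fun i hi => ?_
  rw [map_sum]
  refine sum_congr rfl fun j hj => ?_
  rw [mem_range] at hi hj
  rw [coeff_C_mul]
  split_ifs with h
  · rw [show 2 * (m - i + (m - j)) + 1 = p by omega]
    have := coeff_X_pow_mul (W ^ p * x ^ (m + i + j) * (X * d⁄dX (ZMod p) x - 2 * x)) p 0
    rw [zero_add] at this
    rw [this]
    simp only [coeff_zero_eq_constantCoeff, map_mul, map_pow, map_sub, hx, map_ofNat,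
      constantCoeff_X]
    linear_combination (co m i j : ZMod p) * hW0
  · set k := m + i + j with hk
    set e := 2 * (m - i + (m - j)) + 1 with he
    have h5 : (e : (ZMod p)⟦X⟧) = -2 * (k + 1) := by
      have : e + 2 * (k + 1) = 3 * p := by omega
      have := congrArg (Nat.cast : ℕ → (ZMod p)⟦X⟧) this
      push_cast at this
      linear_combination this + 3 * hp0
    have h6 : X * d⁄dX (ZMod p) (X ^ e * (W ^ p * x ^ (k + 1))) = C ((k + 1 : ℕ) : ZMod p) *
        (X ^ e * (W ^ p * x ^ k * (X * d⁄dX (ZMod p) x - 2 * x))) := by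
      have h7 := X_mul_deriv_X_pow (R := ZMod p) e
      rw [Derivation.leibniz, Derivation.leibniz, derivative_pow W, derivative_pow x, hp0,
        map_natCast]
      simp only [smul_eq_mul, Nat.add_sub_cancel]
      push_cast
      linear_combination W ^ p * x ^ (k + 1) * h7 + X ^ e * W ^ p * x ^ (k + 1) * h5
    have h8 := congrArg (coeff p) h6
    have h9 : ((k + 1 : ℕ) : ZMod p) ≠ 0 := by
      rw [Ne, ZMod.natCast_eq_zero_iff]
      rintro ⟨t, ht⟩
      rcases t with _ | _ | t
      · omega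
      · omega
      · nlinarith
    have h10 : ∀ g : (ZMod p)⟦X⟧, coeff p (X * d⁄dX (ZMod p) g) = 0 := fun g => by
      rw [show coeff p (X * d⁄dX (ZMod p) g) = coeff (2 * m + 1) (X * d⁄dX (ZMod p) g) from
        congrArg (fun n => coeff n _) hp, coeff_succ_X_mul, coeff_derivative]
      have : ((2 * m : ℕ) : ZMod p) + 1 = 0 := by
        rw [← Nat.cast_add_one, ← hp, ZMod.natCast_self p]
      rw [this, mul_zero]
    rw [h10, coeff_C_mul] at h8
    rw [(mul_eq_zero.1 h8.symm).resolve_left h9, mul_zero]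

lemma sum_pow_zmod {p : ℕ} [Fact p.Prime] {k : ℕ} (hk : k ≠ 0) :
    ∑ x : ZMod p, x ^ k = if p - 1 ∣ k then -1 else 0 := by
  let φ : (ZMod p)ˣ ↪ ZMod p := ⟨fun x => x, Units.val_injective⟩
  have : univ.map φ = univ \ {0} := by
    ext x
    simpa only [mem_map, mem_univ, Function.Embedding.coeFn_mk, true_and, mem_sdiff,
      mem_singleton, φ] using! isUnit_iff_ne_zero
  calc ∑ x : ZMod p, x ^ k = ∑ x ∈ univ \ {(0 : ZMod p)}, x ^ k := by
        rw [← sum_sdiff ({0} : Finset (ZMod p)).subset_univ, sum_singleton, zero_pow hk, add_zero]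
    _ = ∑ x : (ZMod p)ˣ, (x ^ k : ZMod p) := by simp [φ, ← this, univ.sum_map φ]
    _ = _ := by rw [FiniteField.sum_pow_units, ZMod.card]

/-- The character sum attached to the curve. -/
noncomputable def Sp (p : ℕ) [Fact p.Prime] : ℤ :=
  ∑ t : ZMod p, quadraticChar (ZMod p) (4 * t ^ 3 - 7 * t ^ 2 - 36 * t)

theorem Sp_hasse {p m : ℕ} [Fact p.Prime] (hp : p = 2 * m + 1) : (Sp p : ZMod p) = -hasse m := by
  have hm : 0 < m := by have := (Fact.out : p.Prime).two_le; omega
  have h2 : ringChar (ZMod p) ≠ 2 := by rw [ZMod.ringChar_zmod_n]; omega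
  have h3 : ∀ t : ZMod p, (quadraticChar (ZMod p) (4 * t ^ 3 - 7 * t ^ 2 - 36 * t) : ZMod p) =
      ∑ i ∈ range (m + 1), ∑ j ∈ range (m + 1), (co m i j : ZMod p) * t ^ (m + i + j) := by
    intro t
    rw [quadraticChar_eq_pow_of_char_ne_two' h2, ZMod.card, show p / 2 = m by omega]
    simpa using expand_pow t 1 m
  rw [Sp, hasse]
  push_cast
  simp only [h3]
  rw [sum_comm, ← sum_neg_distrib]
  refine sum_congr rfl fun i hi => ?_
  rw [sum_comm, ← sum_neg_distrib]
  refine sum_congr rfl fun j hj => ?_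
  rw [mem_range] at hi hj
  rw [← mul_sum, sum_pow_zmod (by omega), show p - 1 = 2 * m by omega]
  by_cases h : i + j = m
  · rw [if_pos h, if_pos ⟨1, by omega⟩]; ring
  · rw [if_neg h, if_neg, mul_zero, neg_zero]
    rintro ⟨t, ht⟩
    rcases t with _ | _ | t
    · omega
    · omega
    · nlinarith

theorem dvd_an_add_Sp {p : ℕ} [Fact p.Prime] (hp : p ≠ 2) : (p : ℤ) ∣ an p + Sp p := by
  obtain ⟨m, hm⟩ := (Fact.out : p.Prime).odd_of_ne_two hp
  rw [← ZMod.intCast_zmod_eq_zero_iff_dvd]
  push_cast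
  rw [an_hasse hm, Sp_hasse hm, add_neg_cancel]

end Pool.Agent.P.MP_8b7eba_nt.Mod
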