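import Pool.Agent.P.MP_8b7eba_nt.ModTab
import Pool.Agent.P.MP_8b7eba_nt.ModCartier

/-! Size of the coefficients, and `an p` as the trace of Frobenius. -/

open Complex Filter Asymptotics Topology Finset MeasureTheory
open scoped Real ComplexConjugate

namespace Pool.Agent.P.MP_8b7eba_nt.Mod

lemma bessel {b : ℕ → ℂ} {G : ℝ → ℂ} {C : ℝ} (hb : Summable fun n => ‖b n‖)
    (hG : ∀ x : ℝ, HasSum (fun n => b n * qq x ^ n) (G x)) (hC : ∀ x, ‖G x‖ ≤ C) (N : ℕ) :
    ∑ n ∈ range N, ‖b n‖ ^ 2 ≤ C ^ 2 := by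
  have hC0 : 0 ≤ C := (norm_nonneg _).trans (hC 0)
  obtain ⟨Φ, hΦ⟩ : Summable fun n : ℕ => b n • (fourier n : C(AddCircle (1 : ℝ), ℂ)) :=
    .of_norm (by simpa [norm_smul, fourier_norm] using hb)
  have h1 : ‖Φ‖ ≤ C := by
    refine (ContinuousMap.norm_le _ hC0).2 fun x => ?_
    induction x using QuotientAddGroup.induction_on with | H x => ?_
    have := (hΦ.mapL (ContinuousMap.evalCLM ℂ (x : AddCircle (1 : ℝ)))).unique
      ((hG x).congr_fun fun n => by
        rw [ContinuousMap.evalCLM_apply, ContinuousMap.smul_apply, fourier_coe_apply, qq,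
          ← Complex.exp_nat_mul, smul_eq_mul]
        congr 2
        push_cast
        ring)
    rw [ContinuousMap.evalCLM_apply] at this
    rw [this]
    exact hC x
  have ho := (orthonormal_fourier (T := 1)).comp (Nat.cast : ℕ → ℤ) Nat.cast_injective
  have h2 := hΦ.mapL (ContinuousMap.toLp (E := ℂ) 2 AddCircle.haarAddCircle ℂ)
  have h3 : ∀ m : ℕ, inner ℂ ((fourierLp 2 ∘ (Nat.cast : ℕ → ℤ)) m)
      (ContinuousMap.toLp (E := ℂ) 2 AddCircle.haarAddCircle ℂ Φ) = b m := fun m => by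
    refine (h2.mapL (innerSL ℂ _)).unique ?_
    have := hasSum_single (f := fun n => innerSL ℂ ((fourierLp 2 ∘ (Nat.cast : ℕ → ℤ)) m)
      (ContinuousMap.toLp (E := ℂ) 2 AddCircle.haarAddCircle ℂ
        (b n • (fourier n : C(AddCircle (1 : ℝ), ℂ))))) m fun n hn => by
      rw [map_smul, map_smul, innerSL_apply_apply]
      exact smul_eq_zero_of_right _ (ho.inner_eq_zero hn.symm)
    rw [map_smul, map_smul, innerSL_apply_apply] at this
    have h4 := orthonormal_iff_ite.1 ho m m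
    rw [if_pos rfl] at h4
    erw [h4] at this
    rwa [smul_eq_mul, mul_one] at this
  have h5 := ho.sum_inner_products_le
    (ContinuousMap.toLp (E := ℂ) 2 AddCircle.haarAddCircle ℂ Φ) (s := range N)
  simp only [h3] at h5
  refine h5.trans (pow_le_pow_left₀ (norm_nonneg _) ?_ 2)
  refine ((ContinuousLinearMap.le_opNorm _ _).trans (mul_le_of_le_one_left (norm_nonneg _) ?_)).trans
    h1
  refine (ContinuousMap.toLp_norm_le _).trans ?_
  simp [measureUnivNNReal]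

theorem mean_square : ∃ K : ℝ, 0 < K ∧ ∀ N : ℕ, ∑ n ∈ range (N + 1), (an n : ℝ) ^ 2 ≤ K * N ^ 2 := by
  obtain ⟨C, hC⟩ := isCF_ff.bdd
  refine ⟨Real.exp (4 * π) * C ^ 2 + 1, by positivity, fun N => ?_⟩
  rcases N.eq_zero_or_pos with rfl | hN
  · simp [an_zero]
  have hN' : (0 : ℝ) < N := by exact_mod_cast hN
  have him : ∀ x : ℝ, ((x : ℂ) + ((N : ℝ)⁻¹ : ℝ) * I).im = (N : ℝ)⁻¹ := fun x => by
    simp only [add_im, ofReal_im, mul_im, ofReal_re, I_im, I_re]; ring
  have hpos : ∀ x : ℝ, 0 < ((x : ℂ) + ((N : ℝ)⁻¹ : ℝ) * I).im := fun x => by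
    rw [him]; positivity
  have := bessel (b := fun n => (an n : ℂ) * qq (((N : ℝ)⁻¹ : ℝ) * I) ^ n)
    (G := fun x => ff (x + ((N : ℝ)⁻¹ : ℝ) * I)) (C := C * N)
    (summable_norm_iff.2 (by simpa using (hasSum_ff (hpos 0)).summable))
    (fun x => (hasSum_ff (hpos x)).congr_fun fun n => by rw [qq_add]; ring)
    (fun x => by have := hC _ (hpos x); rwa [him, ← div_eq_mul_inv, div_le_iff₀ hN'] at this) (N + 1)
  refine le_trans ?_ ((mul_le_mul_of_nonneg_left this (Real.exp_pos (4 * π)).le).trans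
    (by nlinarith [sq_nonneg (N : ℝ)]))
  rw [mul_sum]
  refine sum_le_sum fun n hn => ?_
  have hn' : (n : ℝ) ≤ N := by exact_mod_cast Nat.lt_succ_iff.1 (mem_range.1 hn)
  have h0 := him 0
  rw [ofReal_zero, zero_add] at h0
  rw [norm_mul, norm_pow, norm_qq, mul_pow, ex_pow, ex_pow, Complex.norm_intCast, sq_abs, ex, h0,
    mul_left_comm, ← Real.exp_add]
  refine le_mul_of_one_le_right (sq_nonneg _) (Real.one_le_exp ?_)
  have h1 : (n : ℝ) * (N : ℝ)⁻¹ ≤ 1 := by rw [← div_eq_mul_inv, div_le_one hN']; exact hn'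
  push_cast
  nlinarith [Real.pi_pos]

theorem an_le : ∃ K : ℝ, ∀ n : ℕ, |(an n : ℝ)| ≤ K * n := by
  obtain ⟨K, hK, h⟩ := mean_square
  refine ⟨√K, fun n => abs_le_of_sq_le_sq' ?_ (by positivity) |> abs_le.2⟩
  rw [mul_pow, Real.sq_sqrt hK.le]
  exact (single_le_sum (f := fun n => (an n : ℝ) ^ 2) (fun _ _ => sq_nonneg _)
    (self_mem_range_succ n)).trans (h n)

theorem summable_an {s : ℂ} (hs : 3 / 2 < s.re) : LSeriesSummable (fun n => (an n : ℂ)) s := by
  obtain ⟨K, hK, h⟩ := mean_square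
  refine LSeriesSummable_of_sum_norm_bigO (r := 3 / 2) (IsBigO.of_bound √K
    (.of_forall fun N => ?_)) (by norm_num) hs
  rw [Real.norm_of_nonneg (by positivity), Real.norm_of_nonneg (by positivity)]
  refine abs_le_of_sq_le_sq' ?_ (by positivity) |>.2
  refine sq_sum_le_card_mul_sum_sq.trans ?_
  rw [mul_pow, Real.sq_sqrt hK.le, ← Real.rpow_natCast (_ ^ _), ← Real.rpow_mul (by positivity),
    show (3 / 2 * (2 : ℕ) : ℝ) = (3 : ℕ) by norm_num, Real.rpow_natCast, Nat.card_Icc,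
    Nat.add_sub_cancel]
  have : ∑ k ∈ Icc 1 N, ‖(an k : ℂ)‖ ^ 2 ≤ K * N ^ 2 := by
    simp only [Complex.norm_intCast, sq_abs]
    exact (sum_le_sum_of_subset_of_nonneg (fun k hk => by simp at hk ⊢; omega)
      fun _ _ _ => sq_nonneg _).trans (h N)
  nlinarith [N.cast_nonneg (α := ℝ)]

lemma an_pow_succ {p : ℕ} (hp : p.Prime) (h15 : ¬ p ∣ 15) (k : ℕ) :
    an (p ^ (k + 2)) = an p * an (p ^ (k + 1)) - p * an (p ^ k) := by
  have := hecke hp (p ^ (k + 1))
  rw [if_pos ⟨h15, dvd_pow_self _ k.succ_ne_zero⟩, pow_succ p k, Nat.mul_div_cancel _ hp.pos,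
    ← pow_succ, ← pow_succ'] at this
  linarith

theorem an_prime_le {p : ℕ} (hp : p.Prime) (h15 : ¬ p ∣ 15) : |an p| ≤ p + 1 := by
  by_contra hh
  have h1 : ∀ k, (p + 1) * |an (p ^ k)| ≤ |an (p ^ (k + 1))| := by
    intro k
    induction k with
    | zero => simp [an_one]; omega
    | succ k ih =>
      have h2 := abs_sub_abs_le_abs_sub (an p * an (p ^ (k + 1))) (p * an (p ^ k))
      rw [← an_pow_succ hp h15, abs_mul, abs_mul, Nat.abs_cast] at h2
      nlinarith [abs_nonneg (an (p ^ k)), abs_nonneg (an (p ^ (k + 1)))]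
  have h2 : ∀ k, (p + 1 : ℤ) ^ k ≤ |an (p ^ k)| := by
    intro k
    induction k with
    | zero => simp [an_one]
    | succ k ih => rw [pow_succ']; exact (mul_le_mul_of_nonneg_left ih (by positivity)).trans (h1 k)
  obtain ⟨K, hK⟩ := an_le
  have hp0 : (0 : ℝ) < p := by exact_mod_cast hp.pos
  obtain ⟨k, hk⟩ := pow_unbounded_of_one_lt K (show (1 : ℝ) < (p + 1) / p by
    rw [lt_div_iff₀ hp0]; linarith)
  rw [div_pow, lt_div_iff₀ (by positivity)] at hk
  have h3 : ((p + 1 : ℤ) ^ k : ℝ) ≤ |(an (p ^ k) : ℝ)| := by exact_mod_cast h2 k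
  have := hK (p ^ k)
  push_cast at h3 this
  linarith

lemma nP_neg (a c : ℤ) : nP (-a) c = nP a c ∧ nM (-a) c = -nM a c := by
  apply coeff_eq
  rw [← lv_eq, lv_neg, lv_eq]
  simp

lemma nP_add_mul (a c n : ℤ) : nP (a + n * c) c = nP a c ∧ nM (a + n * c) c = nM a c := by
  apply coeff_eq
  rw [← lv_eq, lv_add_mul, lv_eq]

theorem even_an {p : ℕ} (hp : p.Prime) (h15 : ¬ p ∣ 15) (h2 : p ≠ 2) : Even (an p) := by
  have h := hecke_lam hp 0
  have hp0 : (p : ℤ) ≠ 0 := by exact_mod_cast hp.ne_zero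
  have e : ∀ j : ℕ, lam ((0 + j) / p) = nP j p * L0 + nM j p * om * I := fun j => by
    rw [← lv_eq, lv_of_ne _ hp0]; simp
  simp only [e, if_neg h15, mul_zero, lam_zero] at h
  have h1 : ∑ j ∈ range p, nP j p + 1 = an p := by
    refine (coeff_eq (b := ∑ j ∈ range p, nM j p) (d := 0) ?_).1
    push_cast
    rw [zero_mul, zero_mul, add_zero, ← h, sum_add_distrib, add_mul, sum_mul, sum_mul, sum_mul]
    ring
  have h3 : nP 0 p = 1 := by
    refine (coeff_eq (b := nM 0 p) (d := 0) ?_).1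
    simpa [lam_zero] using (e 0).symm
  have h4 : ((∑ j ∈ Ico 1 p, nP j p : ℤ) : ZMod 2) = 0 := by
    push_cast
    refine sum_involution (fun j _ => p - j) (fun j hj => ?_) (fun j hj _ h => ?_)
      (fun j hj => by simp at hj ⊢; omega) fun j hj => by simp at hj; omega
    · have h5 := (nP_add_mul (-j) p 1).1
      rw [mem_Ico] at hj
      rw [Nat.cast_sub hj.2.le, show (p : ℤ) - j = -j + 1 * p by ring, h5, (nP_neg _ _).1]
      exact CharTwo.add_self_eq_zero _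
    · obtain ⟨m, hm⟩ := hp.odd_of_ne_two h2
      rw [mem_Ico] at hj
      omega
  rw [ZMod.intCast_zmod_eq_zero_iff_dvd] at h4
  rw [← h1, range_eq_Ico, sum_eq_sum_Ico_succ_bot hp.pos, Nat.cast_zero, h3, even_iff_two_dvd]
  push_cast at h4 ⊢
  omega

lemma cast_ne {p : ℕ} [Fact p.Prime] (hp : 5 < p) {a b c : ℕ} :
    ((2 ^ a * 3 ^ b * 5 ^ c : ℕ) : ZMod p) ≠ 0 := by
  rw [Ne, ZMod.natCast_eq_zero_iff]
  have hp' : p.Prime := Fact.out
  intro h
  rcases (Nat.Prime.dvd_mul hp').1 h with h | h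
  · rcases (Nat.Prime.dvd_mul hp').1 h with h | h <;>
      have := Nat.le_of_dvd (by norm_num) (hp'.dvd_of_dvd_pow h) <;> omega
  · have := Nat.le_of_dvd (by norm_num) (hp'.dvd_of_dvd_pow h)
    omega

lemma Sp_bound {p : ℕ} [Fact p.Prime] (hp : 5 < p) : Even (Sp p) ∧ |Sp p| ≤ p - 3 := by
  have h4 : (4 : ZMod p) ≠ 0 := by simpa using cast_ne hp (a := 2) (b := 0) (c := 0)
  have h9 : (9 : ZMod p) ≠ 0 := by simpa using cast_ne hp (a := 0) (b := 2) (c := 0)
  have h25 : (25 : ZMod p) ≠ 0 := by simpa using cast_ne hp (a := 0) (b := 0) (c := 2)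
  set R : Finset (ZMod p) := {0, 4, -9 / 4} with hR
  have hroot : ∀ t : ZMod p, 4 * t ^ 3 - 7 * t ^ 2 - 36 * t = 0 ↔ t ∈ R := fun t => by
    rw [show 4 * t ^ 3 - 7 * t ^ 2 - 36 * t = t * ((t - 4) * (t * 4 - -9)) by ring]
    simp only [hR, mul_eq_zero, sub_eq_zero, mem_insert, mem_singleton, eq_div_iff h4]
  have hcard : R.card = 3 := by
    rw [hR, card_insert_of_notMem, card_pair]
    · rw [Ne, eq_div_iff h4]
      exact fun h => h25 (by linear_combination h)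
    · simp [h4.symm, eq_div_iff h4, h9]
  have h1 : Sp p = ∑ t ∈ univ \ R, quadraticChar (ZMod p) (4 * t ^ 3 - 7 * t ^ 2 - 36 * t) := by
    rw [Sp, ← sum_sdiff (subset_univ R), sum_eq_zero (s := R), add_zero]
    intro t ht
    rw [(hroot t).2 ht, MulChar.map_zero]
  have h2 : ((univ \ R).card : ℤ) = p - 3 := by
    rw [card_univ_sdiff, ZMod.card, hcard, Nat.cast_sub (by omega)]; rfl
  have h3 : ∀ t ∈ univ \ R, quadraticChar (ZMod p) (4 * t ^ 3 - 7 * t ^ 2 - 36 * t) = 1 ∨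
      quadraticChar (ZMod p) (4 * t ^ 3 - 7 * t ^ 2 - 36 * t) = -1 := fun t ht =>
    quadraticChar_dichotomy fun h => (mem_sdiff.1 ht).2 ((hroot t).1 h)
  constructor
  · have : (2 : ℤ) ∣ ∑ t ∈ univ \ R,
        (quadraticChar (ZMod p) (4 * t ^ 3 - 7 * t ^ 2 - 36 * t) - 1) :=
      dvd_sum fun t ht => by rcases h3 t ht with h | h <;> rw [h] <;> norm_num
    rw [sum_sub_distrib, ← h1, sum_const, nsmul_eq_mul, h2] at this
    obtain ⟨m, hm⟩ := (Fact.out : p.Prime).odd_of_ne_two (by omega)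
    rw [even_iff_two_dvd]
    omega
  · rw [h1, ← h2]
    refine (abs_sum_le_sum_abs _ _).trans ?_
    rw [card_eq_sum_ones]
    push_cast
    exact sum_le_sum fun t ht => by rcases h3 t ht with h | h <;> rw [h] <;> norm_num

/-- Modularity of the curve `y ^ 2 = 4 x ^ 3 - 7 x ^ 2 - 36 x`. -/
theorem an_eq_neg_Sp {p : ℕ} [Fact p.Prime] (hp : 5 < p) : an p = -Sp p := by
  have hp' : p.Prime := Fact.out
  have h15 : ¬ p ∣ 15 := fun h => by
    have := cast_ne hp (a := 0) (b := 1) (c := 1)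
    exact this ((ZMod.natCast_eq_zero_iff _ _).2 h)
  obtain ⟨k, hk⟩ := dvd_an_add_Sp (p := p) (by omega)
  obtain ⟨h1, h2⟩ := Sp_bound hp
  have h3 := (even_an hp' h15 (by omega)).add h1
  have h4 := abs_le.1 (an_prime_le hp' h15)
  have h5 := abs_le.1 h2
  rw [hk, Int.even_mul] at h3
  obtain ⟨m, hm⟩ := hp'.odd_of_ne_two (by omega)
  obtain ⟨l, rfl⟩ := h3.resolve_left (by rw [Int.not_even_iff_odd]; exact ⟨m, by omega⟩)
  have : l = 0 := by
    by_contra h0
    rcases lt_or_gt_of_ne h0 with h0 | h0 <;> nlinarith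
  rw [this] at hk
  linarith

end Pool.Agent.P.MP_8b7eba_nt.Mod
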