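import Pool.Agent.P.MP_8b7eba_nt.ModM2

/-! Weight zero forms are constant; decay of periodic functions; size of eta at the cusps. -/

open Complex ModularForm Filter Asymptotics Topology
open scoped Real MatrixGroups

namespace Pool.Agent.P.MP_8b7eba_nt.Mod

open M2

/-- The upper half plane. -/
def UH : Set ℂ := {z | 0 < z.im}

lemma isOpen_UH : IsOpen UH := isOpen_lt continuous_const continuous_im

lemma UH_mem_nhds {z : ℂ} (hz : 0 < z.im) : UH ∈ 𝓝 z := isOpen_UH.mem_nhds hz

/-- The filter `im z → ∞`. -/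
abbrev atI : Filter ℂ := comap im atTop

lemma ev_im (Y : ℝ) : ∀ᶠ z in atI, Y < z.im := preimage_mem_comap (Ioi_mem_atTop Y)

instance : atI.NeBot := comap_neBot fun s hs => by
  obtain ⟨y, hy⟩ := nonempty_of_mem hs
  exact ⟨y * I, by simpa using hy⟩

lemma tendsto_im : Tendsto im atI atTop := tendsto_comap

noncomputable def ex (t : ℝ) (z : ℂ) : ℝ := Real.exp (-2 * π * t * z.im)

lemma ex_pos (t : ℝ) (z : ℂ) : 0 < ex t z := Real.exp_pos _
lemma ex_add (s t : ℝ) (z : ℂ) : ex (s + t) z = ex s z * ex t z := by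
  simp only [ex, ← Real.exp_add]; congr 1; ring
lemma ex_zero (z : ℂ) : ex 0 z = 1 := by simp [ex]
lemma ex_pow (t : ℝ) (n : ℕ) (z : ℂ) : ex t z ^ n = ex (n * t) z := by
  simp only [ex, ← Real.exp_nat_mul]; congr 1; ring
lemma ex_neg (t : ℝ) (z : ℂ) : ex (-t) z = (ex t z)⁻¹ := by
  simp only [ex, ← Real.exp_neg]; congr 1; ring

lemma tendsto_ex {t : ℝ} (ht : 0 < t) : Tendsto (ex t) atI (𝓝 0) := by
  refine Real.tendsto_exp_atBot.comp (Tendsto.const_mul_atTop_of_neg ?_ tendsto_im)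
  have := Real.pi_pos
  nlinarith

lemma ex_isBigO {s t : ℝ} (h : s ≤ t) : ex t =O[atI] ex s := by
  refine IsBigO.of_bound 1 ?_
  filter_upwards [ev_im 0] with z hz
  rw [Real.norm_of_nonneg (ex_pos _ _).le, Real.norm_of_nonneg (ex_pos _ _).le, one_mul]
  refine Real.exp_le_exp.2 ?_
  have := mul_pos Real.pi_pos hz
  nlinarith

/-- The integer matrix of an element of `SL(2, ℤ)`. -/
def ofSL (γ : SL(2, ℤ)) : M2 := ⟨γ 0 0, γ 0 1, γ 1 0, γ 1 1⟩

lemma det_ofSL (γ : SL(2, ℤ)) : (ofSL γ).det = 1 := by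
  have := γ.det_coe
  rwa [Matrix.det_fin_two] at this

lemma coe_smul_ofSL (γ : SL(2, ℤ)) (τ : UpperHalfPlane) : ((γ • τ : UpperHalfPlane) : ℂ) =
    (ofSL γ).act τ := by
  rw [UpperHalfPlane.coe_specialLinearGroup_apply]
  simp [ofSL, act, mob]

theorem const_of_weight_zero {h : ℂ → ℂ} (hol : DifferentiableOn ℂ h UH)
    (inv : ∀ γ, G0 γ → ∀ z, 0 < z.im → h (γ.act z) = h z)
    (bd : ∀ γ : M2, γ.det = 1 → BoundedAtFilter atI (fun z => h (γ.act z))) :
    ∃ c, ∀ z, 0 < z.im → h z = c := by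
  let F : ModularForm (CongruenceSubgroup.Gamma0 15) 0 :=
    { toFun := fun τ => h τ
      slash_action_eq' := by
        rintro _ ⟨γ, hγ, rfl⟩
        ext τ
        have := SL_slash_apply (k := 0) (fun τ : UpperHalfPlane => h τ) γ τ
        rw [SL_slash] at this
        refine this.trans ?_
        rw [coe_smul_ofSL, inv _ ⟨det_ofSL γ, ?_⟩ _ τ.im_pos]
        · simp
        · exact (ZMod.intCast_zmod_eq_zero_iff_dvd _ 15).1 (CongruenceSubgroup.Gamma0_mem.1 hγ)
      holo' := by
        rw [UpperHalfPlane.mdifferentiable_iff]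
        refine hol.congr fun z hz => ?_
        simp [UpperHalfPlane.ofComplex_apply_of_im_pos hz]
      bdd_at_cusps' := by
        intro c hc
        rw [Subgroup.IsArithmetic.isCusp_iff_isCusp_SL2Z] at hc
        rw [OnePoint.isBoundedAt_iff_forall_SL2Z hc]
        intro γ _
        have := (bd _ (det_ofSL γ)).comp_tendsto UpperHalfPlane.tendsto_coe_atImInfty
        refine this.congr_left fun τ => ?_
        rw [SL_slash_apply, coe_smul_ofSL]
        simp }
  obtain ⟨c, hc⟩ := ModularForm.eq_const_of_weight_zero F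
  exact ⟨c, fun z hz => congrFun hc ⟨z, hz⟩⟩

theorem decay {G : ℂ → ℂ} {w : ℝ} (hw : 0 < w) (per : ∀ z, 0 < z.im → G (z + w) = G z)
    (hol : DifferentiableOn ℂ G UH) (bd : BoundedAtFilter atI G) :
    ∃ L, (fun z => G z - L) =O[atI] ex (1 / w) := by
  let G' : ℂ → ℂ := fun z => if 0 < z.im then G z else 0
  have e : G' =ᶠ[atI] G := by filter_upwards [ev_im 0] with z hz using if_pos hz
  have hp : Function.Periodic G' w := fun z => by
    by_cases hz : 0 < z.im <;> simp [G', hz, per]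
  have hh : ∀ᶠ z in atI, DifferentiableAt ℂ G' z := by
    filter_upwards [ev_im 0] with z hz
    refine (hol.differentiableAt (UH_mem_nhds hz)).congr_of_eventuallyEq ?_
    filter_upwards [UH_mem_nhds hz] with u hu using if_pos hu
  refine ⟨Function.Periodic.cuspFunction w G' 0, (hp.exp_decay_sub_of_bounded_at_inf hw hh (bd.congr' e.symm .rfl)).congr' ?_ ?_⟩
  · filter_upwards [e] with z hz using by rw [hz]
  · exact .of_forall fun z => by simp only [ex]; congr 1; ring

theorem decay_zero {G : ℂ → ℂ} {w : ℝ} (hw : 0 < w) (per : ∀ z, 0 < z.im → G (z + w) = G z)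
    (hol : DifferentiableOn ℂ G UH) (h0 : Tendsto G atI (𝓝 0)) : G =O[atI] ex (1 / w) := by
  obtain ⟨L, hL⟩ := decay hw per hol (h0.isBigO_one ℝ)
  have h1 := hL.trans_tendsto (tendsto_ex (by positivity))
  have h2 := tendsto_nhds_unique h1 (h0.sub_const L)
  have : L = 0 := by simpa using h2.symm
  simpa [this] using hL

/-- Cauchy estimate: the derivative decays as fast as the function. -/
theorem deriv_decay {G : ℂ → ℂ} {t : ℝ} (hol : DifferentiableOn ℂ G UH) {L : ℂ}
    (h : (fun z => G z - L) =O[atI] ex t) : deriv G =O[atI] ex t := by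
  obtain ⟨C, hC⟩ := h.bound
  obtain ⟨s, hs, hs'⟩ := mem_comap.1 hC
  obtain ⟨Y, hY⟩ := mem_atTop_sets.1 hs
  refine IsBigO.of_bound (|C| * Real.exp (2 * π * |t|)) ?_
  filter_upwards [ev_im (Y + 1), ev_im 1] with z hz hz1
  have him : ∀ u ∈ Metric.closedBall z 1, |u.im - z.im| ≤ 1 := fun u hu => by
    rw [← sub_im]
    exact (abs_im_le_norm _).trans (by rwa [Metric.mem_closedBall, dist_eq_norm] at hu)
  have hd : DiffContOnCl ℂ (fun z => G z - L) (Metric.ball z 1) := by
    refine DifferentiableOn.diffContOnCl ((hol.mono ?_).sub_const L)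
    rw [closure_ball _ one_ne_zero]
    intro u hu
    have := abs_le.1 (him u hu)
    show 0 < u.im
    linarith
  have := Complex.norm_deriv_le_of_forall_mem_sphere_norm_le one_pos hd
    (C := |C| * Real.exp (2 * π * |t|) * ‖ex t z‖) fun u hu => by
      have h1 := him u (Metric.sphere_subset_closedBall hu)
      have h2 : ‖G u - L‖ ≤ C * ‖ex t u‖ := hs' (hY _ (by linarith [abs_le.1 h1]))
      refine h2.trans ?_
      rw [Real.norm_of_nonneg (ex_pos _ _).le, Real.norm_of_nonneg (ex_pos _ _).le, mul_assoc]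
      refine mul_le_mul (le_abs_self _) ?_ (ex_pos _ _).le (abs_nonneg _)
      rw [ex, ex, ← Real.exp_add]
      refine Real.exp_le_exp.2 ?_
      have h3 : -(t * (u.im - z.im)) ≤ |t| := by
        refine (neg_le_abs _).trans ?_
        rw [abs_mul]
        exact mul_le_of_le_one_right (abs_nonneg _) h1
      nlinarith [Real.pi_pos]
  simpa using this

lemma tendsto_eta_prod : Tendsto (fun z : ℂ => ∏' n : ℕ, (1 - eta_q n z)) atI (𝓝 1) := by
  have htprod : Tendsto (fun q : ℂ => ∏' n : ℕ, (1 - q ^ (n + 1))) (𝓝 0) (𝓝 1) := by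
    have := (differentiableOn_tprod_one_sub_pow.continuousOn.continuousAt
      (Metric.ball_mem_nhds (0 : ℂ) one_pos)).tendsto
    simpa using this
  have := htprod.comp ((Function.Periodic.qParam_tendsto one_pos).mono_right nhdsWithin_le_nhds)
  refine this.congr fun z => ?_
  simp [eta_q]

lemma eta_theta : (fun z => ‖η z‖) =Θ[atI] ex (1 / 24) := by
  have h1 : (fun z : ℂ => ‖∏' n : ℕ, (1 - eta_q n z)‖) =Θ[atI] fun _ => (1 : ℝ) := by
    rw [isTheta_norm_left]
    exact (isEquivalent_const_iff_tendsto one_ne_zero |>.2 tendsto_eta_prod).isTheta.trans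
      (isTheta_const_const one_ne_zero one_ne_zero)
  have := (isTheta_refl (ex (1 / 24)) atI).mul h1
  simp only [mul_one] at this
  refine EventuallyEq.trans_isTheta (.of_forall fun z => ?_) this
  simp only [ModularForm.eta, norm_mul, Function.Periodic.norm_qParam, ex]
  congr 2
  ring

lemma norm_eta_act : ∀ g : M2, g.det = 1 → ∀ z, 0 < z.im →
    ‖η (g.act z)‖ ^ 2 = ‖g.j z‖ * ‖η z‖ ^ 2 := by
  refine sl2_ind (by simp) ?_ ?_
  · intro g hg ih z hz
    have h1 : (0 : ℤ) < mS.det := one_pos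
    obtain ⟨r, hr⟩ := exists_rt (w := -I * z) (by simpa using hz)
    have h2 : mS.act z = -1 / z := by simp [mS, act, mob]
    have h3 : ‖r‖ ^ 2 = ‖mS.j z‖ := by rw [← norm_pow, hr.1]; simp [mS, j]
    rw [act_mul (by omega) h1 hz, j_mul _ h1.ne' hz, ih _ (im_act_pos h1 hz), norm_mul]
    conv_lhs => rw [h2, eta_S hz hr, norm_mul, mul_pow, h3, ← h2]
    ring
  · intro g hg
    have h1 : (0 : ℤ) < (mT 1).det := one_pos
    have key : ∀ z, 0 < z.im → (‖η ((g * mT 1).act z)‖ ^ 2 = ‖(g * mT 1).j z‖ * ‖η z‖ ^ 2 ↔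
        ‖η (g.act (z + 1))‖ ^ 2 = ‖g.j (z + 1)‖ * ‖η (z + 1)‖ ^ 2) := fun z hz => by
      have := eta_T z 1
      rw [Int.cast_one] at this
      rw [act_mul (by omega) h1 hz, j_mul _ h1.ne' hz, act_mT, j_mT, this, norm_mul _ (η z),
        norm_e24]
      simp
    constructor
    · intro ih z hz
      exact (key z hz).2 (ih _ (by simpa using hz))
    · intro ih z hz
      have hz' : 0 < (z - 1).im := by simpa using hz
      simpa using (key _ hz').1 (ih _ hz')

lemma im_upper {A B C : ℤ} (z : ℂ) : ((M2.mk A B 0 C).act z).im = A / C * z.im := by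
  have : (M2.mk A B 0 C).act z = ((A / C : ℝ) : ℂ) * z + ((B / C : ℝ) : ℂ) := by
    simp [act, mob]; ring
  rw [this]; simp only [add_im, im_ofReal_mul, ofReal_im, add_zero]

lemma tendsto_upper {A B C : ℤ} (hA : 0 < A) (hC : 0 < C) :
    Tendsto (M2.mk A B 0 C).act atI atI := by
  rw [tendsto_comap_iff]
  have h1 : (0 : ℝ) < A := by exact_mod_cast hA
  have h2 : (0 : ℝ) < C := by exact_mod_cast hC
  exact (tendsto_im.const_mul_atTop (div_pos h1 h2)).congr fun z => (im_upper z).symm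

/-- Size of `η (g z)` near the cusp `g ∞`. -/
theorem eta_act_theta {g : M2} (hg : 0 < g.det) :
    (fun z => ‖η (g.act z)‖ ^ 2 / ‖g.j z‖) =Θ[atI]
      ex ((Int.gcd g.a g.c : ℝ) ^ 2 / (12 * g.det)) := by
  obtain ⟨h, A, B, C, hh, hA, hC, hA', hAC, rfl⟩ := exists_upper hg
  have hu : 0 < (M2.mk A B 0 C).det := by simp [det]; positivity
  have h1 : (0 : ℝ) < A := by exact_mod_cast hA
  have h2 : (0 : ℝ) < C := by exact_mod_cast hC
  have h3 := eta_theta.pow 2
  have h4 := tendsto_upper (B := B) hA hC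
  have h5 : (fun z => ‖η ((M2.mk A B 0 C).act z)‖ ^ 2) =Θ[atI]
      fun z => ex (1 / 24) ((M2.mk A B 0 C).act z) ^ 2 :=
    ⟨h3.1.comp_tendsto h4, h3.2.comp_tendsto h4⟩
  have h6 := (h5.const_mul_left (c := (C : ℝ)⁻¹) (by positivity))
  refine EventuallyEq.trans_isTheta ?_ (h6.trans_eventuallyEq (.of_forall fun z => ?_))
  · filter_upwards [ev_im 0] with z hz
    have h7 := norm_pos_iff.2 (j_ne (g := h) (by omega) (im_act_pos hu hz))
    rw [act_mul (by omega) hu hz, norm_eta_act _ hh _ (im_act_pos hu hz), j_mul _ hu.ne' hz,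
      norm_mul, show ‖(M2.mk A B 0 C).j z‖ = C by simp [j, abs_of_pos h2]]
    field_simp
  · have h8 : ((Int.gcd (h * ⟨A, B, 0, C⟩).a (h * ⟨A, B, 0, C⟩).c : ℕ) : ℝ) = A := by
      rw [← Int.cast_natCast, ← hA']
    rw [h8, ← hAC]
    dsimp only
    rw [ex_pow]
    simp only [ex, im_upper]
    congr 1
    push_cast
    field_simp
    ring

end Pool.Agent.P.MP_8b7eba_nt.Mod
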