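import Pool.Agent.P.MP_8b7eba_nt.ModHecke

/-! The modular parametrisation of the curve `y ^ 2 = 4 x ^ 3 - 7 x ^ 2 - 36 x`. -/

open Complex Filter Asymptotics Topology PowerSeries Metric
open scoped Real

namespace Pool.Agent.P.MP_8b7eba_nt.Mod

open M2

noncomputable def NN : ℤ⟦X⟧ := PP 3 * PP 5 ^ 5
noncomputable def MM : ℤ⟦X⟧ := PP 1 * PP 15 ^ 5
noncomputable def KK : ℤ⟦X⟧ := X * d⁄dX ℤ NN * MM - NN * (X * d⁄dX ℤ MM) - 2 * NN * MM
noncomputable def Num : ℤ⟦X⟧ :=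
  KK ^ 2 - FF ^ 2 * MM * (4 * NN ^ 3 - 7 * X ^ 2 * NN ^ 2 * MM - 36 * X ^ 4 * NN * MM ^ 2)

noncomputable def Nf (q : ℂ) : ℂ := Pf 3 q * Pf 5 q ^ 5
noncomputable def Mf (q : ℂ) : ℂ := Pf 1 q * Pf 15 q ^ 5
noncomputable def Kf (q : ℂ) : ℂ :=
  q * deriv Nf q * Mf q - Nf q * (q * deriv Mf q) - 2 * Nf q * Mf q
noncomputable def Numf (q : ℂ) : ℂ := Kf q ^ 2 - Ff q ^ 2 * Mf q *
  (4 * Nf q ^ 3 - 7 * q ^ 2 * Nf q ^ 2 * Mf q - 36 * q ^ 4 * Nf q * Mf q ^ 2)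

lemma rep_Nf : Rep Nf NN := (rep_Pf (by norm_num)).mul ((rep_Pf (by norm_num)).pow 5)
lemma rep_Mf : Rep Mf MM := (rep_Pf (by norm_num)).mul ((rep_Pf (by norm_num)).pow 5)
lemma rep_Kf : Rep Kf KK :=
  (((Rep.id'.mul rep_Nf.deriv).mul rep_Mf).sub (rep_Nf.mul (Rep.id'.mul rep_Mf.deriv))).sub
    (((Rep.nat 2).mul rep_Nf).mul rep_Mf)
lemma rep_Numf : Rep Numf Num :=
  (rep_Kf.pow 2).sub (((rep_Ff.pow 2).mul rep_Mf).mul ((((Rep.nat 4).mul (rep_Nf.pow 3)).sub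
    ((((Rep.nat 7).mul (Rep.id'.pow 2)).mul (rep_Nf.pow 2)).mul rep_Mf)).sub
    ((((Rep.nat 36).mul (Rep.id'.pow 4)).mul rep_Nf).mul (rep_Mf.pow 2))))

lemma theta_dvd {k : ℕ} {A B : ℤ⟦X⟧} (h : X ^ k ∣ A - B) :
    X ^ k ∣ X * d⁄dX ℤ A - X * d⁄dX ℤ B := by
  rw [← mul_sub, ← map_sub]
  refine X_pow_dvd_iff.2 fun m hm => ?_
  rcases m with _ | m
  · simp
  · rw [coeff_succ_X_mul, coeff_derivative, X_pow_dvd_iff.1 h _ hm, zero_mul]

lemma mk_eq {A B : ℤ⟦X⟧} : Ideal.Quotient.mk (Ideal.span {(X ^ 7 : ℤ⟦X⟧)}) A =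
    Ideal.Quotient.mk _ B ↔ X ^ 7 ∣ A - B := by
  rw [Ideal.Quotient.eq, Ideal.mem_span_singleton]

lemma mk_X7 : Ideal.Quotient.mk (Ideal.span {(X ^ 7 : ℤ⟦X⟧)}) X ^ 7 = 0 :=
  Ideal.Quotient.eq_zero_iff_mem.2 (Ideal.mem_span_singleton_self _)

lemma NN_dvd : X ^ 7 ∣ NN - (1 - X ^ 3 - C 5 * X ^ 5 - X ^ 6) := by
  have h0 := mk_X7
  rw [← mk_eq, show (C 5 : ℤ⟦X⟧) = 5 from rfl]
  simp only [NN, map_mul, mk_eq.2 PP_three, mk_eq.2 PP_five, map_sub, map_pow, map_one, map_ofNat]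
  generalize Ideal.Quotient.mk (Ideal.span {(X ^ 7 : ℤ⟦X⟧)}) X = e at h0 ⊢
  linear_combination (5 * e + 10 * e ^ 3 + 5 * e ^ 4 - 10 * e ^ 6 - 10 * e ^ 8 - 10 * e ^ 9
    + 10 * e ^ 11 + 5 * e ^ 13 + 10 * e ^ 14 - 5 * e ^ 16 - e ^ 18 - 5 * e ^ 19 + e ^ 21
    + e ^ 24) * h0

lemma MM_dvd : X ^ 7 ∣ MM - (1 - X - X ^ 2 + X ^ 5) := by
  rw [← mk_eq]
  simp only [MM, map_mul, mk_eq.2 PP_one, mk_eq.2 PP_fifteen, map_pow, map_one, one_pow, mul_one]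

lemma Num_dvd : X ^ 7 ∣ Num := by
  have h0 := mk_X7
  have h1 := theta_dvd NN_dvd
  have h2 := theta_dvd MM_dvd
  have e1 : X * d⁄dX ℤ (1 - X ^ 3 - C 5 * X ^ 5 - X ^ 6 : ℤ⟦X⟧) =
      -3 * X ^ 3 - 25 * X ^ 5 - 6 * X ^ 6 := by
    simp only [map_sub, Derivation.leibniz, derivative_pow, derivative_C, derivative_one,
      derivative_X, smul_eq_mul]
    rw [show (C 5 : ℤ⟦X⟧) = 5 from rfl]
    push_cast
    ring
  have e2 : X * d⁄dX ℤ (1 - X - X ^ 2 + X ^ 5 : ℤ⟦X⟧) = -X - 2 * X ^ 2 + 5 * X ^ 5 := by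
    simp only [map_sub, map_add, derivative_pow, derivative_one, derivative_X]
    push_cast
    ring
  rw [e1] at h1
  rw [e2] at h2
  have h3 := NN_dvd
  rw [show (C 5 : ℤ⟦X⟧) = 5 from rfl] at h3
  rw [← sub_zero Num, ← mk_eq, Num, KK]
  generalize X * d⁄dX ℤ NN = A at h1
  generalize X * d⁄dX ℤ MM = B at h2
  simp only [map_mul, mk_eq.2 h1, mk_eq.2 h2, mk_eq.2 h3, mk_eq.2 MM_dvd, mk_eq.2 FF_dvd, map_sub,
    map_add, map_neg, map_pow, map_one, map_ofNat, map_zero]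
  generalize Ideal.Quotient.mk (Ideal.span {(X ^ 7 : ℤ⟦X⟧)}) X = e at h0 ⊢
  linear_combination (-8 + 186 * e - 496 * e ^ 2 + 56 * e ^ 3 + 420 * e ^ 4 + 218 * e ^ 5
    + 972 * e ^ 6 - 1501 * e ^ 7 + 176 * e ^ 8 - 2984 * e ^ 9 - 1640 * e ^ 10 + 3597 * e ^ 11
    + 8188 * e ^ 12 + 6890 * e ^ 13 - 11556 * e ^ 14 - 15693 * e ^ 15 - 5440 * e ^ 16
    + 13050 * e ^ 17 + 16772 * e ^ 18 + 2854 * e ^ 19 - 7844 * e ^ 20 - 9076 * e ^ 21
    - 2136 * e ^ 22 + 2596 * e ^ 23 + 2288 * e ^ 24 + 772 * e ^ 25 - 236 * e ^ 26 - 245 * e ^ 27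
    - 36 * e ^ 28) * h0

lemma const_of_dvd {A B : ℤ⟦X⟧} (h : X ^ 7 ∣ A - B) : constantCoeff A = constantCoeff B := by
  have := X_pow_dvd_iff.1 h 0 (by norm_num)
  rwa [coeff_zero_eq_constantCoeff, map_sub, sub_eq_zero] at this

lemma const_NN : constantCoeff NN = 1 := by simp [const_of_dvd NN_dvd]
lemma const_MM : constantCoeff MM = 1 := by simp [const_of_dvd MM_dvd]
lemma const_FF : constantCoeff FF = 1 := by simp [const_of_dvd FF_dvd]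

lemma Mf_ne {z : ℂ} (hz : 0 < z.im) : Mf (qq z) ≠ 0 :=
  mul_ne_zero (Pf_ne one_pos hz) (pow_ne_zero _ (Pf_ne (by norm_num) hz))

lemma Ff_ne {z : ℂ} (hz : 0 < z.im) : Ff (qq z) ≠ 0 :=
  right_ne_zero_of_mul (ff_eq z ▸ ff_ne hz)

lemma xx_eq (z : ℂ) : xx z = Nf (qq z) / (qq z ^ 2 * Mf (qq z)) := by
  obtain ⟨h1, h2, h3, h4⟩ := four_q z
  have h0 : cexp (2 * π * I * z / 24) ^ 28 ≠ 0 := pow_ne_zero _ (Complex.exp_ne_zero _)
  rw [xx, h1, h2, h3, h4, Nf, Mf, ← mul_div_mul_left (Pf 3 _ * _) _ h0]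
  nth_rw 7 [← exp24]
  congr 1 <;> ring

lemma deriv_xx {z : ℂ} (hz : 0 < z.im) :
    deriv xx z = 2 * π * I * Kf (qq z) / (qq z ^ 2 * Mf (qq z) ^ 2) := by
  have hb : ball (0 : ℂ) 1 ∈ 𝓝 (qq z) := isOpen_ball.mem_nhds (mem_ball_zero_iff.2 (norm_qq_lt hz))
  have h1 := (rep_Nf.1.differentiableAt hb).hasDerivAt.comp z (hasDerivAt_qq z)
  have h2 := (rep_Mf.1.differentiableAt hb).hasDerivAt.comp z (hasDerivAt_qq z)
  have h3 := Mf_ne hz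
  have h4 := qq_ne z
  have := (h1.div (((hasDerivAt_qq z).pow 2).mul h2) (mul_ne_zero (pow_ne_zero _ h4) h3)).deriv
  rw [show xx = _ from funext xx_eq]
  refine this.trans ?_
  simp only [Function.comp, Pi.mul_apply, Pi.pow_apply, Kf]
  field_simp
  ring

noncomputable def yy (z : ℂ) : ℂ := deriv xx z / (2 * π * I * ff z)

lemma two_pi_I_ne : (2 * π * I : ℂ) ≠ 0 := Complex.two_pi_I_ne_zero

lemma deriv_comp_act {G : ℂ → ℂ} (hG : DifferentiableOn ℂ G UH) {g : M2} (hg : 0 < g.det) {z : ℂ}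
    (hz : 0 < z.im) : deriv (fun z => G (g.act z)) z = sl (deriv G) g z := by
  have := ((hG.differentiableAt (UH_mem_nhds (im_act_pos hg hz))).hasDerivAt.comp z
    (hasDerivAt_act hg.ne' hz)).deriv
  refine this.trans ?_
  rw [sl]; ring

lemma yy_act {g : M2} (hg : g.det = 1) {z : ℂ} (hz : 0 < z.im) :
    yy (g.act z) = deriv (fun z => xx (g.act z)) z / (2 * π * I * sl ff g z) := by
  have := j_ne (g := g) (by omega) hz
  rw [deriv_comp_act diff_xx (by omega) hz]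
  simp only [yy, sl, hg]
  field_simp

lemma yy_inv {g : M2} (hg : G0 g) {z : ℂ} (hz : 0 < z.im) : yy (g.act z) = yy z := by
  rw [yy_act hg.1 hz, (ff_inv g hg).sl_eq hg.1 hz, yy]
  congr 1
  refine EventuallyEq.deriv_eq ?_
  filter_upwards [UH_mem_nhds hz] with w hw using xx_inv g hg w hw

lemma yy_bdd {g : M2} (hg : g.det = 1) (hc : ¬ (15 : ℤ) ∣ g.c) :
    BoundedAtFilter atI fun z => yy (g.act z) := by
  have hw : (0 : ℝ) < wd g := by exact_mod_cast wd_pos g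
  obtain ⟨L, hL⟩ := decay hw (G := fun z => xx (g.act z)) (fun z hz => by
    rw [ofReal_intCast, act_add_wd hg hz, xx_inv _ (G0_conj hg) _ (im_act_pos (by omega) hz)])
    (diff_act (by omega) diff_xx) (xx_bdd hg hc)
  have := ((deriv_decay (diff_act (by omega) diff_xx) hL).mul
    (sl_ff_theta hg).inv.1).const_mul_left (2 * π * I)⁻¹
  refine this.congr' ?_ (.of_forall fun z => by simp [(ex_pos _ z).ne'])
  filter_upwards [ev_im 0] with z hz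
  rw [yy_act hg hz]
  ring

noncomputable def RR (z : ℂ) : ℂ := yy z ^ 2 - (4 * xx z ^ 3 - 7 * xx z ^ 2 - 36 * xx z)

lemma RR_eq {z : ℂ} (hz : 0 < z.im) :
    RR z = Numf (qq z) / (qq z ^ 6 * Mf (qq z) ^ 4 * Ff (qq z) ^ 2) := by
  have h3 := Mf_ne hz
  have h4 := qq_ne z
  have h5 := Ff_ne hz
  have h6 := two_pi_I_ne
  rw [RR, yy, deriv_xx hz, ff_eq, xx_eq, Numf]
  generalize (2 * π * I : ℂ) = t at h6
  field_simp

lemma tendsto_RR : Tendsto RR atI (𝓝 0) := by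
  obtain ⟨B, hB⟩ := Num_dvd
  obtain ⟨Ψ, h1, h2⟩ := Rep.div_X_pow 7 (hB ▸ rep_Numf)
  have h3 := rep_Mf.tendsto.comp tendsto_qq
  have h4 := rep_Ff.tendsto.comp tendsto_qq
  rw [const_MM] at h3
  rw [const_FF] at h4
  have := (tendsto_qq.mul (h1.tendsto.comp tendsto_qq)).div ((h3.pow 4).mul (h4.pow 2)) (by simp)
  rw [zero_mul, zero_div] at this
  refine this.congr' ?_
  filter_upwards [ev_im 0] with z hz
  have h4 := qq_ne z
  rw [RR_eq hz, h2]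
  simp only [Pi.div_apply, Function.comp]
  field_simp

theorem RR_zero {z : ℂ} (hz : 0 < z.im) : RR z = 0 := by
  have hy : DifferentiableOn ℂ yy UH := (diff_xx.deriv isOpen_UH).div (diff_ff.const_mul _)
    fun z hz => mul_ne_zero two_pi_I_ne (ff_ne hz)
  have hinv : ∀ γ, G0 γ → ∀ z, 0 < z.im → RR (γ.act z) = RR z := fun γ hγ z hz => by
    simp only [RR, yy_inv hγ hz, xx_inv γ hγ z hz]
  obtain ⟨c, hc⟩ := const_of_weight_zero (h := RR) ((hy.pow 2).sub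
    ((((diff_xx.pow 3).const_mul 4).sub ((diff_xx.pow 2).const_mul 7)).sub (diff_xx.const_mul 36)))
    hinv fun γ hγ => by
      by_cases h : (15 : ℤ) ∣ γ.c
      · refine (tendsto_RR.isBigO_one ℝ).congr' ?_ .rfl
        filter_upwards [ev_im 0] with z hz using (hinv γ ⟨hγ, h⟩ z hz).symm
      · have h1 := xx_bdd hγ h
        have h2 := yy_bdd hγ h
        refine IsBigO.congr_left (IsBigO.sub (h2.mul h2) (IsBigO.sub (IsBigO.sub
          ((h1.mul (h1.mul h1)).smul (4 : ℂ)) ((h1.mul h1).smul (7 : ℂ))) (h1.smul (36 : ℂ))))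
          fun z => ?_
        simp [RR]
        ring
  have : Tendsto RR atI (𝓝 c) := tendsto_const_nhds.congr' (by
    filter_upwards [ev_im 0] with z hz using (hc z hz).symm)
  rw [hc z hz, tendsto_nhds_unique this tendsto_RR]

theorem Num_zero : Num = 0 := rep_Numf.eq_zero fun z hz => by
  have := RR_zero hz
  rw [RR_eq hz, div_eq_zero_iff] at this
  exact this.resolve_right (mul_ne_zero (mul_ne_zero (pow_ne_zero _ (qq_ne z))
    (pow_ne_zero _ (Mf_ne hz))) (pow_ne_zero _ (Ff_ne hz)))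

/-- The parametrisation by integral power series. -/
theorem exists_XY : ∃ x y : ℤ⟦X⟧, constantCoeff x = 1 ∧ y * FF = X * d⁄dX ℤ x - 2 * x ∧
    y ^ 2 = 4 * x ^ 3 - 7 * X ^ 2 * x ^ 2 - 36 * X ^ 4 * x := by
  obtain ⟨W, hW⟩ := (isUnit_iff_constantCoeff.2 (const_MM ▸ isUnit_one)).exists_right_inv
  obtain ⟨V, hV⟩ := (isUnit_iff_constantCoeff.2 (const_FF ▸ isUnit_one)).exists_right_inv
  have h1 := congrArg (d⁄dX ℤ) hW
  rw [Derivation.leibniz, derivative_one, smul_eq_mul, smul_eq_mul] at h1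
  have h2 := congrArg constantCoeff hW
  rw [map_mul, const_MM, one_mul, map_one] at h2
  refine ⟨NN * W, KK * W ^ 2 * V, by simp [const_NN, h2], ?_, ?_⟩
  · rw [Derivation.leibniz, smul_eq_mul, smul_eq_mul, KK]
    linear_combination (X * d⁄dX ℤ NN * MM - NN * (X * d⁄dX ℤ MM) - 2 * NN * MM) * W ^ 2 * hV
      - X * NN * W * h1 + (X * d⁄dX ℤ NN * W + X * NN * d⁄dX ℤ W - 2 * NN * W) * hW
  · have h3 := Num_zero
    unfold Num at h3
    have h4 : MM * W = 1 := hW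
    linear_combination W ^ 4 * V ^ 2 * h3 + (MM * W ^ 4 * (4 * NN ^ 3 - 7 * X ^ 2 * NN ^ 2 * MM -
      36 * X ^ 4 * NN * MM ^ 2) * (FF * V + 1)) * hV + (4 * NN ^ 3 * W ^ 3 - 7 * X ^ 2 * NN ^ 2 *
      W ^ 2 * (MM * W + 1) - 36 * X ^ 4 * NN * W * ((MM * W) ^ 2 + MM * W + 1)) * h4

end Pool.Agent.P.MP_8b7eba_nt.Mod
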