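import Mathlib

/-! The transformation law of the Dedekind eta function with a computable multiplier. -/

open Complex ModularForm
open scoped Real

namespace Pool.Agent.P.MP_8b7eba_nt.Mod

/-- Moebius map of an integer matrix. -/
noncomputable def mob (a b c d : ℤ) (z : ℂ) : ℂ := (a * z + b) / (c * z + d)

noncomputable def e24 (k : ℤ) : ℂ := cexp (2 * π * I * k / 24)

lemma e24_add (k l : ℤ) : e24 (k + l) = e24 k * e24 l := by
  simp only [e24, ← Complex.exp_add]; congr 1; push_cast; ring

lemma e24_zero : e24 0 = 1 := by simp [e24]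

lemma e24_mul24 (k : ℤ) : e24 (24 * k) = 1 := by
  unfold e24
  rw [← Complex.exp_int_mul_two_pi_mul_I k]; congr 1; push_cast; ring

lemma e24_twelve : e24 12 = -1 := by
  unfold e24
  rw [← Complex.exp_pi_mul_I]; congr 1; push_cast; ring

lemma e24_neg_three : e24 (-3) = (√2⁻¹ : ℝ) * (1 - I) := by
  have : e24 (-3) = cexp ((-(π / 4) : ℝ) * I) := by
    unfold e24; congr 1; push_cast; ring
  rw [this, Complex.exp_mul_I, ← Complex.ofReal_cos, ← Complex.ofReal_sin, Real.cos_neg,
    Real.sin_neg, Real.cos_pi_div_four, Real.sin_pi_div_four]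
  have h : √2⁻¹ = √2 / 2 := by
    rw [Real.sqrt_inv]
    have : √2 * √2 = 2 := Real.mul_self_sqrt (by norm_num)
    have h0 : √2 ≠ 0 := by positivity
    field_simp
    linarith
  rw [h]; push_cast; ring

lemma norm_e24 (k : ℤ) : ‖e24 k‖ = 1 := by
  have : e24 k = cexp ((2 * π * k / 24 : ℝ) * I) := by unfold e24; congr 1; push_cast; ring
  rw [this, Complex.norm_exp_ofReal_mul_I]

/-- `r` is the square root of `w` in the sector `|arg| < π/4`. -/
def Rt (r w : ℂ) : Prop := r ^ 2 = w ∧ |r.im| < r.re

lemma sqrt_sq' (w : ℂ) : Complex.sqrt w ^ 2 = w := by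
  unfold Complex.sqrt
  exact_mod_cast Complex.cpow_ofNat_inv_pow w 2

lemma sqrt_re_nonneg (w : ℂ) : 0 ≤ (Complex.sqrt w).re := by
  unfold Complex.sqrt
  rw [Complex.cpow_inv_two_re]; positivity

lemma exists_rt {w : ℂ} (hw : 0 < w.re) : ∃ r, Rt r w := by
  refine ⟨Complex.sqrt w, sqrt_sq' w, ?_⟩
  have h1 := congrArg Complex.re (sqrt_sq' w)
  have h0 := sqrt_re_nonneg w
  simp only [sq, mul_re] at h1
  exact abs_lt_of_sq_lt_sq (by nlinarith) h0

lemma eq_of_sq_eq {r s : ℂ} (h : r ^ 2 = s ^ 2) (hr : 0 < r.re) (hs : 0 < s.re) : r = s := by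
  rcases sq_eq_sq_iff_eq_or_eq_neg.1 h with h | h
  · exact h
  · rw [h] at hr; simp at hr; linarith

lemma Rt.re_pos {r w : ℂ} (h : Rt r w) : 0 < r.re := (abs_nonneg _).trans_lt h.2

lemma Rt.unique {r s w : ℂ} (h : Rt r w) (h' : Rt s w) : r = s :=
  eq_of_sq_eq (h.1.trans h'.1.symm) h.re_pos h'.re_pos

lemma sqrt2inv_sq : ((√2⁻¹ : ℝ) : ℂ) ^ 2 = 1 / 2 := by
  rw [← Complex.ofReal_pow, Real.sq_sqrt (by norm_num)]; norm_num

lemma eta_S {z r : ℂ} (hz : 0 < z.im) (hr : Rt r (-I * z)) : η (-1 / z) = r * η z := by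
  have h := eta_comp_eq_csqrt_I_inv (show z ∈ UpperHalfPlane.upperHalfPlaneSet from hz)
  simp only [Function.comp, Pi.smul_apply, Pi.mul_apply, smul_eq_mul] at h
  rw [h, ← mul_assoc]
  congr 1
  have hI : (Complex.sqrt I)⁻¹ = (√2⁻¹ : ℝ) * (1 - I) := by
    rw [Complex.sqrt_I]
    apply inv_eq_of_mul_eq_one_right
    have := sqrt2inv_sq
    linear_combination (1 - I ^ 2) * this - I_sq / 2
  rw [hI]
  have h1 := congrArg Complex.im (sqrt_sq' z)
  have h0 := sqrt_re_nonneg z
  simp only [sq, mul_im] at h1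
  have hp : 0 < (Complex.sqrt z).re := by
    rcases h0.lt_or_eq with h | h
    · exact h
    · rw [← h] at h1; simp at h1; linarith
  have hq : 0 < (Complex.sqrt z).im := by nlinarith
  refine eq_of_sq_eq ?_ ?_ hr.re_pos
  · rw [hr.1, mul_pow, mul_pow, sqrt2inv_sq, sqrt_sq']
    linear_combination z / 2 * I_sq
  · have : (0 : ℝ) < √2⁻¹ := by positivity
    simp only [mul_re, mul_im, ofReal_re, ofReal_im, sub_re, sub_im, one_re, one_im, I_re, I_im]
    nlinarith

lemma eta_T (z : ℂ) (n : ℤ) : η (z + n) = e24 n * η z := by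
  unfold ModularForm.eta
  have : ∀ m, eta_q m (z + n) = eta_q m z := fun m => by
    rw [eta_q_eq_pow, eta_q_eq_pow, mul_add, Complex.exp_add,
      show 2 * π * I * (n : ℂ) = n * (2 * π * I) by ring, Complex.exp_int_mul_two_pi_mul_I, mul_one]
  simp only [this, Function.Periodic.qParam, e24, ← mul_assoc, ← Complex.exp_add]
  congr 2; push_cast; ring

/-- The exponent of the multiplier of eta, by the Euclidean algorithm. -/
def mult : ℕ → ℤ → ℤ → ℤ → ℤ → ℤ
  | 0, _, _, _, _ => 0
  | k + 1, a, b, c, d =>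
    if -(-d / c) * c - d = 0 then a + -(-d / c)
    else mult k (-(-d / c) * a - b) a (-(-d / c) * c - d) c - 3 + -(-d / c)

lemma den_ne {c d : ℤ} (h : c ≠ 0 ∨ d ≠ 0) {z : ℂ} (hz : 0 < z.im) : (c : ℂ) * z + d ≠ 0 := by
  intro h0
  have h1 := congrArg Complex.im h0
  simp at h1
  rcases h1 with h1 | h1
  · subst h1
    simp at h0
    rcases h with h | h <;> contradiction
  · exact hz.ne' h1

lemma cd_ne {a b c d : ℤ} (h : a * d - b * c ≠ 0) : c ≠ 0 ∨ d ≠ 0 := by
  by_contra hh
  push Not at hh
  exact h (by rw [hh.1, hh.2]; ring)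

lemma im_mob {a b c d : ℤ} (z : ℂ) :
    (mob a b c d z).im = (a * d - b * c : ℤ) * z.im / normSq (c * z + d) := by
  unfold mob
  rw [Complex.div_im]
  simp
  ring

lemma im_mob_pos {a b c d : ℤ} (h : 0 < a * d - b * c) {z : ℂ} (hz : 0 < z.im) :
    0 < (mob a b c d z).im := by
  rw [im_mob]
  have := normSq_pos.2 (den_ne (cd_ne h.ne') hz)
  have h' : (0 : ℝ) < (a * d - b * c : ℤ) := by exact_mod_cast h
  positivity

lemma neg_I_re {c d : ℤ} (hc : 0 < c) {z : ℂ} (hz : 0 < z.im) :
    0 < (-I * (c * z + d)).re := by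
  have : (0 : ℝ) < c := by exact_mod_cast hc
  simp
  positivity

theorem eta_mob (k : ℕ) : ∀ a b c d : ℤ, a * d - b * c = 1 → 0 < c → c ≤ k →
    ∀ z r : ℂ, 0 < z.im → Rt r (-I * (c * z + d)) →
      η (mob a b c d z) = e24 (mult k a b c d) * r * η z := by
  induction k with
  | zero => intro a b c d _ h1 h2; omega
  | succ k ih =>
    intro a b c d hdet hc hk z r hz hr
    set n := -(-d / c) with hn
    have hc' : 0 ≤ n * c - d ∧ n * c - d < c := by
      have h1 := Int.emod_nonneg (-d) hc.ne'
      have h2 := Int.emod_lt_of_pos (-d) hc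
      have h3 := Int.emod_add_ediv_mul (-d) c
      constructor <;> nlinarith
    have hzn : 0 < (z + n).im := by simpa using hz
    have hzn0 : z + n ≠ 0 := fun h => by rw [h] at hzn; simp at hzn
    have hden := den_ne (c := c) (d := d) (.inl hc.ne') hz
    unfold mult
    rw [← hn]
    split_ifs with h0
    · have hc1 : c = 1 := by
        have : d = n * c := by linarith
        have h : c * (a * n - b) = 1 := by rw [← hdet, this]; ring
        exact Int.eq_one_of_mul_eq_one_right hc.le h
      subst hc1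
      have hd : d = n := by linarith
      have hb : b = a * n - 1 := by rw [← hd]; linarith
      have : mob a b 1 d z = -1 / (z + n) + a := by
        unfold mob
        rw [hb, hd]
        push_cast
        field_simp
        ring
      rw [this, eta_T, eta_S (r := r) hzn (by simpa [hd] using hr), eta_T, e24_add]
      ring
    · have hpos : 0 < n * c - d := lt_of_le_of_ne hc'.1 (Ne.symm h0)
      have hw : 0 < (-1 / (z + n)).im := by
        have := im_mob_pos (a := 0) (b := -1) (c := 1) (d := n) (by norm_num) hz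
        simpa [mob] using this
      obtain ⟨u, hu⟩ := exists_rt (neg_I_re (d := c) hpos hw)
      obtain ⟨v, hv⟩ := exists_rt (w := -I * (z + n)) (by simpa using hz)
      have e1 : mob a b c d z = mob (n * a - b) a (n * c - d) c (-1 / (z + n)) := by
        have := den_ne (c := n * c - d) (d := c) (.inr hc.ne') hw
        unfold mob
        rw [div_eq_div_iff hden this]
        have h : (a : ℂ) * d - b * c = 1 := by exact_mod_cast hdet
        push_cast
        field_simp
        ring
      rw [e1, ih _ _ _ _ (by linear_combination hdet) hpos (by omega) _ u hw hu, eta_S hzn hv,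
        eta_T, e24_add, sub_eq_add_neg (mult _ _ _ _ _), e24_add]
      have : u * v = e24 (-3) * r := by
        refine eq_of_sq_eq ?_ ?_ ?_
        · rw [mul_pow, mul_pow, hu.1, hv.1, hr.1, e24_neg_three, mul_pow, sqrt2inv_sq]
          push_cast
          field_simp
          ring_nf
          simp only [I_sq]
          ring
        · have h1 := abs_lt.1 hu.2
          have h2 := abs_lt.1 hv.2
          rw [mul_re]
          nlinarith
        · have h1 := abs_lt.1 hr.2
          have : (0 : ℝ) < √2⁻¹ := by positivity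
          rw [e24_neg_three]
          simp only [mul_re, mul_im, ofReal_re, ofReal_im, sub_re, sub_im, one_re, one_im, I_re,
            I_im]
          nlinarith
      linear_combination (e24 (mult k (n * a - b) a (n * c - d) c) * e24 n * η z) * this

end Pool.Agent.P.MP_8b7eba_nt.Mod
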