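import Pool.Agent.P.MP_8b7eba_nt.ModBasic

/-! The newform of level 15, the modular function `x`, and the dimension of the space of cusp forms. -/

open Complex ModularForm Filter Asymptotics Topology
open scoped Real MatrixGroups

namespace Pool.Agent.P.MP_8b7eba_nt.Mod

open M2

/-- The newform of level 15. -/
noncomputable def ff (z : ℂ) : ℂ := η z * η (3 * z) * η (5 * z) * η (15 * z)

/-- A modular function with a double pole at infinity. -/
noncomputable def xx (z : ℂ) : ℂ := η (3 * z) * η (5 * z) ^ 5 / (η z * η (15 * z) ^ 5)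

lemma eta_ne {z : ℂ} (hz : 0 < z.im) : η z ≠ 0 := eta_ne_zero hz

lemma im_mul_pos {δ : ℕ} (hδ : 0 < δ) {z : ℂ} (hz : 0 < z.im) : 0 < ((δ : ℂ) * z).im := by
  simp; positivity

lemma im3 {z : ℂ} (hz : 0 < z.im) : 0 < (3 * z).im := im_mul_pos (δ := 3) (by norm_num) hz
lemma im5 {z : ℂ} (hz : 0 < z.im) : 0 < (5 * z).im := im_mul_pos (δ := 5) (by norm_num) hz
lemma im15 {z : ℂ} (hz : 0 < z.im) : 0 < (15 * z).im := im_mul_pos (δ := 15) (by norm_num) hz

lemma ff_ne {z : ℂ} (hz : 0 < z.im) : ff z ≠ 0 :=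
  mul_ne_zero (mul_ne_zero (mul_ne_zero (eta_ne hz) (eta_ne (im3 hz))) (eta_ne (im5 hz)))
    (eta_ne (im15 hz))

lemma diff_eta_mul (δ : ℕ) (hδ : 0 < δ) : DifferentiableOn ℂ (fun z => η ((δ : ℂ) * z)) UH :=
  fun z hz => ((differentiableAt_eta_of_mem_upperHalfPlaneSet (im_mul_pos hδ hz)).comp z
    (by fun_prop)).differentiableWithinAt

lemma diff_eta : DifferentiableOn ℂ η UH := by simpa using diff_eta_mul 1 one_pos

lemma diff_ff : DifferentiableOn ℂ ff UH :=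
  ((diff_eta.mul (diff_eta_mul 3 (by norm_num))).mul (diff_eta_mul 5 (by norm_num))).mul
    (diff_eta_mul 15 (by norm_num))

lemma diff_xx : DifferentiableOn ℂ xx UH :=
  ((diff_eta_mul 3 (by norm_num)).mul ((diff_eta_mul 5 (by norm_num)).pow 5)).div
    (diff_eta.mul ((diff_eta_mul 15 (by norm_num)).pow 5))
    fun _ hz => mul_ne_zero (eta_ne hz) (pow_ne_zero _ (eta_ne (im15 hz)))

lemma diff_act {g : M2} (hg : 0 < g.det) {G : ℂ → ℂ} (hG : DifferentiableOn ℂ G UH) :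
    DifferentiableOn ℂ (fun z => G (g.act z)) UH :=
  hG.comp (fun _ hz => (hasDerivAt_act hg.ne' hz).differentiableAt.differentiableWithinAt)
    fun _ hz => im_act_pos hg hz

/-- Weight `k` invariance under one matrix. -/
def Inv (k : ℕ) (G : ℂ → ℂ) (γ : M2) : Prop := ∀ z, 0 < z.im → G (γ.act z) = γ.j z ^ k * G z

theorem inv_of_gens {k : ℕ} {G : ℂ → ℂ} (hk : Even k) (hT : ∀ z, 0 < z.im → G (z + 1) = G z)
    (hg : ∀ g ∈ gens, Inv k G g) : ∀ g, G0 g → Inv k G g := by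
  have hmul : ∀ g h, G0 g → G0 h → Inv k G g → Inv k G h → Inv k G (g * h) := by
    intro g h h1 h2 h3 h4 z hz
    rw [act_mul h1.det_pos.ne' h2.det_pos hz, j_mul _ h2.det_pos.ne' hz,
      h3 _ (im_act_pos h2.det_pos hz), h4 z hz]
    ring
  refine g0_ind hmul ?_ ?_ ?_ hg
  · intro g h1 h2 z hz
    have h3 := h2 _ (im_act_pos h1.adj.det_pos hz)
    have h4 := j_mul g h1.adj.det_pos.ne' hz
    rw [← act_mul h1.det_pos.ne' h1.adj.det_pos hz, mul_adj h1.1, act_one] at h3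
    rw [mul_adj h1.1, j_one] at h4
    rw [h3, ← mul_assoc, ← mul_pow, mul_comm (g.adj.j z), ← h4, one_pow, one_mul]
  · intro z _
    simp [hk.neg_one_pow]
  · intro z hz
    simp [act_mT, hT z hz]

lemma eta_mul_act {g : M2} (hg : G0 g) (hc : 0 < g.c) (hc' : g.c ≤ 30) {δ : ℕ} (hδ : δ ∣ 15)
    {z r : ℂ} (hz : 0 < z.im) (hr : Rt r (-I * g.j z)) :
    η (δ * g.act z) = e24 (mult 30 g.a (δ * g.b) (g.c / δ) g.d) * r * η (δ * z) := by
  have h0 : 0 < δ := Nat.pos_of_dvd_of_pos hδ (by norm_num)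
  obtain ⟨c, hcc⟩ : (δ : ℤ) ∣ g.c := (Int.natCast_dvd_natCast.2 hδ).trans hg.2
  have h1 : (0 : ℤ) < δ := by exact_mod_cast h0
  have h2 : g.c / δ = c := by rw [hcc, Int.mul_ediv_cancel_left _ h1.ne']
  have h3 : 0 < c := by nlinarith
  have h4 : (c : ℂ) * (δ * z) + g.d = g.j z := by simp [j, hcc]; ring
  rw [h2, ← eta_mob 30 _ _ _ _ (by have := hg.1; unfold det at this; rw [← this, hcc]; ring) h3
    (by push_cast; nlinarith) _ r (im_mul_pos h0 hz) (by rwa [h4])]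
  congr 1
  rw [mob, h4, act_eq]
  push_cast
  ring

def m15 (g : M2) (δ : ℕ) : ℤ := mult 30 g.a (δ * g.b) (g.c / δ) g.d

lemma gens_spec : ∀ g ∈ gens, G0 g ∧ 0 < g.c ∧ g.c ≤ 30 ∧
    (24 : ℤ) ∣ m15 g 1 + m15 g 3 + m15 g 5 + m15 g 15 - 12 ∧
    (24 : ℤ) ∣ m15 g 3 + 5 * m15 g 5 - (m15 g 1 + 5 * m15 g 15) := by decide +kernel

lemma e24_congr {k l : ℤ} (h : (24 : ℤ) ∣ k - l) : e24 k = e24 l := by
  obtain ⟨m, hm⟩ := h
  rw [show k = l + 24 * m by linarith, e24_add, e24_mul24, mul_one]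

lemma e24_five (k : ℤ) : e24 (5 * k) = e24 k ^ 5 := by
  rw [show 5 * k = k + k + k + k + k by ring]
  simp only [e24_add]
  ring

lemma e24_ne (k : ℤ) : e24 k ≠ 0 := Complex.exp_ne_zero _

lemma eta_mul_T (δ : ℕ) (z : ℂ) : η (δ * (z + 1)) = e24 δ * η (δ * z) := by
  rw [← eta_T]; congr 1; push_cast; ring

lemma four_eta {g : M2} (hg : g ∈ gens) {z : ℂ} (hz : 0 < z.im) : ∃ r, r ≠ 0 ∧ r ^ 2 = -I * g.j z ∧
    η (g.act z) = e24 (m15 g 1) * r * η z ∧ η (3 * g.act z) = e24 (m15 g 3) * r * η (3 * z) ∧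
    η (5 * g.act z) = e24 (m15 g 5) * r * η (5 * z) ∧
    η (15 * g.act z) = e24 (m15 g 15) * r * η (15 * z) := by
  obtain ⟨h0, h1, h2, -⟩ := gens_spec g hg
  obtain ⟨r, hr⟩ := exists_rt (neg_I_re (d := g.d) h1 hz)
  refine ⟨r, fun h => by simpa [h] using hr.re_pos, hr.1, ?_,
    eta_mul_act h0 h1 h2 (δ := 3) (by norm_num) hz hr,
    eta_mul_act h0 h1 h2 (δ := 5) (by norm_num) hz hr,
    eta_mul_act h0 h1 h2 (δ := 15) (by norm_num) hz hr⟩
  simpa [m15] using eta_mul_act h0 h1 h2 (δ := 1) (by norm_num) hz hr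

lemma four_T (z : ℂ) : η (z + 1) = e24 1 * η z ∧ η (3 * (z + 1)) = e24 3 * η (3 * z) ∧
    η (5 * (z + 1)) = e24 5 * η (5 * z) ∧ η (15 * (z + 1)) = e24 15 * η (15 * z) :=
  ⟨by simpa using eta_T z 1, eta_mul_T 3 z, eta_mul_T 5 z, eta_mul_T 15 z⟩

lemma ff_T (z : ℂ) : ff (z + 1) = ff z := by
  obtain ⟨h1, h2, h3, h4⟩ := four_T z
  have : e24 1 * e24 3 * e24 5 * e24 15 = 1 := by
    simp only [← e24_add]; exact e24_mul24 1
  unfold ff
  rw [h1, h2, h3, h4]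
  linear_combination (η z * η (3 * z) * η (5 * z) * η (15 * z)) * this

theorem ff_inv : ∀ g, G0 g → Inv 2 ff g := by
  refine inv_of_gens even_two (fun z _ => ff_T z) fun g hg z hz => ?_
  obtain ⟨r, -, hr, h1, h2, h3, h4⟩ := four_eta hg hz
  have h5 := e24_congr (gens_spec g hg).2.2.2.1
  rw [e24_twelve, e24_add, e24_add, e24_add] at h5
  unfold ff
  rw [h1, h2, h3, h4]
  have h6 : r ^ 4 = -g.j z ^ 2 := by
    rw [show r ^ 4 = (r ^ 2) ^ 2 by ring, hr, mul_pow, neg_sq, I_sq]; ring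
  linear_combination (η z * η (3 * z) * η (5 * z) * η (15 * z)) * (r ^ 4 * h5 - h6)

theorem xx_inv : ∀ g, G0 g → ∀ z, 0 < z.im → xx (g.act z) = xx z := by
  have key : ∀ k l m n : ℤ, (24 : ℤ) ∣ l + 5 * m - (k + 5 * n) → ∀ r a b c d : ℂ, r ≠ 0 →
      e24 l * r * b * (e24 m * r * c) ^ 5 / (e24 k * r * a * (e24 n * r * d) ^ 5) =
        b * c ^ 5 / (a * d ^ 5) := by
    intro k l m n h r a b c d hr
    have h5 := e24_congr h
    rw [e24_add, e24_add, e24_five, e24_five] at h5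
    have h6 : e24 k * e24 n ^ 5 * r ^ 6 ≠ 0 :=
      mul_ne_zero (mul_ne_zero (e24_ne _) (pow_ne_zero _ (e24_ne _))) (pow_ne_zero _ hr)
    rw [← mul_div_mul_left (b * c ^ 5) _ h6]
    congr 1
    · linear_combination r ^ 6 * b * c ^ 5 * h5
    · ring
  have := inv_of_gens (k := 0) (G := xx) (by simp) (fun z _ => ?_) fun g hg z hz => ?_
  · intro g hg z hz
    simpa using this g hg z hz
  · obtain ⟨h1, h2, h3, h4⟩ := four_T z
    unfold xx
    rw [h1, h2, h3, h4]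
    simpa using key 1 3 5 15 (by norm_num) 1 (η z) (η (3 * z)) (η (5 * z)) (η (15 * z)) one_ne_zero
  · obtain ⟨r, hr, -, h1, h2, h3, h4⟩ := four_eta hg hz
    unfold xx
    rw [h1, h2, h3, h4, key _ _ _ _ (gens_spec g hg).2.2.2.2 _ _ _ _ _ hr]
    simp

/-- The weight two slash operator. -/
noncomputable def sl (G : ℂ → ℂ) (m : M2) (z : ℂ) : ℂ := m.det * G (m.act z) / m.j z ^ 2

lemma sl_mul (G : ℂ → ℂ) {m n : M2} (hm : 0 < m.det) (hn : 0 < n.det) {z : ℂ} (hz : 0 < z.im) :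
    sl G (m * n) z = sl (sl G m) n z := by
  unfold sl
  rw [act_mul hm.ne' hn hz, j_mul _ hn.ne' hz, det_mul]
  push_cast
  ring

lemma sl_congr {G G' : ℂ → ℂ} (h : ∀ z, 0 < z.im → G z = G' z) {m : M2} (hm : 0 < m.det)
    {z : ℂ} (hz : 0 < z.im) : sl G m z = sl G' m z := by
  unfold sl; rw [h _ (im_act_pos hm hz)]

lemma diff_sl {G : ℂ → ℂ} (hG : DifferentiableOn ℂ G UH) {m : M2} (hm : 0 < m.det) :
    DifferentiableOn ℂ (sl G m) UH :=
  ((diff_act hm hG).const_mul _).div ((differentiable_j m).pow 2).differentiableOn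
    fun _ hz => pow_ne_zero _ (j_ne hm.ne' hz)

lemma norm_sl (G : ℂ → ℂ) {m : M2} (hm : 0 < m.det) (z : ℂ) :
    ‖sl G m z‖ * z.im = ‖G (m.act z)‖ * (m.act z).im := by
  have : (0 : ℝ) < m.det := by exact_mod_cast hm
  rw [sl, im_act, norm_div, norm_mul, norm_pow, Complex.normSq_eq_norm_sq, Complex.norm_intCast,
    abs_of_pos this]
  ring

lemma Inv.sl_eq {G : ℂ → ℂ} {γ : M2} (h : Inv 2 G γ) (hγ : γ.det = 1) {z : ℂ} (hz : 0 < z.im) :
    sl G γ z = G z := by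
  have := j_ne (g := γ) (by omega) hz
  rw [sl, h z hz, hγ]
  field_simp
  simp

lemma inv_of_sl {G : ℂ → ℂ} {γ : M2} (hγ : γ.det = 1) (h : ∀ z, 0 < z.im → sl G γ z = G z) :
    Inv 2 G γ := fun z hz => by
  have := j_ne (g := γ) (by omega) hz
  rw [← h z hz, sl, hγ]
  field_simp
  simp

/-- Cusp forms of weight 2 for Gamma0(15). -/
structure IsCF (G : ℂ → ℂ) : Prop where
  hol : DifferentiableOn ℂ G UH
  inv : ∀ γ, G0 γ → Inv 2 G γ
  bdd : ∃ C, ∀ z, 0 < z.im → ‖G z‖ * z.im ≤ C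

lemma eta_bdd : ∃ C, ∀ z : ℂ, 0 < z.im → ‖η z‖ ^ 4 * z.im ≤ C := by
  obtain ⟨C, hC⟩ := CuspFormClass.exists_bound CuspForm.discriminant
  refine ⟨max C 1, fun z hz => ?_⟩
  have := hC ⟨z, hz⟩
  simp only [CuspForm.coe_discriminant, ModularForm.discriminant, norm_pow] at this
  rw [le_div_iff₀ (by positivity), show (((12 : ℤ) : ℝ) / 2) = (6 : ℕ) by norm_num,
    Real.rpow_natCast] at this
  by_contra hh
  push Not at hh
  have h1 : 1 ≤ ‖η z‖ ^ 4 * z.im := ((le_max_right _ _).trans_lt hh).le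
  have h2 := le_self_pow₀ h1 (n := 6) (by norm_num)
  have h3 : (‖η z‖ ^ 4 * z.im) ^ 6 ≤ C := by
    rw [mul_pow, ← pow_mul]; exact this
  linarith [le_max_left C 1]

theorem isCF_ff : IsCF ff := by
  refine ⟨diff_ff, ff_inv, ?_⟩
  obtain ⟨C, hC⟩ := eta_bdd
  refine ⟨C, fun z hz => ?_⟩
  have h1 := hC z hz
  have h2 := hC _ (im3 hz)
  have h3 := hC _ (im5 hz)
  have h4 := hC _ (im15 hz)
  have hC0 : 0 ≤ C := le_trans (by positivity) h1
  have e3 : (3 * z).im = 3 * z.im := by simp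
  have e5 : (5 * z).im = 5 * z.im := by simp
  have e15 : (15 * z).im = 15 * z.im := by simp
  rw [e3] at h2; rw [e5] at h3; rw [e15] at h4
  refine le_of_pow_le_pow_left₀ (n := 4) (by norm_num) hC0 ?_
  have h5 := mul_le_mul (mul_le_mul (mul_le_mul h1 h2 (by positivity) hC0) h3 (by positivity)
    (by positivity)) h4 (by positivity) (by positivity)
  simp only [ff, norm_mul]
  have : 0 ≤ (‖η z‖ * ‖η (3 * z)‖ * ‖η (5 * z)‖ * ‖η (15 * z)‖ * z.im) ^ 4 := by positivity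
  nlinarith

/-- Width of the cusp `g ∞`. -/
def wd (g : M2) : ℤ := 15 / Int.gcd 15 g.c

lemma wd_cases (g : M2) :
    (Int.gcd 3 g.c = 1 ∧ Int.gcd 5 g.c = 1 ∧ Int.gcd 15 g.c = 1 ∧ wd g = 15) ∨
    (Int.gcd 3 g.c = 3 ∧ Int.gcd 5 g.c = 1 ∧ Int.gcd 15 g.c = 3 ∧ wd g = 5) ∨
    (Int.gcd 3 g.c = 1 ∧ Int.gcd 5 g.c = 5 ∧ Int.gcd 15 g.c = 5 ∧ wd g = 3) ∨
    (Int.gcd 3 g.c = 3 ∧ Int.gcd 5 g.c = 5 ∧ Int.gcd 15 g.c = 15 ∧ wd g = 1) := by
  have h : ∀ m : ℤ, m ∣ 15 → Int.gcd m g.c = Int.gcd m (g.c % 15) := fun m ⟨k, hk⟩ => by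
    conv_lhs => rw [← Int.emod_add_mul_ediv g.c 15, hk, mul_assoc, Int.gcd_add_mul_left_right, ← hk]
  unfold wd
  rw [h 3 (by norm_num), h 5 (by norm_num), h 15 (by norm_num)]
  have h1 := Int.emod_nonneg g.c (b := 15) (by norm_num)
  have h2 := Int.emod_lt_of_pos g.c (b := 15) (by norm_num)
  generalize g.c % 15 = r at h1 h2
  interval_cases r <;> decide

lemma wd_pos (g : M2) : 0 < wd g := by rcases wd_cases g with h | h | h | h <;> omega

lemma G0_conj {g : M2} (hg : g.det = 1) : G0 (g * mT (wd g) * g.adj) := by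
  refine ⟨by simp [det_mul, hg], ?_⟩
  have : (g * mT (wd g) * g.adj).c = -(g.c * (g.c * wd g)) := by simp [mT]; ring
  rw [this, dvd_neg]
  refine Dvd.dvd.mul_left ?_ _
  have h1 := Int.gcd_dvd_right 15 g.c
  rcases wd_cases g with h | h | h | h <;> rw [h.2.2.1] at h1 <;> rw [h.2.2.2] <;> omega

lemma act_add_wd {g : M2} (hg : g.det = 1) {z : ℂ} (hz : 0 < z.im) :
    g.act (z + wd g) = (g * mT (wd g) * g.adj).act (g.act z) := by
  rw [← act_mul (G0_conj hg).det_pos.ne' (by omega) hz, mul_assoc, adj_mul_self hg, mul_one,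
    act_mul (by omega) (by simp) hz, act_mT]

lemma sl_add_wd {G : ℂ → ℂ} (hG : ∀ γ, G0 γ → Inv 2 G γ) {g : M2} (hg : g.det = 1) {z : ℂ}
    (hz : 0 < z.im) : sl G g (z + wd g) = sl G g z := by
  have h1 := sl_mul G (G0_conj hg).det_pos (n := g) (by omega) hz
  rw [sl_congr (fun z hz => (hG _ (G0_conj hg)).sl_eq (G0_conj hg).1 hz) (by omega) hz,
    mul_assoc, adj_mul_self hg, mul_one, sl_mul G (by omega) (by simp) hz] at h1
  rw [← h1]
  simp [sl, act_mT]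

lemma eta_mul_theta {g : M2} (hg : g.det = 1) (δ : ℕ) (hδ : 0 < δ) :
    (fun z => ‖η (δ * g.act z)‖ ^ 2 / ‖g.j z‖) =Θ[atI]
      ex ((Int.gcd δ g.c : ℝ) ^ 2 / (12 * δ)) := by
  have h1 : (M2.mk (δ * g.a) (δ * g.b) g.c g.d).det = δ := by
    unfold det at hg ⊢; linear_combination δ * hg
  have := eta_act_theta (g := ⟨δ * g.a, δ * g.b, g.c, g.d⟩) (by rw [h1]; exact_mod_cast hδ)
  have h2 : IsCoprime g.a g.c := ⟨g.d, -g.b, by unfold det at hg; linear_combination hg⟩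
  rw [h1, show Int.gcd (δ * g.a) g.c = Int.gcd δ g.c from
    Int.gcd_mul_left_left_of_gcd_eq_one (Int.isCoprime_iff_gcd_eq_one.1 h2)] at this
  refine EventuallyEq.trans_isTheta (.of_forall fun z => ?_) this
  simp only [act, mob, j]
  congr 4
  push_cast
  ring

lemma theta_of_sq {u : ℂ → ℂ} {t : ℝ} (h : (fun z => ‖u z‖ ^ 2) =Θ[atI] ex (2 * t)) :
    u =Θ[atI] ex t := by
  have := h.rpow (r := 1 / 2) (.of_forall fun _ => by positivity)
    (.of_forall fun z => (ex_pos _ z).le)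
  rw [← isTheta_norm_left]
  refine (EventuallyEq.trans_isTheta (.of_forall fun z => ?_) this).trans_eventuallyEq
    (.of_forall fun z => ?_)
  · simp only [← Real.sqrt_eq_rpow, Real.sqrt_sq (norm_nonneg _)]
  · have : ex (2 * t) z = ex t z ^ 2 := by rw [ex_pow]; norm_num
    simp only [← Real.sqrt_eq_rpow, this, Real.sqrt_sq (ex_pos _ _).le]

theorem sl_ff_theta {g : M2} (hg : g.det = 1) : sl ff g =Θ[atI] ex (1 / wd g) := by
  apply theta_of_sq
  have := (((eta_mul_theta hg 1 one_pos).mul (eta_mul_theta hg 3 (by norm_num))).mul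
    (eta_mul_theta hg 5 (by norm_num))).mul (eta_mul_theta hg 15 (by norm_num))
  refine (EventuallyEq.trans_isTheta (.of_forall fun z => ?_) this).trans_eventuallyEq
    (.of_forall fun z => ?_)
  · simp [sl, ff, hg]
    ring
  · simp only [← ex_add]
    rcases wd_cases g with h | h | h | h <;> simp [h] <;> norm_num

theorem xx_bdd {g : M2} (hg : g.det = 1) (hc : ¬ (15 : ℤ) ∣ g.c) :
    BoundedAtFilter atI fun z => xx (g.act z) := by
  have := ((eta_mul_theta hg 3 (by norm_num)).mul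
    ((eta_mul_theta hg 5 (by norm_num)).pow 5)).div ((eta_mul_theta hg 1 one_pos).mul
      ((eta_mul_theta hg 15 (by norm_num)).pow 5))
  obtain ⟨t, ht, h⟩ : ∃ t : ℝ, 0 ≤ t ∧ (fun z => ‖xx (g.act z)‖ ^ 2) =Θ[atI] ex (2 * t) := by
    refine ⟨if Int.gcd 5 g.c = 5 then 2 / 3 else 0, by split_ifs <;> norm_num, ?_⟩
    refine (EventuallyEq.trans_isTheta ?_ this).trans_eventuallyEq (.of_forall fun z => ?_)
    · filter_upwards [ev_im 0] with z hz
      have := norm_pos_iff.2 (j_ne (g := g) (by omega) hz)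
      simp [xx]
      field_simp
    · simp only [ex_pow, div_eq_mul_inv, ← ex_neg, ← ex_add]
      have h1 := Int.gcd_dvd_right 15 g.c
      rcases wd_cases g with h | h | h | h <;> simp [h] <;> norm_num
      rw [h.2.2.1] at h1
      exact absurd h1 hc
  refine ((theta_of_sq h).1.trans (ex_isBigO ht)).congr_right fun z => ?_
  simp [ex_zero]

theorem IsCF.decay {G : ℂ → ℂ} (hG : IsCF G) {g : M2} (hg : g.det = 1) :
    sl G g =O[atI] ex (1 / wd g) := by
  have hw : (0 : ℝ) < wd g := by exact_mod_cast wd_pos g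
  refine decay_zero hw (fun z hz => by exact_mod_cast sl_add_wd hG.inv hg hz)
    (diff_sl hG.hol (by omega)) ?_
  obtain ⟨C, hC⟩ := hG.bdd
  refine squeeze_zero_norm' ?_ (tendsto_im.const_div_atTop C)
  filter_upwards [ev_im 0] with z hz
  rw [le_div_iff₀ hz, norm_sl _ (by omega)]
  exact hC _ (im_act_pos (by omega) hz)

/-- A weight two form that vanishes at all cusps is a multiple of `ff`. -/
theorem eq_mul_ff {G : ℂ → ℂ} (hol : DifferentiableOn ℂ G UH) (inv : ∀ γ, G0 γ → Inv 2 G γ)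
    (dec : ∀ g : M2, g.det = 1 → sl G g =O[atI] ex (1 / wd g)) :
    ∃ c, ∀ z, 0 < z.im → G z = c * ff z := by
  obtain ⟨c, hc⟩ := const_of_weight_zero (h := fun z => G z / ff z)
    (hol.div diff_ff fun z hz => ff_ne hz) (fun γ hγ z hz => by
      rw [inv γ hγ z hz, ff_inv γ hγ z hz,
        mul_div_mul_left _ _ (pow_ne_zero _ (j_ne hγ.det_pos.ne' hz))]) fun γ hγ => by
      have := (dec γ hγ).mul (sl_ff_theta hγ).inv.1
      refine this.congr' ?_ (.of_forall fun z => by simp [(ex_pos _ z).ne'])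
      filter_upwards [ev_im 0] with z hz
      have := j_ne (g := γ) (by omega) hz
      simp only [sl, hγ]
      field_simp
  exact ⟨c, fun z hz => by rw [← hc z hz, div_mul_cancel₀ _ (ff_ne hz)]⟩

theorem IsCF.eq_mul {G : ℂ → ℂ} (hG : IsCF G) : ∃ c, ∀ z, 0 < z.im → G z = c * ff z :=
  eq_mul_ff hG.hol hG.inv fun _ hg => hG.decay hg

end Pool.Agent.P.MP_8b7eba_nt.Mod
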