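import Pool.Agent.P.MP_8b7eba_nt.ModQ

/-! Hecke operators and the recursion for the coefficients of the newform. -/

open Complex Filter Asymptotics Topology PowerSeries Finset
open scoped Real

namespace Pool.Agent.P.MP_8b7eba_nt.Mod

open M2

/-- Coset representatives for the Hecke operator. -/
def al (p i : ℕ) : M2 := if i < p then ⟨1, i, 0, p⟩ else ⟨p, 0, 0, 1⟩

def hI (p : ℕ) : Finset ℕ := range (if p ∣ 15 then p else p + 1)

lemma det_al (p i : ℕ) : (al p i).det = p := by unfold al; split_ifs <;> simp [det]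

lemma exists_al {p : ℕ} (hp : p.Prime) {M : M2} (h1 : M.det = p) (h2 : (15 : ℤ) ∣ M.c)
    (h3 : p ∣ 15 → ¬ (p : ℤ) ∣ M.a) : ∃ i ∈ hI p, ∃ γ, G0 γ ∧ M = γ * al p i := by
  have hp0 : (p : ℤ) ≠ 0 := by exact_mod_cast hp.ne_zero
  have hG : ∀ γ i, M = γ * al p i → γ.det = 1 := fun γ i h => by
    apply mul_right_cancel₀ hp0
    rw [one_mul, ← det_al p i, ← det_mul, ← h, h1, det_al]
  by_cases h : (p : ℤ) ∣ M.a ∧ (p : ℤ) ∣ M.c
  · obtain ⟨⟨u, hu⟩, ⟨v, hv⟩⟩ := h
    have h4 : ¬ p ∣ 15 := fun h => h3 h ⟨u, hu⟩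
    have e : M = ⟨u, M.b, v, M.d⟩ * al p p := by ext <;> simp [al, hu, hv, mul_comm]
    refine ⟨p, by simp [hI, h4], _, ⟨hG _ _ e, ?_⟩, e⟩
    rw [hv] at h2
    refine IsCoprime.dvd_of_dvd_mul_left ?_ h2
    exact (Nat.isCoprime_iff_coprime.2 ((Nat.Prime.coprime_iff_not_dvd hp).2 h4)).symm
  · have := Fact.mk hp
    obtain ⟨x, hx1, hx2⟩ : ∃ x : ZMod p, (M.a : ZMod p) * x = M.b ∧ (M.c : ZMod p) * x = M.d := by
      have h5 : (M.a : ZMod p) * M.d - M.b * M.c = 0 := by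
        have := congrArg (Int.cast : ℤ → ZMod p) h1
        simpa [det] using this
      rw [← ZMod.intCast_zmod_eq_zero_iff_dvd, ← ZMod.intCast_zmod_eq_zero_iff_dvd] at h
      by_cases ha : (M.a : ZMod p) = 0
      · have hc : (M.c : ZMod p) ≠ 0 := fun hc => h ⟨ha, hc⟩
        refine ⟨M.d / M.c, ?_, by field_simp⟩
        field_simp
        linear_combination h5
      · refine ⟨M.b / M.a, by field_simp, ?_⟩
        field_simp
        linear_combination -h5
    obtain ⟨u, hu⟩ : (p : ℤ) ∣ M.b - M.a * x.val := by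
      rw [← ZMod.intCast_zmod_eq_zero_iff_dvd]; simp [hx1]
    obtain ⟨v, hv⟩ : (p : ℤ) ∣ M.d - M.c * x.val := by
      rw [← ZMod.intCast_zmod_eq_zero_iff_dvd]; simp [hx2]
    have hx := x.val_lt
    have e : M = ⟨M.a, u, M.c, v⟩ * al p x.val := by
      ext <;> simp only [al, if_pos hx, mul_a, mul_b, mul_c, mul_d] <;> linarith
    refine ⟨x.val, ?_, _, ⟨hG _ _ e, h2⟩, e⟩
    simp only [hI, mem_range]
    split_ifs <;> omega

lemma al_inj {p : ℕ} (hp : p.Prime) {i k : ℕ} (hi : i ∈ hI p) (hk : k ∈ hI p) {γ : M2}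
    (h : al p i = γ * al p k) : i = k := by
  have hi' : i ≤ p := by simp only [hI, mem_range] at hi; split_ifs at hi <;> omega
  have hk' : k ≤ p := by simp only [hI, mem_range] at hk; split_ifs at hk <;> omega
  have h2 : (2 : ℤ) ≤ p := by exact_mod_cast hp.two_le
  have ha := congrArg M2.a h
  have hb := congrArg M2.b h
  have hc := congrArg M2.c h
  have hd := congrArg M2.d h
  have hu : ∀ t : ℤ, 1 ≠ t * p := fun t ht => by
    have := Int.le_of_dvd one_pos ⟨t, ht.trans (mul_comm _ _)⟩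
    omega
  unfold al at ha hb hc hd
  split_ifs at ha hb hc hd with h3 h4 h4 <;> simp at ha hb hc hd
  · rw [← ha, one_mul] at hb
    have : γ.b = 0 := by
      by_contra h0
      rcases lt_or_gt_of_ne h0 with h0 | h0 <;> nlinarith
    rw [this] at hb
    omega
  · exact absurd ha (hu _)
  · rw [← hc] at hd
    exact absurd (by simpa using hd) (hu _)
  · omega

/-- The Hecke operator. -/
noncomputable def Hk (p : ℕ) (G : ℂ → ℂ) (z : ℂ) : ℂ := ∑ i ∈ hI p, sl G (al p i) z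

theorem IsCF.hk {G : ℂ → ℂ} (hG : IsCF G) {p : ℕ} (hp : p.Prime) : IsCF (Hk p G) := by
  have hd : ∀ i, 0 < (al p i).det := fun i => by rw [det_al]; exact_mod_cast hp.pos
  refine ⟨DifferentiableOn.fun_sum fun i _ => diff_sl hG.hol (hd i), fun γ hγ => ?_, ?_⟩
  · have key : ∀ i ∈ hI p, ∃ k ∈ hI p, ∃ γ', G0 γ' ∧ al p i * γ = γ' * al p k := by
      intro i hi
      refine exists_al hp (by rw [det_mul, det_al, hγ.1, mul_one]) ?_ fun h15 => ?_
      · have := hγ.2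
        unfold al
        split_ifs <;> simp [this, Dvd.dvd.mul_left]
      · have hi' : i < p := by simpa [hI, h15] using hi
        have h1 : (p : ℤ) ∣ γ.c := (Int.natCast_dvd_natCast.2 h15).trans hγ.2
        simp only [al, if_pos hi', mul_a, one_mul]
        intro h2
        have h3 : (p : ℤ) ∣ γ.a := (dvd_add_left (h1.mul_left _)).1 h2
        have h4 : (p : ℤ) ∣ 1 := hγ.1 ▸ dvd_sub (h3.mul_right _) (h1.mul_left _)
        exact hp.one_lt.ne' (by exact_mod_cast Int.eq_one_of_dvd_one (by positivity) h4)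
    choose σ hσ g hg e using key
    have hinj : ∀ i hi k hk, σ i hi = σ k hk → i = k := by
      intro i hi k hk h
      refine al_inj hp hi hk (γ := g i hi * (g k hk).adj) ?_
      have := e k hk
      rw [← h] at this
      calc al p i = al p i * γ * γ.adj := by rw [mul_assoc, mul_adj hγ.1, mul_one]
        _ = g i hi * ((g k hk).adj * (g k hk * al p (σ i hi))) * γ.adj := by
          rw [e, ← mul_assoc (g k hk).adj, adj_mul_self (hg k hk).1, one_mul]
        _ = _ := by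
          rw [← this, mul_assoc, mul_assoc, mul_assoc, mul_adj hγ.1, mul_one, mul_assoc]
    refine inv_of_sl hγ.1 fun z hz => ?_
    have : sl (Hk p G) γ z = ∑ i ∈ hI p, sl (sl G (al p i)) γ z := by
      simp only [sl.eq_def (Hk p G), sl.eq_def (sl G _), Hk, mul_sum, sum_div]
    rw [this, Hk]
    refine sum_bij σ hσ hinj (fun k hk => ?_) fun i hi => ?_
    · obtain ⟨i, hi, h⟩ := surj_on_of_inj_on_of_card_le σ hσ (fun i k hi hk => hinj i hi k hk)
        le_rfl k hk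
      exact ⟨i, hi, h.symm⟩
    · rw [← sl_mul G (hd i) hγ.det_pos hz, e, sl_mul G (hg i hi).det_pos (hd _) hz]
      exact sl_congr (fun z hz => (hG.inv _ (hg i hi)).sl_eq (hg i hi).1 hz) (hd _) hz
  · obtain ⟨C, hC⟩ := hG.bdd
    refine ⟨∑ _i ∈ hI p, C, fun z hz => ?_⟩
    refine (mul_le_mul_of_nonneg_right (norm_sum_le _ _) hz.le).trans ?_
    rw [sum_mul]
    refine sum_le_sum fun i _ => ?_
    rw [norm_sl _ (hd i)]
    exact hC _ (im_act_pos (hd i) hz)

lemma Hk_eq {p : ℕ} (hp : p.Prime) (G : ℂ → ℂ) (z : ℂ) :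
    Hk p G z = ∑ j ∈ range p, G ((z + j) / p) / p + if p ∣ 15 then 0 else p * G (p * z) := by
  have hp0 : (p : ℂ) ≠ 0 := by exact_mod_cast hp.ne_zero
  have h1 : ∑ j ∈ range p, sl G (al p j) z = ∑ j ∈ range p, G ((z + j) / p) / p := by
    refine sum_congr rfl fun j hj => ?_
    simp [sl, al, mem_range.1 hj, det, act, mob, M2.j]
    field_simp
  unfold Hk hI
  split_ifs
  · rw [h1, add_zero]
  · rw [sum_range_succ, h1]
    simp [sl, al, det, act, mob, M2.j]

lemma sum_qq {p : ℕ} (hp : 0 < p) (n : ℕ) :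
    ∑ j ∈ range p, qq ((j : ℂ) / p) ^ n = if p ∣ n then (p : ℂ) else 0 := by
  have hp0 : (p : ℂ) ≠ 0 := by exact_mod_cast hp.ne'
  have hζ := Complex.isPrimitiveRoot_exp p hp.ne'
  have e : ∀ j : ℕ, qq ((j : ℂ) / p) ^ n = (cexp (2 * π * I / p) ^ n) ^ j := fun j => by
    simp only [qq, ← Complex.exp_nat_mul]; congr 1; ring
  simp only [e]
  split_ifs with h
  · simp [(hζ.pow_eq_one_iff_dvd n).2 h]
  · rw [geom_sum_eq fun h' => h ((hζ.pow_eq_one_iff_dvd n).1 h'), pow_right_comm, hζ.pow_eq_one]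
    simp

lemma hasSum_U {p : ℕ} (hp : 0 < p) {c : ℕ → ℂ} {G : ℂ → ℂ}
    (hG : ∀ z, 0 < z.im → HasSum (fun n => c n * qq z ^ n) (G z)) {z : ℂ} (hz : 0 < z.im) :
    HasSum (fun n => p * c (p * n) * qq z ^ n) (∑ j ∈ range p, G ((z + j) / p)) := by
  have hp0 : (p : ℂ) ≠ 0 := by exact_mod_cast hp.ne'
  have h1 := hasSum_sum (s := range p) fun j _ => hG ((z + j) / p) (by
    simp only [div_natCast_im, add_im, natCast_im, add_zero]; positivity)
  have h2 : ∀ n, ∑ j ∈ range p, c n * qq ((z + j) / p) ^ n =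
      c n * qq (z / p) ^ n * if p ∣ n then (p : ℂ) else 0 := fun n => by
    simp only [← sum_qq hp, mul_sum, add_div, qq_add, mul_pow, mul_assoc]
  simp only [h2] at h1
  rw [← (mul_right_injective₀ hp.ne').hasSum_iff fun n hn => by
    rw [if_neg fun ⟨k, hk⟩ => hn ⟨k, hk.symm⟩, mul_zero]] at h1
  refine h1.congr_fun fun n => ?_
  simp only [Function.comp, dvd_mul_right, if_true, pow_mul, ← qq_nat_mul p, mul_div_cancel₀ _ hp0]
  ring

lemma hasSum_V {p : ℕ} (hp : 0 < p) {c : ℕ → ℂ} {G : ℂ → ℂ}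
    (hG : ∀ z, 0 < z.im → HasSum (fun n => c n * qq z ^ n) (G z)) {z : ℂ} (hz : 0 < z.im) :
    HasSum (fun n => (if p ∣ n then c (n / p) else 0) * qq z ^ n) (G (p * z)) := by
  rw [← (mul_right_injective₀ hp.ne').hasSum_iff fun n hn => by
    rw [if_neg fun ⟨k, hk⟩ => hn ⟨k, hk.symm⟩, zero_mul]]
  refine (hG _ (im_mul_pos hp hz)).congr_fun fun n => ?_
  simp [qq_nat_mul, pow_mul, Nat.mul_div_cancel_left _ hp]

lemma FF_dvd : X ^ 7 ∣ FF - (1 - X - X ^ 2 - X ^ 3 + X ^ 4 + X ^ 5) := by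
  rw [← Ideal.mem_span_singleton, ← Ideal.Quotient.eq]
  have h1 := Ideal.Quotient.eq.2 (Ideal.mem_span_singleton.2 PP_one)
  have h3 := Ideal.Quotient.eq.2 (Ideal.mem_span_singleton.2 PP_three)
  have h5 := Ideal.Quotient.eq.2 (Ideal.mem_span_singleton.2 PP_five)
  have h15 := Ideal.Quotient.eq.2 (Ideal.mem_span_singleton.2 PP_fifteen)
  have h0 := Ideal.Quotient.eq_zero_iff_mem.2 (Ideal.mem_span_singleton_self (X ^ 7 : ℤ⟦X⟧))
  simp only [FF, map_mul, h1, h3, h5, h15, map_sub, map_add, map_pow, map_one] at h0 ⊢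
  generalize Ideal.Quotient.mk (Ideal.span {(X ^ 7 : ℤ⟦X⟧)}) X = e at h0 ⊢
  linear_combination (2 + e - e ^ 2 - 2 * e ^ 3 - e ^ 5 + e ^ 9) * h0

lemma an_small : an 0 = 0 ∧ an 1 = 1 ∧ an 2 = -1 ∧ an 3 = -1 ∧ an 4 = -1 ∧ an 5 = 1 := by
  have h := fun m hm => sub_eq_zero.1 ((map_sub _ _ _).symm.trans (X_pow_dvd_iff.1 FF_dvd m hm))
  refine ⟨by simp [an], ?_, ?_, ?_, ?_, ?_⟩ <;> rw [an, coeff_succ_X_mul, h _ (by norm_num)] <;>
    simp [coeff_X, coeff_one, coeff_X_pow]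

lemma an_zero : an 0 = 0 := an_small.1
lemma an_one : an 1 = 1 := an_small.2.1

theorem hecke_aux {p : ℕ} (hp : p.Prime) : ∃ c : ℂ, (∀ z, 0 < z.im → Hk p ff z = c * ff z) ∧
    ∀ n, (an (p * n) : ℂ) + (if ¬ p ∣ 15 ∧ p ∣ n then (p : ℂ) * an (n / p) else 0) = c * an n := by
  obtain ⟨c, hc⟩ := (isCF_ff.hk hp).eq_mul
  have hp0 : (p : ℂ) ≠ 0 := by exact_mod_cast hp.ne_zero
  refine ⟨c, hc, fun n => sub_eq_zero.1 (coeff_unique (c := fun n => (an (p * n) : ℂ) +
    (if ¬ p ∣ 15 ∧ p ∣ n then (p : ℂ) * an (n / p) else 0) - c * an n) (fun z hz => ?_) n)⟩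
  have h1 := (hasSum_U hp.pos (fun z hz => hasSum_ff hz) hz).div_const p
  have h2 := (hasSum_V hp.pos (fun z hz => hasSum_ff hz) hz).mul_left (if p ∣ 15 then 0 else (p : ℂ))
  have h3 := (h1.add h2).sub ((hasSum_ff hz).mul_left c)
  rw [← hc z hz, Hk_eq hp, sum_div, ite_mul, zero_mul, sub_self] at h3
  refine h3.congr_fun fun n => ?_
  by_cases h4 : p ∣ 15 <;> by_cases h5 : p ∣ n <;> simp [h4, h5] <;> field_simp

theorem hecke {p : ℕ} (hp : p.Prime) (n : ℕ) :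
    an (p * n) + (if ¬ p ∣ 15 ∧ p ∣ n then (p : ℤ) * an (n / p) else 0) = an p * an n := by
  obtain ⟨c, -, h⟩ := hecke_aux hp
  have h1 := h 1
  simp [hp.ne_one, an_one] at h1
  have := h n
  rw [← h1] at this
  exact_mod_cast this

theorem hecke_ff {p : ℕ} (hp : p.Prime) {z : ℂ} (hz : 0 < z.im) :
    ∑ j ∈ range p, ff ((z + j) / p) / p + (if p ∣ 15 then 0 else p * ff (p * z)) = an p * ff z := by
  obtain ⟨c, h0, h⟩ := hecke_aux hp
  have h1 := h 1
  simp [hp.ne_one, an_one] at h1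
  rw [h1, ← h0 z hz, Hk_eq hp]

end Pool.Agent.P.MP_8b7eba_nt.Mod
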