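import Pool.Agent.P.MP_8b7eba_nt.ModAp

/-! Twisted L-functions of the newform: continuation, central value, Euler product. -/

open Complex Filter Asymptotics Topology Finset MeasureTheory Set
open scoped Real

namespace Pool.Agent.P.MP_8b7eba_nt.Mod

open M2

lemma sl_ff_decay {g : M2} (hg : 0 < g.det) : ∃ t, 0 < t ∧ sl ff g =O[atI] ex t := by
  obtain ⟨h, A, B, C, hh, hA, hC, -, -, rfl⟩ := exists_upper hg
  have hw : (0 : ℝ) < wd h := by exact_mod_cast wd_pos h
  have h1 : (0 : ℝ) < A := by exact_mod_cast hA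
  have h2 : (0 : ℝ) < C := by exact_mod_cast hC
  have hu : 0 < (M2.mk A B 0 C).det := by simp [det]; positivity
  refine ⟨1 / wd h * (A / C), by positivity, (((sl_ff_theta hh).1.comp_tendsto
    (tendsto_upper (B := B) hA hC)).const_mul_left ((M2.mk A B 0 C).det / C ^ 2 : ℂ)).congr' ?_
    (.of_forall fun z => ?_)⟩
  · filter_upwards [ev_im 0] with z hz
    rw [sl_mul _ (by omega) hu hz, sl.eq_def (sl ff h)]
    simp only [Function.comp, M2.j]
    push_cast
    ring
  · simp only [Function.comp, ex, im_upper]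
    congr 1
    ring

lemma tendsto_ray (r : ℝ) : Tendsto (fun t : ℝ => (r : ℂ) + t * I) atTop atI := by
  rw [tendsto_comap_iff]
  exact tendsto_id.congr fun t => by simp

lemma ff_top (r : ℝ) : (fun t : ℝ => ff (r + t * I)) =O[atTop] fun t => Real.exp (-(2 * π) * t) := by
  have := (sl_ff_theta (g := 1) rfl).1.comp_tendsto (tendsto_ray r)
  refine this.congr (fun t => by simp [sl]) fun t => ?_
  simp [ex, wd]

lemma ff_bot (r : ℚ) (b : ℝ) : (fun t : ℝ => ff (r + t * I)) =O[𝓝[>] 0] fun t => t ^ (-b) := by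
  have hd : (0 : ℝ) < r.den := by exact_mod_cast r.den_pos
  obtain ⟨u, v, huv⟩ : IsCoprime r.num r.den := Int.isCoprime_iff_gcd_eq_one.2 r.reduced
  have hg : (M2.mk r.num (-v) r.den u).det = 1 := by simp only [det]; linear_combination huv
  obtain ⟨t, ht, h⟩ := sl_ff_decay (g := ⟨r.num, -v, r.den, u⟩) (by omega)
  have h2 : Tendsto (fun y : ℝ => ((-u / r.den : ℝ) : ℂ) + (((r.den : ℝ) ^ 2)⁻¹ * y⁻¹ : ℝ) * I)
      (𝓝[>] 0) atI :=
    (tendsto_ray _).comp (tendsto_inv_nhdsGT_zero.const_mul_atTop (by positivity))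
  have h3 := (isLittleO_exp_neg_mul_rpow_atTop (a := 2 * π * t * ((r.den : ℝ) ^ 2)⁻¹)
    (by positivity) (b - 2)).isBigO.comp_tendsto tendsto_inv_nhdsGT_zero
  have h4 := ((h.comp_tendsto h2).congr_right (g₂ := fun y : ℝ =>
    Real.exp (-(2 * π * t * ((r.den : ℝ) ^ 2)⁻¹) * y⁻¹)) fun y => by
      simp only [Function.comp, ex, add_im, ofReal_im, mul_im, I_im, I_re, ofReal_re]
      congr 1; ring).trans h3
  have h5 : (fun y : ℝ => (I / (r.den * y)) ^ 2) =O[𝓝[>] 0] fun y : ℝ => y⁻¹ ^ 2 :=
    IsBigO.of_bound ((r.den : ℝ)⁻¹ ^ 2) (.of_forall fun y => by simp [mul_comm, mul_pow])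
  refine (h4.mul h5).congr' ?_ ?_
  · filter_upwards [self_mem_nhdsWithin] with y hy
    have hy' : (y : ℂ) ≠ 0 := by exact_mod_cast (ne_of_gt hy)
    have hc' : (r.den : ℂ) ≠ 0 := by exact_mod_cast r.den_ne_zero
    have hj : (M2.mk r.num (-v) r.den u).j (((-u / r.den : ℝ) : ℂ) +
        (((r.den : ℝ) ^ 2)⁻¹ * y⁻¹ : ℝ) * I) = I / (r.den * y) := by
      simp only [M2.j]; push_cast; field_simp; ring
    have e : (u : ℂ) * r.num + v * r.den = 1 := by exact_mod_cast huv
    simp only [Function.comp, sl, hg, act_eq, hj]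
    rw [Int.cast_one, one_mul, div_mul_cancel₀ _ (pow_ne_zero _ (div_ne_zero I_ne_zero
      (mul_ne_zero hc' hy')))]
    congr 1
    rw [Rat.cast_def]
    push_cast
    field_simp
    linear_combination -r.den * y * e - r.den * y * I_sq
  · filter_upwards [self_mem_nhdsWithin] with y hy
    simp only [Function.comp]
    rw [← Real.rpow_natCast, ← Real.rpow_add (inv_pos.2 hy), Real.inv_rpow (le_of_lt hy),
      ← Real.rpow_neg (le_of_lt hy)]
    congr 1
    push_cast
    ring

lemma ff_loc (r : ℝ) : LocallyIntegrableOn (fun t : ℝ => ff (r + t * I)) (Ioi 0) :=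
  (diff_ff.continuousOn.comp (by fun_prop) fun t ht => by simpa [UH] using ht).locallyIntegrableOn
    measurableSet_Ioi

lemma ff_conv (r : ℚ) (s : ℂ) : MellinConvergent (fun t : ℝ => ff (r + t * I)) s :=
  mellinConvergent_of_isBigO_rpow_exp (by positivity) (ff_loc r) (ff_top r) (ff_bot r (s.re - 1))
    (sub_one_lt _)

lemma ff_mellin_diff (r : ℚ) : Differentiable ℂ (mellin fun t : ℝ => ff (r + t * I)) := fun s =>
  mellin_differentiableAt_of_isBigO_rpow_exp (by positivity) (ff_loc r) (ff_top r)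
    (ff_bot r (s.re - 1)) (sub_one_lt _)

theorem mellin_one (r : ℚ) : 2 * π * mellin (fun t : ℝ => ff (r + t * I)) 1 = lam r := by
  have h1 : IntegrableOn (fun t : ℝ => -(2 * π : ℂ) * ff (r + t * I)) (Ioi 0) :=
    Integrable.const_mul (show IntegrableOn _ _ _ by
      simpa [MellinConvergent] using ff_conv r 1) _
  have e : ∀ t ∈ Ioi (0 : ℝ), Function.update (fun t : ℝ => FI (r + t * I)) 0 (lam r) =ᶠ[𝓝 t]
      fun t : ℝ => FI (r + t * I) := fun t ht => by
    filter_upwards [Ioi_mem_nhds ht] with u hu using Function.update_of_ne (ne_of_gt hu) _ _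
  have := integral_Ioi_of_hasDerivAt_of_tendsto
    (f := Function.update (fun t : ℝ => FI (r + t * I)) 0 (lam r)) (m := 0)
    (by rw [← continuousWithinAt_Ioi_iff_Ici, continuousWithinAt_update_same,
          Set.sdiff_singleton_eq_self (by simp)]
        exact tendsto_lam r)
    (fun t ht => by
      have h2 : HasDerivAt (fun w : ℂ => (r : ℂ) + w * I) I t := by
        simpa using ((hasDerivAt_id (t : ℂ)).mul_const I).const_add (r : ℂ)
      have h3 := ((hasDerivAt_FI (z := r + t * I) (by simpa using ht)).comp (t : ℂ) h2).comp_ofReal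
      refine (h3.congr_deriv ?_).congr_of_eventuallyEq (e t ht)
      linear_combination 2 * π * ff (r + t * I) * I_sq) h1
    ((tendsto_FI.comp (tendsto_ray r)).congr' (by
      filter_upwards [eventually_gt_atTop 0] with t ht
      rw [Function.update_of_ne ht.ne']
      simp))
  rw [integral_const_mul, Function.update_self] at this
  simp only [mellin, sub_self, cpow_zero, one_smul]
  linear_combination -this

/-- Continuation and central value of a twisted L-series. -/
theorem exists_L {m : ℕ} {χ : ℕ → ℂ} {τ : ℂ} (hτ : τ ≠ 0) (hχ : ∀ n, ‖χ n‖ ≤ 1)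
    (hG : ∀ n : ℕ, ∑ a ∈ range m, χ a * cexp (2 * π * I * (a * n / m)) = χ n * τ) :
    ∃ L : ℂ → ℂ, Differentiable ℂ L ∧
      (∀ s : ℂ, 3 / 2 < s.re → L s = LSeries (fun n => χ n * an n) s) ∧
      τ * L 1 = ∑ a ∈ range m, χ a * lam (a / m) := by
  have h2π : (2 * π : ℂ) ≠ 0 := by simp
  refine ⟨fun s => (∑ a ∈ range m, χ a * mellin (fun t : ℝ => ff ((a / m : ℚ) + t * I)) s) *
    ((2 * π) ^ s * (Gamma s)⁻¹) / τ, ?_, fun s hs => ?_, ?_⟩
  · refine ((Differentiable.fun_sum fun a _ => (ff_mellin_diff _).const_mul _).mul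
      ((differentiable_id.const_cpow (.inl h2π)).mul differentiable_one_div_Gamma)).div_const _
  · have hs0 : 0 < s.re := by linarith
    have hsum := summable_norm_iff.2 (summable_an hs)
    have h1 := hasSum_mellin (a := fun n : ℕ => τ * (χ n * an n)) (p := fun n => 2 * π * n)
      (F := fun t : ℝ => ∑ a ∈ range m, χ a * ff ((a / m : ℚ) + t * I)) (s := s)
      (fun n => by
        rcases n.eq_zero_or_pos with rfl | h
        · simp [an_zero]
        · right; positivity) hs0
      (fun t ht => by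
        refine (hasSum_sum fun (a : ℕ) _ => (hasSum_ff (z := (a / m : ℚ) + t * I)
          (by simpa using ht)).mul_left (χ a)).congr_fun fun n => ?_
        have : ∀ a : ℕ, qq ((a / m : ℚ) + t * I) ^ n =
            cexp (2 * π * I * (a * n / m)) * Real.exp (-(2 * π * n) * t) := fun a => by
          rw [qq, ← Complex.exp_nat_mul, ofReal_exp, ← Complex.exp_add]
          congr 1
          push_cast
          linear_combination 2 * π * n * t * I_sq
        simp only [this]
        rw [show τ * (χ n * an n) = an n * (χ n * τ) by ring, ← hG, mul_sum, sum_mul]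
        exact sum_congr rfl fun a _ => by ring)
      (by
        refine (hsum.mul_left (‖τ‖ / (2 * π) ^ s.re)).of_nonneg_of_le (fun _ => by positivity)
          fun n => ?_
        rw [LSeries.norm_term_eq]
        split_ifs with h
        · simp [h, an_zero]
        · rw [Real.mul_rpow (by positivity) (by positivity), div_mul_div_comm, norm_mul, norm_mul]
          gcongr
          exact mul_le_of_le_one_left (norm_nonneg _) (hχ n))
    have h2 : mellin (fun t : ℝ => ∑ a ∈ range m, χ a * ff ((a / m : ℚ) + t * I)) s =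
        ∑ a ∈ range m, χ a * mellin (fun t : ℝ => ff ((a / m : ℚ) + t * I)) s := by
      simp only [mellin, smul_eq_mul, mul_sum, mul_left_comm _ (χ _)]
      refine (integral_finsetSum _ fun a _ => Integrable.const_mul (ff_conv _ s) _).trans ?_
      simp only [integral_const_mul, smul_eq_mul]
    have h3 := Gamma_ne_zero_of_re_pos hs0
    have h4 : (2 * π : ℂ) ^ s ≠ 0 := cpow_ne_zero_iff.2 (.inl h2π)
    rw [h2] at h1
    refine (((h1.mul_right _).div_const τ).congr_fun fun n => ?_).tsum_eq.symm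
    rw [LSeries.term_def₀ (by simp [an_zero]), cpow_neg, ofReal_mul (2 * π),
      mul_cpow_ofReal_nonneg (by positivity) (by positivity)]
    push_cast
    field_simp
  · simp only [Gamma_one, cpow_one, ← mellin_one, inv_one, mul_one]
    rw [mul_div_cancel₀ _ hτ, sum_mul]
    exact sum_congr rfl fun a _ => by ring

lemma an_pow_rec {p : ℕ} (hp : p.Prime) (k n : ℕ) : an (p ^ (k + 2) * n) =
    an p * an (p ^ (k + 1) * n) - (if p ∣ 15 then 0 else (p : ℤ)) * an (p ^ k * n) := by
  have := hecke hp (p ^ (k + 1) * n)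
  rw [← mul_assoc, ← pow_succ', pow_succ' p k, mul_assoc p, Nat.mul_div_cancel_left _ hp.pos,
    ← mul_assoc, ← pow_succ'] at this
  have h : p ∣ p ^ (k + 1) * n := (dvd_pow_self _ k.succ_ne_zero).mul_right _
  by_cases h15 : p ∣ 15 <;> simp only [h15, h, not_true, not_false_iff, false_and, true_and,
    if_true, if_false] at this ⊢ <;> linarith

lemma an_pow_mul {p n : ℕ} (hp : p.Prime) (hn : ¬ p ∣ n) (k : ℕ) :
    an (p ^ k * n) = an (p ^ k) * an n := by
  induction k using Nat.twoStepInduction with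
  | zero => simp [an_one]
  | one => simpa [hn] using hecke hp n
  | more k h1 h2 =>
    have := an_pow_rec hp k 1
    simp only [mul_one] at this
    rw [an_pow_rec hp, h1, h2, this]
    ring

theorem an_mul {m n : ℕ} (h : m.Coprime n) : an (m * n) = an m * an n := by
  induction m using Nat.recOnPrimePow with
  | zero => simp [an_zero]
  | one => simp [an_one]
  | prime_pow_mul a p k hp ha hk ih =>
    have h1 : ¬ p ∣ n := hp.coprime_iff_not_dvd.1
      (h.coprime_dvd_left ((dvd_pow_self p hk.ne').mul_right a))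
    rw [mul_assoc, an_pow_mul hp (fun h => (hp.dvd_mul.1 h).elim ha h1),
      ih (h.coprime_dvd_left (dvd_mul_left _ _)), an_pow_mul hp ha, mul_assoc]

/-- The Euler polynomial at `p`. -/
noncomputable def eul (χ : ℕ → ℂ) (p : ℕ) (s : ℂ) : ℂ :=
  1 - χ p * an p * (p : ℂ) ^ (-s) + if p ∣ 15 then 0 else χ p ^ 2 * (p : ℂ) ^ (1 - 2 * s)

theorem euler {χ : ℕ → ℂ} (h1 : χ 1 = 1) (hm : ∀ m n, m ≠ 0 → n ≠ 0 → χ (m * n) = χ m * χ n)
    (hχ : ∀ n, ‖χ n‖ ≤ 1) {s : ℂ} (hs : 3 / 2 < s.re) :
    (∀ p : ℕ, p.Prime → eul χ p s ≠ 0) ∧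
    HasProd (fun p : Nat.Primes => (eul χ p s)⁻¹) (LSeries (fun n => χ n * an n) s) := by
  set f := LSeries.term (fun n => χ n * an n) s with hf
  have hf' : ∀ n, f n = χ n * an n * (n : ℂ) ^ (-s) := LSeries.term_def₀ (by simp [an_zero]) s
  have hsum : Summable fun n => ‖f n‖ :=
    (summable_norm_iff.2 (summable_an hs)).of_nonneg_of_le (fun _ => norm_nonneg _) fun n =>
      LSeries.norm_term_le s (by
        rw [norm_mul]; exact mul_le_of_le_one_left (norm_nonneg _) (hχ n))
  have key : ∀ p : ℕ, p.Prime → eul χ p s * ∑' e, f (p ^ e) = 1 := fun p hp => by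
    have hp0 : (p : ℂ) ≠ 0 := by exact_mod_cast hp.ne_zero
    have h2 : Summable fun e => f (p ^ e) :=
      hsum.of_norm.comp_injective (Nat.pow_right_injective hp.two_le)
    have h3 : ∀ e, χ (p ^ e) = χ p ^ e := fun e => by
      induction e with
      | zero => simpa using h1
      | succ e ih => rw [pow_succ, hm _ _ (pow_ne_zero _ hp.ne_zero) hp.ne_zero, ih, pow_succ]
    have h4 : ∀ e, f (p ^ e) = χ p ^ e * an (p ^ e) * ((p : ℂ) ^ (-s)) ^ e := fun e => by
      rw [hf', h3, Nat.cast_pow, ← natCast_cpow_natCast_mul, cpow_nat_mul]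
    have h5 : (p : ℂ) ^ (1 - 2 * s) = p * ((p : ℂ) ^ (-s)) ^ 2 := by
      rw [← cpow_nat_mul, sub_eq_add_neg, cpow_add _ _ hp0, cpow_one]
      congr 2
      push_cast
      ring
    have h6 := (hasSum_nat_add_iff' 2).2 h2.hasSum
    have h7 := (((hasSum_nat_add_iff' 1).2 h2.hasSum).mul_left
      (χ p * an p * (p : ℂ) ^ (-s))).sub (h2.hasSum.mul_left
        (if p ∣ 15 then 0 else χ p ^ 2 * (p : ℂ) ^ (1 - 2 * s)))
    have h8 := h6.unique (h7.congr_fun fun e => by
      have := congrArg (Int.cast : ℤ → ℂ) (an_pow_rec hp e 1)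
      simp only [mul_one] at this
      push_cast at this
      rw [h4, h4, h4, this, h5]
      split_ifs <;> ring)
    rw [sum_range_succ, sum_range_one, h4 0, h4 1] at h8
    simp only [pow_zero, pow_one, an_one] at h8
    unfold eul
    push_cast at h8
    linear_combination h8
  refine ⟨fun p hp => left_ne_zero_of_mul_eq_one (key p hp), ?_⟩
  have := EulerProduct.eulerProduct_hasProd (f := f) (by simp [hf', h1, an_one])
    (fun {m n} h => by
      rcases eq_or_ne m 0 with rfl | hm0
      · simp [hf]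
      rcases eq_or_ne n 0 with rfl | hn0
      · simp [hf]
      rw [hf', hf', hf', hm _ _ hm0 hn0, an_mul h, Nat.cast_mul m n, natCast_mul_natCast_cpow]
      push_cast
      ring) hsum (by simp [hf])
  exact this.congr_fun fun p => (eq_inv_of_mul_eq_one_right (key p p.2)).symm

end Pool.Agent.P.MP_8b7eba_nt.Mod
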