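import Pool.Agent.P.MP_8b7eba_nt.ModEta

/-! Integer 2 by 2 matrices, generators of SL2(Z) and of Gamma0(15). -/

open Complex

namespace Pool.Agent.P.MP_8b7eba_nt.Mod

@[ext] structure M2 where
  a : ℤ
  b : ℤ
  c : ℤ
  d : ℤ
deriving DecidableEq

namespace M2

instance : Mul M2 :=
  ⟨fun g h => ⟨g.a * h.a + g.b * h.c, g.a * h.b + g.b * h.d,
    g.c * h.a + g.d * h.c, g.c * h.b + g.d * h.d⟩⟩
instance : One M2 := ⟨⟨1, 0, 0, 1⟩⟩
instance : Neg M2 := ⟨fun g => ⟨-g.a, -g.b, -g.c, -g.d⟩⟩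

@[simp] lemma mul_a (g h : M2) : (g * h).a = g.a * h.a + g.b * h.c := rfl
@[simp] lemma mul_b (g h : M2) : (g * h).b = g.a * h.b + g.b * h.d := rfl
@[simp] lemma mul_c (g h : M2) : (g * h).c = g.c * h.a + g.d * h.c := rfl
@[simp] lemma mul_d (g h : M2) : (g * h).d = g.c * h.b + g.d * h.d := rfl
@[simp] lemma one_a : (1 : M2).a = 1 := rfl
@[simp] lemma one_b : (1 : M2).b = 0 := rfl
@[simp] lemma one_c : (1 : M2).c = 0 := rfl
@[simp] lemma one_d : (1 : M2).d = 1 := rfl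
@[simp] lemma neg_a (g : M2) : (-g).a = -g.a := rfl
@[simp] lemma neg_b (g : M2) : (-g).b = -g.b := rfl
@[simp] lemma neg_c (g : M2) : (-g).c = -g.c := rfl
@[simp] lemma neg_d (g : M2) : (-g).d = -g.d := rfl

instance : Monoid M2 where
  mul_assoc g h k := by ext <;> simp <;> ring
  one_mul g := by ext <;> simp
  mul_one g := by ext <;> simp

def det (g : M2) : ℤ := g.a * g.d - g.b * g.c
def adj (g : M2) : M2 := ⟨g.d, -g.b, -g.c, g.a⟩
noncomputable def act (g : M2) (z : ℂ) : ℂ := mob g.a g.b g.c g.d z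
noncomputable def j (g : M2) (z : ℂ) : ℂ := g.c * z + g.d

@[simp] lemma adj_a (g : M2) : g.adj.a = g.d := rfl
@[simp] lemma adj_b (g : M2) : g.adj.b = -g.b := rfl
@[simp] lemma adj_c (g : M2) : g.adj.c = -g.c := rfl
@[simp] lemma adj_d (g : M2) : g.adj.d = g.a := rfl

lemma det_mul (g h : M2) : (g * h).det = g.det * h.det := by simp [det]; ring
@[simp] lemma det_one : (1 : M2).det = 1 := rfl
@[simp] lemma det_adj (g : M2) : g.adj.det = g.det := by simp [det]; ring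
@[simp] lemma det_neg (g : M2) : (-g).det = g.det := by simp [det]
@[simp] lemma adj_adj (g : M2) : g.adj.adj = g := by ext <;> simp
@[simp] lemma neg_neg' (g : M2) : - -g = g := by ext <;> simp
lemma neg_one_mul' (g : M2) : -1 * g = -g := by ext <;> simp
lemma adj_mul (g h : M2) : (g * h).adj = h.adj * g.adj := by ext <;> simp <;> ring

lemma mul_adj {g : M2} (h : g.det = 1) : g * g.adj = 1 := by
  unfold det at h; ext <;> simp <;> linarith
lemma adj_mul_self {g : M2} (h : g.det = 1) : g.adj * g = 1 := by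
  unfold det at h; ext <;> simp <;> linarith

lemma j_ne {g : M2} (h : g.det ≠ 0) {z : ℂ} (hz : 0 < z.im) : g.j z ≠ 0 := den_ne (cd_ne h) hz

lemma im_act (g : M2) (z : ℂ) : (g.act z).im = g.det * z.im / normSq (g.j z) := im_mob z

lemma im_act_pos {g : M2} (h : 0 < g.det) {z : ℂ} (hz : 0 < z.im) : 0 < (g.act z).im :=
  im_mob_pos h hz

lemma act_eq (g : M2) (z : ℂ) : g.act z = (g.a * z + g.b) / g.j z := rfl

lemma j_mul (g : M2) {h : M2} (hh : h.det ≠ 0) {z : ℂ} (hz : 0 < z.im) :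
    (g * h).j z = g.j (h.act z) * h.j z := by
  have := j_ne hh hz
  have e : h.act z * h.j z = h.a * z + h.b := by rw [act_eq, div_mul_cancel₀ _ this]
  simp only [j, mul_c, mul_d] at e ⊢
  push_cast
  linear_combination -g.c * e

lemma act_mul {g h : M2} (hg : g.det ≠ 0) (hh : 0 < h.det) {z : ℂ} (hz : 0 < z.im) :
    (g * h).act z = g.act (h.act z) := by
  have h1 := j_ne hh.ne' hz
  have h2 := j_ne hg (im_act_pos hh hz)
  rw [act_eq, act_eq g, j_mul g hh.ne' hz, div_eq_div_iff (mul_ne_zero h2 h1) h2, act_eq]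
  field_simp
  simp [j]
  ring

@[simp] lemma act_one (z : ℂ) : (1 : M2).act z = z := by simp [act, mob]
@[simp] lemma j_one (z : ℂ) : (1 : M2).j z = 1 := by simp [j]
@[simp] lemma j_neg (g : M2) (z : ℂ) : (-g).j z = -g.j z := by simp [j]; ring
@[simp] lemma act_neg (g : M2) (z : ℂ) : (-g).act z = g.act z := by
  rw [act_eq, act_eq, j_neg, div_neg, ← neg_div]; simp; ring

lemma hasDerivAt_act {g : M2} (h : g.det ≠ 0) {z : ℂ} (hz : 0 < z.im) :
    HasDerivAt g.act (g.det / g.j z ^ 2) z := by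
  have h1 := j_ne h hz
  have e1 : HasDerivAt (fun w : ℂ => (g.a : ℂ) * w + g.b) g.a z := by
    simpa using ((hasDerivAt_id z).const_mul (g.a : ℂ)).add_const (g.b : ℂ)
  have e2 : HasDerivAt (fun w : ℂ => (g.c : ℂ) * w + g.d) g.c z := by
    simpa using ((hasDerivAt_id z).const_mul (g.c : ℂ)).add_const (g.d : ℂ)
  have := e1.div e2 h1
  refine this.congr_deriv ?_
  simp only [det, j]
  push_cast
  congr 1
  ring

lemma differentiable_j (g : M2) : Differentiable ℂ g.j := by unfold j; fun_prop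

end M2

open M2

def mS : M2 := ⟨0, -1, 1, 0⟩
def mT (n : ℤ) : M2 := ⟨1, n, 0, 1⟩

@[simp] lemma det_mS : mS.det = 1 := rfl
@[simp] lemma det_mT (n : ℤ) : (mT n).det = 1 := by simp [mT, det]
lemma act_mT (n : ℤ) (z : ℂ) : (mT n).act z = z + n := by simp [mT, act, mob]
@[simp] lemma j_mT (n : ℤ) (z : ℂ) : (mT n).j z = 1 := by simp [mT, j]

theorem sl2_ind {P : M2 → Prop} (h1 : P 1) (hS : ∀ g, g.det = 1 → P g → P (g * mS))
    (hT : ∀ g, g.det = 1 → (P g ↔ P (g * mT 1))) : ∀ g, g.det = 1 → P g := by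
  have hTn : ∀ n : ℤ, ∀ g, g.det = 1 → P g → P (g * mT n) := by
    intro n g hg hP
    induction n using Int.induction_on with
    | zero => rwa [show g * mT 0 = g by ext <;> simp [mT]]
    | succ n ih =>
      rw [show g * mT (n + 1) = g * mT n * mT 1 by ext <;> simp [mT] <;> ring]
      exact (hT _ (by simp [det_mul, hg])).1 ih
    | pred n ih =>
      refine (hT _ (by simp [det_mul, hg])).2 ?_
      rwa [show g * mT (-n - 1) * mT 1 = g * mT (-n) by ext <;> simp [mT] <;> ring]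
  have hneg : ∀ g, g.det = 1 → P g → P (-g) := fun g hg hP => by
    rw [show -g = g * mS * mS by ext <;> simp [mS]]
    exact hS _ (by simp [det_mul, hg]) (hS _ hg hP)
  have h0 : ∀ g : M2, g.det = 1 → g.c = 0 → P g := by
    intro g hg hc
    have : g.a * g.d = 1 := by simpa [det, hc] using hg
    rcases Int.eq_one_or_neg_one_of_mul_eq_one' this with ⟨ha, hd⟩ | ⟨ha, hd⟩
    · rw [show g = 1 * mT g.b by ext <;> simp [mT, *]]
      exact hTn _ _ rfl h1
    · rw [show g = -(1 * mT (-g.b)) by ext <;> simp [mT, *]]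
      exact hneg _ (by simp) (hTn _ _ rfl h1)
  have hpos : ∀ k : ℕ, ∀ g : M2, g.det = 1 → 0 ≤ g.c → g.c ≤ k → P g := by
    intro k
    induction k with
    | zero => intro g hg h h'; exact h0 g hg (by omega)
    | succ k ih =>
      intro g hg h h'
      rcases h.eq_or_lt with h | h
      · exact h0 g hg h.symm
      set n := -(-g.d / g.c) with hn
      have h1 := Int.emod_nonneg (-g.d) h.ne'
      have h2 := Int.emod_lt_of_pos (-g.d) h
      have h3 := Int.emod_add_ediv_mul (-g.d) g.c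
      have hd : (M2.mk (n * g.a - g.b) g.a (n * g.c - g.d) g.c).det = 1 := by
        simp only [det] at hg ⊢; linear_combination hg
      rw [show g = ⟨n * g.a - g.b, g.a, n * g.c - g.d, g.c⟩ * mS * mT n by
        ext <;> simp [mS, mT] <;> ring]
      have h4 : n * g.c - g.d = -g.d % g.c := by rw [hn]; linarith
      refine hTn _ _ (by simp [det_mul, hd]) (hS _ hd (ih _ hd ?_ ?_)) <;> dsimp only <;> omega
  intro g hg
  rcases le_total 0 g.c with h | h
  · exact hpos g.c.toNat g hg h (by omega)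
  · rw [← neg_neg' g]
    exact hneg _ (by simpa) (hpos (-g.c).toNat _ (by simpa) (by simpa) (by simp))

/-- Membership in Gamma0(15). -/
def G0 (g : M2) : Prop := g.det = 1 ∧ (15 : ℤ) ∣ g.c

instance (g : M2) : Decidable (G0 g) := inferInstanceAs (Decidable (_ ∧ _))

lemma G0.mul {g h : M2} (hg : G0 g) (hh : G0 h) : G0 (g * h) :=
  ⟨by rw [det_mul, hg.1, hh.1, mul_one], dvd_add (hg.2.mul_right _) (hh.2.mul_left _)⟩
lemma G0.adj {g : M2} (hg : G0 g) : G0 g.adj := ⟨by simp [hg.1], by simp [hg.2]⟩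
lemma G0.neg {g : M2} (hg : G0 g) : G0 (-g) := ⟨by simp [hg.1], by simp [hg.2]⟩
lemma G0.det_pos {g : M2} (hg : G0 g) : 0 < g.det := by rw [hg.1]; exact one_pos
lemma G0_mT (n : ℤ) : G0 (mT n) := ⟨det_mT n, by simp [mT]⟩

/-- Coset representatives of Gamma0(15) in SL2(Z). -/
def reps : List M2 :=
  [⟨1, 0, 0, 1⟩, ⟨0, -1, 1, -7⟩, ⟨0, -1, 1, -6⟩, ⟨0, -1, 1, -5⟩, ⟨0, -1, 1, -4⟩, ⟨0, -1, 1, -3⟩,
   ⟨0, -1, 1, -2⟩, ⟨0, -1, 1, -1⟩, ⟨0, -1, 1, 0⟩, ⟨0, -1, 1, 1⟩, ⟨0, -1, 1, 2⟩, ⟨0, -1, 1, 3⟩,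
   ⟨0, -1, 1, 4⟩, ⟨0, -1, 1, 5⟩, ⟨0, -1, 1, 6⟩, ⟨0, -1, 1, 7⟩, ⟨1, 0, 3, 1⟩, ⟨-1, -1, 3, 2⟩,
   ⟨1, 1, 3, 4⟩, ⟨-1, -2, 3, 5⟩, ⟨1, -1, 3, -2⟩, ⟨1, 0, 5, 1⟩, ⟨-2, -1, 5, 2⟩, ⟨2, 1, 5, 3⟩]

/-- Index of the point `(c : d)` of the projective line over `Z/15`. -/
def idx (c d : ℤ) : ℕ := reps.findIdx fun r => (c * r.d - d * r.c) % 15 == 0

def rep (c d : ℤ) : M2 := reps.getD (idx c d) 1

lemma idx_emod (c d : ℤ) : idx c d = idx (c % 15) (d % 15) := by
  unfold idx
  congr 1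
  ext r
  congr 1
  have h1 : c % 15 ≡ c [ZMOD 15] := Int.mod_modEq _ _
  have h2 : d % 15 ≡ d [ZMOD 15] := Int.mod_modEq _ _
  exact ((h1.mul_right _).sub (h2.mul_right _)).symm

/-- `(c, d)` is primitive modulo 15. -/
def Prim (c d : ℤ) : Prop := ¬ ((3 : ℤ) ∣ c ∧ (3 : ℤ) ∣ d) ∧ ¬ ((5 : ℤ) ∣ c ∧ (5 : ℤ) ∣ d)

instance (c d : ℤ) : Decidable (Prim c d) := inferInstanceAs (Decidable (_ ∧ _))

lemma prim_of_det {g : M2} (h : g.det = 1) : Prim g.c g.d := by
  unfold det at h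
  constructor <;> rintro ⟨⟨u, hu⟩, ⟨v, hv⟩⟩ <;> rw [hu, hv] at h
  · have : 3 * (g.a * v - g.b * u) = 1 := by linear_combination h
    omega
  · have : 5 * (g.a * v - g.b * u) = 1 := by linear_combination h
    omega

/-- Reduction of a statement about primitive pairs to residues. -/
lemma prim_ind {Q : ℤ → ℤ → Prop} (hQ : ∀ c d, Q (c % 15) (d % 15) → Q c d)
    (h : ∀ c : Fin 15, ∀ d : Fin 15, Prim c.1 d.1 → Q c.1 d.1) {c d : ℤ} (hp : Prim c d) :
    Q c d := by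
  apply hQ
  have := h ⟨(c % 15).toNat, by omega⟩ ⟨(d % 15).toNat, by omega⟩
  dsimp only at this
  rw [Int.toNat_of_nonneg (by omega), Int.toNat_of_nonneg (by omega)] at this
  apply this
  unfold Prim at hp ⊢
  omega

def gens : List M2 :=
  [⟨1, 0, 15, 1⟩, ⟨2, -1, 15, -7⟩, ⟨-2, -1, 15, 7⟩, ⟨4, 1, 15, 4⟩, ⟨11, 4, 30, 11⟩, ⟨7, 3, 30, 13⟩]

def IsGen (s : M2) : Prop :=
  ∃ g ∈ 1 :: mT 1 :: gens, s = g ∨ s = -g ∨ s = g.adj ∨ s = -g.adj

instance (s : M2) : Decidable (IsGen s) := inferInstanceAs (Decidable (∃ g ∈ _, _))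

lemma rep_emod (c d : ℤ) : rep c d = rep (c % 15) (d % 15) := by rw [rep, idx_emod]; rfl

lemma rep_congr {c d c' d' : ℤ} (h1 : c % 15 = c' % 15) (h2 : d % 15 = d' % 15) :
    rep c d = rep c' d' := by rw [rep_emod, h1, h2, ← rep_emod]

lemma rep_spec {c d : ℤ} (h : Prim c d) : (rep c d).det = 1 ∧ idx c d < 24 ∧
    (15 : ℤ) ∣ c * (rep c d).d - d * (rep c d).c ∧
    IsGen (rep c d * mS * (rep d (-c)).adj) ∧ IsGen (rep c d * mT 1 * (rep c (c + d)).adj) := by
  refine prim_ind (Q := fun c d => (rep c d).det = 1 ∧ idx c d < 24 ∧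
    (15 : ℤ) ∣ c * (rep c d).d - d * (rep c d).c ∧
    IsGen (rep c d * mS * (rep d (-c)).adj) ∧ IsGen (rep c d * mT 1 * (rep c (c + d)).adj))
    ?_ (by decide +kernel) h
  intro c d hq
  rw [← rep_emod, ← idx_emod, rep_congr (c := d % 15) (c' := d) (d := -(c % 15)) (d' := -c)
    (by omega) (by omega), rep_congr (c := c % 15) (c' := c) (d := c % 15 + d % 15) (d' := c + d)
    (by omega) (by omega)] at hq
  refine ⟨hq.1, hq.2.1, ?_, hq.2.2.2⟩
  obtain ⟨k, hk⟩ := hq.2.2.1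
  refine ⟨k + (c / 15) * (rep c d).d - (d / 15) * (rep c d).c, ?_⟩
  have h1 := Int.emod_add_mul_ediv c 15
  have h2 := Int.emod_add_mul_ediv d 15
  linear_combination hk - (rep c d).d * h1 + (rep c d).c * h2

lemma G0_mul_adj_rep {g : M2} (hg : g.det = 1) : G0 (g * (rep g.c g.d).adj) := by
  have h := rep_spec (prim_of_det hg)
  refine ⟨by simp [det_mul, hg, h.1], ?_⟩
  simpa [sub_eq_add_neg] using h.2.2.1

lemma rep_zero {c d : ℤ} (hp : Prim c d) (hc : (15 : ℤ) ∣ c) : rep c d = 1 := by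
  refine prim_ind (Q := fun c d => (15 : ℤ) ∣ c → rep c d = 1) ?_ (by decide +kernel) hp hc
  intro c d h hc
  rw [rep_emod]
  exact h (by omega)

theorem g0_ind {P : M2 → Prop} (hmul : ∀ g h, G0 g → G0 h → P g → P h → P (g * h))
    (hadj : ∀ g, G0 g → P g → P g.adj) (hneg : P (-1)) (hT : P (mT 1))
    (hgen : ∀ g ∈ gens, P g) : ∀ g, G0 g → P g := by
  have hn1 : G0 (-1) := by decide
  have h1 : P 1 := by
    have := hmul _ _ hn1 hn1 hneg hneg
    rwa [show (-1 : M2) * -1 = 1 by decide] at this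
  have hg0 : ∀ g ∈ 1 :: mT 1 :: gens, G0 g := by decide
  have hn : ∀ g, G0 g → P g → P (-g) := fun g hg hP => neg_one_mul' g ▸ hmul _ _ hn1 hg hneg hP
  have hG : ∀ s, IsGen s → G0 s ∧ P s := by
    rintro s ⟨g, hg, hs⟩
    have h0 := hg0 g hg
    have hP : P g := by
      rcases List.mem_cons.1 hg with rfl | hg
      · exact h1
      rcases List.mem_cons.1 hg with rfl | hg
      · exact hT
      exact hgen g hg
    rcases hs with rfl | rfl | rfl | rfl
    · exact ⟨h0, hP⟩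
    · exact ⟨h0.neg, hn _ h0 hP⟩
    · exact ⟨h0.adj, hadj _ h0 hP⟩
    · exact ⟨h0.adj.neg, hn _ h0.adj (hadj _ h0 hP)⟩
  have key : ∀ g : M2, g.det = 1 → P (g * (rep g.c g.d).adj) := by
    refine sl2_ind ?_ ?_ ?_
    · rw [show (1 : M2) * (rep (1 : M2).c (1 : M2).d).adj = 1 by decide]; exact h1
    · intro g hg hP
      have h := rep_spec (prim_of_det hg)
      have := hmul _ _ (G0_mul_adj_rep hg) (hG _ h.2.2.2.1).1 hP (hG _ h.2.2.2.1).2
      rw [← mul_assoc, ← mul_assoc, mul_assoc g, adj_mul_self h.1, mul_one] at this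
      simpa [mS] using this
    · intro g hg
      have h := rep_spec (prim_of_det hg)
      have e : g * (rep g.c g.d).adj * (rep g.c g.d * mT 1 * (rep g.c (g.c + g.d)).adj) =
          g * mT 1 * (rep (g * mT 1).c (g * mT 1).d).adj := by
        rw [← mul_assoc, ← mul_assoc, mul_assoc g, adj_mul_self h.1, mul_one]
        simp [mT]
      have hs := hG _ h.2.2.2.2
      constructor
      · intro hP
        exact e ▸ hmul _ _ (G0_mul_adj_rep hg) hs.1 hP hs.2
      · intro hP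
        have := hmul _ _ (G0_mul_adj_rep (by simp [det_mul, hg])) hs.1.adj hP (hadj _ hs.1 hs.2)
        rwa [← e, mul_assoc, mul_adj hs.1.1, mul_one] at this
  intro g hg
  have := key g hg.1
  rwa [rep_zero (prim_of_det hg.1) hg.2, show (1 : M2).adj = 1 from rfl, mul_one] at this

/-- Every matrix of positive determinant is an element of SL2(Z) times an upper triangular one. -/
lemma exists_upper {g : M2} (hg : 0 < g.det) :
    ∃ h : M2, ∃ A B C : ℤ, h.det = 1 ∧ 0 < A ∧ 0 < C ∧ A = (Int.gcd g.a g.c : ℕ) ∧ A * C = g.det ∧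
      g = h * ⟨A, B, 0, C⟩ := by
  have h0 : 0 < Int.gcd g.a g.c := by
    rw [Int.gcd_pos_iff]
    by_contra h
    push Not at h
    simp [det, h.1, h.2] at hg
  obtain ⟨u, hu⟩ := Int.gcd_dvd_left g.a g.c
  obtain ⟨v, hv⟩ := Int.gcd_dvd_right g.a g.c
  have hb := Int.gcd_eq_gcd_ab g.a g.c
  set A : ℤ := ((Int.gcd g.a g.c : ℕ) : ℤ) with hA
  set x := Int.gcdA g.a g.c
  set y := Int.gcdB g.a g.c
  have hA0 : 0 < A := by rw [hA]; exact_mod_cast h0
  have h1 : u * x + v * y = 1 := by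
    apply mul_left_cancel₀ hA0.ne'
    rw [hu, hv] at hb
    linear_combination -hb
  have hC : A * (u * g.d - v * g.b) = g.det := by
    unfold det
    linear_combination -g.d * hu + g.b * hv
  refine ⟨⟨u, -y, v, x⟩, A, x * g.b + y * g.d, u * g.d - v * g.b, by simp [det]; linarith, hA0,
    pos_of_mul_pos_left (by rwa [mul_comm, hC]) hA0.le, rfl, hC, ?_⟩
  ext <;> simp
  · linarith
  · linear_combination -g.b * h1
  · linarith
  · linear_combination -g.d * h1

end Pool.Agent.P.MP_8b7eba_nt.Mod
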