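import Pool.Agent.P.MP_8b7eba_nt.ModForm

/-! Integral q-expansions. -/

open Complex ModularForm Filter Asymptotics Topology PowerSeries Metric
open scoped Real Nat MatrixGroups

namespace Pool.Agent.P.MP_8b7eba_nt.Mod

/-- `Φ` is holomorphic on the unit disc with Taylor series `A`. -/
def Rep (Φ : ℂ → ℂ) (A : ℤ⟦X⟧) : Prop :=
  DifferentiableOn ℂ Φ (ball 0 1) ∧ ∀ n, iteratedDeriv n Φ 0 = n ! * ((coeff n A : ℤ) : ℂ)

namespace Rep

variable {Φ Ψ : ℂ → ℂ} {A B : ℤ⟦X⟧}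

lemma analyticAt (h : Rep Φ A) : AnalyticAt ℂ Φ 0 := h.1.analyticAt (ball_mem_nhds _ one_pos)

lemma add (h : Rep Φ A) (h' : Rep Ψ B) : Rep (fun q => Φ q + Ψ q) (A + B) :=
  ⟨h.1.add h'.1, fun n => by
    have := iteratedDeriv_add (n := n) h.analyticAt.contDiffAt h'.analyticAt.contDiffAt
    rw [h.2, h'.2] at this
    refine this.trans ?_
    simp [mul_add]⟩

lemma mul (h : Rep Φ A) (h' : Rep Ψ B) : Rep (fun q => Φ q * Ψ q) (A * B) :=
  ⟨h.1.mul h'.1, fun n => by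
    refine (iteratedDeriv_mul (n := n) h.analyticAt.contDiffAt h'.analyticAt.contDiffAt).trans ?_
    simp only [h.2, h'.2, coeff_mul, Finset.Nat.sum_antidiagonal_eq_sum_range_succ_mk,
      Int.cast_sum, Finset.mul_sum, Int.cast_mul]
    refine Finset.sum_congr rfl fun i hi => ?_
    rw [Nat.cast_choose _ (by grind)]
    field_simp [Nat.factorial_ne_zero]⟩

lemma const (c : ℤ) : Rep (fun _ => c) (c : ℤ⟦X⟧) :=
  ⟨differentiableOn_const _, fun n => by
    rw [iteratedDeriv_const, show (c : ℤ⟦X⟧) = C c by simp, coeff_C]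
    split_ifs with h <;> simp [h]⟩

lemma one : Rep (fun _ => 1) 1 := by simpa using const 1

lemma id' : Rep (fun q => q) X :=
  ⟨differentiableOn_id, fun n => by
    rcases n with _ | n
    · simp
    rw [iteratedDeriv_succ', deriv_id'', iteratedDeriv_const, coeff_X]
    split_ifs with h h' <;> simp_all⟩

lemma neg (h : Rep Φ A) : Rep (fun q => -Φ q) (-A) := by simpa using (const (-1)).mul h

lemma sub (h : Rep Φ A) (h' : Rep Ψ B) : Rep (fun q => Φ q - Ψ q) (A - B) := by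
  simpa [sub_eq_add_neg] using h.add h'.neg

lemma pow (h : Rep Φ A) (k : ℕ) : Rep (fun q => Φ q ^ k) (A ^ k) := by
  induction k with
  | zero => simpa using one
  | succ k ih => simpa [pow_succ] using ih.mul h

lemma nat (c : ℕ) : Rep (fun _ => c) (c : ℤ⟦X⟧) := by simpa using const c

lemma deriv (h : Rep Φ A) : Rep (deriv Φ) (d⁄dX ℤ A) :=
  ⟨h.1.deriv isOpen_ball, fun n => by
    rw [← iteratedDeriv_succ', h.2, coeff_derivative, Nat.factorial_succ]
    push_cast; ring⟩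

lemma hasSum (h : Rep Φ A) {q : ℂ} (hq : ‖q‖ < 1) :
    HasSum (fun n => ((coeff n A : ℤ) : ℂ) * q ^ n) (Φ q) := by
  refine (Complex.hasSum_taylorSeries_on_ball h.1 (mem_ball_zero_iff.2 hq)).congr_fun fun n => ?_
  have : (n ! : ℂ) ≠ 0 := by exact_mod_cast n.factorial_ne_zero
  rw [h.2]
  simp only [sub_zero, smul_eq_mul]
  field_simp

lemma apply_zero (h : Rep Φ A) : Φ 0 = (constantCoeff A : ℤ) := by simpa using h.2 0

lemma tendsto (h : Rep Φ A) : Tendsto Φ (𝓝 0) (𝓝 (constantCoeff A : ℤ)) :=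
  h.apply_zero ▸ h.analyticAt.continuousAt.tendsto

lemma of_limit {F : ℕ → ℂ → ℂ} {G : ℕ → ℤ⟦X⟧} (hF : ∀ N, Rep (F N) (G N))
    (hl : TendstoLocallyUniformlyOn F Φ atTop (ball 0 1))
    (hc : ∀ n, ∀ N ≥ n, coeff n (G N) = coeff n A) : Rep Φ A := by
  refine ⟨hl.differentiableOn (.of_forall fun N => (hF N).1) isOpen_ball, fun n => ?_⟩
  have key : ∀ n, TendstoLocallyUniformlyOn (fun N => iteratedDeriv n (F N)) (iteratedDeriv n Φ)
      atTop (ball 0 1) ∧ ∀ N, DifferentiableOn ℂ (iteratedDeriv n (F N)) (ball 0 1) := by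
    intro n
    induction n with
    | zero => exact ⟨by simpa using hl, fun N => by simpa using (hF N).1⟩
    | succ n ih =>
      simp only [iteratedDeriv_succ]
      exact ⟨ih.1.deriv (.of_forall ih.2) isOpen_ball, fun N => (ih.2 N).deriv isOpen_ball⟩
  refine tendsto_nhds_unique ((key n).1.tendsto_at (mem_ball_self one_pos)) ?_
  refine tendsto_const_nhds.congr' ?_
  filter_upwards [eventually_ge_atTop n] with N hN
  rw [(hF N).2, hc n N hN]

/-- Division by `q`. -/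
lemma div_X (h : Rep Φ (X * B)) : ∃ Ψ, Rep Ψ B ∧ ∀ q, Φ q = q * Ψ q := by
  have h0 : Φ 0 = 0 := by simpa using h.apply_zero
  have e : ∀ q, Φ q = q * dslope Φ 0 q := fun q => by
    simpa [h0] using (sub_smul_dslope Φ 0 q).symm
  have hd : DifferentiableOn ℂ (dslope Φ 0) (ball 0 1) :=
    (differentiableOn_dslope (ball_mem_nhds _ one_pos)).2 h.1
  refine ⟨dslope Φ 0, ⟨hd, fun n => ?_⟩, e⟩
  have h1 := iteratedDeriv_mul (n := n + 1) (f := fun q : ℂ => q) (x := 0) contDiffAt_id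
    (hd.analyticAt (ball_mem_nhds _ one_pos)).contDiffAt
  have h2 : ((fun q : ℂ => q) * dslope Φ 0) = Φ := funext fun q => (e q).symm
  rw [h2, h.2, coeff_succ_X_mul, Finset.sum_eq_single 1 (fun i _ hi => by simp [id'.2, coeff_X, hi])
    (by simp)] at h1
  have : ((n + 1 : ℕ) : ℂ) ≠ 0 := by exact_mod_cast n.succ_ne_zero
  apply mul_left_cancel₀ this
  rw [Nat.factorial_succ] at h1
  simp only [Nat.choose_one_right, iteratedDeriv_one, deriv_id'', Nat.add_sub_cancel] at h1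
  push_cast at h1 ⊢
  linear_combination -h1

lemma div_X_pow (k : ℕ) : ∀ {Φ : ℂ → ℂ}, Rep Φ (X ^ k * B) → ∃ Ψ, Rep Ψ B ∧ ∀ q, Φ q = q ^ k * Ψ q := by
  induction k with
  | zero => intro Φ h; exact ⟨Φ, by simpa using h, by simp⟩
  | succ k ih =>
    intro Φ h
    rw [pow_succ', mul_assoc] at h
    obtain ⟨Ψ, h1, h2⟩ := h.div_X
    obtain ⟨Ψ', h3, h4⟩ := ih h1
    exact ⟨Ψ', h3, fun q => by rw [h2, h4]; ring⟩

end Rep

/-- The parameter `q = exp (2 π i z)`. -/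
noncomputable def qq (z : ℂ) : ℂ := cexp (2 * π * I * z)

lemma qq_eq (z : ℂ) : qq z = Function.Periodic.qParam 1 z := by simp [qq, Function.Periodic.qParam]
lemma qq_ne (z : ℂ) : qq z ≠ 0 := Complex.exp_ne_zero _
lemma norm_qq (z : ℂ) : ‖qq z‖ = ex 1 z := by
  rw [qq_eq, Function.Periodic.norm_qParam]; simp [ex]
lemma norm_qq_lt {z : ℂ} (hz : 0 < z.im) : ‖qq z‖ < 1 :=
  qq_eq z ▸ Function.Periodic.norm_qParam_lt_one one_pos hz
lemma tendsto_qq : Tendsto qq atI (𝓝 0) :=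
  tendsto_zero_iff_norm_tendsto_zero.2 ((tendsto_ex one_pos).congr fun z => (norm_qq z).symm)
lemma hasDerivAt_qq (z : ℂ) : HasDerivAt qq (2 * π * I * qq z) z := by
  have := ((hasDerivAt_id z).const_mul (2 * π * I : ℂ)).cexp
  simp only [id, mul_one] at this
  exact this.congr_deriv (mul_comm _ _)
lemma qq_nat_mul (n : ℕ) (z : ℂ) : qq (n * z) = qq z ^ n := by
  simp only [qq, ← Complex.exp_nat_mul]; congr 1; ring
lemma qq_add (z w : ℂ) : qq (z + w) = qq z * qq w := by simp only [qq, mul_add, Complex.exp_add]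

theorem coeff_unique {c : ℕ → ℂ} (h : ∀ z, 0 < z.im → HasSum (fun n => c n * qq z ^ n) 0) (n : ℕ) :
    c n = 0 := by
  have := ModularFormClass.qExpansion_coeff_unique (h := 1) (f := (0 : ModularForm 𝒮ℒ 0)) (c := c)
    one_pos (by simp) (fun τ => by simpa [qq_eq] using h τ τ.im_pos) n
  simpa [UpperHalfPlane.qExpansion_zero] using this

lemma Rep.eq_zero {Φ : ℂ → ℂ} {A : ℤ⟦X⟧} (h : Rep Φ A) (h0 : ∀ z, 0 < z.im → Φ (qq z) = 0) :
    A = 0 := by
  ext n
  have := coeff_unique (fun z hz => h0 z hz ▸ h.hasSum (norm_qq_lt hz)) n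
  simpa using this

/-- Partial products. -/
noncomputable def PN (δ N : ℕ) : ℤ⟦X⟧ := ∏ n ∈ Finset.range N, (1 - (X ^ δ) ^ (n + 1))

/-- The power series `∏ (1 - X ^ (δ n))`. -/
noncomputable def PP (δ : ℕ) : ℤ⟦X⟧ := PowerSeries.mk fun m => coeff m (PN δ m)

noncomputable def Pf (δ : ℕ) (q : ℂ) : ℂ := ∏' n : ℕ, (1 - (q ^ δ) ^ (n + 1))

lemma PN_dvd (δ : ℕ) {N M : ℕ} (h : N ≤ M) : X ^ (δ * (N + 1)) ∣ PN δ M - PN δ N := by
  induction M, h using Nat.le_induction with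
  | base => simp
  | succ M h ih =>
    rw [PN, Finset.prod_range_succ, ← PN, mul_sub, mul_one, sub_right_comm]
    refine dvd_sub ih (Dvd.dvd.mul_left ?_ _)
    rw [← pow_mul]
    exact pow_dvd_pow _ (Nat.mul_le_mul_left _ (by omega))

lemma coeff_PN {δ : ℕ} (hδ : 0 < δ) {m N : ℕ} (h : m < δ * (N + 1)) :
    coeff m (PN δ N) = coeff m (PP δ) := by
  rw [PP, coeff_mk]
  rcases le_total N m with h1 | h1
  · have := X_pow_dvd_iff.1 (PN_dvd δ h1) m h
    rw [map_sub, sub_eq_zero] at this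
    exact this.symm
  · have := X_pow_dvd_iff.1 (PN_dvd δ h1) m (by nlinarith)
    rwa [map_sub, sub_eq_zero] at this

lemma PP_dvd {δ : ℕ} (hδ : 0 < δ) {k N : ℕ} (h : k ≤ δ * (N + 1)) : X ^ k ∣ PP δ - PN δ N :=
  X_pow_dvd_iff.2 fun m hm => by rw [map_sub, coeff_PN hδ (hm.trans_le h), sub_self]

lemma rep_Pf {δ : ℕ} (hδ : 0 < δ) : Rep (Pf δ) (PP δ) := by
  refine Rep.of_limit (F := fun N q => ∏ n ∈ Finset.range N, (1 - (q ^ δ) ^ (n + 1)))
    (G := PN δ) (fun N => ?_) ?_ fun n N h => coeff_PN hδ (by nlinarith)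
  · induction N with
    | zero => simpa [PN] using Rep.one
    | succ N ih =>
      simp only [PN, Finset.prod_range_succ]
      exact ih.mul (Rep.one.sub ((Rep.id'.pow δ).pow _))
  · have := multipliableLocallyUniformlyOn_one_sub_pow.hasProdLocallyUniformlyOn
      |>.tendstoLocallyUniformlyOn_finsetRange
    refine this.comp (fun q : ℂ => q ^ δ) (fun q hq => ?_) (by fun_prop)
    rw [mem_ball_zero_iff] at hq ⊢
    rw [norm_pow]
    exact pow_lt_one₀ (norm_nonneg _) hq hδ.ne'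

lemma eta_eq (δ : ℕ) (z : ℂ) : η (δ * z) = cexp (2 * π * I * z / 24) ^ δ * Pf δ (qq z) := by
  unfold ModularForm.eta Pf
  congr 1
  · simp only [Function.Periodic.qParam, ← Complex.exp_nat_mul]; congr 1; push_cast; ring
  · simp only [eta_q_eq_pow, ← qq_nat_mul δ]; rfl

lemma exp24 (z : ℂ) : cexp (2 * π * I * z / 24) ^ 24 = qq z := by
  rw [← Complex.exp_nat_mul, qq]; congr 1; push_cast; ring

lemma Pf_ne {δ : ℕ} (hδ : 0 < δ) {z : ℂ} (hz : 0 < z.im) : Pf δ (qq z) ≠ 0 := fun h =>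
  eta_ne (im_mul_pos hδ hz) (by rw [eta_eq, h, mul_zero])

/-- `ff = q * FF (q)`. -/
noncomputable def FF : ℤ⟦X⟧ := PP 1 * PP 3 * PP 5 * PP 15
noncomputable def Ff (q : ℂ) : ℂ := Pf 1 q * Pf 3 q * Pf 5 q * Pf 15 q

lemma rep_Ff : Rep Ff FF :=
  (((rep_Pf one_pos).mul (rep_Pf (by norm_num))).mul (rep_Pf (by norm_num))).mul
    (rep_Pf (by norm_num))

lemma four_q (z : ℂ) : η z = cexp (2 * π * I * z / 24) * Pf 1 (qq z) ∧
    η (3 * z) = cexp (2 * π * I * z / 24) ^ 3 * Pf 3 (qq z) ∧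
    η (5 * z) = cexp (2 * π * I * z / 24) ^ 5 * Pf 5 (qq z) ∧
    η (15 * z) = cexp (2 * π * I * z / 24) ^ 15 * Pf 15 (qq z) :=
  ⟨by simpa using eta_eq 1 z, eta_eq 3 z, eta_eq 5 z, eta_eq 15 z⟩

lemma ff_eq (z : ℂ) : ff z = qq z * Ff (qq z) := by
  obtain ⟨h1, h2, h3, h4⟩ := four_q z
  rw [ff, h1, h2, h3, h4, Ff]
  nth_rw 5 [← exp24]
  ring

/-- The Fourier coefficients of the newform. -/
noncomputable def an (n : ℕ) : ℤ := coeff n (X * FF)

theorem hasSum_ff {z : ℂ} (hz : 0 < z.im) : HasSum (fun n => (an n : ℂ) * qq z ^ n) (ff z) := by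
  rw [ff_eq]
  exact (Rep.id'.mul rep_Ff).hasSum (norm_qq_lt hz)

lemma PP_one : X ^ 7 ∣ PP 1 - (1 - X - X ^ 2 + X ^ 5) := by
  have := PP_dvd one_pos (k := 7) (N := 6) (by norm_num)
  rw [← sub_add_sub_cancel _ (PN 1 6)]
  refine dvd_add this ⟨2 - X ^ 2 - X ^ 3 - X ^ 4 - X ^ 5 + 2 * X ^ 7 + X ^ 9 - X ^ 12 - X ^ 13 + X ^ 14, ?_⟩
  simp only [PN, Finset.prod_range_succ]
  simp
  ring

lemma PP_three : X ^ 7 ∣ PP 3 - (1 - X ^ 3 - X ^ 6) := by
  have := PP_dvd (δ := 3) (by norm_num) (k := 7) (N := 2) (by norm_num)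
  rw [← sub_add_sub_cancel _ (PN 3 2)]
  refine dvd_add this ⟨X ^ 2, ?_⟩
  simp only [PN, Finset.prod_range_succ]
  simp
  ring

lemma PP_five : X ^ 7 ∣ PP 5 - (1 - X ^ 5) := by
  simpa [PN] using PP_dvd (δ := 5) (by norm_num) (k := 7) (N := 1) (by norm_num)

lemma PP_fifteen : X ^ 7 ∣ PP 15 - 1 := by
  simpa [PN] using PP_dvd (δ := 15) (by norm_num) (k := 7) (N := 0) (by norm_num)

end Pool.Agent.P.MP_8b7eba_nt.Mod
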