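import Pool.Agent.P.MP_8b7eba_nt.ModCurve

/-! The Eichler integral of the newform and its values at the cusps. -/

open Complex Filter Asymptotics Topology PowerSeries Metric Finset
open scoped Real Nat ComplexConjugate

namespace Pool.Agent.P.MP_8b7eba_nt.Mod

open M2

lemma convex_im_ge (T : ℝ) : Convex ℝ {z : ℂ | T ≤ z.im} := convex_halfSpace_im_ge T

lemma const_of_deriv {G : ℂ → ℂ} (h : ∀ z, 0 < z.im → HasDerivAt G 0 z) :
    ∃ c, ∀ z, 0 < z.im → G z = c :=
  ⟨G I, fun z hz => isOpen_UH.is_const_of_deriv_eq_zero (convex_halfSpace_im_gt 0).isPreconnected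
    (fun w hw => (h w hw).differentiableAt.differentiableWithinAt) (fun w hw => (h w hw).deriv) hz
    (show 0 < I.im by simp)⟩

theorem exists_lim {G : ℂ → ℂ} {t : ℝ} (ht : 0 < t) (hol : DifferentiableOn ℂ G UH)
    (h : deriv G =O[atI] ex t) : ∃ L, Tendsto G atI (𝓝 L) := by
  obtain ⟨C, hC0, hC⟩ := h.exists_pos
  obtain ⟨s, hs, hs'⟩ := mem_comap.1 (hC.bound.and (ev_im 0))
  obtain ⟨Y, hY⟩ := mem_atTop_sets.1 hs
  set r := Real.exp (-2 * π * t) with hr
  have hneg : -2 * π * t < 0 := by have := mul_pos Real.pi_pos ht; linarith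
  have hr1 : r < 1 := Real.exp_lt_one_iff.2 hneg
  have hr0 : 0 < r := Real.exp_pos _
  have mv : ∀ z : ℂ, Y ≤ z.im → ∀ u v : ℂ, z.im ≤ u.im → z.im ≤ v.im →
      ‖G u - G v‖ ≤ C * ex t z * ‖u - v‖ := fun z hz u v hu hv => by
    refine (convex_im_ge z.im).norm_image_sub_le_of_norm_deriv_le (fun w hw => ?_) (fun w hw => ?_)
      hv hu
    · exact hol.differentiableAt (UH_mem_nhds (hs' (hY _ (hz.trans hw))).2)
    · refine (hs' (hY _ (hz.trans hw))).1.trans (mul_le_mul_of_nonneg_left ?_ hC0.le)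
      rw [Real.norm_of_nonneg (ex_pos _ _).le]
      exact Real.exp_le_exp.2 (mul_le_mul_of_nonpos_left hw hneg.le)
  have hex : ∀ (z : ℂ) (n : ℕ), ex t (z + n * I) = ex t z * r ^ n := fun z n => by
    simp only [ex, hr, ← Real.exp_nat_mul, ← Real.exp_add]
    congr 1
    simp
    ring
  have him : ∀ (z : ℂ) (n : ℕ), (z + n * I).im = z.im + n := fun z n => by simp
  have step : ∀ z : ℂ, Y ≤ z.im → ∀ n : ℕ,
      dist (G (z + n * I)) (G (z + (n + 1 : ℕ) * I)) ≤ C * ex t z * r ^ n := fun z hz n => by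
    have := mv (z + n * I) (by rw [him]; linarith [n.cast_nonneg (α := ℝ)]) (z + n * I)
      (z + (n + 1 : ℕ) * I) le_rfl (by rw [him, him]; push_cast; linarith)
    rw [hex, show z + n * I - (z + (n + 1 : ℕ) * I) = -I by push_cast; ring] at this
    rw [dist_eq_norm]
    simpa [mul_assoc] using this
  have hY0 : Y ≤ ((Y : ℂ) * I).im := by simp
  obtain ⟨L, hL⟩ := cauchySeq_tendsto_of_complete (cauchySeq_of_le_geometric r _ hr1 (step _ hY0))
  refine ⟨L, tendsto_iff_dist_tendsto_zero.2 (squeeze_zero' (.of_forall fun _ => dist_nonneg) ?_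
    (by simpa using ((tendsto_ex ht).const_mul C).div_const (1 - r)))⟩
  filter_upwards [ev_im Y] with z hz
  have h1 : Tendsto (fun n : ℕ => G (z + n * I)) atTop (𝓝 L) := by
    refine hL.congr_dist (squeeze_zero (fun _ => dist_nonneg) (fun n => ?_)
      (by simpa using (tendsto_pow_atTop_nhds_zero_of_lt_one hr0.le hr1).const_mul
            (C * ex t (Y * I) * ‖Y * I - z‖)))
    have := mv (Y * I + n * I) (by rw [him]; linarith [n.cast_nonneg (α := ℝ)]) (Y * I + n * I)
      (z + n * I) le_rfl (by rw [him, him]; simp [hz.le])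
    rw [hex, add_sub_add_right_eq_sub] at this
    rw [dist_eq_norm]
    linarith
  simpa using dist_le_of_le_geometric_of_tendsto₀ r _ hr1 (step z hz.le) h1

lemma exists_Phi : ∃ Φ : ℂ → ℂ, Φ 0 = 0 ∧ ∀ q ∈ ball (0 : ℂ) 1, HasDerivAt Φ (Ff q) q :=
  rep_Ff.1.isExactOn_ball.with_val_at 0 0

/-- The Eichler integral `∑ (a n / n) q ^ n`. -/
noncomputable def FI (z : ℂ) : ℂ := exists_Phi.choose (qq z)

lemma hasDerivAt_FI {z : ℂ} (hz : 0 < z.im) : HasDerivAt FI (2 * π * I * ff z) z := by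
  have := (exists_Phi.choose_spec.2 _ (mem_ball_zero_iff.2 (norm_qq_lt hz))).comp z
    (hasDerivAt_qq z)
  refine this.congr_deriv ?_
  rw [ff_eq]; ring

lemma diff_FI : DifferentiableOn ℂ FI UH :=
  fun _ hz => (hasDerivAt_FI hz).differentiableAt.differentiableWithinAt

lemma tendsto_FI : Tendsto FI atI (𝓝 0) := by
  have := (exists_Phi.choose_spec.2 0 (mem_ball_self one_pos)).continuousAt.tendsto
  rw [exists_Phi.choose_spec.1] at this
  exact this.comp tendsto_qq

theorem hasSum_FI {z : ℂ} (hz : 0 < z.im) :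
    HasSum (fun n : ℕ => (an n : ℂ) / n * qq z ^ n) (FI z) := by
  obtain ⟨h0, h1⟩ := exists_Phi.choose_spec
  have hd : DifferentiableOn ℂ exists_Phi.choose (ball 0 1) :=
    fun q hq => (h1 q hq).differentiableAt.differentiableWithinAt
  refine (Complex.hasSum_taylorSeries_on_ball hd
    (mem_ball_zero_iff.2 (norm_qq_lt hz))).congr_fun fun n => ?_
  rcases n with _ | n
  · rw [iteratedDeriv_zero, h0]; simp
  · have e : deriv exists_Phi.choose =ᶠ[𝓝 0] Ff := by
      filter_upwards [ball_mem_nhds (0 : ℂ) one_pos] with q hq using (h1 q hq).deriv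
    have h2 : (n ! : ℂ) ≠ 0 := by exact_mod_cast n.factorial_ne_zero
    have h3 : ((n : ℂ) + 1) ≠ 0 := by exact_mod_cast n.succ_ne_zero
    rw [iteratedDeriv_succ', e.iteratedDeriv_eq, rep_Ff.2, an, coeff_succ_X_mul,
      Nat.factorial_succ]
    simp only [sub_zero, smul_eq_mul]
    push_cast
    field_simp

lemma FI_conj {z : ℂ} (hz : 0 < z.im) : FI (-conj z) = conj (FI z) := by
  refine (hasSum_FI (by simpa using hz)).unique (((hasSum_FI hz).star).congr_fun fun n => ?_)
  simp [qq, ← Complex.exp_conj, map_ofNat]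

theorem hecke_FI {p : ℕ} (hp : p.Prime) {z : ℂ} (hz : 0 < z.im) :
    ∑ j ∈ range p, FI ((z + j) / p) + (if p ∣ 15 then 0 else FI (p * z)) = an p * FI z := by
  have hp0 : (p : ℂ) ≠ 0 := by exact_mod_cast hp.ne_zero
  have h1 := hasSum_U hp.pos (fun z hz => hasSum_FI hz) hz
  have h2 := (hasSum_V hp.pos (fun z hz => hasSum_FI hz) hz).mul_left
    (if p ∣ 15 then 0 else (1 : ℂ))
  have h3 := h1.add h2
  rw [ite_mul, zero_mul, one_mul] at h3
  refine h3.unique (((hasSum_FI hz).mul_left _).congr_fun fun n => ?_)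
  have h4 := congrArg (Int.cast : ℤ → ℂ) (hecke hp n)
  push_cast at h4
  rw [← mul_assoc (an p : ℂ), ← mul_div_assoc (an p : ℂ), ← h4]
  by_cases h5 : p ∣ 15
  · simp only [h5, if_true, not_true, false_and, if_false]
    push_cast
    field_simp
    ring
  · by_cases h6 : p ∣ n
    · obtain ⟨k, rfl⟩ := h6
      simp [h5, Nat.mul_div_cancel_left _ hp.pos]
      field_simp
    · simp only [h5, h6, and_false, if_false]
      push_cast
      field_simp
      ring

lemma hasDerivAt_FI_act {g : M2} (hg : 0 < g.det) {z : ℂ} (hz : 0 < z.im) :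
    HasDerivAt (fun z => FI (g.act z)) (2 * π * I * sl ff g z) z := by
  refine ((hasDerivAt_FI (im_act_pos hg hz)).comp z (hasDerivAt_act hg.ne' hz)).congr_deriv ?_
  rw [sl]; ring

lemma exists_lim_FI {g : M2} (hg : 0 < g.det) :
    ∃ L, Tendsto (fun z => FI (g.act z)) atI (𝓝 L) := by
  obtain ⟨h, A, B, C, hh, hA, hC, -, -, rfl⟩ := exists_upper hg
  have hw : (0 : ℝ) < wd h := by exact_mod_cast wd_pos h
  obtain ⟨L, hL⟩ := exists_lim (t := 1 / wd h) (by positivity) (diff_act (g := h) (by omega) diff_FI)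
    (((sl_ff_theta hh).1.const_mul_left (2 * π * I)).congr' (by
      filter_upwards [ev_im 0] with z hz using (hasDerivAt_FI_act (by omega) hz).deriv.symm) .rfl)
  refine ⟨L, (hL.comp (tendsto_upper (B := B) hA hC)).congr' ?_⟩
  filter_upwards [ev_im 0] with z hz
  rw [act_mul (by omega) (by simp [det]; positivity) hz]
  rfl

/-- The modular symbol: `2 π` times the integral of `ff (r + i y)` over `y > 0`. -/
noncomputable def lam (r : ℚ) : ℂ := limUnder (𝓝[>] (0 : ℝ)) fun y => FI (r + y * I)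

/-- The modular symbol at the cusp `a / c`, with value `0` at infinity. -/
noncomputable def lv (a c : ℤ) : ℂ := if c = 0 then 0 else lam (a / c)

lemma tendsto_path {g : M2} (hg : 0 < g.det) (hc : g.c ≠ 0) {L : ℂ}
    (hL : Tendsto (fun z => FI (g.act z)) atI (𝓝 L)) :
    Tendsto (fun y : ℝ => FI (((g.a / g.c : ℚ) : ℂ) + y * I)) (𝓝[>] 0) (𝓝 L) := by
  have h1 : (0 : ℝ) < g.det / g.c ^ 2 := by positivity
  have h2 : Tendsto (fun y : ℝ => ((-g.d / g.c : ℝ) : ℂ) + ((g.det / g.c ^ 2 * y⁻¹ : ℝ) : ℂ) * I)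
      (𝓝[>] 0) atI := by
    rw [tendsto_comap_iff]
    refine (tendsto_inv_nhdsGT_zero.const_mul_atTop h1).congr fun y => ?_
    simp only [Function.comp, add_im, ofReal_im, mul_im, I_im, I_re, ofReal_re]
    ring
  refine (hL.comp h2).congr' ?_
  filter_upwards [self_mem_nhdsWithin] with y hy
  have hy' : (y : ℂ) ≠ 0 := by exact_mod_cast (ne_of_gt hy)
  have hc' : (g.c : ℂ) ≠ 0 := by exact_mod_cast hc
  have hd' : (g.det : ℂ) ≠ 0 := by exact_mod_cast hg.ne'
  have e : (g.det : ℂ) = g.a * g.d - g.b * g.c := by simp [det]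
  simp only [Function.comp]
  congr 1
  have hj : g.j (((-g.d / g.c : ℝ) : ℂ) + ((g.det / g.c ^ 2 * y⁻¹ : ℝ) : ℂ) * I) =
      g.det * I / (g.c * y) := by
    simp only [M2.j]; push_cast; field_simp; ring
  rw [act_eq, hj]
  push_cast
  field_simp
  linear_combination g.c * y * e - g.c * g.det * y * I_sq

theorem tendsto_lv {g : M2} (hg : 0 < g.det) :
    Tendsto (fun z => FI (g.act z)) atI (𝓝 (lv g.a g.c)) := by
  unfold lv
  split_ifs with hc
  · have h1 : 0 < g.a * g.d := by simpa [det, hc] using hg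
    rcases pos_and_pos_or_neg_and_neg_of_mul_pos h1 with h | h
    · rw [show g = ⟨g.a, g.b, 0, g.d⟩ by ext <;> simp [hc]]
      exact tendsto_FI.comp (tendsto_upper h.1 h.2)
    · rw [show g = -⟨-g.a, -g.b, 0, -g.d⟩ by ext <;> simp [hc]]
      simp only [act_neg]
      exact tendsto_FI.comp (tendsto_upper (by omega) (by omega))
  · obtain ⟨L, hL⟩ := exists_lim_FI hg
    rwa [lam, (tendsto_path hg hc hL).limUnder_eq]

theorem tendsto_lam (r : ℚ) : Tendsto (fun y : ℝ => FI (r + y * I)) (𝓝[>] 0) (𝓝 (lam r)) := by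
  have hg : 0 < (M2.mk r.num (-r.den) r.den r.num).det := by
    have := r.den_pos
    simp only [det]
    nlinarith [mul_self_nonneg r.num]
  have hc : ((r.den : ℕ) : ℤ) ≠ 0 := by exact_mod_cast r.den_ne_zero
  have := tendsto_path hg hc (tendsto_lv hg)
  simpa [lv, Rat.num_div_den] using this

lemma lv_of_ne (a : ℤ) {c : ℤ} (hc : c ≠ 0) : lv a c = lam (a / c) := if_neg hc
@[simp] lemma lv_zero (a : ℤ) : lv a 0 = 0 := if_pos rfl

lemma lv_mul {k : ℤ} (hk : k ≠ 0) (a c : ℤ) : lv (k * a) (k * c) = lv a c := by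
  have : (k : ℚ) ≠ 0 := by exact_mod_cast hk
  simp [lv, hk, mul_div_mul_left _ _ this]

lemma lv_neg_neg (a c : ℤ) : lv (-a) (-c) = lv a c := by simpa using lv_mul (k := -1) (by simp) a c

theorem lam_neg (r : ℚ) : lam (-r) = conj (lam r) := by
  refine tendsto_nhds_unique (tendsto_lam _) (((continuous_conj.tendsto _).comp
    (tendsto_lam r)).congr' ?_)
  filter_upwards [self_mem_nhdsWithin] with y hy
  rw [Function.comp, ← FI_conj (by simpa using hy)]
  simp [add_comm]

lemma lv_neg (a c : ℤ) : lv (-a) c = conj (lv a c) := by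
  unfold lv; split_ifs <;> simp [neg_div, lam_neg]

/-- Transformation of the Eichler integral under a matrix that has `ff` as eigenform. -/
theorem FI_act {w : M2} (hw : 0 < w.det) {ε : ℂ} (h : ∀ z, 0 < z.im → sl ff w z = ε * ff z)
    {z : ℂ} (hz : 0 < z.im) : FI (w.act z) = ε * FI z + lv w.a w.c := by
  obtain ⟨c, hc⟩ := const_of_deriv (G := fun z => FI (w.act z) - ε * FI z) fun z hz =>
    ((hasDerivAt_FI_act hw hz).sub ((hasDerivAt_FI hz).const_mul ε)).congr_deriv (by
      rw [h z hz]; ring)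
  have h1 := (tendsto_lv hw).sub (tendsto_FI.const_mul ε)
  have h2 : Tendsto (fun z => FI (w.act z) - ε * FI z) atI (𝓝 c) := tendsto_const_nhds.congr' (by
    filter_upwards [ev_im 0] with z hz using (hc z hz).symm)
  have := tendsto_nhds_unique h1 h2
  linear_combination hc z hz - this

theorem lv_act {w : M2} (hw : 0 < w.det) {ε : ℂ} (h : ∀ z, 0 < z.im → sl ff w z = ε * ff z)
    {a c : ℤ} (hac : a ≠ 0 ∨ c ≠ 0) :
    lv (w.a * a + w.b * c) (w.c * a + w.d * c) = ε * lv a c + lv w.a w.c := by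
  have hg : 0 < (M2.mk a (-c) c a).det := by
    simp only [det]
    rcases hac with h | h <;> nlinarith [mul_self_pos.2 h, mul_self_nonneg a, mul_self_nonneg c]
  refine tendsto_nhds_unique (tendsto_lv (g := w * ⟨a, -c, c, a⟩) (det_mul _ _ ▸ mul_pos hw hg))
    ((((tendsto_lv hg).const_mul ε).add_const _).congr' ?_)
  filter_upwards [ev_im 0] with z hz
  rw [act_mul hw.ne' hg hz, FI_act hw h (im_act_pos hg hz)]

theorem lv_G0 {γ : M2} (hγ : G0 γ) {a c : ℤ} (hac : a ≠ 0 ∨ c ≠ 0) :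
    lv (γ.a * a + γ.b * c) (γ.c * a + γ.d * c) = lv a c + lv γ.a γ.c := by
  simpa using lv_act hγ.det_pos (ε := 1) (fun z hz => by simpa using (ff_inv γ hγ).sl_eq hγ.1 hz) hac

lemma lv_add_mul (a c n : ℤ) : lv (a + n * c) c = lv a c := by
  by_cases hc : c = 0
  · simp [hc]
  · simpa [mT] using lv_G0 (G0_mT n) (a := a) (.inr hc)

theorem lam_add_int (r : ℚ) (n : ℤ) : lam (r + n) = lam r := by
  have hc : ((r.den : ℕ) : ℤ) ≠ 0 := by exact_mod_cast r.den_ne_zero
  have := lv_add_mul r.num r.den n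
  rw [lv_of_ne _ hc, lv_of_ne _ hc] at this
  simpa [add_div, Rat.num_div_den] using this

theorem hecke_lam {p : ℕ} (hp : p.Prime) (r : ℚ) :
    ∑ j ∈ range p, lam ((r + j) / p) + (if p ∣ 15 then 0 else lam (p * r)) = an p * lam r := by
  have hp0 : (0 : ℝ) < p := by exact_mod_cast hp.pos
  have hm : ∀ t : ℝ, 0 < t → Tendsto (fun y : ℝ => t * y) (𝓝[>] 0) (𝓝[>] 0) := fun t ht =>
    tendsto_nhdsWithin_iff.2 ⟨by
      simpa using (tendsto_id.mono_left (nhdsWithin_le_nhds (a := (0 : ℝ)))).const_mul t, by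
      filter_upwards [self_mem_nhdsWithin] with y hy using mul_pos ht hy⟩
  have h1 := tendsto_finsetSum (range p) fun j _ =>
    (tendsto_lam ((r + j) / p)).comp (hm p⁻¹ (by positivity))
  have h2 := ((tendsto_lam (p * r)).comp (hm p hp0)).const_mul (if p ∣ 15 then 0 else (1 : ℂ))
  have h3 := h1.add h2
  rw [ite_mul, zero_mul, one_mul] at h3
  refine tendsto_nhds_unique h3 (((tendsto_lam r).const_mul _).congr' ?_)
  filter_upwards [self_mem_nhdsWithin] with y hy
  rw [← hecke_FI hp (by simpa using hy), ite_mul, zero_mul, one_mul]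
  congr 1
  · refine sum_congr rfl fun j _ => ?_
    simp only [Function.comp]
    congr 1
    push_cast
    ring
  · simp only [Function.comp]
    congr 2
    push_cast
    ring

end Pool.Agent.P.MP_8b7eba_nt.Mod
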