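import Pool.Agent.P.MP_8b7eba_nt.ModSym

/-! Manin symbols of the newform of level 15. -/

open Complex Filter Asymptotics Topology Finset
open scoped Real ComplexConjugate

namespace Pool.Agent.P.MP_8b7eba_nt.Mod

open M2

/-- The Manin symbol of `g`: the period from `g ∞` to `g 0`. -/
noncomputable def msym (g : M2) : ℂ := lv g.b g.d - lv g.a g.c

lemma col_ne {g : M2} (hg : g.det ≠ 0) : (g.a ≠ 0 ∨ g.c ≠ 0) ∧ (g.b ≠ 0 ∨ g.d ≠ 0) := by
  constructor <;> by_contra h <;> push Not at h <;> simp [det, h.1, h.2] at hg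

lemma msym_G0 {γ g : M2} (hγ : G0 γ) (hg : g.det ≠ 0) : msym (γ * g) = msym g := by
  simp only [msym, mul_a, mul_b, mul_c, mul_d, lv_G0 hγ (col_ne hg).1, lv_G0 hγ (col_ne hg).2]
  ring

noncomputable def MS (i : ℕ) : ℂ := msym (reps.getD i 1)

lemma msym_eq {g : M2} (hg : g.det = 1) : msym g = MS (idx g.c g.d) := by
  have h := (rep_spec (prim_of_det hg)).1
  have := msym_G0 (G0_mul_adj_rep hg) (g := rep g.c g.d) (by omega)
  rwa [mul_assoc, adj_mul_self h, mul_one] at this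

def sS : List ℕ := [8, 6, 20, 21, 12, 16, 1, 9, 0, 7, 15, 18, 4, 22, 17, 10, 5, 14, 11, 23, 2, 3, 13, 19]
def sT : List ℕ := [0, 2, 3, 4, 5, 6, 7, 8, 9, 10, 11, 12, 13, 14, 15, 1, 18, 19, 17, 20, 16, 23, 21, 22]
def sL : List ℕ := [9, 16, 23, 13, 18, 2, 10, 0, 8, 1, 17, 5, 21, 19, 11, 7, 12, 22, 15, 3, 6, 20, 4, 14]
def sC : List ℕ := [0, 15, 14, 13, 12, 11, 10, 9, 8, 7, 6, 5, 4, 3, 2, 1, 18, 20, 16, 19, 17, 22, 21, 23]

lemma perm_spec : ∀ i < 24, (reps.getD i 1).det = 1 ∧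
    idx (reps.getD i 1).d (-(reps.getD i 1).c) = sS.getD i 0 ∧
    idx (reps.getD i 1).c ((reps.getD i 1).c + (reps.getD i 1).d) = sT.getD i 0 ∧
    idx ((reps.getD i 1).c + (reps.getD i 1).d) (reps.getD i 1).d = sL.getD i 0 ∧
    idx (-(reps.getD i 1).c) (reps.getD i 1).d = sC.getD i 0 := by decide +kernel

lemma MS_S (i : ℕ) (hi : i < 24) : MS (sS.getD i 0) = -MS i := by
  obtain ⟨h1, h2, -⟩ := perm_spec i hi
  rw [← h2, MS.eq_def i]
  generalize reps.getD i 1 = g at h1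
  rw [← msym_eq (g := ⟨g.b, -g.a, g.d, -g.c⟩) (by rw [← h1]; simp [det]; ring)]
  simp [msym, lv_neg_neg]

lemma MS_T (i : ℕ) (hi : i < 24) : MS i = MS (sT.getD i 0) + MS (sL.getD i 0) := by
  obtain ⟨h1, -, h2, h3, -⟩ := perm_spec i hi
  rw [← h2, ← h3, MS.eq_def i]
  generalize reps.getD i 1 = g at h1
  rw [← msym_eq (g := ⟨g.a, g.a + g.b, g.c, g.c + g.d⟩) (by rw [← h1]; simp [det]; ring),
    ← msym_eq (g := ⟨g.a + g.b, g.b, g.c + g.d, g.d⟩) (by rw [← h1]; simp [det]; ring)]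
  simp [msym]

lemma MS_C (i : ℕ) (hi : i < 24) : MS (sC.getD i 0) = conj (MS i) := by
  obtain ⟨h1, -, -, -, h2⟩ := perm_spec i hi
  rw [← h2, MS.eq_def i]
  generalize reps.getD i 1 = g at h1
  rw [← msym_eq (g := ⟨g.a, -g.b, -g.c, g.d⟩) (by rw [← h1]; simp [det])]
  simp only [msym, map_sub, ← lv_neg]
  rw [← lv_neg_neg g.a, neg_neg]

lemma hecke_two (r : ℚ) : lam (r / 2) + lam ((r + 1) / 2) + lam (2 * r) = -lam r := by
  have := hecke_lam Nat.prime_two r
  simpa [sum_range_succ, an_small.2.2.1] using this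

lemma MS_one (d : ℤ) (hd : d ≠ 0) : lam (-1 / d) = MS (idx 1 d) + lam 0 := by
  rw [← msym_eq (g := ⟨0, -1, 1, d⟩) (by simp [det])]
  simp [msym, lv, hd]

lemma MS_zero : MS 0 = lam 0 := by simp [MS, reps, msym, lv]

lemma MS_hecke : MS 6 + 4 * MS 0 = 0 ∧ MS 2 + 2 * MS 11 + MS 5 + 4 * MS 0 = 0 ∧
    MS 13 + MS 10 - MS 22 + MS 5 - MS 23 + MS 3 + 4 * MS 0 = 0 := by
  have h2 : lam (-1 / (-2 : ℤ)) = MS 6 + lam 0 := MS_one (-2) (by norm_num)
  have h2' : lam (-1 / (2 : ℤ)) = MS 10 + lam 0 := MS_one 2 (by norm_num)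
  have h3 : lam (-1 / (-3 : ℤ)) = MS 5 + lam 0 := MS_one (-3) (by norm_num)
  have h3' : lam (-1 / (3 : ℤ)) = MS 11 + lam 0 := MS_one 3 (by norm_num)
  have h5 : lam (-1 / (-5 : ℤ)) = MS 3 + lam 0 := MS_one (-5) (by norm_num)
  have h6 : lam (-1 / (-6 : ℤ)) = MS 2 + lam 0 := MS_one (-6) (by norm_num)
  have h10 : lam (-1 / (-10 : ℤ)) = MS 13 + lam 0 := MS_one (-10) (by norm_num)
  have h22 : MS 22 = lam (-1 / 2) - lam (-2 / 5) := by simp [MS, reps, msym, lv]
  have h23 : MS 23 = lam (1 / 3) - lam (2 / 5) := by simp [MS, reps, msym, lv]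
  have e1 := lam_add_int (-1 / 3) 1
  have e2 := lam_add_int (-2 / 5) 1
  have a0 := hecke_two 0
  have a3 := hecke_two (1 / 3)
  have a5 := hecke_two (1 / 5)
  norm_num at h2 h2' h3 h3' h5 h6 h10 h22 h23 e1 e2 a0 a3 a5
  rw [MS_zero]
  refine ⟨?_, ?_, ?_⟩
  · linear_combination a0 - h2
  · linear_combination a3 - h6 - h3 - 2 * h3' - 2 * e1
  · linear_combination a5 - h10 - h5 - h2' - h3 - h22 - h23 - e2

def tpL : List ℤ := [1, 4, 2, 1, 0, -2, -4, 0, -1, 0, -4, -2, 0, 1, 2, 4, 2, -2, 2, -1, -2, -1, -1, 1]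
def tmL : List ℤ := [0, 0, 1, 1, 2, 1, 0, 0, 0, 0, 0, -1, -2, -1, -1, 0, -1, 1, 1, 0, -1, -1, 1, 0]

lemma solve_re {M : ℕ → ℝ} (hS : ∀ i < 24, M (sS.getD i 0) = -M i)
    (hT : ∀ i < 24, M i = M (sT.getD i 0) + M (sL.getD i 0))
    (hC : ∀ i < 24, M (sC.getD i 0) = M i)
    (h1 : M 6 + 4 * M 0 = 0) (h2 : M 2 + 2 * M 11 + M 5 + 4 * M 0 = 0)
    (h3 : M 13 + M 10 - M 22 + M 5 - M 23 + M 3 + 4 * M 0 = 0) (i : ℕ) (hi : i < 24) :
    M i = tpL.getD i 0 * M 0 := by
  have s0 : M 8 = -M 0 := hS 0 (by norm_num)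
  have s1 : M 6 = -M 1 := hS 1 (by norm_num)
  have s2 : M 20 = -M 2 := hS 2 (by norm_num)
  have s3 : M 21 = -M 3 := hS 3 (by norm_num)
  have s4 : M 12 = -M 4 := hS 4 (by norm_num)
  have s5 : M 16 = -M 5 := hS 5 (by norm_num)
  have s7 : M 9 = -M 7 := hS 7 (by norm_num)
  have s10 : M 15 = -M 10 := hS 10 (by norm_num)
  have s11 : M 18 = -M 11 := hS 11 (by norm_num)
  have s13 : M 22 = -M 13 := hS 13 (by norm_num)
  have s14 : M 17 = -M 14 := hS 14 (by norm_num)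
  have s19 : M 23 = -M 19 := hS 19 (by norm_num)
  have c1 : M 15 = M 1 := hC 1 (by norm_num)
  have c2 : M 14 = M 2 := hC 2 (by norm_num)
  have c3 : M 13 = M 3 := hC 3 (by norm_num)
  have c4 : M 12 = M 4 := hC 4 (by norm_num)
  have c5 : M 11 = M 5 := hC 5 (by norm_num)
  have c7 : M 9 = M 7 := hC 7 (by norm_num)
  have t1 : M 1 = M 2 + M 16 := hT 1 (by norm_num)
  have t2 : M 2 = M 3 + M 23 := hT 2 (by norm_num)
  clear hS hT hC
  interval_cases i <;> simp only [tpL, List.getD_cons_succ, List.getD_cons_zero] <;> push_cast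
  · ring
  · linear_combination (-1) * h1 + (1) * s1
  · linear_combination (1/4) * h2 + (-1/2) * c5 + (-3/4) * t1 + (-3/4) * s5 + (-3/4) * h1 + (3/4) * s1
  · linear_combination (1/4) * h3 + (1/4) * s13 + (1/4) * c1 + (-1/4) * s10 + (-1/2) * c3 + (-1/4) * t1 + (-1/4) * s5 + (-1/4) * t2 + (-1/2) * h1 + (1/2) * s1
  · linear_combination (-1/2) * c4 + (1/2) * s4
  · linear_combination (1/4) * t1 + (1/4) * s5 + (1/4) * h1 + (-1/4) * s1 + (1/4) * h2 + (-1/2) * c5
  · linear_combination (1) * h1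
  · linear_combination (-1/2) * c7 + (1/2) * s7
  · linear_combination (1) * s0
  · linear_combination (1/2) * s7 + (1/2) * c7
  · linear_combination (-1) * c1 + (1) * s10 + (1) * h1 + (-1) * s1
  · linear_combination (1/2) * c5 + (1/4) * t1 + (1/4) * s5 + (1/4) * h1 + (-1/4) * s1 + (1/4) * h2
  · linear_combination (1/2) * s4 + (1/2) * c4
  · linear_combination (1/2) * c3 + (1/4) * h3 + (1/4) * s13 + (1/4) * c1 + (-1/4) * s10 + (-1/4) * t1 + (-1/4) * s5 + (-1/4) * t2 + (-1/2) * h1 + (1/2) * s1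
  · linear_combination (1) * c2 + (1/4) * h2 + (-1/2) * c5 + (-3/4) * t1 + (-3/4) * s5 + (-3/4) * h1 + (3/4) * s1
  · linear_combination (1) * c1 + (-1) * h1 + (1) * s1
  · linear_combination (3/4) * s5 + (-1/4) * t1 + (-1/4) * h1 + (1/4) * s1 + (-1/4) * h2 + (1/2) * c5
  · linear_combination (1) * s14 + (-1) * c2 + (-1/4) * h2 + (1/2) * c5 + (3/4) * t1 + (3/4) * s5 + (3/4) * h1 + (-3/4) * s1
  · linear_combination (1) * s11 + (-1/2) * c5 + (-1/4) * t1 + (-1/4) * s5 + (-1/4) * h1 + (1/4) * s1 + (-1/4) * h2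
  · linear_combination (3/4) * t2 + (1) * s19 + (-1/4) * h2 + (1/2) * c5 + (1/2) * t1 + (1/2) * s5 + (1/4) * h1 + (-1/4) * s1 + (1/4) * h3 + (1/4) * s13 + (1/4) * c1 + (-1/4) * s10 + (-1/2) * c3
  · linear_combination (1) * s2 + (-1/4) * h2 + (1/2) * c5 + (3/4) * t1 + (3/4) * s5 + (3/4) * h1 + (-3/4) * s1
  · linear_combination (1) * s3 + (-1/4) * h3 + (-1/4) * s13 + (-1/4) * c1 + (1/4) * s10 + (1/2) * c3 + (1/4) * t1 + (1/4) * s5 + (1/4) * t2 + (1/2) * h1 + (-1/2) * s1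
  · linear_combination (3/4) * s13 + (-1/2) * c3 + (-1/4) * h3 + (-1/4) * c1 + (1/4) * s10 + (1/4) * t1 + (1/4) * s5 + (1/4) * t2 + (1/2) * h1 + (-1/2) * s1
  · linear_combination (-3/4) * t2 + (1/4) * h2 + (-1/2) * c5 + (-1/2) * t1 + (-1/2) * s5 + (-1/4) * h1 + (1/4) * s1 + (-1/4) * h3 + (-1/4) * s13 + (-1/4) * c1 + (1/4) * s10 + (1/2) * c3

lemma solve_im {M : ℕ → ℝ} (hS : ∀ i < 24, M (sS.getD i 0) = -M i)
    (hT : ∀ i < 24, M i = M (sT.getD i 0) + M (sL.getD i 0))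
    (hC : ∀ i < 24, M (sC.getD i 0) = -M i) (i : ℕ) (hi : i < 24) :
    M i = tmL.getD i 0 * M 5 := by
  have s0 : M 8 = -M 0 := hS 0 (by norm_num)
  have s1 : M 6 = -M 1 := hS 1 (by norm_num)
  have s2 : M 20 = -M 2 := hS 2 (by norm_num)
  have s3 : M 21 = -M 3 := hS 3 (by norm_num)
  have s4 : M 12 = -M 4 := hS 4 (by norm_num)
  have s5 : M 16 = -M 5 := hS 5 (by norm_num)
  have s7 : M 9 = -M 7 := hS 7 (by norm_num)
  have s10 : M 15 = -M 10 := hS 10 (by norm_num)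
  have s11 : M 18 = -M 11 := hS 11 (by norm_num)
  have s13 : M 22 = -M 13 := hS 13 (by norm_num)
  have s14 : M 17 = -M 14 := hS 14 (by norm_num)
  have s19 : M 23 = -M 19 := hS 19 (by norm_num)
  have c0 : M 0 = -M 0 := hC 0 (by norm_num)
  have c1 : M 15 = -M 1 := hC 1 (by norm_num)
  have c2 : M 14 = -M 2 := hC 2 (by norm_num)
  have c3 : M 13 = -M 3 := hC 3 (by norm_num)
  have c5 : M 11 = -M 5 := hC 5 (by norm_num)
  have c19 : M 19 = -M 19 := hC 19 (by norm_num)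
  have t0 : M 0 = M 0 + M 9 := hT 0 (by norm_num)
  have t1 : M 1 = M 2 + M 16 := hT 1 (by norm_num)
  have t2 : M 2 = M 3 + M 23 := hT 2 (by norm_num)
  have t3 : M 3 = M 4 + M 13 := hT 3 (by norm_num)
  have t4 : M 4 = M 5 + M 18 := hT 4 (by norm_num)
  clear hS hT hC
  interval_cases i <;> simp only [tmL, List.getD_cons_succ, List.getD_cons_zero] <;> push_cast
  · linear_combination (1/2) * c0
  · linear_combination (1/2) * t4 + (1/2) * s11 + (-1/2) * c5 + (1) * t1 + (1) * s5 + (1/2) * t3 + (1/2) * c3 + (1) * t2 + (1) * s19 + (-1/2) * c19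
  · linear_combination (1/2) * t4 + (1/2) * s11 + (-1/2) * c5 + (1/2) * t3 + (1/2) * c3 + (1) * t2 + (1) * s19 + (-1/2) * c19
  · linear_combination (1/2) * t4 + (1/2) * s11 + (-1/2) * c5 + (1/2) * t3 + (1/2) * c3
  · linear_combination (1) * t4 + (1) * s11 + (-1) * c5
  · ring
  · linear_combination (1) * s1 + (-1/2) * t4 + (-1/2) * s11 + (1/2) * c5 + (-1) * t1 + (-1) * s5 + (-1/2) * t3 + (-1/2) * c3 + (-1) * t2 + (-1) * s19 + (1/2) * c19
  · linear_combination (1) * t0 + (1) * s7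
  · linear_combination (1) * s0 + (-1/2) * c0
  · linear_combination (-1) * t0
  · linear_combination (-1) * c1 + (1) * s10 + (1/2) * t4 + (1/2) * s11 + (-1/2) * c5 + (1) * t1 + (1) * s5 + (1/2) * t3 + (1/2) * c3 + (1) * t2 + (1) * s19 + (-1/2) * c19
  · linear_combination (1) * c5
  · linear_combination (1) * s4 + (-1) * t4 + (-1) * s11 + (1) * c5
  · linear_combination (1/2) * c3 + (-1/2) * t4 + (-1/2) * s11 + (1/2) * c5 + (-1/2) * t3
  · linear_combination (1) * c2 + (-1/2) * t4 + (-1/2) * s11 + (1/2) * c5 + (-1/2) * t3 + (-1/2) * c3 + (-1) * t2 + (-1) * s19 + (1/2) * c19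
  · linear_combination (1) * c1 + (-1/2) * t4 + (-1/2) * s11 + (1/2) * c5 + (-1) * t1 + (-1) * s5 + (-1/2) * t3 + (-1/2) * c3 + (-1) * t2 + (-1) * s19 + (1/2) * c19
  · linear_combination (1) * s5
  · linear_combination (1) * s14 + (-1) * c2 + (1/2) * t4 + (1/2) * s11 + (-1/2) * c5 + (1/2) * t3 + (1/2) * c3 + (1) * t2 + (1) * s19 + (-1/2) * c19
  · linear_combination (1) * s11 + (-1) * c5
  · linear_combination (1/2) * c19
  · linear_combination (1) * s2 + (-1/2) * t4 + (-1/2) * s11 + (1/2) * c5 + (-1/2) * t3 + (-1/2) * c3 + (-1) * t2 + (-1) * s19 + (1/2) * c19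
  · linear_combination (1) * s3 + (-1/2) * t4 + (-1/2) * s11 + (1/2) * c5 + (-1/2) * t3 + (-1/2) * c3
  · linear_combination (1) * s13 + (-1/2) * c3 + (1/2) * t4 + (1/2) * s11 + (-1/2) * c5 + (1/2) * t3
  · linear_combination (1) * s19 + (-1/2) * c19

/-- The real period unit, equal to the central value `L(f, 1)`. -/
noncomputable def L0 : ℝ := (lam 0).re
/-- The imaginary period unit. -/
noncomputable def om : ℝ := (lam (1 / 3)).im

lemma lam_zero : lam 0 = L0 := by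
  have := lam_neg 0
  rw [neg_zero] at this
  exact (Complex.conj_eq_iff_re.1 this.symm).symm

/-- Real part of the Manin symbol `(c : d)` in units of `L0`. -/
def tp (c d : ℤ) : ℤ := tpL.getD (idx c d) 0
/-- Imaginary part of the Manin symbol `(c : d)` in units of `om`. -/
def tm (c d : ℤ) : ℤ := tmL.getD (idx c d) 0

theorem msym_table {g : M2} (hg : g.det = 1) :
    msym g = tp g.c g.d * L0 + tm g.c g.d * om * I := by
  have hi := (rep_spec (prim_of_det hg)).2.1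
  obtain ⟨h1, h2, h3⟩ := MS_hecke
  have h5 : (MS 5).im = om := by
    have : lam (-1 / (-3 : ℤ)) = MS 5 + lam 0 := MS_one (-3) (by norm_num)
    have := congrArg im this
    norm_num [lam_zero] at this
    rw [← this, om, one_div]
  have e1 := solve_re (M := fun i => (MS i).re) (fun i hi => by simp only [MS_S i hi, neg_re])
    (fun i hi => by rw [MS_T i hi, add_re]) (fun i hi => by simp only [MS_C i hi, conj_re])
    (by simpa using congrArg re h1) (by simpa using congrArg re h2) (by simpa using congrArg re h3)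
    _ hi
  have e2 := solve_im (M := fun i => (MS i).im) (fun i hi => by simp only [MS_S i hi, neg_im])
    (fun i hi => by rw [MS_T i hi, add_im]) (fun i hi => by simp only [MS_C i hi, conj_im]) _ hi
  rw [msym_eq hg]
  apply Complex.ext
  · simpa [tp, MS_zero, L0] using e1
  · simpa [tm, h5] using e2

/-- Evaluation of a modular symbol by continued fractions. -/
def nv (t : ℤ → ℤ → ℤ) : ℕ → ℤ → ℤ → ℤ → ℤ → ℤ
  | 0, _, _, _, _ => 0
  | k + 1, c, d, x, y =>
    if y = 0 then 0 else t c (d + x / y * c) + nv t k (d + x / y * c) (-c) y (-(x % y))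

lemma lv_nv (k : ℕ) : ∀ (g : M2) (x y : ℤ), g.det = 1 → (x ≠ 0 ∨ y ≠ 0) → y.natAbs < k →
    lv (g.a * x + g.b * y) (g.c * x + g.d * y) = lv g.a g.c +
      (nv tp k g.c g.d x y * L0 + nv tm k g.c g.d x y * om * I) := by
  induction k with
  | zero => intro _ _ _ _ _ h; omega
  | succ k ih =>
    intro g x y hg hxy hk
    unfold nv
    split_ifs with hy
    · subst hy
      have hx : x ≠ 0 := by simpa using hxy
      simp [mul_comm _ x, lv_mul hx]
    · have h1 := Int.emod_nonneg x hy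
      have h2 := Int.emod_lt x hy
      have h3 := Int.emod_add_mul_ediv x y
      have := ih ⟨g.b + x / y * g.a, -g.a, g.d + x / y * g.c, -g.c⟩ y (-(x % y))
        (by rw [← hg]; simp [det]; ring) (.inl hy) (by omega)
      have h4 := msym_table (g := ⟨g.a, g.b + x / y * g.a, g.c, g.d + x / y * g.c⟩)
        (by rw [← hg]; simp [det]; ring)
      simp only [msym] at this h4
      rw [show g.a * x + g.b * y = (g.b + x / y * g.a) * y + -g.a * -(x % y) by
          linear_combination -g.a * h3,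
        show g.c * x + g.d * y = (g.d + x / y * g.c) * y + -g.c * -(x % y) by
          linear_combination -g.c * h3, this]
      push_cast
      linear_combination h4

/-- Real part of the modular symbol at `a / c` in units of `L0`. -/
def nP (a c : ℤ) : ℤ := nv tp (c.natAbs + 1) 0 1 a c
/-- Imaginary part of the modular symbol at `a / c` in units of `om`. -/
def nM (a c : ℤ) : ℤ := nv tm (c.natAbs + 1) 0 1 a c

theorem lv_eq (a c : ℤ) : lv a c = nP a c * L0 + nM a c * om * I := by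
  by_cases hc : c = 0
  · simp [hc, nP, nM, nv]
  · simpa [nP, nM] using lv_nv (c.natAbs + 1) 1 a c rfl (.inr hc) (by omega)

theorem lam_eq (r : ℚ) : lam r = nP r.num r.den * L0 + nM r.num r.den * om * I := by
  rw [← lv_eq, lv_of_ne _ (by exact_mod_cast r.den_ne_zero)]
  simp [Rat.num_div_den]

lemma not_exp_lv {κ : ℂ} (hκ : κ ≠ 0) : ¬ ∀ a c, cexp (κ * lv a c) = 1 := by
  intro h
  obtain ⟨c, hc⟩ := const_of_weight_zero (h := fun z => cexp (κ * FI z))
    (diff_FI.const_mul κ).cexp (fun γ hγ z hz => by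
      rw [FI_act hγ.det_pos (ε := 1) (fun z hz => by simpa using (ff_inv γ hγ).sl_eq hγ.1 hz) hz,
        mul_add, Complex.exp_add, h, one_mul, mul_one])
    fun γ hγ => ((tendsto_lv (g := γ) (by omega)).const_mul κ).cexp.isBigO_one ℝ
  have hI : 0 < I.im := by simp
  have h1 := ((hasDerivAt_FI hI).const_mul κ).cexp
  have h2 : HasDerivAt (fun z => cexp (κ * FI z)) 0 I :=
    (hasDerivAt_const I c).congr_of_eventuallyEq (by
      filter_upwards [UH_mem_nhds hI] with z hz using hc z hz)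
  exact mul_ne_zero (Complex.exp_ne_zero _) (mul_ne_zero hκ (mul_ne_zero two_pi_I_ne (ff_ne hI)))
    (h1.unique h2)

lemma not_line (w : ℂ) : ¬ ∀ a c, ∃ n : ℤ, lv a c = n * w := by
  intro h
  by_cases hw : w = 0
  · refine not_exp_lv one_ne_zero fun a c => ?_
    obtain ⟨n, hn⟩ := h a c
    simp [hn, hw]
  · refine not_exp_lv (div_ne_zero two_pi_I_ne hw) fun a c => ?_
    obtain ⟨n, hn⟩ := h a c
    rw [hn, ← Complex.exp_int_mul_two_pi_mul_I n]
    congr 1
    field_simp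

theorem L0_ne : L0 ≠ 0 := fun h =>
  not_line (om * I) fun a c => ⟨nM a c, by rw [lv_eq, h]; simp [mul_assoc]⟩

theorem om_ne : om ≠ 0 := fun h =>
  not_line L0 fun a c => ⟨nP a c, by rw [lv_eq, h]; simp⟩

/-- Comparison of coefficients. -/
lemma coeff_eq {a b c d : ℤ} (h : (a : ℂ) * L0 + b * om * I = c * L0 + d * om * I) :
    a = c ∧ b = d := by
  have h1 := congrArg re h
  have h2 := congrArg im h
  simp [L0_ne, om_ne] at h1 h2
  exact ⟨h1, h2⟩

end Pool.Agent.P.MP_8b7eba_nt.Mod
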